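import Pool.Agent.Lib.MP_4a593f_gt.E83.Defs

/-!
Curvature estimates for complex decomposable 2-vectors, curvature in `[0, 1]`.
-/

namespace Pool.Hopf3

open Finset

section multilin

variable {n : ℕ} (R : Fin n → Fin n → Fin n → Fin n → ℝ)

theorem c4_add1 (x y v w z : Fin n → ℝ) : ev4 R (x + y) v w z = ev4 R x v w z + ev4 R y v w z := by
  simp only [ev4, Pi.add_apply, mul_add, add_mul, Finset.sum_add_distrib]

theorem c4_add2 (x y v w z : Fin n → ℝ) : ev4 R v (x + y) w z = ev4 R v x w z + ev4 R v y w z := by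
  simp only [ev4, Pi.add_apply, mul_add, add_mul, Finset.sum_add_distrib]

theorem c4_add3 (x y v w z : Fin n → ℝ) : ev4 R v w (x + y) z = ev4 R v w x z + ev4 R v w y z := by
  simp only [ev4, Pi.add_apply, mul_add, add_mul, Finset.sum_add_distrib]

theorem c4_add4 (x y v w z : Fin n → ℝ) : ev4 R v w z (x + y) = ev4 R v w z x + ev4 R v w z y := by
  simp only [ev4, Pi.add_apply, mul_add, add_mul, Finset.sum_add_distrib]

theorem c4_smul1 (t : ℝ) (x v w z : Fin n → ℝ) : ev4 R (t • x) v w z = t * ev4 R x v w z := by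
  simp only [ev4, Pi.smul_apply, smul_eq_mul, Finset.mul_sum]
  refine Finset.sum_congr rfl fun i _ => Finset.sum_congr rfl fun j _ =>
    Finset.sum_congr rfl fun k _ => Finset.sum_congr rfl fun l _ => by ring

theorem c4_smul2 (t : ℝ) (x v w z : Fin n → ℝ) : ev4 R v (t • x) w z = t * ev4 R v x w z := by
  simp only [ev4, Pi.smul_apply, smul_eq_mul, Finset.mul_sum]
  refine Finset.sum_congr rfl fun i _ => Finset.sum_congr rfl fun j _ =>
    Finset.sum_congr rfl fun k _ => Finset.sum_congr rfl fun l _ => by ring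

theorem c4_smul3 (t : ℝ) (x v w z : Fin n → ℝ) : ev4 R v w (t • x) z = t * ev4 R v w x z := by
  simp only [ev4, Pi.smul_apply, smul_eq_mul, Finset.mul_sum]
  refine Finset.sum_congr rfl fun i _ => Finset.sum_congr rfl fun j _ =>
    Finset.sum_congr rfl fun k _ => Finset.sum_congr rfl fun l _ => by ring

theorem c4_smul4 (t : ℝ) (x v w z : Fin n → ℝ) : ev4 R v w z (t • x) = t * ev4 R v w z x := by
  simp only [ev4, Pi.smul_apply, smul_eq_mul, Finset.mul_sum]
  refine Finset.sum_congr rfl fun i _ => Finset.sum_congr rfl fun j _ =>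
    Finset.sum_congr rfl fun k _ => Finset.sum_congr rfl fun l _ => by ring

theorem c4_dotp_add_left (x y v : Fin n → ℝ) : dotp (x + y) v = dotp x v + dotp y v := by
  simp only [dotp, Pi.add_apply, add_mul, Finset.sum_add_distrib]

theorem c4_dotp_add_right (x y v : Fin n → ℝ) : dotp v (x + y) = dotp v x + dotp v y := by
  simp only [dotp, Pi.add_apply, mul_add, Finset.sum_add_distrib]

theorem c4_dotp_smul_left (t : ℝ) (x v : Fin n → ℝ) : dotp (t • x) v = t * dotp x v := by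
  simp only [dotp, Pi.smul_apply, smul_eq_mul, Finset.mul_sum]
  exact Finset.sum_congr rfl fun i _ => by ring

theorem c4_dotp_smul_right (t : ℝ) (x v : Fin n → ℝ) : dotp v (t • x) = t * dotp v x := by
  simp only [dotp, Pi.smul_apply, smul_eq_mul, Finset.mul_sum]
  exact Finset.sum_congr rfl fun i _ => by ring

end multilin

section symm

variable {n : ℕ} {R : Fin n → Fin n → Fin n → Fin n → ℝ}

theorem c4_skew12 (hR : IsCurvature R) (u v w z : Fin n → ℝ) :
    ev4 R v u w z = - ev4 R u v w z := by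
  unfold ev4
  rw [Finset.sum_comm, ← Finset.sum_neg_distrib]
  refine Finset.sum_congr rfl fun a _ => ?_
  rw [← Finset.sum_neg_distrib]
  refine Finset.sum_congr rfl fun b _ => ?_
  rw [← Finset.sum_neg_distrib]
  refine Finset.sum_congr rfl fun c _ => ?_
  rw [← Finset.sum_neg_distrib]
  refine Finset.sum_congr rfl fun d _ => ?_
  rw [hR.skew12 a b c d]; ring

theorem c4_skew34 (hR : IsCurvature R) (u v w z : Fin n → ℝ) :
    ev4 R u v z w = - ev4 R u v w z := by
  unfold ev4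
  rw [← Finset.sum_neg_distrib]
  refine Finset.sum_congr rfl fun a _ => ?_
  rw [← Finset.sum_neg_distrib]
  refine Finset.sum_congr rfl fun b _ => ?_
  rw [Finset.sum_comm, ← Finset.sum_neg_distrib]
  refine Finset.sum_congr rfl fun c _ => ?_
  rw [← Finset.sum_neg_distrib]
  refine Finset.sum_congr rfl fun d _ => ?_
  rw [hR.skew34 a b c d]; ring

theorem c4_pair (hR : IsCurvature R) (u v w z : Fin n → ℝ) :
    ev4 R w z u v = ev4 R u v w z := by
  have e : ev4 R w z u v = ∑ a, ∑ b, ∑ c, ∑ d, R c d a b * u a * v b * w c * z d := by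
    unfold ev4
    have e1 : ∀ c d : Fin n, (∑ a, ∑ b, R c d a b * w c * z d * u a * v b)
        = ∑ a, ∑ b, R c d a b * u a * v b * w c * z d := fun c d =>
      Finset.sum_congr rfl fun a _ => Finset.sum_congr rfl fun b _ => by ring
    simp only [e1]
    calc ∑ c, ∑ d, ∑ a, ∑ b, R c d a b * u a * v b * w c * z d
        = ∑ c, ∑ a, ∑ d, ∑ b, R c d a b * u a * v b * w c * z d :=
          Finset.sum_congr rfl fun c _ => Finset.sum_comm
      _ = ∑ a, ∑ c, ∑ d, ∑ b, R c d a b * u a * v b * w c * z d := Finset.sum_comm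
      _ = ∑ a, ∑ c, ∑ b, ∑ d, R c d a b * u a * v b * w c * z d :=
          Finset.sum_congr rfl fun a _ => Finset.sum_congr rfl fun c _ => Finset.sum_comm
      _ = ∑ a, ∑ b, ∑ c, ∑ d, R c d a b * u a * v b * w c * z d :=
          Finset.sum_congr rfl fun a _ => Finset.sum_comm
  rw [e]
  unfold ev4
  refine Finset.sum_congr rfl fun a _ => Finset.sum_congr rfl fun b _ =>
    Finset.sum_congr rfl fun c _ => Finset.sum_congr rfl fun d _ => ?_
  rw [hR.pair a b c d]

theorem c4_bianchi (hR : IsCurvature R) (u v w z : Fin n → ℝ) :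
    ev4 R u v w z + ev4 R v w u z + ev4 R w u v z = 0 := by
  have e2 : ev4 R v w u z = ∑ a, ∑ b, ∑ c, ∑ d, R b c a d * u a * v b * w c * z d := by
    unfold ev4
    rw [Finset.sum_congr rfl fun b _ => Finset.sum_comm]
    rw [Finset.sum_comm]
    refine Finset.sum_congr rfl fun a _ => Finset.sum_congr rfl fun b _ =>
      Finset.sum_congr rfl fun c _ => Finset.sum_congr rfl fun d _ => by ring
  have e3 : ev4 R w u v z = ∑ a, ∑ b, ∑ c, ∑ d, R c a b d * u a * v b * w c * z d := by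
    unfold ev4
    rw [Finset.sum_comm]
    refine Finset.sum_congr rfl fun a _ => ?_
    rw [Finset.sum_comm]
    refine Finset.sum_congr rfl fun b _ =>
      Finset.sum_congr rfl fun c _ => Finset.sum_congr rfl fun d _ => by ring
  rw [e2, e3]
  unfold ev4
  rw [← Finset.sum_add_distrib, ← Finset.sum_add_distrib]
  refine Finset.sum_eq_zero fun a _ => ?_
  rw [← Finset.sum_add_distrib, ← Finset.sum_add_distrib]
  refine Finset.sum_eq_zero fun b _ => ?_
  rw [← Finset.sum_add_distrib, ← Finset.sum_add_distrib]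
  refine Finset.sum_eq_zero fun c _ => ?_
  rw [← Finset.sum_add_distrib, ← Finset.sum_add_distrib]
  refine Finset.sum_eq_zero fun d _ => ?_
  have := hR.bianchi a b c d
  linear_combination (u a * v b * w c * z d) * this

end symm

/-- the four-plane inequality for orthonormal vectors, curvature in `[0, 1]` -/
private theorem four {n : ℕ} {R : Fin n → Fin n → Fin n → Fin n → ℝ} (hR : IsCurvature R)
    (hs : SecIn R 0 1) {p q r s : Fin n → ℝ}
    (h1 : dotp p p = 1) (h2 : dotp q q = 1) (h3 : dotp r r = 1) (h4 : dotp s s = 1)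
    (h12 : dotp p q = 0) (h13 : dotp p r = 0) (h14 : dotp p s = 0) (h23 : dotp q r = 0)
    (h24 : dotp q s = 0) (h34 : dotp r s = 0) :
    |ev4 R p q r s + ev4 R p s r q| ≤ 1 := by
  have sy : ∀ x y : Fin n → ℝ, dotp x y = dotp y x := fun x y => by
    unfold dotp; exact Finset.sum_congr rfl fun i _ => mul_comm _ _
  have h21 := (sy q p).trans h12
  have h31 := (sy r p).trans h13
  have h41 := (sy s p).trans h14
  have h32 := (sy r q).trans h23
  have h42 := (sy s q).trans h24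
  have h43 := (sy s r).trans h34
  have a1 := hs (p + (1 : ℝ) • r) (q + (1 : ℝ) • s)
  have a2 := hs (p + (-1 : ℝ) • r) (q + (-1 : ℝ) • s)
  have a3 := hs (p + (1 : ℝ) • r) (q + (-1 : ℝ) • s)
  have a4 := hs (p + (-1 : ℝ) • r) (q + (1 : ℝ) • s)
  simp only [c4_add1, c4_add2, c4_add3, c4_add4, c4_smul1, c4_smul2, c4_smul3, c4_smul4,
    c4_dotp_add_left, c4_dotp_add_right, c4_dotp_smul_left, c4_dotp_smul_right, h1, h2, h3, h4, h12, h13, h14,
    h23, h24, h34, h21, h31, h41, h32, h42, h43] at a1 a2 a3 a4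
  obtain ⟨a1, a1'⟩ := a1
  obtain ⟨a2, a2'⟩ := a2
  obtain ⟨a3, a3'⟩ := a3
  obtain ⟨a4, a4'⟩ := a4
  have p1 := c4_pair hR p q r s
  have p2 := c4_pair hR p s r q
  rw [abs_le]
  constructor <;> linarith

/-- Berger's estimate. -/
theorem berger {n : ℕ} {R : Fin n → Fin n → Fin n → Fin n → ℝ} (hR : IsCurvature R)
    (hs : SecIn R 0 1) (E : Fin 4 → Fin n → ℝ)
    (hE : ∀ i j, dotp (E i) (E j) = if i = j then 1 else 0) :
    |ev4 R (E 0) (E 1) (E 2) (E 3)| ≤ 2 / 3 := by
  have f1 := four hR hs (p := E 0) (q := E 1) (r := E 2) (s := E 3)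
    (by simp [hE]) (by simp [hE]) (by simp [hE]) (by simp [hE]) (by simp [hE])
    (by simp [hE]) (by simp [hE]) (by simp [hE]) (by simp [hE]) (by simp [hE])
  have f2 := four hR hs (p := E 0) (q := E 1) (r := E 3) (s := E 2)
    (by simp [hE]) (by simp [hE]) (by simp [hE]) (by simp [hE]) (by simp [hE])
    (by simp [hE]) (by simp [hE]) (by simp [hE]) (by simp [hE]) (by simp [hE])
  have b1 := c4_bianchi hR (E 0) (E 1) (E 2) (E 3)
  have s1 := c4_skew34 hR (E 0) (E 1) (E 2) (E 3)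
  have s2 := c4_skew34 hR (E 0) (E 3) (E 1) (E 2)
  have s3 := c4_skew34 hR (E 0) (E 2) (E 1) (E 3)
  have s4 := c4_skew12 hR (E 0) (E 2) (E 1) (E 3)
  have s5 := c4_pair hR (E 0) (E 3) (E 1) (E 2)
  rw [abs_le] at f1 f2 ⊢
  obtain ⟨f1, f1'⟩ := f1
  obtain ⟨f2, f2'⟩ := f2
  constructor <;> linarith

/-- Value on the real and imaginary part of `(z₁ + i z₂) ∧ (w₁ + i w₂)`. -/
noncomputable def cdec {n : ℕ} (R : Fin n → Fin n → Fin n → Fin n → ℝ)
    (z1 z2 w1 w2 : Fin n → ℝ) : ℝ :=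
  ev4 R z1 w1 z1 w1 + ev4 R z2 w2 z2 w2 - 2 * ev4 R z1 w1 z2 w2
    + ev4 R z1 w2 z1 w2 + ev4 R z2 w1 z2 w1 + 2 * ev4 R z1 w2 z2 w1

theorem cdec_eq {n : ℕ} {R : Fin n → Fin n → Fin n → Fin n → ℝ} (hR : IsCurvature R)
    (z1 z2 w1 w2 : Fin n → ℝ) : cdec R z1 z2 w1 w2
      = ev4 R z1 w1 z1 w1 + ev4 R z2 w2 z2 w2 + ev4 R z1 w2 z1 w2 + ev4 R z2 w1 z2 w1
        - 2 * ev4 R z1 z2 w1 w2 := by
  unfold cdec
  have b1 := c4_bianchi hR z1 w1 z2 w2
  have s1 := c4_skew12 hR z1 w1 z2 w2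
  have s2 := c4_skew12 hR z1 z2 w1 w2
  have s3 := c4_skew34 hR z1 w2 z2 w1
  have s4 := c4_pair hR z1 w2 w1 z2
  have s5 := c4_skew12 hR w1 z2 z1 w2
  have s6 := c4_skew34 hR z1 w2 w1 z2
  linarith

/-- The estimate in an orthonormal frame:
`z = a E₀ + i b E₁`, `w = c E₂ + i d E₃`, real scalars. -/
theorem cdec_frame {n : ℕ} {R : Fin n → Fin n → Fin n → Fin n → ℝ} (hR : IsCurvature R)
    (hs : SecIn R 0 1) (E : Fin 4 → Fin n → ℝ)
    (hE : ∀ i j, dotp (E i) (E j) = if i = j then 1 else 0) (a b c d : ℝ) :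
    - (4 / 3) * |a * b * c * d| ≤ cdec R (a • E 0) (b • E 1) (c • E 2) (d • E 3) := by
  rw [cdec_eq hR]
  have k : ∀ u v : Fin n → ℝ, dotp u v = 0 → 0 ≤ ev4 R u v u v := by
    intro u v _
    have := (hs u v).1
    linarith
  simp only [c4_smul1, c4_smul2, c4_smul3, c4_smul4]
  have k1 := k (E 0) (E 2) (by simp [hE])
  have k2 := k (E 1) (E 3) (by simp [hE])
  have k3 := k (E 0) (E 3) (by simp [hE])
  have k4 := k (E 1) (E 2) (by simp [hE])
  have hb := berger hR hs E hE
  have e1 : a * (b * (c * (d * ev4 R (E 0) (E 1) (E 2) (E 3))))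
      ≤ |a * b * c * d| * (2 / 3) := by
    have h1 : a * (b * (c * (d * ev4 R (E 0) (E 1) (E 2) (E 3))))
        = (a * b * c * d) * ev4 R (E 0) (E 1) (E 2) (E 3) := by ring
    rw [h1]
    calc (a * b * c * d) * ev4 R (E 0) (E 1) (E 2) (E 3)
        ≤ |(a * b * c * d) * ev4 R (E 0) (E 1) (E 2) (E 3)| := le_abs_self _
      _ = |a * b * c * d| * |ev4 R (E 0) (E 1) (E 2) (E 3)| := abs_mul _ _
      _ ≤ |a * b * c * d| * (2 / 3) := mul_le_mul_of_nonneg_left hb (abs_nonneg _)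
  have m1 : 0 ≤ a * (c * (a * (c * ev4 R (E 0) (E 2) (E 0) (E 2)))) := by
    have : a * (c * (a * (c * ev4 R (E 0) (E 2) (E 0) (E 2))))
      = (a * c) ^ 2 * ev4 R (E 0) (E 2) (E 0) (E 2) := by ring
    rw [this]; positivity
  have m2 : 0 ≤ b * (d * (b * (d * ev4 R (E 1) (E 3) (E 1) (E 3)))) := by
    have : b * (d * (b * (d * ev4 R (E 1) (E 3) (E 1) (E 3))))
      = (b * d) ^ 2 * ev4 R (E 1) (E 3) (E 1) (E 3) := by ring
    rw [this]; positivity
  have m3 : 0 ≤ a * (d * (a * (d * ev4 R (E 0) (E 3) (E 0) (E 3)))) := by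
    have : a * (d * (a * (d * ev4 R (E 0) (E 3) (E 0) (E 3))))
      = (a * d) ^ 2 * ev4 R (E 0) (E 3) (E 0) (E 3) := by ring
    rw [this]; positivity
  have m4 : 0 ≤ b * (c * (b * (c * ev4 R (E 1) (E 2) (E 1) (E 2)))) := by
    have : b * (c * (b * (c * ev4 R (E 1) (E 2) (E 1) (E 2))))
      = (b * c) ^ 2 * ev4 R (E 1) (E 2) (E 1) (E 2) := by ring
    rw [this]; positivity
  linarith

end Pool.Hopf3
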