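import Pool.Agent.Lib.MP_4a593f_gt.E83.Defs
import Pool.Agent.Lib.MP_4a593f_gt.P3.TrC

/-!
`⟨W χ, Ω⟩` as a pairing with the second variation, and 4-forms.
-/

namespace Pool.Hopf3

open Finset

private theorem pair_el_skew {n : ℕ} (p : Pr n) : Skew (el p) := by
  intro i j
  have hp : p.1.1 ≠ p.1.2 := ne_of_lt p.2
  unfold el
  by_cases h1 : i = p.1.1 ∧ j = p.1.2
  · have h2 : ¬ (j = p.1.1 ∧ i = p.1.2) := fun h => hp (h1.1.symm.trans h.2)
    rw [if_neg h2, if_pos h1, if_pos ⟨h1.2, h1.1⟩]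
  · by_cases h3 : i = p.1.2 ∧ j = p.1.1
    · rw [if_pos ⟨h3.2, h3.1⟩, if_neg h1, if_pos h3]
      ring
    · have h2 : ¬ (j = p.1.1 ∧ i = p.1.2) := fun h => h3 ⟨h.2, h.1⟩
      have h4 : ¬ (j = p.1.2 ∧ i = p.1.1) := fun h => h1 ⟨h.2, h.1⟩
      rw [if_neg h2, if_neg h4, if_neg h1, if_neg h3]
      ring

theorem wz_eq_prsv {n : ℕ} {R : Fin n → Fin n → Fin n → Fin n → ℝ}
    (χ Ω : Fin n → Fin n → Fin n → ℝ) : wz R χ Ω = prsv R χ Ω := by
  unfold wz prsv
  refine Finset.sum_congr rfl fun p _ => Finset.sum_congr rfl fun q _ => ?_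
  rw [ip3_rho (pair_el_skew p)]
  rfl

/-- second variation is bilinear -/
theorem sv_add_left {n : ℕ} (χ Ω : Fin n → Fin n → Fin n → ℝ) (L L' M : Fin n → Fin n → ℝ) :
    sv χ Ω (L + L') M = sv χ Ω L M + sv χ Ω L' M := by
  unfold sv
  rw [rho_add_left, ip3_add_right]
  ring

theorem sv_add_right {n : ℕ} (χ Ω : Fin n → Fin n → Fin n → ℝ) (L M M' : Fin n → Fin n → ℝ) :
    sv χ Ω L (M + M') = sv χ Ω L M + sv χ Ω L M' := by
  unfold sv
  rw [rho_add_left, rho_add, ip3_add_right]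
  ring

theorem sv_smul_left {n : ℕ} (χ Ω : Fin n → Fin n → Fin n → ℝ) (c : ℝ)
    (L M : Fin n → Fin n → ℝ) : sv χ Ω (c • L) M = c * sv χ Ω L M := by
  unfold sv
  rw [rho_smul_left, ip3_smul_right]
  ring

theorem sv_smul_right {n : ℕ} (χ Ω : Fin n → Fin n → Fin n → ℝ) (c : ℝ)
    (L M : Fin n → Fin n → ℝ) : sv χ Ω L (c • M) = c * sv χ Ω L M := by
  unfold sv
  rw [rho_smul_left, rho_smul, ip3_smul_right]
  ring

private theorem pair_br_skew {n : ℕ} {L M : Fin n → Fin n → ℝ} (hL : Skew L) (hM : Skew M) :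
    Skew (br L M) := by
  intro i j
  unfold br
  rw [← Finset.sum_neg_distrib]
  refine Finset.sum_congr rfl fun t _ => ?_
  rw [hL t j, hM t j, hL i t, hM i t]
  have h1 := hL j t
  have h2 := hM j t
  have h3 := hL t i
  have h4 := hM t i
  have h5 := hL i t
  have h6 := hM i t
  ring

/-- at a critical point the second variation is symmetric -/
theorem sv_symm {n : ℕ} {χ Ω : Fin n → Fin n → Fin n → ℝ}
    (hfirst : ∀ M : Fin n → Fin n → ℝ, Skew M → ip3 χ (rho M Ω) = 0)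
    {L M : Fin n → Fin n → ℝ} (hL : Skew L) (hM : Skew M) : sv χ Ω L M = sv χ Ω M L := by
  have h1 := hfirst _ (pair_br_skew hL hM)
  rw [← rho_bracket, ip3_sub_right] at h1
  unfold sv
  linarith

/-- `⟨χ, Ω⟩` times the constant: the constant curvature tensor pairs to `3 (n - 3)`. -/
theorem prsv_trace {n : ℕ} {χ Ω : Fin n → Fin n → Fin n → ℝ} (hχ : Form3 χ) (hΩ : Form3 Ω) :
    ∑ p : Pr n, sv χ Ω (el p) (el p) = 3 * (n - 3) * ip3 χ Ω := by
  have h1 := trace_rho (Form3.add hχ hΩ)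
  have h2 := trace_rho hχ
  have h3 := trace_rho hΩ
  have e : ∀ p : Pr n, ip3 (rho (el p) (χ + Ω)) (rho (el p) (χ + Ω))
      = ip3 (rho (el p) χ) (rho (el p) χ) + ip3 (rho (el p) Ω) (rho (el p) Ω)
        + 2 * sv χ Ω (el p) (el p) := by
    intro p
    have h4 : sv χ Ω (el p) (el p) = ip3 (rho (el p) χ) (rho (el p) Ω) := by
      rw [ip3_rho (pair_el_skew p)]
      rfl
    rw [rho_add, ip3_add_left, ip3_add_right, ip3_add_right, h4,
      ip3_comm (rho (el p) Ω) (rho (el p) χ)]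
    ring
  have e2 : ip3 (χ + Ω) (χ + Ω) = ip3 χ χ + ip3 Ω Ω + 2 * ip3 χ Ω := by
    rw [ip3_add_left, ip3_add_right, ip3_add_right, ip3_comm Ω χ]
    ring
  simp only [e] at h1
  rw [Finset.sum_add_distrib, Finset.sum_add_distrib, h2, h3, ← Finset.mul_sum, e2] at h1
  linarith

end Pool.Hopf3
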