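import Pool.Agent.Lib.MP_4a593f_gt.E83.Defs

/-!
Positivity of the top value.
-/

namespace Pool.Hopf3

open Finset

private theorem tp_sum (η : Fin 8 → Fin 8 → Fin 8 → ℝ) (a b c : Fin 8) :
    ∑ i, ∑ j, ∑ k, η i j k * ((if a = i then (1 : ℝ) else 0) * ((if b = j then (1 : ℝ) else 0)
      * (if c = k then (1 : ℝ) else 0))) = η a b c := by
  simp

/-- pairing with the test form -/
theorem ip3_Ps {η : Fin 8 → Fin 8 → Fin 8 → ℝ} (h : Form3 η) :
    ip3 η Ps = η 0 2 3 + η 0 4 5 + η 0 6 7 := by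
  have e : ∀ i j k : Fin 8, η i j k * Ps i j k =
      η i j k * ((if (0 : Fin 8) = i then (1 : ℝ) else 0) * ((if (2 : Fin 8) = j then (1 : ℝ) else 0) * (if (3 : Fin 8) = k then (1 : ℝ) else 0)))
      - η i j k * ((if (0 : Fin 8) = i then (1 : ℝ) else 0) * ((if (3 : Fin 8) = j then (1 : ℝ) else 0) * (if (2 : Fin 8) = k then (1 : ℝ) else 0)))
      + η i j k * ((if (0 : Fin 8) = i then (1 : ℝ) else 0) * ((if (4 : Fin 8) = j then (1 : ℝ) else 0) * (if (5 : Fin 8) = k then (1 : ℝ) else 0)))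
      - η i j k * ((if (0 : Fin 8) = i then (1 : ℝ) else 0) * ((if (5 : Fin 8) = j then (1 : ℝ) else 0) * (if (4 : Fin 8) = k then (1 : ℝ) else 0)))
      + η i j k * ((if (0 : Fin 8) = i then (1 : ℝ) else 0) * ((if (6 : Fin 8) = j then (1 : ℝ) else 0) * (if (7 : Fin 8) = k then (1 : ℝ) else 0)))
      - η i j k * ((if (0 : Fin 8) = i then (1 : ℝ) else 0) * ((if (7 : Fin 8) = j then (1 : ℝ) else 0) * (if (6 : Fin 8) = k then (1 : ℝ) else 0)))
      + η i j k * ((if (3 : Fin 8) = i then (1 : ℝ) else 0) * ((if (0 : Fin 8) = j then (1 : ℝ) else 0) * (if (2 : Fin 8) = k then (1 : ℝ) else 0)))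
      - η i j k * ((if (2 : Fin 8) = i then (1 : ℝ) else 0) * ((if (0 : Fin 8) = j then (1 : ℝ) else 0) * (if (3 : Fin 8) = k then (1 : ℝ) else 0)))
      + η i j k * ((if (5 : Fin 8) = i then (1 : ℝ) else 0) * ((if (0 : Fin 8) = j then (1 : ℝ) else 0) * (if (4 : Fin 8) = k then (1 : ℝ) else 0)))
      - η i j k * ((if (4 : Fin 8) = i then (1 : ℝ) else 0) * ((if (0 : Fin 8) = j then (1 : ℝ) else 0) * (if (5 : Fin 8) = k then (1 : ℝ) else 0)))
      + η i j k * ((if (7 : Fin 8) = i then (1 : ℝ) else 0) * ((if (0 : Fin 8) = j then (1 : ℝ) else 0) * (if (6 : Fin 8) = k then (1 : ℝ) else 0)))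
      - η i j k * ((if (6 : Fin 8) = i then (1 : ℝ) else 0) * ((if (0 : Fin 8) = j then (1 : ℝ) else 0) * (if (7 : Fin 8) = k then (1 : ℝ) else 0)))
      + η i j k * ((if (2 : Fin 8) = i then (1 : ℝ) else 0) * ((if (3 : Fin 8) = j then (1 : ℝ) else 0) * (if (0 : Fin 8) = k then (1 : ℝ) else 0)))
      - η i j k * ((if (3 : Fin 8) = i then (1 : ℝ) else 0) * ((if (2 : Fin 8) = j then (1 : ℝ) else 0) * (if (0 : Fin 8) = k then (1 : ℝ) else 0)))
      + η i j k * ((if (4 : Fin 8) = i then (1 : ℝ) else 0) * ((if (5 : Fin 8) = j then (1 : ℝ) else 0) * (if (0 : Fin 8) = k then (1 : ℝ) else 0)))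
      - η i j k * ((if (5 : Fin 8) = i then (1 : ℝ) else 0) * ((if (4 : Fin 8) = j then (1 : ℝ) else 0) * (if (0 : Fin 8) = k then (1 : ℝ) else 0)))
      + η i j k * ((if (6 : Fin 8) = i then (1 : ℝ) else 0) * ((if (7 : Fin 8) = j then (1 : ℝ) else 0) * (if (0 : Fin 8) = k then (1 : ℝ) else 0)))
      - η i j k * ((if (7 : Fin 8) = i then (1 : ℝ) else 0) * ((if (6 : Fin 8) = j then (1 : ℝ) else 0) * (if (0 : Fin 8) = k then (1 : ℝ) else 0))) := by
    intro i j k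
    simp only [Ps]
    ring
  unfold ip3
  simp only [e, Finset.sum_add_distrib, Finset.sum_sub_distrib, tp_sum]
  have h1 := h.s23 0 2 3
  have h2 := h.s23 0 4 5
  have h3 := h.s23 0 6 7
  have h4 := h.s12 0 2 3
  have h5 := h.s12 0 4 5
  have h6 := h.s12 0 6 7
  have h7 := h.s12 0 3 2
  have h8 := h.s12 0 5 4
  have h9 := h.s12 0 7 6
  have h10 := h.s23 2 0 3
  have h11 := h.s23 4 0 5
  have h12 := h.s23 6 0 7
  have h13 := h.s23 3 0 2
  have h14 := h.s23 5 0 4
  have h15 := h.s23 7 0 6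
  linarith

/-- signed permutation frame -/
private def tpP (σ : Equiv.Perm (Fin 8)) (s : Fin 8 → ℝ) (i a : Fin 8) : ℝ :=
  if a = σ i then s i else 0

private theorem tpP_frame (σ : Equiv.Perm (Fin 8)) {s : Fin 8 → ℝ} (hs : ∀ i, s i * s i = 1) :
    IsFrame (tpP σ s) := by
  intro i j
  unfold tpP
  by_cases h : i = j
  · subst h
    simp [hs]
  · rw [if_neg h]
    apply Finset.sum_eq_zero
    intro a _
    by_cases h1 : a = σ i
    · have h2 : ¬ a = σ j := fun h3 => h (σ.injective (h1.symm.trans h3))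
      rw [if_neg h2, mul_zero]
    · rw [if_neg h1, zero_mul]

private theorem tpP_pull (χ : Fin 8 → Fin 8 → Fin 8 → ℝ) (σ : Equiv.Perm (Fin 8)) (s : Fin 8 → ℝ)
    (i j k : Fin 8) : pull3 χ (tpP σ s) i j k = s i * s j * s k * χ (σ i) (σ j) (σ k) := by
  unfold pull3 tpP
  simp
  ring

private theorem tp_le {χ : Fin 8 → Fin 8 → Fin 8 → ℝ} (h : TopAt χ Ps) (σ : Equiv.Perm (Fin 8))
    (e : ℝ) (he : e * e = 1) : e * χ (σ 0) (σ 2) (σ 3) ≤ ip3 χ Ps := by
  have h1 := h.glob (tpP σ ![e, 1, 1, 1, 1, 1, 1, 1])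
    (tpP_frame σ (by intro i; fin_cases i <;> simp [he]))
  have h2 := h.glob (tpP σ ![e, 1, 1, 1, -1, 1, -1, 1])
    (tpP_frame σ (by intro i; fin_cases i <;> simp [he]))
  rw [ip3_Ps (pull3_form h.form _), tpP_pull, tpP_pull, tpP_pull] at h1 h2
  simp only [Matrix.cons_val_zero, Matrix.cons_val] at h1 h2
  linarith

private theorem tp_perm (a b c : Fin 8) (hab : a ≠ b) (hac : a ≠ c) (hbc : b ≠ c) :
    ∃ σ : Equiv.Perm (Fin 8), σ 0 = a ∧ σ 2 = b ∧ σ 3 = c := by
  let e1 : Equiv.Perm (Fin 8) := Equiv.swap 0 a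
  let e2 : Equiv.Perm (Fin 8) := Equiv.swap (e1 2) b
  let e3 : Equiv.Perm (Fin 8) := Equiv.swap (e2 (e1 3)) c
  refine ⟨e1.trans (e2.trans e3), ?_, ?_, ?_⟩
  all_goals
    simp only [e1, e2, e3]
    revert a b c
    decide

/-- The top value of a nonzero 3-form on `ℝ⁸` is positive. -/
theorem top_pos {χ : Fin 8 → Fin 8 → Fin 8 → ℝ} (h : TopAt χ Ps) (h0 : ip3 χ χ ≠ 0) :
    0 < ip3 χ Ps := by
  refine lt_of_not_ge fun hcon => ?_
  apply h0
  have key : ∀ a b c, χ a b c = 0 := by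
    intro a b c
    by_cases hab : a = b
    · subst hab
      have := h.form.s12 a a c
      linarith
    by_cases hbc : b = c
    · subst hbc
      have := h.form.s23 a b b
      linarith
    by_cases hac : a = c
    · subst hac
      have h1 := h.form.s12 a b a
      have h2 := h.form.s23 b a a
      linarith
    obtain ⟨σ, h1, h2, h3⟩ := tp_perm a b c hab hac hbc
    have h4 := tp_le h σ 1 (by norm_num)
    have h5 := tp_le h σ (-1) (by norm_num)
    rw [h1, h2, h3] at h4 h5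
    linarith
  unfold ip3
  simp [key]

end Pool.Hopf3
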