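import Pool.Agent.Lib.MP_4a593f_gt.E83.Defs
import Pool.Agent.Lib.MP_4a593f_gt.E83.Pair
import Pool.Agent.Lib.MP_4a593f_gt.E83.TopPos

/-!
The real `6 × 6` matrices attached to a 3-form on `ℝ⁸` at a top frame, and to a curvature tensor.
Coordinates: `0 = e`, `1 = f`, `2, …, 7 = x₁, y₁, x₂, y₂, x₃, y₃`.
-/

namespace Pool.Hopf3

open Finset Matrix

/-- vectors of `ℝ⁶` -/
abbrev V6 := Fin 6 → ℝ

/-- real `6 × 6` matrices -/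
abbrev M6 := Matrix (Fin 6) (Fin 6) ℝ

/-- basis vectors of `ℝ⁸` -/
def d8 (i : Fin 8) : Fin 8 → ℝ := fun j => if j = i then 1 else 0

/-- basis vectors of `ℝ⁶` -/
def bs (a : Fin 6) : V6 := fun b => if b = a then 1 else 0

/-- the index `2 + a` of `ℝ⁸` -/
def i6 (a : Fin 6) : Fin 8 := ![2, 3, 4, 5, 6, 7] a

/-- embedding of `ℝ⁶` into `ℝ⁸` -/
def up (u : V6) : Fin 8 → ℝ := ![0, 0, u 0, u 1, u 2, u 3, u 4, u 5]

/-- `u ∧ v` -/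
def wed (u v : Fin 8 → ℝ) (i j : Fin 8) : ℝ := u i * v j - u j * v i

/-- `e ∧ f` -/
def EF : Fin 8 → Fin 8 → ℝ := wed (d8 0) (d8 1)

/-- `e ∧ u` -/
def EE (u : V6) : Fin 8 → Fin 8 → ℝ := wed (d8 0) (up u)

/-- `f ∧ u` -/
def FF (u : V6) : Fin 8 → Fin 8 → ℝ := wed (d8 1) (up u)

/-- the complex structure, `J x = y`, `J y = - x` -/
def JV (u : V6) : V6 := ![- u 1, u 0, - u 3, u 2, - u 5, u 4]

/-- matrix of `JV`: `Jm a b = (J e_b)_a` -/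
def Jm : M6 := Matrix.of fun a b => JV (bs b) a

/-- the `(2,0)`-form of `u`: `CC x₁ = x₂ ∧ x₃ - y₂ ∧ y₃`, `CC y₁ = - x₂ ∧ y₃ - y₂ ∧ x₃`, cyclic -/
def CC (u : V6) : Fin 8 → Fin 8 → ℝ :=
  u 0 • (wed (d8 4) (d8 6) - wed (d8 5) (d8 7)) - u 1 • (wed (d8 4) (d8 7) + wed (d8 5) (d8 6))
  + u 2 • (wed (d8 6) (d8 2) - wed (d8 7) (d8 3)) - u 3 • (wed (d8 6) (d8 3) + wed (d8 7) (d8 2))
  + u 4 • (wed (d8 2) (d8 4) - wed (d8 3) (d8 5)) - u 5 • (wed (d8 2) (d8 5) + wed (d8 3) (d8 4))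

/-- sum of the products of the entries -/
def mdot (A B : M6) : ℝ := ∑ a, ∑ b, A a b * B a b

/-! ### Matrices of `χ` -/

/-- second variation on `f ∧ a`, `f ∧ b` -/
noncomputable def Lm (χ : Fin 8 → Fin 8 → Fin 8 → ℝ) : M6 :=
  Matrix.of fun a b => sv χ Ps (FF (bs a)) (FF (bs b))

/-- second variation on `e ∧ a`, `e ∧ b` -/
noncomputable def Dm (χ : Fin 8 → Fin 8 → Fin 8 → ℝ) : M6 :=
  Matrix.of fun a b => sv χ Ps (EE (bs a)) (EE (bs b))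

/-- second variation on `e ∧ a`, `f ∧ b` -/
noncomputable def Zm (χ : Fin 8 → Fin 8 → Fin 8 → ℝ) : M6 :=
  Matrix.of fun a b => sv χ Ps (EE (bs a)) (FF (bs b))

/-- symmetric part of `Zm` -/
noncomputable def Hm (χ : Fin 8 → Fin 8 → Fin 8 → ℝ) : M6 := (1 / 2 : ℝ) • (Zm χ + (Zm χ)ᵀ)

/-- skew part of `Zm` -/
noncomputable def Ym (χ : Fin 8 → Fin 8 → Fin 8 → ℝ) : M6 := (1 / 2 : ℝ) • (Zm χ - (Zm χ)ᵀ)

/-- `A_u` -/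
noncomputable def Au (u : V6) : Fin 8 → Fin 8 → ℝ := EE u + (1 / 2 : ℝ) • CC u

/-- `A'_u` -/
noncomputable def Av (u : V6) : Fin 8 → Fin 8 → ℝ := EE (JV u) - (1 / 2 : ℝ) • CC (JV u)

/-- the averaged second variation -/
noncomputable def Sm (χ : Fin 8 → Fin 8 → Fin 8 → ℝ) : M6 :=
  Matrix.of fun a b => (1 / 4 : ℝ) * (sv χ Ps (Au (bs a)) (Au (bs b))
    + sv χ Ps (Av (bs a)) (Av (bs b)))

/-! ### Matrices of `R` -/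

/-- `R` on 2-forms -/
noncomputable def rb (R : Fin 8 → Fin 8 → Fin 8 → Fin 8 → ℝ) (A B : Fin 8 → Fin 8 → ℝ) : ℝ :=
  1 / 4 * ∑ i, ∑ j, ∑ k, ∑ l, R i j k l * A i j * B k l

/-- `e ∧ u + CC u` -/
def At (u : V6) : Fin 8 → Fin 8 → ℝ := EE u + CC u

/-- `e ∧ Ju - CC (Ju)` -/
def Bt (u : V6) : Fin 8 → Fin 8 → ℝ := EE (JV u) - CC (JV u)

/-- the form `ρ` -/
noncomputable def rhom (R : Fin 8 → Fin 8 → Fin 8 → Fin 8 → ℝ) : M6 :=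
  Matrix.of fun a b => (1 / 2 : ℝ) * (rb R (At (bs a)) (At (bs b)) + rb R (Bt (bs a)) (Bt (bs b)))

/-- `R(e,a,e,b)` -/
def REm (R : Fin 8 → Fin 8 → Fin 8 → Fin 8 → ℝ) : M6 := Matrix.of fun a b => R 0 (i6 a) 0 (i6 b)

/-- `R(f,a,f,b)` -/
def RFm (R : Fin 8 → Fin 8 → Fin 8 → Fin 8 → ℝ) : M6 := Matrix.of fun a b => R 1 (i6 a) 1 (i6 b)

/-- `R(e,a,f,b)` -/
def REFm (R : Fin 8 → Fin 8 → Fin 8 → Fin 8 → ℝ) : M6 := Matrix.of fun a b => R 0 (i6 a) 1 (i6 b)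

/-- `R(e,f,a,b)` -/
def RYm (R : Fin 8 → Fin 8 → Fin 8 → Fin 8 → ℝ) : M6 := Matrix.of fun a b => R 0 1 (i6 a) (i6 b)

/-- `R` on `CC a`, `CC b` -/
noncomputable def RCm (R : Fin 8 → Fin 8 → Fin 8 → Fin 8 → ℝ) : M6 :=
  Matrix.of fun a b => rb R (CC (bs a)) (CC (bs b))

end Pool.Hopf3
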