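import Pool.Agent.Lib.MP_4a593f_gt.E83.TopPos

/-!
`TopAt` is a convex cone containing `Ps`, invariant under frames fixing `Ps`; tests with signed
permutations of an arbitrary frame; the global inequality `(G)`.
-/

namespace Pool.Hopf3

open Finset

theorem Ps_form : Form3 Ps := by
  constructor
  · intro i j k
    simp only [Ps]
    ring
  · intro i j k
    simp only [Ps]
    ring

theorem ip3_rho_self {n : ℕ} {χ : Fin n → Fin n → Fin n → ℝ} {M : Fin n → Fin n → ℝ}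
    (hM : Skew M) : ip3 χ (rho M χ) = 0 := by
  have h := ip3_rho hM χ χ
  rw [ip3_comm (rho M χ) χ] at h
  linarith

/-- `Ps` is its own top form -/
theorem topAt_Ps : TopAt Ps Ps := by
  refine ⟨Ps_form, ?_, ?_, ?_⟩
  · intro P hP
    have h1 := ip3_cauchy (pull3 Ps P) Ps
    rw [ip3_pull hP] at h1
    have h2 := ip3_self_nonneg Ps
    nlinarith
  · intro M hM
    exact ip3_rho_self hM
  · intro M hM
    have h := ip3_rho hM Ps (rho M Ps)
    have h2 := ip3_self_nonneg (rho M Ps)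
    unfold sv
    linarith

theorem pull3_add {n : ℕ} (χ η : Fin n → Fin n → Fin n → ℝ) (O : Fin n → Fin n → ℝ) :
    pull3 (χ + η) O = pull3 χ O + pull3 η O := by
  funext i j k
  simp only [pull3, Pi.add_apply, ← Finset.sum_add_distrib]
  refine Finset.sum_congr rfl fun a _ => Finset.sum_congr rfl fun b _ =>
    Finset.sum_congr rfl fun c _ => ?_
  ring

theorem pull3_smul {n : ℕ} (r : ℝ) (χ : Fin n → Fin n → Fin n → ℝ) (O : Fin n → Fin n → ℝ) :
    pull3 (r • χ) O = r • pull3 χ O := by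
  funext i j k
  simp only [pull3, Pi.smul_apply, smul_eq_mul, Finset.mul_sum]
  refine Finset.sum_congr rfl fun a _ => Finset.sum_congr rfl fun b _ =>
    Finset.sum_congr rfl fun c _ => ?_
  ring

theorem sv_add {n : ℕ} (χ η Ω : Fin n → Fin n → Fin n → ℝ) (L M : Fin n → Fin n → ℝ) :
    sv (χ + η) Ω L M = sv χ Ω L M + sv η Ω L M := by
  unfold sv
  rw [ip3_add_left]
  ring

theorem sv_smul {n : ℕ} (r : ℝ) (χ Ω : Fin n → Fin n → Fin n → ℝ) (L M : Fin n → Fin n → ℝ) :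
    sv (r • χ) Ω L M = r * sv χ Ω L M := by
  unfold sv
  rw [ip3_smul_left]
  ring

theorem TopAt.add {n : ℕ} {χ η Ω : Fin n → Fin n → Fin n → ℝ} (h1 : TopAt χ Ω)
    (h2 : TopAt η Ω) : TopAt (χ + η) Ω := by
  refine ⟨h1.form.add h2.form, ?_, ?_, ?_⟩
  · intro P hP
    have a := h1.glob P hP
    have b := h2.glob P hP
    rw [pull3_add, ip3_add_left, ip3_add_left]
    linarith
  · intro M hM
    rw [ip3_add_left, h1.first M hM, h2.first M hM]
    ring
  · intro M hM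
    rw [sv_add]
    exact add_nonneg (h1.second M hM) (h2.second M hM)

theorem TopAt.smul {n : ℕ} {χ Ω : Fin n → Fin n → Fin n → ℝ} (h1 : TopAt χ Ω) {r : ℝ}
    (hr : 0 ≤ r) : TopAt (r • χ) Ω := by
  refine ⟨h1.form.smul r, ?_, ?_, ?_⟩
  · intro P hP
    have a := h1.glob P hP
    rw [pull3_smul, ip3_smul_left, ip3_smul_left]
    exact mul_le_mul_of_nonneg_left a hr
  · intro M hM
    rw [ip3_smul_left, h1.first M hM]
    ring
  · intro M hM
    rw [sv_smul]
    exact mul_nonneg hr (h1.second M hM)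

theorem ip3_pull_fix {n : ℕ} {χ Ω : Fin n → Fin n → Fin n → ℝ} {O : Fin n → Fin n → ℝ}
    (hO : IsFrame O) (hf : pull3 Ω O = Ω) : ip3 (pull3 χ O) Ω = ip3 χ Ω := by
  have h := ip3_pull hO χ Ω
  rwa [hf] at h

private theorem gg_pull2_skew_inv {n : ℕ} {M : Fin n → Fin n → ℝ} (hM : Skew M)
    (O : Fin n → Fin n → ℝ) : Skew (pull2 M (fun i j => O j i)) := pull2_skew hM _

/-- frames that fix the test form act on top forms -/
theorem TopAt.pull {n : ℕ} {χ Ω : Fin n → Fin n → Fin n → ℝ} {O : Fin n → Fin n → ℝ}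
    (h : TopAt χ Ω) (hO : IsFrame O) (hf : pull3 Ω O = Ω) : TopAt (pull3 χ O) Ω := by
  have hkey : ∀ M : Fin n → Fin n → ℝ, pull2 (pull2 M (fun i j => O j i)) O = M := by
    intro M
    have h1 := pull2_transp hO.transp M
    exact h1
  refine ⟨pull3_form h.form O, ?_, ?_, ?_⟩
  · intro P hP
    rw [pull3_comp, ip3_pull_fix hO hf]
    exact h.glob _ (hO.comp hP)
  · intro M hM
    have h1 := h.first _ (gg_pull2_skew_inv hM O)
    have h2 : rho M Ω = pull3 (rho (pull2 M (fun i j => O j i)) Ω) O := by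
      rw [← rho_pull hO, hkey, hf]
    rw [h2, ip3_pull hO]
    exact h1
  · intro M hM
    have h1 := h.second _ (gg_pull2_skew_inv hM O)
    have h2 : rho M Ω = pull3 (rho (pull2 M (fun i j => O j i)) Ω) O := by
      rw [← rho_pull hO, hkey, hf]
    have h3 : rho M (rho M Ω) = pull3 (rho (pull2 M (fun i j => O j i))
        (rho (pull2 M (fun i j => O j i)) Ω)) O := by
      rw [h2]
      conv_lhs => rw [← hkey M]
      rw [rho_pull hO, hkey]
    unfold sv at h1 ⊢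
    rw [h3, ip3_pull hO]
    exact h1

/-- signed permutation frame -/
def sgnP (σ : Equiv.Perm (Fin 8)) (s : Fin 8 → ℝ) (i a : Fin 8) : ℝ :=
  if a = σ i then s i else 0

theorem sgnP_frame (σ : Equiv.Perm (Fin 8)) {s : Fin 8 → ℝ} (hs : ∀ i, s i * s i = 1) :
    IsFrame (sgnP σ s) := by
  intro i j
  unfold sgnP
  by_cases h : i = j
  · subst h
    simp [hs]
  · rw [if_neg h]
    apply Finset.sum_eq_zero
    intro a _
    by_cases h1 : a = σ i
    · have h2 : ¬ a = σ j := fun h3 => h (σ.injective (h1.symm.trans h3))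
      rw [if_neg h2, mul_zero]
    · rw [if_neg h1, zero_mul]

theorem sgnP_pull (χ : Fin 8 → Fin 8 → Fin 8 → ℝ) (σ : Equiv.Perm (Fin 8)) (s : Fin 8 → ℝ)
    (i j k : Fin 8) : pull3 χ (sgnP σ s) i j k = s i * s j * s k * χ (σ i) (σ j) (σ k) := by
  unfold pull3 sgnP
  simp
  ring

/-- test with a permutation of an arbitrary frame -/
theorem glob_perm {χ : Fin 8 → Fin 8 → Fin 8 → ℝ} (h : TopAt χ Ps) {O : Fin 8 → Fin 8 → ℝ}
    (hO : IsFrame O) (σ : Equiv.Perm (Fin 8)) :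
    pull3 χ O (σ 0) (σ 2) (σ 3) + pull3 χ O (σ 0) (σ 4) (σ 5) + pull3 χ O (σ 0) (σ 6) (σ 7)
      ≤ ip3 χ Ps := by
  have h1 := h.glob _ (hO.comp (sgnP_frame σ (s := fun _ => 1) (by intro i; norm_num)))
  rw [← pull3_comp, ip3_Ps (pull3_form (pull3_form h.form _) _), sgnP_pull, sgnP_pull,
    sgnP_pull] at h1
  linarith

/-- permutation with prescribed values, from a list of 8 distinct elements -/
private noncomputable def lp (l : Fin 8 → Fin 8) (hl : Function.Injective l) : Equiv.Perm (Fin 8) :=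
  Equiv.ofBijective l ((Finite.injective_iff_bijective).1 hl)

private theorem glob_lp {χ : Fin 8 → Fin 8 → Fin 8 → ℝ} (h : TopAt χ Ps)
    {O : Fin 8 → Fin 8 → ℝ} (hO : IsFrame O) (l : Fin 8 → Fin 8) (hl : Function.Injective l) :
    pull3 χ O (l 0) (l 2) (l 3) + pull3 χ O (l 0) (l 4) (l 5) + pull3 χ O (l 0) (l 6) (l 7)
      ≤ ip3 χ Ps := glob_perm h hO (lp l hl)

/-- The global inequality `(G)`: for every orthonormal frame. -/
theorem glob_G {χ : Fin 8 → Fin 8 → Fin 8 → ℝ} (h : TopAt χ Ps) {O : Fin 8 → Fin 8 → ℝ}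
    (hO : IsFrame O) :
    (pull3 χ O 3 5 7 - pull3 χ O 3 4 6 + pull3 χ O 2 5 6 + pull3 χ O 2 4 7)
      + (pull3 χ O 0 4 5 + pull3 χ O 0 6 7) ≤ 2 * ip3 χ Ps := by
  have hf := pull3_form h.form O
  -- `x₂ ∧ (y₃ ∧ x₁ + y₁ ∧ x₃ + y₂ ∧ e)`
  have t1 := glob_lp h hO ![4, 1, 7, 2, 3, 6, 5, 0] (by decide)
  -- `y₂ ∧ (y₃ ∧ y₁ + x₃ ∧ x₁ + e ∧ x₂)`
  have t2 := glob_lp h hO ![5, 1, 7, 3, 6, 2, 0, 4] (by decide)
  -- `x₃ ∧ (x₁ ∧ y₂ + x₂ ∧ y₁ + y₃ ∧ e)`
  have t3 := glob_lp h hO ![6, 1, 2, 5, 4, 3, 7, 0] (by decide)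
  -- `y₃ ∧ (x₁ ∧ x₂ + y₁ ∧ y₂ + e ∧ x₃)`
  have t4 := glob_lp h hO ![7, 1, 2, 4, 3, 5, 0, 6] (by decide)
  simp only [Matrix.cons_val_zero, Matrix.cons_val] at t1 t2 t3 t4
  have cyc : ∀ a b c, pull3 χ O a b c = pull3 χ O b c a := by
    intro a b c
    rw [hf.s23 b a c, hf.s12 a b c]
    ring
  have e1 := cyc 2 4 7
  have e2 := cyc 3 5 7
  have e3 := cyc 2 5 6
  have e4 := cyc 5 0 4
  have e5 := cyc 6 2 5
  have e6 := cyc 6 4 3
  have e7 := hf.s12 3 4 6
  have e8 := cyc 0 6 7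
  have e9 := cyc 7 2 4
  have e10 := cyc 7 3 5
  have e11 := cyc 7 0 6
  have e12 := cyc 0 4 5
  linarith

end Pool.Hopf3
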