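import Pool.Agent.Lib.MP_4a593f_gt.E83.CovA
import Pool.Agent.Lib.MP_4a593f_gt.E83.GlobG

/-!
Covariance of the quadratic forms under special unitary frames of `ℝ⁶` (first half: `CovA.lean`).
-/

namespace Pool.Hopf3

open Finset Matrix

/-- a top form stays a top form in a special unitary frame -/
theorem topAt_fr {χ : Fin 8 → Fin 8 → Fin 8 → ℝ} (hχ : TopAt χ Ps) {u v w : V6}
    (h : SU3 u v w) : TopAt (pull3 χ (fr u v w)) Ps :=
  hχ.pull (fr_frame h) (fr_Ps h)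

theorem ip3_fr {χ : Fin 8 → Fin 8 → Fin 8 → ℝ} {u v w : V6} (h : SU3 u v w) :
    ip3 (pull3 χ (fr u v w)) Ps = ip3 χ Ps :=
  ip3_pull_fix (fr_frame h) (fr_Ps h)

private theorem cov_sv (χ : Fin 8 → Fin 8 → Fin 8 → ℝ) {u v w : V6} (h : SU3 u v w)
    (L M : Fin 8 → Fin 8 → ℝ) :
    sv (pull3 χ (fr u v w)) Ps (pull2 L (fr u v w)) (pull2 M (fr u v w)) = sv χ Ps L M := by
  unfold sv
  have h1 : rho (pull2 L (fr u v w)) (rho (pull2 M (fr u v w)) Ps)
      = pull3 (rho L (rho M Ps)) (fr u v w) := by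
    conv_lhs => rw [← fr_Ps h]
    rw [rho_pull (fr_frame h), rho_pull (fr_frame h)]
  rw [h1, ip3_pull (fr_frame h)]

/-- covariance of the second variation -/
theorem sv_fr (χ : Fin 8 → Fin 8 → Fin 8 → ℝ) {u v w : V6} (h : SU3 u v w)
    {L M : Fin 8 → Fin 8 → ℝ} (_ : Skew L) (_ : Skew M) :
    sv (pull3 χ (fr u v w)) Ps (pull2 L (fr u v w)) (pull2 M (fr u v w)) = sv χ Ps L M :=
  cov_sv χ h L M

/-- the quadratic form `S` -/
noncomputable def Sq (χ : Fin 8 → Fin 8 → Fin 8 → ℝ) (u : V6) : ℝ :=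
  1 / 4 * (sv χ Ps (Au u) (Au u) + sv χ Ps (Av u) (Av u))

/-- the quadratic form `D` -/
noncomputable def Dq (χ : Fin 8 → Fin 8 → Fin 8 → ℝ) (u : V6) : ℝ := sv χ Ps (EE u) (EE u)

/-- the quadratic form `ρ` -/
noncomputable def rq (R : Fin 8 → Fin 8 → Fin 8 → Fin 8 → ℝ) (u : V6) : ℝ :=
  1 / 2 * (rb R (At u) (At u) + rb R (Bt u) (Bt u))

private theorem cov_Au {u v w : V6} (h : SU3 u v w) (ξ : V6) :
    pull2 (Au (cf u v w ξ)) (fr u v w) = Au ξ := by
  unfold Au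
  rw [pull2_add, pull2_smul, fr_EE h, fr_CC h]

private theorem cov_Av {u v w : V6} (h : SU3 u v w) (ξ : V6) :
    pull2 (Av (cf u v w ξ)) (fr u v w) = Av ξ := by
  unfold Av
  rw [cf_JV, pull2_sub, pull2_smul, fr_EE h, fr_CC h]

private theorem cov_At {u v w : V6} (h : SU3 u v w) (ξ : V6) :
    pull2 (At (cf u v w ξ)) (fr u v w) = At ξ := by
  unfold At
  rw [pull2_add, fr_EE h, fr_CC h]

private theorem cov_Bt {u v w : V6} (h : SU3 u v w) (ξ : V6) :
    pull2 (Bt (cf u v w ξ)) (fr u v w) = Bt ξ := by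
  unfold Bt
  rw [cf_JV, pull2_sub, fr_EE h, fr_CC h]

theorem Sq_fr (χ : Fin 8 → Fin 8 → Fin 8 → ℝ) {u v w : V6} (h : SU3 u v w) (ξ : V6) :
    Sq (pull3 χ (fr u v w)) ξ = Sq χ (cf u v w ξ) := by
  unfold Sq
  rw [← cov_Au h ξ, ← cov_Av h ξ, cov_sv χ h, cov_sv χ h]

theorem Dq_fr (χ : Fin 8 → Fin 8 → Fin 8 → ℝ) {u v w : V6} (h : SU3 u v w) (ξ : V6) :
    Dq (pull3 χ (fr u v w)) ξ = Dq χ (cf u v w ξ) := by
  unfold Dq
  rw [← fr_EE h ξ, cov_sv χ h]

private theorem cov_prod {ι : Type} [Fintype ι] (r : ℝ) (f g : ι → ι → ℝ) :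
    r * (∑ i, ∑ j, f i j) * (∑ k, ∑ l, g k l) = ∑ i, ∑ j, ∑ k, ∑ l, r * f i j * g k l := by
  have e : r * (∑ i, ∑ j, f i j) = ∑ i, ∑ j, r * f i j := by
    simp only [Finset.mul_sum]
  rw [e, Finset.sum_mul]
  refine Finset.sum_congr rfl fun i _ => ?_
  rw [Finset.sum_mul]
  refine Finset.sum_congr rfl fun j _ => ?_
  rw [Finset.mul_sum]
  refine Finset.sum_congr rfl fun k _ => ?_
  rw [Finset.mul_sum]

private theorem cov_contr {ι : Type} [Fintype ι] (R : ι → ι → ι → ι → ℝ) (O A B : ι → ι → ℝ) :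
    ∑ i, ∑ j, ∑ k, ∑ l, (∑ a, ∑ b, ∑ c, ∑ d, R a b c d * O i a * O j b * O k c * O l d)
        * A i j * B k l
      = ∑ a, ∑ b, ∑ c, ∑ d, R a b c d * (∑ i, ∑ j, A i j * O i a * O j b)
        * (∑ k, ∑ l, B k l * O k c * O l d) := by
  have hL : ∑ i, ∑ j, ∑ k, ∑ l,
      (∑ a, ∑ b, ∑ c, ∑ d, R a b c d * O i a * O j b * O k c * O l d) * A i j * B k l
      = ∑ x : ι × ι × ι × ι, ∑ p : ι × ι × ι × ι, R p.1 p.2.1 p.2.2.1 p.2.2.2
        * (A x.1 x.2.1 * O x.1 p.1 * O x.2.1 p.2.1)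
        * (B x.2.2.1 x.2.2.2 * O x.2.2.1 p.2.2.1 * O x.2.2.2 p.2.2.2) := by
    simp only [Fintype.sum_prod_type, Finset.sum_mul]
    refine Finset.sum_congr rfl fun i _ => Finset.sum_congr rfl fun j _ =>
      Finset.sum_congr rfl fun k _ => Finset.sum_congr rfl fun l _ =>
      Finset.sum_congr rfl fun a _ => Finset.sum_congr rfl fun b _ =>
      Finset.sum_congr rfl fun c _ => Finset.sum_congr rfl fun d _ => ?_
    ring
  rw [hL, Finset.sum_comm]
  simp only [Fintype.sum_prod_type, cov_prod]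

private theorem cov_rb {R : Fin 8 → Fin 8 → Fin 8 → Fin 8 → ℝ} {O : Fin 8 → Fin 8 → ℝ}
    (hO : IsFrame O) (A B : Fin 8 → Fin 8 → ℝ) :
    rb (pullR R O) (pull2 A O) (pull2 B O) = rb R A B := by
  have key : ∀ C : Fin 8 → Fin 8 → ℝ, ∀ a b : Fin 8,
      ∑ i, ∑ j, pull2 C O i j * O i a * O j b = C a b := fun C a b =>
    congrFun (congrFun (pull2_transp hO C) a) b
  unfold rb
  have h := cov_contr R O (pull2 A O) (pull2 B O)
  simp only [key] at h
  rw [← h]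
  rfl

/-- covariance of `R` on 2-forms -/
theorem rb_fr (R : Fin 8 → Fin 8 → Fin 8 → Fin 8 → ℝ) {u v w : V6} (h : SU3 u v w)
    (A B : Fin 8 → Fin 8 → ℝ) :
    rb (pullR R (fr u v w)) (pull2 A (fr u v w)) (pull2 B (fr u v w)) = rb R A B :=
  cov_rb (fr_frame h) A B

theorem rq_fr (R : Fin 8 → Fin 8 → Fin 8 → Fin 8 → ℝ) {u v w : V6} (h : SU3 u v w) (ξ : V6) :
    rq (pullR R (fr u v w)) ξ = rq R (cf u v w ξ) := by
  unfold rq
  rw [← cov_At h ξ, ← cov_Bt h ξ, rb_fr R h, rb_fr R h]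

/-! ### The quadratic forms and their matrices -/

private theorem cov_bs (u : V6) : u = u 0 • bs 0 + u 1 • bs 1 + u 2 • bs 2 + u 3 • bs 3
    + u 4 • bs 4 + u 5 • bs 5 := by
  funext a
  fin_cases a <;> simp [bs]

private theorem cov_bil {T : (Fin 8 → Fin 8 → ℝ) → (Fin 8 → Fin 8 → ℝ) → ℝ}
    (h1 : ∀ A B C, T (A + B) C = T A C + T B C) (h2 : ∀ (c : ℝ) A C, T (c • A) C = c * T A C)
    (h3 : ∀ A B C, T A (B + C) = T A B + T A C) (h4 : ∀ (c : ℝ) A C, T A (c • C) = c * T A C)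
    {A B : V6 → Fin 8 → Fin 8 → ℝ} (hA : ∀ u v, A (u + v) = A u + A v)
    (hA' : ∀ (c : ℝ) u, A (c • u) = c • A u) (hB : ∀ u v, B (u + v) = B u + B v)
    (hB' : ∀ (c : ℝ) u, B (c • u) = c • B u) (u : V6) :
    T (A u) (B u) = ∑ a, ∑ b, u a * u b * T (A (bs a)) (B (bs b)) := by
  conv_lhs => rw [cov_bs u]
  simp only [hA, hA', hB, hB', h1, h2, h3, h4, Fin.sum_univ_six]
  ring

private theorem cov_upadd (u v : V6) : up (u + v) = up u + up v := by
  funext i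
  fin_cases i <;> simp [up]

private theorem cov_upsmul (c : ℝ) (u : V6) : up (c • u) = c • up u := by
  funext i
  fin_cases i <;> simp [up]

private theorem cov_JVadd (u v : V6) : JV (u + v) = JV u + JV v := by
  funext i
  fin_cases i <;> simp [JV] <;> ring

private theorem cov_JVsmul (c : ℝ) (u : V6) : JV (c • u) = c • JV u := by
  funext i
  fin_cases i <;> simp [JV]

private theorem cov_EEadd (u v : V6) : EE (u + v) = EE u + EE v := by
  unfold EE
  rw [cov_upadd, wed_add_right]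

private theorem cov_EEsmul (c : ℝ) (u : V6) : EE (c • u) = c • EE u := by
  unfold EE
  rw [cov_upsmul, wed_smul_right]

private theorem cov_quad (M : M6) (u : V6) :
    u ⬝ᵥ M *ᵥ u = ∑ a, ∑ b, u a * u b * M a b := by
  simp only [dotProduct, Matrix.mulVec, Finset.mul_sum]
  refine Finset.sum_congr rfl fun a _ => Finset.sum_congr rfl fun b _ => ?_
  ring

private theorem cov_Auadd (u v : V6) : Au (u + v) = Au u + Au v := by
  unfold Au
  rw [cov_EEadd, CC_add, smul_add]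
  abel

private theorem cov_Ausmul (c : ℝ) (u : V6) : Au (c • u) = c • Au u := by
  unfold Au
  rw [cov_EEsmul, CC_smul, smul_add, smul_comm]

private theorem cov_Avadd (u v : V6) : Av (u + v) = Av u + Av v := by
  unfold Av
  rw [cov_JVadd, cov_EEadd, CC_add, smul_add]
  abel

private theorem cov_Avsmul (c : ℝ) (u : V6) : Av (c • u) = c • Av u := by
  unfold Av
  rw [cov_JVsmul, cov_EEsmul, CC_smul, smul_sub, smul_comm]

private theorem cov_Atadd (u v : V6) : At (u + v) = At u + At v := by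
  unfold At
  rw [cov_EEadd, CC_add]
  abel

private theorem cov_Atsmul (c : ℝ) (u : V6) : At (c • u) = c • At u := by
  unfold At
  rw [cov_EEsmul, CC_smul, smul_add]

private theorem cov_Btadd (u v : V6) : Bt (u + v) = Bt u + Bt v := by
  unfold Bt
  rw [cov_JVadd, cov_EEadd, CC_add]
  abel

private theorem cov_Btsmul (c : ℝ) (u : V6) : Bt (c • u) = c • Bt u := by
  unfold Bt
  rw [cov_JVsmul, cov_EEsmul, CC_smul, smul_sub]

private theorem cov_rbadd (R : Fin 8 → Fin 8 → Fin 8 → Fin 8 → ℝ) (A B C : Fin 8 → Fin 8 → ℝ) :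
    rb R (A + B) C = rb R A C + rb R B C := by
  unfold rb
  simp only [Pi.add_apply, mul_add, add_mul, Finset.sum_add_distrib]

private theorem cov_rbadd' (R : Fin 8 → Fin 8 → Fin 8 → Fin 8 → ℝ) (A B C : Fin 8 → Fin 8 → ℝ) :
    rb R A (B + C) = rb R A B + rb R A C := by
  unfold rb
  simp only [Pi.add_apply, mul_add, Finset.sum_add_distrib]

private theorem cov_rbsmul (R : Fin 8 → Fin 8 → Fin 8 → Fin 8 → ℝ) (c : ℝ)
    (A C : Fin 8 → Fin 8 → ℝ) : rb R (c • A) C = c * rb R A C := by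
  unfold rb
  simp only [Pi.smul_apply, smul_eq_mul, Finset.mul_sum]
  refine Finset.sum_congr rfl fun i _ => Finset.sum_congr rfl fun j _ =>
      Finset.sum_congr rfl fun k _ => Finset.sum_congr rfl fun l _ => ?_
  ring

private theorem cov_rbsmul' (R : Fin 8 → Fin 8 → Fin 8 → Fin 8 → ℝ) (c : ℝ)
    (A C : Fin 8 → Fin 8 → ℝ) : rb R A (c • C) = c * rb R A C := by
  unfold rb
  simp only [Pi.smul_apply, smul_eq_mul, Finset.mul_sum]
  refine Finset.sum_congr rfl fun i _ => Finset.sum_congr rfl fun j _ =>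
      Finset.sum_congr rfl fun k _ => Finset.sum_congr rfl fun l _ => ?_
  ring

theorem Sq_eq (χ : Fin 8 → Fin 8 → Fin 8 → ℝ) (u : V6) : u ⬝ᵥ Sm χ *ᵥ u = Sq χ u := by
  rw [cov_quad]
  unfold Sq Sm
  rw [cov_bil (T := sv χ Ps) (sv_add_left χ Ps) (sv_smul_left χ Ps) (fun A B C => sv_add_right χ Ps A B C)
    (fun c A C => sv_smul_right χ Ps c A C) cov_Auadd cov_Ausmul cov_Auadd cov_Ausmul u,
    cov_bil (T := sv χ Ps) (sv_add_left χ Ps) (sv_smul_left χ Ps) (fun A B C => sv_add_right χ Ps A B C)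
    (fun c A C => sv_smul_right χ Ps c A C) cov_Avadd cov_Avsmul cov_Avadd cov_Avsmul u]
  simp only [Matrix.of_apply, mul_add, Finset.mul_sum, ← Finset.sum_add_distrib]
  refine Finset.sum_congr rfl fun a _ => Finset.sum_congr rfl fun b _ => ?_
  ring

theorem Dq_eq (χ : Fin 8 → Fin 8 → Fin 8 → ℝ) (u : V6) : u ⬝ᵥ Dm χ *ᵥ u = Dq χ u := by
  rw [cov_quad]
  unfold Dq Dm
  rw [cov_bil (T := sv χ Ps) (sv_add_left χ Ps) (sv_smul_left χ Ps) (fun A B C => sv_add_right χ Ps A B C)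
    (fun c A C => sv_smul_right χ Ps c A C) cov_EEadd cov_EEsmul cov_EEadd cov_EEsmul u]
  rfl

theorem rq_eq (R : Fin 8 → Fin 8 → Fin 8 → Fin 8 → ℝ) (u : V6) : u ⬝ᵥ rhom R *ᵥ u = rq R u := by
  rw [cov_quad]
  unfold rq rhom
  rw [cov_bil (T := rb R) (cov_rbadd R) (cov_rbsmul R) (cov_rbadd' R) (cov_rbsmul' R)
      cov_Atadd cov_Atsmul cov_Atadd cov_Atsmul u,
    cov_bil (T := rb R) (cov_rbadd R) (cov_rbsmul R) (cov_rbadd' R) (cov_rbsmul' R)
      cov_Btadd cov_Btsmul cov_Btadd cov_Btsmul u]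
  simp only [Matrix.of_apply, mul_add, Finset.mul_sum, ← Finset.sum_add_distrib]
  refine Finset.sum_congr rfl fun a _ => Finset.sum_congr rfl fun b _ => ?_
  ring

end Pool.Hopf3
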