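import Pool.Agent.Lib.MP_4a593f_gt.E83.Defs
import Pool.Agent.Lib.MP_4a593f_gt.P3.MaxB

/-!
A frame maximising the pairing with a test form: existence, first and second order conditions.
-/

namespace Pool.Hopf3

open Finset

private theorem maxG_compact {ι : Type} [Fintype ι] [DecidableEq ι] :
    IsCompact {O : ι → ι → ℝ | IsFrame O} := by
  have h1 : IsCompact (Set.univ.pi fun _ : ι =>
      (Set.univ.pi fun _ : ι => Set.Icc (-1 : ℝ) 1)) :=
    isCompact_univ_pi fun _ => isCompact_univ_pi fun _ => isCompact_Icc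
  refine h1.of_isClosed_subset ?_ ?_
  · have h2 : {O : ι → ι → ℝ | IsFrame O}
        = ⋂ i, ⋂ j, {O : ι → ι → ℝ | ∑ a, O i a * O j a = if i = j then 1 else 0} := by
      ext O
      simp [IsFrame]
    rw [h2]
    refine isClosed_iInter fun i => isClosed_iInter fun j => isClosed_eq ?_ continuous_const
    fun_prop
  · intro O hO i _ a _
    have hO' : IsFrame O := hO
    have h2 := hO' i i
    rw [if_pos rfl] at h2
    have h3 : O i a * O i a ≤ 1 := by
      rw [← h2]
      exact Finset.single_le_sum (f := fun a => O i a * O i a) (fun _ _ => mul_self_nonneg _)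
        (Finset.mem_univ a)
    constructor <;> nlinarith

/-- Existence of a frame with maximal overlap (any test form). -/
theorem exists_maxG {n : ℕ} (ψ Ω : Fin n → Fin n → Fin n → ℝ) :
    ∃ O : Fin n → Fin n → ℝ, IsFrame O ∧
      ∀ P : Fin n → Fin n → ℝ, IsFrame P → ip3 (pull3 ψ P) Ω ≤ ip3 (pull3 ψ O) Ω := by
  have hne : {O : Fin n → Fin n → ℝ | IsFrame O}.Nonempty := by
    refine ⟨fun i j => if i = j then 1 else 0, ?_⟩
    intro i j
    simp
  have hc : ContinuousOn (fun O : Fin n → Fin n → ℝ => ip3 (pull3 ψ O) Ω)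
      {O : Fin n → Fin n → ℝ | IsFrame O} := by
    apply Continuous.continuousOn
    unfold ip3 pull3
    fun_prop
  obtain ⟨O, hO, hmax⟩ := maxG_compact.exists_isMaxOn hne hc
  exact ⟨O, hO, fun P hP => hmax hP⟩

section curve

attribute [local instance] Matrix.linftyOpNormedRing Matrix.linftyOpNormedAlgebra

/-- the one-parameter group of `M` -/
private noncomputable def ecv {n : ℕ} (M : Fin n → Fin n → ℝ) (t : ℝ) (i j : Fin n) : ℝ :=
  (NormedSpace.exp (t • (Matrix.of M : Matrix (Fin n) (Fin n) ℝ))) i j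

private theorem ecv_zero {n : ℕ} (M : Fin n → Fin n → ℝ) (i j : Fin n) :
    ecv M 0 i j = if i = j then 1 else 0 := by
  unfold ecv
  rw [zero_smul, NormedSpace.exp_zero, Matrix.one_apply]

private theorem ecv_deriv {n : ℕ} (M : Fin n → Fin n → ℝ) (t : ℝ) (i j : Fin n) :
    HasDerivAt (fun t => ecv M t i j) (∑ a, M i a * ecv M t a j) t := by
  have h := hasDerivAt_exp_smul_const' (𝕂 := ℝ) (Matrix.of M : Matrix (Fin n) (Fin n) ℝ) t
  have h2 : HasDerivAt (fun t : ℝ => (NormedSpace.exp (t • (Matrix.of M : Matrix (Fin n) (Fin n) ℝ))) i j)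
      ((Matrix.of M * NormedSpace.exp (t • (Matrix.of M : Matrix (Fin n) (Fin n) ℝ))) i j) t := by
    let π : Matrix (Fin n) (Fin n) ℝ →ₗ[ℝ] ℝ :=
      { toFun := fun A => A i j, map_add' := fun _ _ => rfl, map_smul' := fun _ _ => rfl }
    have h3 := (LinearMap.toContinuousLinearMap π).hasFDerivAt.comp_hasDerivAt t h
    exact h3
  refine h2.congr_deriv ?_
  rw [Matrix.mul_apply]
  rfl

private theorem ecv_frame {n : ℕ} {M : Fin n → Fin n → ℝ} (hM : Skew M) (t : ℝ) :
    IsFrame (ecv M t) := by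
  have h1 : (Matrix.of M : Matrix (Fin n) (Fin n) ℝ).transpose = - Matrix.of M := by
    ext i j
    simp [Matrix.transpose_apply, hM i j]
  have h2 : (NormedSpace.exp (t • (Matrix.of M : Matrix (Fin n) (Fin n) ℝ))).transpose
      = NormedSpace.exp (-(t • (Matrix.of M : Matrix (Fin n) (Fin n) ℝ))) := by
    rw [← Matrix.exp_transpose, Matrix.transpose_smul, h1, smul_neg]
  have h3 : NormedSpace.exp (t • (Matrix.of M : Matrix (Fin n) (Fin n) ℝ))
      * (NormedSpace.exp (t • (Matrix.of M : Matrix (Fin n) (Fin n) ℝ))).transpose = 1 := by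
    have hc : Commute (t • (Matrix.of M : Matrix (Fin n) (Fin n) ℝ))
        (-(t • (Matrix.of M : Matrix (Fin n) (Fin n) ℝ))) := by
      unfold Commute SemiconjBy
      rw [mul_neg, neg_mul]
    rw [h2, ← Matrix.exp_add_of_commute _ _ hc, add_neg_cancel, NormedSpace.exp_zero]
  intro i j
  have h4 := congrFun (congrFun h3 i) j
  rw [Matrix.mul_apply, Matrix.one_apply] at h4
  simpa [ecv, Matrix.transpose_apply] using h4

end curve

private theorem pull3_ecv_deriv {n : ℕ} (M : Fin n → Fin n → ℝ) (χ : Fin n → Fin n → Fin n → ℝ)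
    (t : ℝ) (i j k : Fin n) :
    HasDerivAt (fun t => pull3 χ (ecv M t) i j k) (rho M (pull3 χ (ecv M t)) i j k) t := by
  have h1 : HasDerivAt (fun t => pull3 χ (ecv M t) i j k)
      (∑ x, ∑ y, ∑ z, (((χ x y z * ∑ a, M i a * ecv M t a x) * ecv M t j y
        + (χ x y z * ecv M t i x) * ∑ a, M j a * ecv M t a y) * ecv M t k z
        + (χ x y z * ecv M t i x * ecv M t j y) * ∑ a, M k a * ecv M t a z)) t := by
    unfold pull3
    refine HasDerivAt.fun_sum fun x _ => HasDerivAt.fun_sum fun y _ =>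
      HasDerivAt.fun_sum fun z _ => ?_
    exact (((ecv_deriv M t i x).const_mul (χ x y z)).mul (ecv_deriv M t j y)).mul
      (ecv_deriv M t k z)
  refine h1.congr_deriv ?_
  unfold rho pull3
  simp only [Finset.mul_sum, Finset.sum_mul, add_mul, Finset.sum_add_distrib]
  have sw : ∀ F : Fin n → Fin n → Fin n → Fin n → ℝ,
      ∑ x, ∑ y, ∑ z, ∑ a, F x y z a = ∑ a, ∑ x, ∑ y, ∑ z, F x y z a := by
    intro F
    calc ∑ x, ∑ y, ∑ z, ∑ a, F x y z a
        = ∑ x, ∑ y, ∑ a, ∑ z, F x y z a := by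
          refine Finset.sum_congr rfl fun x _ => Finset.sum_congr rfl fun y _ => ?_
          exact Finset.sum_comm
      _ = ∑ x, ∑ a, ∑ y, ∑ z, F x y z a := by
          refine Finset.sum_congr rfl fun x _ => ?_
          exact Finset.sum_comm
      _ = _ := Finset.sum_comm
  congr 1
  · congr 1
    · rw [sw]
      refine Finset.sum_congr rfl fun a _ => Finset.sum_congr rfl fun x _ =>
        Finset.sum_congr rfl fun y _ => Finset.sum_congr rfl fun z _ => ?_
      ring
    · rw [sw]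
      refine Finset.sum_congr rfl fun a _ => Finset.sum_congr rfl fun x _ =>
        Finset.sum_congr rfl fun y _ => Finset.sum_congr rfl fun z _ => ?_
      ring
  · rw [sw]
    refine Finset.sum_congr rfl fun a _ => Finset.sum_congr rfl fun x _ =>
      Finset.sum_congr rfl fun y _ => Finset.sum_congr rfl fun z _ => ?_
    ring

private theorem rho_deriv {n : ℕ} (M : Fin n → Fin n → ℝ)
    {c c' : ℝ → Fin n → Fin n → Fin n → ℝ} {t : ℝ}
    (h : ∀ i j k, HasDerivAt (fun t => c t i j k) (c' t i j k) t) (i j k : Fin n) :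
    HasDerivAt (fun t => rho M (c t) i j k) (rho M (c' t) i j k) t := by
  unfold rho
  refine HasDerivAt.fun_sum fun a _ => ?_
  exact (((h a j k).const_mul (M i a)).add ((h i a k).const_mul (M j a))).add
    ((h i j a).const_mul (M k a))

private theorem ip3_deriv {n : ℕ} (Ω : Fin n → Fin n → Fin n → ℝ)
    {c c' : ℝ → Fin n → Fin n → Fin n → ℝ} {t : ℝ}
    (h : ∀ i j k, HasDerivAt (fun t => c t i j k) (c' t i j k) t) :
    HasDerivAt (fun t => ip3 (c t) Ω) (ip3 (c' t) Ω) t := by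
  unfold ip3
  refine HasDerivAt.const_mul _ ?_
  refine HasDerivAt.fun_sum fun x _ => HasDerivAt.fun_sum fun y _ =>
    HasDerivAt.fun_sum fun z _ => ?_
  exact (h x y z).mul_const _

private theorem pull3_ecv_zero {n : ℕ} (M : Fin n → Fin n → ℝ) (χ : Fin n → Fin n → Fin n → ℝ) :
    pull3 χ (ecv M 0) = χ := by
  funext i j k
  unfold pull3
  simp [ecv_zero]

private theorem g_deriv {n : ℕ} (M : Fin n → Fin n → ℝ) (χ Ω : Fin n → Fin n → Fin n → ℝ)
    (t : ℝ) : HasDerivAt (fun t => ip3 (pull3 χ (ecv M t)) Ω)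
      (ip3 (rho M (pull3 χ (ecv M t))) Ω) t :=
  ip3_deriv Ω (c' := fun t => rho M (pull3 χ (ecv M t)))
    fun i j k => pull3_ecv_deriv M χ t i j k

private theorem g_deriv2 {n : ℕ} (M : Fin n → Fin n → ℝ) (χ Ω : Fin n → Fin n → Fin n → ℝ)
    (t : ℝ) : HasDerivAt (fun t => ip3 (rho M (pull3 χ (ecv M t))) Ω)
      (ip3 (rho M (rho M (pull3 χ (ecv M t)))) Ω) t :=
  ip3_deriv Ω (c' := fun t => rho M (rho M (pull3 χ (ecv M t))))
    fun i j k => rho_deriv M (c := fun t => pull3 χ (ecv M t))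
      (c' := fun t => rho M (pull3 χ (ecv M t)))
      (fun i j k => pull3_ecv_deriv M χ t i j k) i j k

private theorem g_max {n : ℕ} {χ Ω : Fin n → Fin n → Fin n → ℝ}
    (hmax : ∀ P : Fin n → Fin n → ℝ, IsFrame P → ip3 (pull3 χ P) Ω ≤ ip3 χ Ω)
    {M : Fin n → Fin n → ℝ} (hM : Skew M) :
    IsLocalMax (fun t => ip3 (pull3 χ (ecv M t)) Ω) 0 := by
  refine Filter.Eventually.of_forall fun t => ?_
  simp only [pull3_ecv_zero]
  exact hmax _ (ecv_frame hM t)

/-- First order condition. -/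
theorem first_orderG {n : ℕ} {χ Ω : Fin n → Fin n → Fin n → ℝ} (_ : Form3 χ)
    (hmax : ∀ P : Fin n → Fin n → ℝ, IsFrame P → ip3 (pull3 χ P) Ω ≤ ip3 χ Ω)
    (M : Fin n → Fin n → ℝ) (hM : Skew M) : ip3 χ (rho M Ω) = 0 := by
  have h1 := (g_max hmax hM).hasDerivAt_eq_zero (g_deriv M χ Ω 0)
  rw [pull3_ecv_zero] at h1
  have h2 := ip3_rho hM χ Ω
  linarith

/-- Second order condition, for every skew direction (use the curve `exp (t M)`). -/
theorem second_orderG {n : ℕ} {χ Ω : Fin n → Fin n → Fin n → ℝ} (_ : Form3 χ)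
    (hmax : ∀ P : Fin n → Fin n → ℝ, IsFrame P → ip3 (pull3 χ P) Ω ≤ ip3 χ Ω)
    (M : Fin n → Fin n → ℝ) (hM : Skew M) : 0 ≤ sv χ Ω M M := by
  by_contra hneg
  rw [not_le] at hneg
  have hm := g_max hmax hM
  set g : ℝ → ℝ := fun t => ip3 (pull3 χ (ecv M t)) Ω with hg
  have e1 : deriv g = fun t => ip3 (rho M (pull3 χ (ecv M t))) Ω :=
    funext fun t => (g_deriv M χ Ω t).deriv
  have e2 : deriv (deriv g) 0 = ip3 (rho M (rho M χ)) Ω := by
    rw [e1, (g_deriv2 M χ Ω 0).deriv, pull3_ecv_zero]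
  have e3 : ip3 (rho M (rho M χ)) Ω = - sv χ Ω M M := by
    have h1 := ip3_rho hM (rho M χ) Ω
    have h2 := ip3_rho hM χ (rho M Ω)
    unfold sv
    linarith
  have hpos : 0 < deriv (deriv g) 0 := by
    rw [e2, e3]
    linarith
  have hd0 : deriv g 0 = 0 := hm.deriv_eq_zero
  have hcont : ContinuousAt g 0 := (g_deriv M χ Ω 0).continuousAt
  have hmin : IsLocalMin g 0 := isLocalMin_of_deriv_deriv_pos hpos hd0 hcont
  have hconst : g =ᶠ[nhds 0] fun _ => g 0 := by
    filter_upwards [hm, hmin] with t h1 h2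
    exact le_antisymm h1 h2
  have h4 : deriv g =ᶠ[nhds 0] deriv (fun _ => g 0) := hconst.deriv
  have h5 : deriv (deriv g) 0 = deriv (deriv fun _ : ℝ => g 0) 0 := h4.deriv_eq
  rw [h5] at hpos
  simp at hpos

/-- In a suitable frame the form is at its top. -/
theorem exists_topAt {n : ℕ} {ψ : Fin n → Fin n → Fin n → ℝ} (hψ : Form3 ψ)
    (Ω : Fin n → Fin n → Fin n → ℝ) : ∃ O : Fin n → Fin n → ℝ, IsFrame O ∧
      TopAt (pull3 ψ O) Ω := by
  obtain ⟨O, hO, hmax⟩ := exists_maxG ψ Ω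
  have hform : Form3 (pull3 ψ O) := pull3_form hψ O
  have hglob : ∀ P : Fin n → Fin n → ℝ, IsFrame P →
      ip3 (pull3 (pull3 ψ O) P) Ω ≤ ip3 (pull3 ψ O) Ω := by
    intro P hP
    rw [pull3_comp]
    exact hmax _ (hO.comp hP)
  exact ⟨O, hO, hform, hglob, first_orderG hform hglob, second_orderG hform hglob⟩

end Pool.Hopf3
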