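import Pool.Agent.Lib.MP_4a593f_gt.E83.Defs
import Pool.Agent.Lib.MP_4a593f_gt.P3.TrB

/-!
Change of frame for curvature tensors and the curvature term.
-/

namespace Pool.Hopf3

open Finset

/-! ### Linear functions of a vector -/

/-- linear function of a vector -/
private def PullLin {n : ℕ} (g : (Fin n → ℝ) → ℝ) : Prop :=
  (∀ x y, g (x + y) = g x + g y) ∧ ∀ (c : ℝ) (x : Fin n → ℝ), g (c • x) = c * g x

private def pullB {n : ℕ} (i : Fin n) : Fin n → ℝ := fun j => if j = i then 1 else 0

private theorem PullLin.mul_const {n : ℕ} {g : (Fin n → ℝ) → ℝ} (h : PullLin g) (c : ℝ) :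
    PullLin (fun x => g x * c) :=
  ⟨fun x y => by simp only [h.1]; ring, fun d x => by simp only [h.2]; ring⟩

private theorem PullLin.const_mul {n : ℕ} {g : (Fin n → ℝ) → ℝ} (h : PullLin g) (c : ℝ) :
    PullLin (fun x => c * g x) :=
  ⟨fun x y => by simp only [h.1]; ring, fun d x => by simp only [h.2]; ring⟩

private theorem PullLin.sum {n : ℕ} {ι : Type*} {s : Finset ι} {g : ι → (Fin n → ℝ) → ℝ}
    (h : ∀ i, PullLin (g i)) : PullLin (fun x => ∑ i ∈ s, g i x) := by
  refine ⟨fun x y => ?_, fun c x => ?_⟩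
  · rw [← Finset.sum_add_distrib]
    exact Finset.sum_congr rfl fun i _ => (h i).1 x y
  · rw [Finset.mul_sum]
    exact Finset.sum_congr rfl fun i _ => (h i).2 c x

private theorem PullLin.coord {n : ℕ} (i : Fin n) : PullLin (fun x : Fin n → ℝ => x i) :=
  ⟨fun _ _ => rfl, fun _ _ => rfl⟩

private theorem PullLin.zero {n : ℕ} {g : (Fin n → ℝ) → ℝ} (h : PullLin g) : g 0 = 0 := by
  have := h.2 0 0
  simpa using this

private theorem PullLin.map_sum {n : ℕ} {g : (Fin n → ℝ) → ℝ} (h : PullLin g) {ι : Type*}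
    (s : Finset ι) (c : ι → ℝ) (v : ι → Fin n → ℝ) :
    g (∑ i ∈ s, c i • v i) = ∑ i ∈ s, c i * g (v i) := by
  classical
  induction s using Finset.induction_on with
  | empty => simpa using h.zero
  | insert a s ha ih => rw [Finset.sum_insert ha, Finset.sum_insert ha, h.1, h.2, ih]

private theorem pull_vec {n : ℕ} (x : Fin n → ℝ) : x = ∑ i, x i • pullB i := by
  ext j
  simp [pullB, Finset.sum_apply]

private theorem PullLin.expand {n : ℕ} {g : (Fin n → ℝ) → ℝ} (h : PullLin g) (x : Fin n → ℝ) :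
    g x = ∑ i, x i * g (pullB i) := by
  conv_lhs => rw [pull_vec x]
  exact h.map_sum _ _ _

/-- A contraction does not depend on the orthonormal frame. -/
private theorem pull_contr {n : ℕ} {O : Fin n → Fin n → ℝ} (h : IsFrame O)
    {f : (Fin n → ℝ) → (Fin n → ℝ) → ℝ}
    (h1 : ∀ y, PullLin (fun x => f x y)) (h2 : ∀ x, PullLin (f x)) :
    ∑ a, f (O a) (O a) = ∑ i, f (pullB i) (pullB i) := by
  have e1 : ∀ a, f (O a) (O a) = ∑ i, ∑ j, (O a i * O a j) * f (pullB i) (pullB j) := by
    intro a
    rw [(h1 (O a)).expand (O a)]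
    refine Finset.sum_congr rfl fun i _ => ?_
    rw [(h2 (pullB i)).expand (O a), Finset.mul_sum]
    refine Finset.sum_congr rfl fun j _ => by ring
  simp only [e1]
  rw [Finset.sum_comm]
  refine Finset.sum_congr rfl fun i _ => ?_
  rw [Finset.sum_comm]
  have e2 : ∀ j, ∑ a, O a i * O a j * f (pullB i) (pullB j)
      = if i = j then f (pullB i) (pullB j) else 0 := by
    intro j
    rw [← Finset.sum_mul, h.cols i j]
    split_ifs <;> simp
  simp only [e2]
  simp

private theorem pull_ev4_1 {n : ℕ} (R : Fin n → Fin n → Fin n → Fin n → ℝ) (v w z : Fin n → ℝ) :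
    PullLin (fun x => ev4 R x v w z) := by
  unfold ev4
  refine PullLin.sum fun i => PullLin.sum fun j => PullLin.sum fun k => PullLin.sum fun l => ?_
  exact (((PullLin.coord i).const_mul _).mul_const _ |>.mul_const _ |>.mul_const _)

private theorem pull_ev4_2 {n : ℕ} (R : Fin n → Fin n → Fin n → Fin n → ℝ) (u w z : Fin n → ℝ) :
    PullLin (fun x => ev4 R u x w z) := by
  unfold ev4
  refine PullLin.sum fun i => PullLin.sum fun j => PullLin.sum fun k => PullLin.sum fun l => ?_
  exact (((PullLin.coord j).const_mul _).mul_const _ |>.mul_const _)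

private theorem pull_ev4_3 {n : ℕ} (R : Fin n → Fin n → Fin n → Fin n → ℝ) (u v z : Fin n → ℝ) :
    PullLin (fun x => ev4 R u v x z) := by
  unfold ev4
  refine PullLin.sum fun i => PullLin.sum fun j => PullLin.sum fun k => PullLin.sum fun l => ?_
  exact (((PullLin.coord k).const_mul _).mul_const _)

private theorem pull_ev4_4 {n : ℕ} (R : Fin n → Fin n → Fin n → Fin n → ℝ) (u v w : Fin n → ℝ) :
    PullLin (fun x => ev4 R u v w x) := by
  unfold ev4
  refine PullLin.sum fun i => PullLin.sum fun j => PullLin.sum fun k => PullLin.sum fun l => ?_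
  exact (PullLin.coord l).const_mul _

private theorem pull_ev4_bas {n : ℕ} (R : Fin n → Fin n → Fin n → Fin n → ℝ) (i j k l : Fin n) :
    ev4 R (pullB i) (pullB j) (pullB k) (pullB l) = R i j k l := by
  simp [ev4, pullB]

/-! ### Curvature tensors -/

theorem pullR_curv {n : ℕ} {R : Fin n → Fin n → Fin n → Fin n → ℝ} (hR : IsCurvature R)
    (O : Fin n → Fin n → ℝ) : IsCurvature (pullR R O) := by
  constructor
  · intro i j k l
    show ev4 R (O j) (O i) (O k) (O l) = - ev4 R (O i) (O j) (O k) (O l)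
    unfold ev4
    rw [Finset.sum_comm]
    simp only [← Finset.sum_neg_distrib]
    refine Finset.sum_congr rfl fun a _ => Finset.sum_congr rfl fun b _ =>
      Finset.sum_congr rfl fun c _ => Finset.sum_congr rfl fun d _ => ?_
    rw [hR.skew12 a b c d]
    ring
  · intro i j k l
    show ev4 R (O i) (O j) (O l) (O k) = - ev4 R (O i) (O j) (O k) (O l)
    unfold ev4
    simp only [← Finset.sum_neg_distrib]
    refine Finset.sum_congr rfl fun a _ => Finset.sum_congr rfl fun b _ => ?_
    rw [Finset.sum_comm]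
    refine Finset.sum_congr rfl fun c _ => Finset.sum_congr rfl fun d _ => ?_
    rw [hR.skew34 a b c d]
    ring
  · intro i j k l
    show ev4 R (O i) (O j) (O k) (O l) + ev4 R (O j) (O k) (O i) (O l)
      + ev4 R (O k) (O i) (O j) (O l) = 0
    have e2 : ev4 R (O j) (O k) (O i) (O l) = ∑ a, ∑ b, ∑ c, ∑ d,
        R b c a d * O i a * O j b * O k c * O l d := by
      unfold ev4
      have h : ∀ b, ∑ c, ∑ a, ∑ d, R b c a d * O j b * O k c * O i a * O l d
          = ∑ a, ∑ c, ∑ d, R b c a d * O i a * O j b * O k c * O l d := by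
        intro b
        rw [Finset.sum_comm]
        refine Finset.sum_congr rfl fun a _ => Finset.sum_congr rfl fun c _ =>
          Finset.sum_congr rfl fun d _ => by ring
      simp only [h]
      rw [Finset.sum_comm]
    have e3 : ev4 R (O k) (O i) (O j) (O l) = ∑ a, ∑ b, ∑ c, ∑ d,
        R c a b d * O i a * O j b * O k c * O l d := by
      unfold ev4
      rw [Finset.sum_comm]
      refine Finset.sum_congr rfl fun a _ => ?_
      rw [Finset.sum_comm]
      refine Finset.sum_congr rfl fun b _ => Finset.sum_congr rfl fun c _ =>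
        Finset.sum_congr rfl fun d _ => by ring
    rw [e2, e3]
    unfold ev4
    simp only [← Finset.sum_add_distrib]
    refine Finset.sum_eq_zero fun a _ => Finset.sum_eq_zero fun b _ =>
      Finset.sum_eq_zero fun c _ => Finset.sum_eq_zero fun d _ => ?_
    have h := hR.bianchi a b c d
    have : R a b c d * O i a * O j b * O k c * O l d + R b c a d * O i a * O j b * O k c * O l d
        + R c a b d * O i a * O j b * O k c * O l d
        = (R a b c d + R b c a d + R c a b d) * (O i a * O j b * O k c * O l d) := by ring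
    rw [this, h, zero_mul]

/-- combination of the rows of a frame -/
private def pullV {n : ℕ} (O : Fin n → Fin n → ℝ) (u : Fin n → ℝ) : Fin n → ℝ :=
  ∑ i, u i • O i

private theorem pull_ev4_pullR {n : ℕ} (R : Fin n → Fin n → Fin n → Fin n → ℝ)
    (O : Fin n → Fin n → ℝ) (u v w z : Fin n → ℝ) :
    ev4 (pullR R O) u v w z = ev4 R (pullV O u) (pullV O v) (pullV O w) (pullV O z) := by
  unfold pullV
  rw [(pull_ev4_1 R _ _ _).map_sum]
  conv_lhs => unfold ev4
  refine Finset.sum_congr rfl fun i _ => ?_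
  rw [(pull_ev4_2 R _ _ _).map_sum, Finset.mul_sum]
  refine Finset.sum_congr rfl fun j _ => ?_
  rw [(pull_ev4_3 R _ _ _).map_sum, Finset.mul_sum, Finset.mul_sum]
  refine Finset.sum_congr rfl fun k _ => ?_
  rw [(pull_ev4_4 R _ _ _).map_sum, Finset.mul_sum, Finset.mul_sum, Finset.mul_sum]
  refine Finset.sum_congr rfl fun l _ => ?_
  unfold pullR
  ring

private theorem pull_dot {n : ℕ} {O : Fin n → Fin n → ℝ} (hO : IsFrame O) (u v : Fin n → ℝ) :
    dotp (pullV O u) (pullV O v) = dotp u v := by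
  have h1 : PullLin (fun x : Fin n → ℝ => dotp x (pullV O v)) := by
    unfold dotp
    exact PullLin.sum fun i => (PullLin.coord i).mul_const _
  have h2 : ∀ y : Fin n → ℝ, PullLin (fun x : Fin n → ℝ => dotp y x) := by
    intro y
    unfold dotp
    exact PullLin.sum fun i => (PullLin.coord i).const_mul _
  have e1 : dotp (pullV O u) (pullV O v) = ∑ i, u i * dotp (O i) (pullV O v) :=
    h1.map_sum _ _ _
  have e2 : ∀ i, dotp (O i) (pullV O v) = ∑ j, v j * dotp (O i) (O j) := fun i =>
    (h2 (O i)).map_sum _ _ _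
  have e3 : ∀ i j, dotp (O i) (O j) = if i = j then 1 else 0 := fun i j => hO i j
  rw [e1]
  simp only [e2, e3]
  simp [dotp]

theorem pullR_sec {n : ℕ} {R : Fin n → Fin n → Fin n → Fin n → ℝ} {lo hi : ℝ}
    (h : SecIn R lo hi) {O : Fin n → Fin n → ℝ} (hO : IsFrame O) : SecIn (pullR R O) lo hi := by
  intro u v
  have h1 := h (pullV O u) (pullV O v)
  rw [pull_dot hO, pull_dot hO, pull_dot hO] at h1
  rw [pull_ev4_pullR]
  exact h1

/-! ### The curvature term -/

/-- `u ∧ v` -/
private def pullW {n : ℕ} (u v : Fin n → ℝ) (s t : Fin n) : ℝ := u s * v t - v s * u t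

private theorem pull_el {n : ℕ} (p : Pr n) : el p = pullW (pullB p.1.1) (pullB p.1.2) := by
  funext i j
  have hne : p.1.1 ≠ p.1.2 := p.2.ne
  unfold el pullW pullB
  by_cases h1 : i = p.1.1 ∧ j = p.1.2
  · have h2 : i ≠ p.1.2 := fun h => hne (h1.1.symm.trans h)
    rw [if_pos h1, if_pos h1.1, if_pos h1.2, if_neg h2]; norm_num
  · rw [if_neg h1]
    by_cases h2 : i = p.1.2 ∧ j = p.1.1
    · have h3 : i ≠ p.1.1 := fun h => hne (h.symm.trans h2.1)
      rw [if_pos h2, if_neg h3, if_pos h2.1, if_pos h2.2]; norm_num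
    · rw [if_neg h2]
      by_cases a1 : i = p.1.1
      · have b1 : j ≠ p.1.2 := fun h => h1 ⟨a1, h⟩
        have b2 : i ≠ p.1.2 := fun h => hne (a1.symm.trans h)
        rw [if_neg b1, if_neg b2]; ring
      · rw [if_neg a1]
        by_cases a2 : i = p.1.2
        · have b1 : j ≠ p.1.1 := fun h => h2 ⟨a2, h⟩
          rw [if_neg b1]; ring
        · rw [if_neg a2]; ring

private theorem pullW_add_left {n : ℕ} (x y v : Fin n → ℝ) :
    pullW (x + y) v = pullW x v + pullW y v := by
  funext s t
  simp only [pullW, Pi.add_apply]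
  ring

private theorem pullW_smul_left {n : ℕ} (c : ℝ) (x v : Fin n → ℝ) :
    pullW (c • x) v = c • pullW x v := by
  funext s t
  simp only [pullW, Pi.smul_apply, smul_eq_mul]
  ring

private theorem pullW_add_right {n : ℕ} (x y v : Fin n → ℝ) :
    pullW v (x + y) = pullW v x + pullW v y := by
  funext s t
  simp only [pullW, Pi.add_apply]
  ring

private theorem pullW_smul_right {n : ℕ} (c : ℝ) (x v : Fin n → ℝ) :
    pullW v (c • x) = c • pullW v x := by
  funext s t
  simp only [pullW, Pi.smul_apply, smul_eq_mul]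
  ring

/-- the pairing as a function of four vectors -/
private noncomputable def pullG {n : ℕ} (φ ψ : Fin n → Fin n → Fin n → ℝ)
    (u v w z : Fin n → ℝ) : ℝ := ip3 (rho (pullW u v) φ) (rho (pullW w z) ψ)

private theorem pullG_1 {n : ℕ} (φ ψ : Fin n → Fin n → Fin n → ℝ) (v w z : Fin n → ℝ) :
    PullLin (fun x => pullG φ ψ x v w z) := by
  refine ⟨fun x y => ?_, fun c x => ?_⟩
  · simp only [pullG]
    rw [pullW_add_left, rho_add_left, ip3_add_left]
  · simp only [pullG]
    rw [pullW_smul_left, rho_smul_left, ip3_smul_left]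

private theorem pullG_2 {n : ℕ} (φ ψ : Fin n → Fin n → Fin n → ℝ) (u w z : Fin n → ℝ) :
    PullLin (fun x => pullG φ ψ u x w z) := by
  refine ⟨fun x y => ?_, fun c x => ?_⟩
  · simp only [pullG]
    rw [pullW_add_right, rho_add_left, ip3_add_left]
  · simp only [pullG]
    rw [pullW_smul_right, rho_smul_left, ip3_smul_left]

private theorem pullG_3 {n : ℕ} (φ ψ : Fin n → Fin n → Fin n → ℝ) (u v z : Fin n → ℝ) :
    PullLin (fun x => pullG φ ψ u v x z) := by
  refine ⟨fun x y => ?_, fun c x => ?_⟩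
  · simp only [pullG]
    rw [pullW_add_left, rho_add_left, ip3_add_right]
  · simp only [pullG]
    rw [pullW_smul_left, rho_smul_left, ip3_smul_right]

private theorem pullG_4 {n : ℕ} (φ ψ : Fin n → Fin n → Fin n → ℝ) (u v w : Fin n → ℝ) :
    PullLin (fun x => pullG φ ψ u v w x) := by
  refine ⟨fun x y => ?_, fun c x => ?_⟩
  · simp only [pullG]
    rw [pullW_add_right, rho_add_left, ip3_add_right]
  · simp only [pullG]
    rw [pullW_smul_right, rho_smul_left, ip3_smul_right]

private theorem pull_rho_neg {n : ℕ} (u v : Fin n → ℝ) (φ : Fin n → Fin n → Fin n → ℝ) :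
    rho (pullW v u) φ = (-1 : ℝ) • rho (pullW u v) φ := by
  have : pullW v u = (-1 : ℝ) • pullW u v := by
    funext s t
    simp only [pullW, Pi.smul_apply, smul_eq_mul]
    ring
  rw [this, rho_smul_left]

private theorem pull_wz {n : ℕ} {R : Fin n → Fin n → Fin n → Fin n → ℝ} (hR : IsCurvature R)
    (φ ψ : Fin n → Fin n → Fin n → ℝ) :
    wz R φ ψ = 1 / 4 * ∑ a, ∑ b, ∑ c, ∑ d,
      R a b c d * pullG φ ψ (pullB a) (pullB b) (pullB c) (pullB d) := by
  have h := sum_pairs (fun a b c d => R a b c d * pullG φ ψ (pullB a) (pullB b) (pullB c) (pullB d))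
    (fun i j k l => by
      simp only [pullG]
      rw [pull_rho_neg (pullB i) (pullB j), ip3_smul_left, hR.skew12 i j k l]; ring)
    (fun i j k l => by
      simp only [pullG]
      rw [pull_rho_neg (pullB k) (pullB l), ip3_smul_right, hR.skew34 i j k l]; ring)
    (fun i k l => by
      have := hR.skew12 i i k l
      have h0 : R i i k l = 0 := by linarith
      simp only [h0, zero_mul])
    (fun i j k => by
      have := hR.skew34 i j k k
      have h0 : R i j k k = 0 := by linarith
      simp only [h0, zero_mul])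
  rw [← h]
  unfold wz
  refine Finset.sum_congr rfl fun p _ => Finset.sum_congr rfl fun q _ => ?_
  rw [pull_el p, pull_el q]
  rfl

private theorem pull_W_pull {n : ℕ} {O : Fin n → Fin n → ℝ} (hO : IsFrame O) (a b : Fin n) :
    pullW (pullB a) (pullB b) = pull2 (pullW (O a) (O b)) O := by
  funext i j
  have e : ∀ s t, pullW (O a) (O b) s t * O i s * O j t
      = (O a s * O i s) * (O b t * O j t) - (O b s * O i s) * (O a t * O j t) := by
    intro s t
    unfold pullW
    ring
  unfold pull2
  simp only [e, Finset.sum_sub_distrib, ← Finset.mul_sum, ← Finset.sum_mul]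
  rw [hO a i, hO b j, hO b i, hO a j]
  unfold pullW pullB
  simp only [eq_comm]

theorem wz_pull {n : ℕ} {R : Fin n → Fin n → Fin n → Fin n → ℝ} (hR : IsCurvature R)
    {φ ψ : Fin n → Fin n → Fin n → ℝ} (hφ : Form3 φ) (hψ : Form3 ψ) {O : Fin n → Fin n → ℝ}
    (hO : IsFrame O) : wz (pullR R O) (pull3 φ O) (pull3 ψ O) = wz R φ ψ := by
  have key : ∀ a b c d, pullG (pull3 φ O) (pull3 ψ O) (pullB a) (pullB b) (pullB c) (pullB d)
      = pullG φ ψ (O a) (O b) (O c) (O d) := by
    intro a b c d
    unfold pullG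
    rw [pull_W_pull hO a b, pull_W_pull hO c d, rho_pull hO, rho_pull hO, ip3_pull hO]
  rw [pull_wz (pullR_curv hR O), pull_wz hR]
  congr 1
  simp only [key]
  have e4 : ∀ a b c, ∑ d, pullR R O a b c d * pullG φ ψ (O a) (O b) (O c) (O d)
      = ∑ d, ev4 R (O a) (O b) (O c) (pullB d) * pullG φ ψ (O a) (O b) (O c) (pullB d) :=
    fun a b c => pull_contr hO (f := fun x y => ev4 R (O a) (O b) (O c) x
        * pullG φ ψ (O a) (O b) (O c) y)
      (fun y => (pull_ev4_4 R _ _ _).mul_const _) (fun x => (pullG_4 φ ψ _ _ _).const_mul _)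
  simp only [e4]
  have e3 : ∀ a b, ∑ c, ∑ d, ev4 R (O a) (O b) (O c) (pullB d)
        * pullG φ ψ (O a) (O b) (O c) (pullB d)
      = ∑ c, ∑ d, ev4 R (O a) (O b) (pullB c) (pullB d)
        * pullG φ ψ (O a) (O b) (pullB c) (pullB d) :=
    fun a b => pull_contr hO (f := fun x y => ∑ d, ev4 R (O a) (O b) x (pullB d)
        * pullG φ ψ (O a) (O b) y (pullB d))
      (fun y => PullLin.sum fun d => (pull_ev4_3 R _ _ _).mul_const _)
      (fun x => PullLin.sum fun d => (pullG_3 φ ψ _ _ _).const_mul _)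
  simp only [e3]
  have e2 : ∀ a, ∑ b, ∑ c, ∑ d, ev4 R (O a) (O b) (pullB c) (pullB d)
        * pullG φ ψ (O a) (O b) (pullB c) (pullB d)
      = ∑ b, ∑ c, ∑ d, ev4 R (O a) (pullB b) (pullB c) (pullB d)
        * pullG φ ψ (O a) (pullB b) (pullB c) (pullB d) :=
    fun a => pull_contr hO (f := fun x y => ∑ c, ∑ d, ev4 R (O a) x (pullB c) (pullB d)
        * pullG φ ψ (O a) y (pullB c) (pullB d))
      (fun y => PullLin.sum fun c => PullLin.sum fun d => (pull_ev4_2 R _ _ _).mul_const _)
      (fun x => PullLin.sum fun c => PullLin.sum fun d => (pullG_2 φ ψ _ _ _).const_mul _)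
  simp only [e2]
  have e1 : ∑ a, ∑ b, ∑ c, ∑ d, ev4 R (O a) (pullB b) (pullB c) (pullB d)
        * pullG φ ψ (O a) (pullB b) (pullB c) (pullB d)
      = ∑ a, ∑ b, ∑ c, ∑ d, ev4 R (pullB a) (pullB b) (pullB c) (pullB d)
        * pullG φ ψ (pullB a) (pullB b) (pullB c) (pullB d) :=
    pull_contr hO (f := fun x y => ∑ b, ∑ c, ∑ d, ev4 R x (pullB b) (pullB c) (pullB d)
        * pullG φ ψ y (pullB b) (pullB c) (pullB d))
      (fun y => PullLin.sum fun b => PullLin.sum fun c => PullLin.sum fun d =>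
        (pull_ev4_1 R _ _ _).mul_const _)
      (fun x => PullLin.sum fun b => PullLin.sum fun c => PullLin.sum fun d =>
        (pullG_1 φ ψ _ _ _).const_mul _)
  rw [e1]
  simp only [pull_ev4_bas]

end Pool.Hopf3
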