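import Pool.Agent.Lib.MP_4a593f_gt.E83.Core
import Pool.Agent.Lib.MP_4a593f_gt.E83.MaxG
import Pool.Agent.Lib.MP_4a593f_gt.E83.Pull

/-!
Special unitary frames of `ℝ⁶`.
-/

namespace Pool.Hopf3

open Finset Matrix

/-- real form of `conj (v × w)` -/
def kx (v w : V6) : V6 :=
  ![(v 2 * w 4 - v 3 * w 5) - (v 4 * w 2 - v 5 * w 3),
    - ((v 2 * w 5 + v 3 * w 4) - (v 4 * w 3 + v 5 * w 2)),
    (v 4 * w 0 - v 5 * w 1) - (v 0 * w 4 - v 1 * w 5),
    - ((v 4 * w 1 + v 5 * w 0) - (v 0 * w 5 + v 1 * w 4)),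
    (v 0 * w 2 - v 1 * w 3) - (v 2 * w 0 - v 3 * w 1),
    - ((v 0 * w 3 + v 1 * w 2) - (v 2 * w 1 + v 3 * w 0))]

theorem dot6 (u v : V6) :
    u ⬝ᵥ v = u 0 * v 0 + u 1 * v 1 + u 2 * v 2 + u 3 * v 3 + u 4 * v 4 + u 5 * v 5 := by
  simp only [dotProduct, Fin.sum_univ_six]

theorem JV_0 (u : V6) : JV u 0 = - u 1 := rfl
theorem JV_1 (u : V6) : JV u 1 = u 0 := rfl
theorem JV_2 (u : V6) : JV u 2 = - u 3 := rfl
theorem JV_3 (u : V6) : JV u 3 = u 2 := rfl
theorem JV_4 (u : V6) : JV u 4 = - u 5 := rfl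
theorem JV_5 (u : V6) : JV u 5 = u 4 := rfl

theorem kx_0 (v w : V6) : kx v w 0 = (v 2 * w 4 - v 3 * w 5) - (v 4 * w 2 - v 5 * w 3) := rfl
theorem kx_1 (v w : V6) : kx v w 1 = - ((v 2 * w 5 + v 3 * w 4) - (v 4 * w 3 + v 5 * w 2)) := rfl
theorem kx_2 (v w : V6) : kx v w 2 = (v 4 * w 0 - v 5 * w 1) - (v 0 * w 4 - v 1 * w 5) := rfl
theorem kx_3 (v w : V6) : kx v w 3 = - ((v 4 * w 1 + v 5 * w 0) - (v 0 * w 5 + v 1 * w 4)) := rfl
theorem kx_4 (v w : V6) : kx v w 4 = (v 0 * w 2 - v 1 * w 3) - (v 2 * w 0 - v 3 * w 1) := rfl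
theorem kx_5 (v w : V6) : kx v w 5 = - ((v 0 * w 3 + v 1 * w 2) - (v 2 * w 1 + v 3 * w 0)) := rfl

theorem CC_kx (v w : V6) : CC (kx v w) = wed (up v) (up w) - wed (up (JV v)) (up (JV w)) := by
  funext i j
  fin_cases i <;> fin_cases j <;>
    simp only [CC, wed, up, d8, Pi.add_apply, Pi.sub_apply, Pi.smul_apply, smul_eq_mul,
      JV_0, JV_1, JV_2, JV_3, JV_4, JV_5, kx_0, kx_1, kx_2, kx_3, kx_4, kx_5,
      Fin.zero_eta, Fin.mk_one, Fin.reduceFinMk,
      Matrix.cons_val, Matrix.cons_val_zero, Matrix.cons_val_one,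
      Fin.reduceEq, Fin.isValue, if_true, if_false, mul_zero, zero_mul, add_zero, zero_add,
      mul_one, sub_zero, zero_sub]
  all_goals ring1

/-- special unitary frame `u, Ju, v, Jv, w, Jw` -/
structure SU3 (u v w : V6) : Prop where
  uu : u ⬝ᵥ u = 1
  vv : v ⬝ᵥ v = 1
  ww : w ⬝ᵥ w = 1
  uv : u ⬝ᵥ v = 0
  uw : u ⬝ᵥ w = 0
  vw : v ⬝ᵥ w = 0
  juv : JV u ⬝ᵥ v = 0
  juw : JV u ⬝ᵥ w = 0
  jvw : JV v ⬝ᵥ w = 0
  kuv : kx u v = w
  kvw : kx v w = u
  kwu : kx w u = v

/-- completion of a unitary pair -/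
theorem su3_of_pair {u v : V6} (hu : u ⬝ᵥ u = 1) (hv : v ⬝ᵥ v = 1) (huv : u ⬝ᵥ v = 0)
    (hj : JV u ⬝ᵥ v = 0) : SU3 u v (kx u v) := by
  have huu' := hu
  have hvv' := hv
  have huv' := huv
  have hj' := hj
  rw [dot6] at huu' hvv' huv' hj'
  simp only [JV_0, JV_1, JV_2, JV_3, JV_4, JV_5] at hj'
  refine ⟨hu, hv, ?_, huv, ?_, ?_, hj, ?_, ?_, rfl, ?_, ?_⟩
  · rw [dot6]
    simp only [kx_0, kx_1, kx_2, kx_3, kx_4, kx_5]
    linear_combination (v 0 * v 0 + v 1 * v 1 + v 2 * v 2 + v 3 * v 3 + v 4 * v 4 + v 5 * v 5)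
      * huu' + hvv' - (u 0 * v 0 + u 1 * v 1 + u 2 * v 2 + u 3 * v 3 + u 4 * v 4 + u 5 * v 5)
      * huv' - (-u 1 * v 0 + u 0 * v 1 + -u 3 * v 2 + u 2 * v 3 + -u 5 * v 4 + u 4 * v 5) * hj'
  · rw [dot6]
    simp only [kx_0, kx_1, kx_2, kx_3, kx_4, kx_5]
    ring1
  · rw [dot6]
    simp only [kx_0, kx_1, kx_2, kx_3, kx_4, kx_5]
    ring1
  · rw [dot6]
    simp only [kx_0, kx_1, kx_2, kx_3, kx_4, kx_5, JV_0, JV_1, JV_2, JV_3, JV_4, JV_5]
    ring1
  · rw [dot6]
    simp only [kx_0, kx_1, kx_2, kx_3, kx_4, kx_5, JV_0, JV_1, JV_2, JV_3, JV_4, JV_5]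
    ring1
  · funext a
    fin_cases a <;> simp only [Fin.zero_eta, Fin.mk_one, Fin.reduceFinMk, Fin.isValue,
      kx_0, kx_1, kx_2, kx_3, kx_4, kx_5]
    · linear_combination u 0 * hvv' - v 0 * huv' - v 1 * hj'
    · linear_combination u 1 * hvv' + v 0 * hj' - v 1 * huv'
    · linear_combination u 2 * hvv' - v 2 * huv' - v 3 * hj'
    · linear_combination u 3 * hvv' + v 2 * hj' - v 3 * huv'
    · linear_combination u 4 * hvv' - v 4 * huv' - v 5 * hj'
    · linear_combination u 5 * hvv' + v 4 * hj' - v 5 * huv'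
  · funext a
    fin_cases a <;> simp only [Fin.zero_eta, Fin.mk_one, Fin.reduceFinMk, Fin.isValue,
      kx_0, kx_1, kx_2, kx_3, kx_4, kx_5]
    · linear_combination v 0 * huu' - u 0 * huv' + u 1 * hj'
    · linear_combination v 1 * huu' - u 1 * huv' - u 0 * hj'
    · linear_combination v 2 * huu' - u 2 * huv' + u 3 * hj'
    · linear_combination v 3 * huu' - u 3 * huv' - u 2 * hj'
    · linear_combination v 4 * huu' - u 4 * huv' + u 5 * hj'
    · linear_combination v 5 * huu' - u 5 * huv' - u 4 * hj'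

/-- completion of a unit vector -/
theorem su3_exists {u : V6} (hu : u ⬝ᵥ u = 1) : ∃ v w, SU3 u v w := by
  let F : V6 →ₗ[ℝ] (Fin 2 → ℝ) :=
    { toFun := fun v => ![u ⬝ᵥ v, JV u ⬝ᵥ v]
      map_add' := by
        intro v w
        ext i
        fin_cases i <;> simp [dotProduct_add]
      map_smul' := by
        intro r v
        ext i
        fin_cases i <;> simp [dotProduct_smul] }
  have hF : LinearMap.ker F ≠ ⊥ := F.ker_ne_bot_of_finrank_lt (by simp)
  obtain ⟨x, hx, hx0⟩ := Submodule.exists_mem_ne_zero_of_ne_bot hF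
  have hx' : F x = 0 := hx
  have h2 : u ⬝ᵥ x = 0 := congrFun hx' 0
  have h3 : JV u ⬝ᵥ x = 0 := congrFun hx' 1
  have hpos : 0 < x ⬝ᵥ x := by
    have hne : ∃ i, x i ≠ 0 := by
      by_contra hcon
      push Not at hcon
      exact hx0 (funext hcon)
    obtain ⟨i, hi⟩ := hne
    have h4 : x i * x i ≤ x ⬝ᵥ x :=
      Finset.single_le_sum (f := fun a => x a * x a) (fun a _ => mul_self_nonneg (x a))
        (Finset.mem_univ i)
    have h5 : 0 < x i * x i := mul_self_pos.2 hi
    linarith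
  have hs : Real.sqrt (x ⬝ᵥ x) ≠ 0 := (Real.sqrt_pos.2 hpos).ne'
  refine ⟨(Real.sqrt (x ⬝ᵥ x))⁻¹ • x, _, su3_of_pair hu ?_ ?_ ?_⟩
  · rw [dotProduct_smul, smul_dotProduct, smul_eq_mul, smul_eq_mul]
    have h6 := Real.mul_self_sqrt hpos.le
    field_simp
    nlinarith
  · rw [dotProduct_smul, h2, smul_zero]
  · rw [dotProduct_smul, h3, smul_zero]

/-- the frame of `ℝ⁸` with rows `e, f, u, Ju, v, Jv, w, Jw` -/
def fr (u v w : V6) : Fin 8 → Fin 8 → ℝ :=
  ![d8 0, d8 1, up u, up (JV u), up v, up (JV v), up w, up (JV w)]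

/-- the vector with coordinates `ξ` in the frame `u, Ju, v, Jv, w, Jw` -/
def cf (u v w ξ : V6) : V6 :=
  ξ 0 • u + ξ 1 • JV u + ξ 2 • v + ξ 3 • JV v + ξ 4 • w + ξ 5 • JV w

theorem cf_JV (u v w ξ : V6) : JV (cf u v w ξ) = cf u v w (JV ξ) := by
  funext a
  fin_cases a <;> simp only [cf, Pi.add_apply, Pi.smul_apply, smul_eq_mul, Fin.zero_eta,
    Fin.mk_one, Fin.reduceFinMk, Fin.isValue, JV_0, JV_1, JV_2, JV_3, JV_4, JV_5] <;> ring1

theorem fr_frame {u v w : V6} (h : SU3 u v w) : IsFrame (fr u v w) := by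
  have uu := h.uu
  have vv := h.vv
  have ww := h.ww
  have uv := h.uv
  have uw := h.uw
  have vw := h.vw
  have juv := h.juv
  have juw := h.juw
  have jvw := h.jvw
  rw [dot6] at uu vv ww uv uw vw juv juw jvw
  simp only [JV_0, JV_1, JV_2, JV_3, JV_4, JV_5] at juv juw jvw
  intro i j
  fin_cases i <;> fin_cases j <;>
    simp only [fr, up, d8, JV_0, JV_1, JV_2, JV_3, JV_4, JV_5, Fin.sum_univ_eight,
      Fin.zero_eta, Fin.mk_one, Fin.reduceFinMk,
      Matrix.cons_val, Matrix.cons_val_zero, Matrix.cons_val_one,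
      Fin.reduceEq, Fin.isValue, if_true, if_false, mul_zero, zero_mul, add_zero, zero_add,
      mul_one, one_ne_zero, zero_ne_one]
  all_goals first
    | ring1
    | linear_combination uu
    | linear_combination vv
    | linear_combination ww
    | linear_combination uv
    | linear_combination uw
    | linear_combination vw
    | linear_combination juv
    | linear_combination juw
    | linear_combination jvw
    | linear_combination -juv
    | linear_combination -juw
    | linear_combination -jvw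

/-! ### `Ps` in a special unitary frame -/

/-- the Kähler form of `ℝ⁶` on `ℝ⁸` -/
def omg (p q : Fin 8 → ℝ) : ℝ :=
  p 2 * q 3 - p 3 * q 2 + (p 4 * q 5 - p 5 * q 4) + (p 6 * q 7 - p 7 * q 6)

private theorem cova_sum (x y z : Fin 8 → ℝ) (a b c : Fin 8) :
    ∑ i, ∑ j, ∑ k, (if a = i then (1 : ℝ) else 0) * ((if b = j then (1 : ℝ) else 0)
      * (if c = k then (1 : ℝ) else 0)) * (x i * y j * z k) = x a * y b * z c := by
  simp [mul_assoc]

/-- `Ps` evaluated on three vectors -/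
theorem pull3_Ps (O : Fin 8 → Fin 8 → ℝ) (i j k : Fin 8) :
    pull3 Ps O i j k = O i 0 * omg (O j) (O k) + O j 0 * omg (O k) (O i)
      + O k 0 * omg (O i) (O j) := by
  have e : ∀ a b c : Fin 8, Ps a b c * O i a * O j b * O k c =
      ((if (0 : Fin 8) = a then (1 : ℝ) else 0) * ((if (2 : Fin 8) = b then (1 : ℝ) else 0) * (if (3 : Fin 8) = c then (1 : ℝ) else 0))) * (O i a * O j b * O k c)
      - ((if (0 : Fin 8) = a then (1 : ℝ) else 0) * ((if (3 : Fin 8) = b then (1 : ℝ) else 0) * (if (2 : Fin 8) = c then (1 : ℝ) else 0))) * (O i a * O j b * O k c)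
      + ((if (0 : Fin 8) = a then (1 : ℝ) else 0) * ((if (4 : Fin 8) = b then (1 : ℝ) else 0) * (if (5 : Fin 8) = c then (1 : ℝ) else 0))) * (O i a * O j b * O k c)
      - ((if (0 : Fin 8) = a then (1 : ℝ) else 0) * ((if (5 : Fin 8) = b then (1 : ℝ) else 0) * (if (4 : Fin 8) = c then (1 : ℝ) else 0))) * (O i a * O j b * O k c)
      + ((if (0 : Fin 8) = a then (1 : ℝ) else 0) * ((if (6 : Fin 8) = b then (1 : ℝ) else 0) * (if (7 : Fin 8) = c then (1 : ℝ) else 0))) * (O i a * O j b * O k c)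
      - ((if (0 : Fin 8) = a then (1 : ℝ) else 0) * ((if (7 : Fin 8) = b then (1 : ℝ) else 0) * (if (6 : Fin 8) = c then (1 : ℝ) else 0))) * (O i a * O j b * O k c)
      + ((if (3 : Fin 8) = a then (1 : ℝ) else 0) * ((if (0 : Fin 8) = b then (1 : ℝ) else 0) * (if (2 : Fin 8) = c then (1 : ℝ) else 0))) * (O i a * O j b * O k c)
      - ((if (2 : Fin 8) = a then (1 : ℝ) else 0) * ((if (0 : Fin 8) = b then (1 : ℝ) else 0) * (if (3 : Fin 8) = c then (1 : ℝ) else 0))) * (O i a * O j b * O k c)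
      + ((if (5 : Fin 8) = a then (1 : ℝ) else 0) * ((if (0 : Fin 8) = b then (1 : ℝ) else 0) * (if (4 : Fin 8) = c then (1 : ℝ) else 0))) * (O i a * O j b * O k c)
      - ((if (4 : Fin 8) = a then (1 : ℝ) else 0) * ((if (0 : Fin 8) = b then (1 : ℝ) else 0) * (if (5 : Fin 8) = c then (1 : ℝ) else 0))) * (O i a * O j b * O k c)
      + ((if (7 : Fin 8) = a then (1 : ℝ) else 0) * ((if (0 : Fin 8) = b then (1 : ℝ) else 0) * (if (6 : Fin 8) = c then (1 : ℝ) else 0))) * (O i a * O j b * O k c)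
      - ((if (6 : Fin 8) = a then (1 : ℝ) else 0) * ((if (0 : Fin 8) = b then (1 : ℝ) else 0) * (if (7 : Fin 8) = c then (1 : ℝ) else 0))) * (O i a * O j b * O k c)
      + ((if (2 : Fin 8) = a then (1 : ℝ) else 0) * ((if (3 : Fin 8) = b then (1 : ℝ) else 0) * (if (0 : Fin 8) = c then (1 : ℝ) else 0))) * (O i a * O j b * O k c)
      - ((if (3 : Fin 8) = a then (1 : ℝ) else 0) * ((if (2 : Fin 8) = b then (1 : ℝ) else 0) * (if (0 : Fin 8) = c then (1 : ℝ) else 0))) * (O i a * O j b * O k c)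
      + ((if (4 : Fin 8) = a then (1 : ℝ) else 0) * ((if (5 : Fin 8) = b then (1 : ℝ) else 0) * (if (0 : Fin 8) = c then (1 : ℝ) else 0))) * (O i a * O j b * O k c)
      - ((if (5 : Fin 8) = a then (1 : ℝ) else 0) * ((if (4 : Fin 8) = b then (1 : ℝ) else 0) * (if (0 : Fin 8) = c then (1 : ℝ) else 0))) * (O i a * O j b * O k c)
      + ((if (6 : Fin 8) = a then (1 : ℝ) else 0) * ((if (7 : Fin 8) = b then (1 : ℝ) else 0) * (if (0 : Fin 8) = c then (1 : ℝ) else 0))) * (O i a * O j b * O k c)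
      - ((if (7 : Fin 8) = a then (1 : ℝ) else 0) * ((if (6 : Fin 8) = b then (1 : ℝ) else 0) * (if (0 : Fin 8) = c then (1 : ℝ) else 0))) * (O i a * O j b * O k c) := by
    intro a b c
    simp only [Ps]
    ring
  unfold pull3
  simp only [e, Finset.sum_add_distrib, Finset.sum_sub_distrib, cova_sum]
  unfold omg
  ring

theorem fr_Ps {u v w : V6} (h : SU3 u v w) : pull3 Ps (fr u v w) = Ps := by
  have uu := h.uu
  have vv := h.vv
  have ww := h.ww
  have uv := h.uv
  have uw := h.uw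
  have vw := h.vw
  have juv := h.juv
  have juw := h.juw
  have jvw := h.jvw
  rw [dot6] at uu vv ww uv uw vw juv juw jvw
  simp only [JV_0, JV_1, JV_2, JV_3, JV_4, JV_5] at juv juw jvw
  have h0 : ∀ i, fr u v w i 0 = if i = 0 then 1 else 0 := by
    intro i
    fin_cases i <;> simp [fr, up, d8]
  have hw : ∀ i j, omg (fr u v w i) (fr u v w j) =
      omg (fun a => if a = i then (1 : ℝ) else 0) (fun a => if a = j then (1 : ℝ) else 0) := by
    intro i j
    fin_cases i <;> fin_cases j <;>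
      simp only [omg, fr, up, d8, JV_0, JV_1, JV_2, JV_3, JV_4, JV_5,
        Fin.zero_eta, Fin.mk_one, Fin.reduceFinMk,
        Matrix.cons_val, Matrix.cons_val_zero, Matrix.cons_val_one,
        Fin.reduceEq, Fin.isValue, if_true, if_false, mul_zero, zero_mul, add_zero, zero_add,
        mul_one, sub_zero, zero_sub]
    all_goals first
      | ring1
      | linear_combination uu
      | linear_combination vv
      | linear_combination ww
      | linear_combination uv
      | linear_combination uw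
      | linear_combination vw
      | linear_combination juv
      | linear_combination juw
      | linear_combination jvw
      | linear_combination -uu
      | linear_combination -vv
      | linear_combination -ww
      | linear_combination -uv
      | linear_combination -uw
      | linear_combination -vw
      | linear_combination -juv
      | linear_combination -juw
      | linear_combination -jvw
  funext i j k
  have hid : pull3 Ps (fun i a : Fin 8 => if a = i then (1 : ℝ) else 0) i j k = Ps i j k := by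
    unfold pull3
    simp
  rw [← hid, pull3_Ps, pull3_Ps, h0, h0, h0, hw, hw, hw]
  simp only [eq_comm]

/-! ### 2-forms in a special unitary frame -/

theorem pull2_wed {n : ℕ} (O : Fin n → Fin n → ℝ) (x y : Fin n → ℝ) (i j : Fin n) :
    pull2 (fun a b => x a * y b - x b * y a) O i j
      = dotp x (O i) * dotp y (O j) - dotp y (O i) * dotp x (O j) := by
  unfold pull2 dotp
  simp only [Finset.sum_mul_sum, ← Finset.sum_sub_distrib]
  refine Finset.sum_congr rfl fun a _ => Finset.sum_congr rfl fun b _ => ?_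
  ring

theorem pull2_add {n : ℕ} (A B O : Fin n → Fin n → ℝ) :
    pull2 (A + B) O = pull2 A O + pull2 B O := by
  funext i j
  simp only [pull2, Pi.add_apply, add_mul, Finset.sum_add_distrib]

theorem pull2_sub {n : ℕ} (A B O : Fin n → Fin n → ℝ) :
    pull2 (A - B) O = pull2 A O - pull2 B O := by
  funext i j
  simp only [pull2, Pi.sub_apply, sub_mul, Finset.sum_sub_distrib]

theorem pull2_smul {n : ℕ} (c : ℝ) (A O : Fin n → Fin n → ℝ) :
    pull2 (c • A) O = c • pull2 A O := by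
  funext i j
  simp only [pull2, Pi.smul_apply, smul_eq_mul, Finset.mul_sum, mul_assoc]

/-- products of the frame vectors -/
theorem dotp_fr {u v w : V6} (h : SU3 u v w) (i j : Fin 8) :
    dotp (fr u v w i) (fr u v w j) = d8 i j := by
  have := fr_frame h i j
  unfold dotp
  rw [this]
  simp only [d8, eq_comm]

theorem pull2_wed_fr {u v w : V6} (h : SU3 u v w) (i j : Fin 8) :
    pull2 (wed (fr u v w i) (fr u v w j)) (fr u v w) = wed (d8 i) (d8 j) := by
  funext a b
  have e := pull2_wed (fr u v w) (fr u v w i) (fr u v w j) a b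
  rw [dotp_fr h, dotp_fr h, dotp_fr h, dotp_fr h] at e
  refine e.trans ?_
  unfold wed
  ring

theorem up_cf (u v w ξ : V6) : up (cf u v w ξ) = ξ 0 • fr u v w 2 + ξ 1 • fr u v w 3
    + ξ 2 • fr u v w 4 + ξ 3 • fr u v w 5 + ξ 4 • fr u v w 6 + ξ 5 • fr u v w 7 := by
  funext a
  fin_cases a <;> simp [up, cf, fr]

theorem up_bs (ξ : V6) : up ξ = ξ 0 • d8 2 + ξ 1 • d8 3
    + ξ 2 • d8 4 + ξ 3 • d8 5 + ξ 4 • d8 6 + ξ 5 • d8 7 := by
  funext a
  fin_cases a <;> simp [up, d8]

theorem wed_add_right (x y z : Fin 8 → ℝ) : wed x (y + z) = wed x y + wed x z := by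
  funext i j
  simp only [wed, Pi.add_apply]
  ring

theorem wed_smul_right (c : ℝ) (x y : Fin 8 → ℝ) : wed x (c • y) = c • wed x y := by
  funext i j
  simp only [wed, Pi.smul_apply, smul_eq_mul]
  ring

theorem fr_EE {u v w : V6} (h : SU3 u v w) (ξ : V6) :
    pull2 (EE (cf u v w ξ)) (fr u v w) = EE ξ := by
  have e0 : d8 0 = fr u v w 0 := rfl
  unfold EE
  rw [up_cf, up_bs]
  simp only [wed_add_right, wed_smul_right, pull2_add, pull2_smul]
  have e : ∀ k, pull2 (wed (d8 0) (fr u v w k)) (fr u v w) = wed (d8 0) (d8 k) :=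
    fun k => pull2_wed_fr h 0 k
  simp only [e]

theorem fr_FF {u v w : V6} (h : SU3 u v w) (ξ : V6) :
    pull2 (FF (cf u v w ξ)) (fr u v w) = FF ξ := by
  unfold FF
  rw [up_cf, up_bs]
  simp only [wed_add_right, wed_smul_right, pull2_add, pull2_smul]
  have e : ∀ k, pull2 (wed (d8 1) (fr u v w k)) (fr u v w) = wed (d8 1) (d8 k) :=
    fun k => pull2_wed_fr h 1 k
  simp only [e]

theorem CC_add (u v : V6) : CC (u + v) = CC u + CC v := by
  funext i j
  simp only [CC, Pi.add_apply, Pi.sub_apply, Pi.smul_apply, smul_eq_mul]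
  ring

theorem CC_smul (c : ℝ) (u : V6) : CC (c • u) = c • CC u := by
  funext i j
  simp only [CC, Pi.add_apply, Pi.sub_apply, Pi.smul_apply, smul_eq_mul]
  ring

theorem JV_JV (u : V6) : JV (JV u) = - u := by
  funext a
  fin_cases a <;> simp [JV]

theorem kx_JV_right (v w : V6) : kx v (JV w) = - JV (kx v w) := by
  funext a
  fin_cases a <;> simp only [Pi.neg_apply, Fin.zero_eta, Fin.mk_one, Fin.reduceFinMk,
    Fin.isValue, kx_0, kx_1, kx_2, kx_3, kx_4, kx_5, JV_0, JV_1, JV_2, JV_3, JV_4, JV_5] <;> ring1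

theorem wed_neg_right (x y : Fin 8 → ℝ) : wed x (- y) = - wed x y := by
  funext i j
  simp only [wed, Pi.neg_apply]
  ring

theorem up_neg (u : V6) : up (- u) = - up u := by
  funext a
  fin_cases a <;> simp [up]

theorem CC_JV_kx (v w : V6) :
    CC (JV (kx v w)) = - (wed (up v) (up (JV w)) + wed (up (JV v)) (up w)) := by
  have h1 := CC_kx v (JV w)
  rw [kx_JV_right] at h1
  have h2 : CC (- JV (kx v w)) = - CC (JV (kx v w)) := by
    have := CC_smul (-1) (JV (kx v w))
    simpa using this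
  rw [h2, JV_JV, up_neg, wed_neg_right] at h1
  rw [← neg_inj, h1]
  abel

theorem fr_CC {u v w : V6} (h : SU3 u v w) (ξ : V6) :
    pull2 (CC (cf u v w ξ)) (fr u v w) = CC ξ := by
  have c0 : CC u = wed (fr u v w 4) (fr u v w 6) - wed (fr u v w 5) (fr u v w 7) := by
    have := CC_kx v w
    rw [h.kvw] at this
    exact this
  have c1 : CC (JV u) = - (wed (fr u v w 4) (fr u v w 7) + wed (fr u v w 5) (fr u v w 6)) := by
    have := CC_JV_kx v w
    rw [h.kvw] at this
    exact this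
  have c2 : CC v = wed (fr u v w 6) (fr u v w 2) - wed (fr u v w 7) (fr u v w 3) := by
    have := CC_kx w u
    rw [h.kwu] at this
    exact this
  have c3 : CC (JV v) = - (wed (fr u v w 6) (fr u v w 3) + wed (fr u v w 7) (fr u v w 2)) := by
    have := CC_JV_kx w u
    rw [h.kwu] at this
    exact this
  have c4 : CC w = wed (fr u v w 2) (fr u v w 4) - wed (fr u v w 3) (fr u v w 5) := by
    have := CC_kx u v
    rw [h.kuv] at this
    exact this
  have c5 : CC (JV w) = - (wed (fr u v w 2) (fr u v w 5) + wed (fr u v w 3) (fr u v w 4)) := by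
    have := CC_JV_kx u v
    rw [h.kuv] at this
    exact this
  have hn : ∀ A : Fin 8 → Fin 8 → ℝ, pull2 (- A) (fr u v w) = - pull2 A (fr u v w) := by
    intro A
    have := pull2_smul (-1) A (fr u v w)
    simpa using this
  unfold cf
  simp only [CC_add, CC_smul, pull2_add, pull2_smul, c0, c1, c2, c3, c4, c5, hn, pull2_sub,
    pull2_wed_fr h]
  unfold CC
  simp only [smul_neg, ← sub_eq_add_neg]

end Pool.Hopf3
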