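import Pool.Agent.Lib.MP_4a593f_gt.P3.Curv
import Pool.Agent.Lib.MP_4a593f_gt.P3.Basic
import Pool.Agent.Lib.MP_4a593f_gt.P3.Frame

/-!
Curvature term on 3-forms of `ℝ⁸` under pinching: definitions.
-/

namespace Pool.Hopf3

open Finset

/-- `R(u,v,w,z)` -/
def ev4 {n : ℕ} (R : Fin n → Fin n → Fin n → Fin n → ℝ) (u v w z : Fin n → ℝ) : ℝ :=
  ∑ i, ∑ j, ∑ k, ∑ l, R i j k l * u i * v j * w k * z l

/-- Euclidean inner product -/
def dotp {n : ℕ} (u v : Fin n → ℝ) : ℝ := ∑ i, u i * v i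

/-- all sectional curvatures of `R` lie in `[lo, hi]` -/
def SecIn {n : ℕ} (R : Fin n → Fin n → Fin n → Fin n → ℝ) (lo hi : ℝ) : Prop :=
  ∀ u v : Fin n → ℝ, lo * (dotp u u * dotp v v - dotp u v ^ 2) ≤ ev4 R u v u v ∧
    ev4 R u v u v ≤ hi * (dotp u u * dotp v v - dotp u v ^ 2)

/-- the curvature term as a bilinear form, `wz R φ φ = ½ bochner R φ` -/
noncomputable def wz {n : ℕ} (R : Fin n → Fin n → Fin n → Fin n → ℝ)
    (φ ψ : Fin n → Fin n → Fin n → ℝ) : ℝ :=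
  ∑ p : Pr n, ∑ q : Pr n, R p.1.1 p.1.2 q.1.1 q.1.2 * ip3 (rho (el p) φ) (rho (el q) ψ)

/-- minus the second variation of `⟨χ, ·⟩` at `Ω` in the directions `L`, `M` -/
noncomputable def sv {ι : Type} [Fintype ι] (χ Ω : ι → ι → ι → ℝ) (L M : ι → ι → ℝ) : ℝ :=
  - ip3 χ (rho L (rho M Ω))

/-- the pairing of `R` with `sv χ Ω` -/
noncomputable def prsv {n : ℕ} (R : Fin n → Fin n → Fin n → Fin n → ℝ)
    (χ Ω : Fin n → Fin n → Fin n → ℝ) : ℝ :=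
  ∑ p : Pr n, ∑ q : Pr n, R p.1.1 p.1.2 q.1.1 q.1.2 * sv χ Ω (el p) (el q)

/-- components of `R` in the frame `O` -/
def pullR {n : ℕ} (R : Fin n → Fin n → Fin n → Fin n → ℝ) (O : Fin n → Fin n → ℝ) :
    Fin n → Fin n → Fin n → Fin n → ℝ :=
  fun i j k l => ev4 R (O i) (O j) (O k) (O l)

/-- The form `e_0 ∧ (e_2∧e_3 + e_4∧e_5 + e_6∧e_7)` on `ℝ⁸`. -/
def Ps (i j k : Fin 8) : ℝ :=
  let d : Fin 8 → Fin 8 → ℝ := fun a b => if a = b then 1 else 0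
  let w : Fin 8 → Fin 8 → ℝ := fun a b =>
    (d 2 a * d 3 b - d 3 a * d 2 b) + (d 4 a * d 5 b - d 5 a * d 4 b)
      + (d 6 a * d 7 b - d 7 a * d 6 b)
  d 0 i * w j k + d 0 j * w k i + d 0 k * w i j

/-- The frame of `χ` maximises the pairing with the test form `Ω` among all frames. -/
structure TopAt {n : ℕ} (χ Ω : Fin n → Fin n → Fin n → ℝ) : Prop where
  form : Form3 χ
  glob : ∀ P : Fin n → Fin n → ℝ, IsFrame P → ip3 (pull3 χ P) Ω ≤ ip3 χ Ω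
  first : ∀ M : Fin n → Fin n → ℝ, Skew M → ip3 χ (rho M Ω) = 0
  second : ∀ M : Fin n → Fin n → ℝ, Skew M → 0 ≤ sv χ Ω M M

end Pool.Hopf3
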