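import Pool.Agent.Lib.MP_4a593f_gt.E83.Defs
import Pool.Agent.Lib.MP_4a593f_gt.P3.TrB

/-!
Existence of a 3-form attaining the least eigenvalue of the curvature term.
-/

namespace Pool.Hopf3

open Finset

theorem wz_self {n : ℕ} {R : Fin n → Fin n → Fin n → Fin n → ℝ} (hR : IsCurvature R)
    {φ : Fin n → Fin n → Fin n → ℝ} (hφ : Form3 φ) : wz R φ φ = 1 / 2 * bochner R φ :=
  bochner_eq hR hφ

theorem wz_symm {n : ℕ} {R : Fin n → Fin n → Fin n → Fin n → ℝ} (hR : IsCurvature R)
    (φ ψ : Fin n → Fin n → Fin n → ℝ) : wz R φ ψ = wz R ψ φ := by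
  unfold wz
  rw [Finset.sum_comm]
  refine Finset.sum_congr rfl fun p _ => Finset.sum_congr rfl fun q _ => ?_
  rw [hR.pair p.1.1 p.1.2 q.1.1 q.1.2, ip3_comm]

theorem wz_add_left {n : ℕ} (R : Fin n → Fin n → Fin n → Fin n → ℝ)
    (φ φ' ψ : Fin n → Fin n → Fin n → ℝ) : wz R (φ + φ') ψ = wz R φ ψ + wz R φ' ψ := by
  unfold wz
  simp only [rho_add, ip3_add_left, mul_add, Finset.sum_add_distrib]

theorem wz_smul_left {n : ℕ} (R : Fin n → Fin n → Fin n → Fin n → ℝ) (c : ℝ)
    (φ ψ : Fin n → Fin n → Fin n → ℝ) : wz R (c • φ) ψ = c * wz R φ ψ := by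
  unfold wz
  simp only [rho_smul, ip3_smul_left, Finset.mul_sum]
  refine Finset.sum_congr rfl fun p _ => Finset.sum_congr rfl fun q _ => ?_
  ring

private theorem eig_wz_add_right {n : ℕ} (R : Fin n → Fin n → Fin n → Fin n → ℝ)
    (φ ψ ψ' : Fin n → Fin n → Fin n → ℝ) : wz R φ (ψ + ψ') = wz R φ ψ + wz R φ ψ' := by
  unfold wz
  simp only [rho_add, ip3_add_right, mul_add, Finset.sum_add_distrib]

private theorem eig_wz_smul_right {n : ℕ} (R : Fin n → Fin n → Fin n → Fin n → ℝ) (c : ℝ)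
    (φ ψ : Fin n → Fin n → Fin n → ℝ) : wz R φ (c • ψ) = c * wz R φ ψ := by
  unfold wz
  simp only [rho_smul, ip3_smul_right, Finset.mul_sum]
  refine Finset.sum_congr rfl fun p _ => Finset.sum_congr rfl fun q _ => ?_
  ring

private theorem eig_zero_of_ip3 {n : ℕ} {φ : Fin n → Fin n → Fin n → ℝ} (h : ip3 φ φ = 0) :
    φ = 0 := by
  funext i j k
  have h1 : ∑ i, ∑ j, ∑ k, φ i j k * φ i j k = 0 := by
    unfold ip3 at h
    linarith
  have h2 := (Finset.sum_eq_zero_iff_of_nonneg (fun i _ => Finset.sum_nonneg fun j _ =>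
    Finset.sum_nonneg fun k _ => mul_self_nonneg (φ i j k))).1 h1 i (Finset.mem_univ _)
  have h3 := (Finset.sum_eq_zero_iff_of_nonneg (fun j _ =>
    Finset.sum_nonneg fun k _ => mul_self_nonneg (φ i j k))).1 h2 j (Finset.mem_univ _)
  have h4 := (Finset.sum_eq_zero_iff_of_nonneg (fun k _ =>
    mul_self_nonneg (φ i j k))).1 h3 k (Finset.mem_univ _)
  exact mul_self_eq_zero.1 h4

private theorem eig_comp_le {n : ℕ} (φ : Fin n → Fin n → Fin n → ℝ) (i j k : Fin n) :
    φ i j k ^ 2 ≤ 6 * ip3 φ φ := by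
  have h0 : φ i j k * φ i j k ≤ ∑ k, φ i j k * φ i j k :=
    Finset.single_le_sum (f := fun k => φ i j k * φ i j k) (fun k _ => mul_self_nonneg (φ i j k))
      (Finset.mem_univ k)
  have h1 : ∑ k, φ i j k * φ i j k ≤ ∑ j, ∑ k, φ i j k * φ i j k :=
    Finset.single_le_sum (f := fun j => ∑ k, φ i j k * φ i j k)
      (fun j _ => Finset.sum_nonneg fun k _ => mul_self_nonneg (φ i j k)) (Finset.mem_univ j)
  have h2 : ∑ j, ∑ k, φ i j k * φ i j k ≤ ∑ i, ∑ j, ∑ k, φ i j k * φ i j k :=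
    Finset.single_le_sum (f := fun i => ∑ j, ∑ k, φ i j k * φ i j k)
      (fun i _ => Finset.sum_nonneg fun j _ => Finset.sum_nonneg fun k _ =>
        mul_self_nonneg (φ i j k)) (Finset.mem_univ i)
  have h3 : 6 * ip3 φ φ = ∑ i, ∑ j, ∑ k, φ i j k * φ i j k := by
    unfold ip3
    ring
  rw [h3, pow_two]
  linarith

private theorem eig_cont_ip3 {n : ℕ} :
    Continuous fun φ : Fin n → Fin n → Fin n → ℝ => ip3 φ φ := by
  unfold ip3
  fun_prop

private theorem eig_cont_rho {n : ℕ} (L : Fin n → Fin n → ℝ) :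
    Continuous fun φ : Fin n → Fin n → Fin n → ℝ => rho L φ := by
  refine continuous_pi fun i => continuous_pi fun j => continuous_pi fun k => ?_
  unfold rho
  fun_prop

private theorem eig_cont_wz {n : ℕ} (R : Fin n → Fin n → Fin n → Fin n → ℝ) :
    Continuous fun φ : Fin n → Fin n → Fin n → ℝ => wz R φ φ := by
  unfold wz
  refine continuous_finsetSum _ fun p _ => continuous_finsetSum _ fun q _ => ?_
  refine continuous_const.mul ?_
  have h1 := eig_cont_rho (el p)
  have h2 := eig_cont_rho (el q)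
  unfold ip3
  refine continuous_const.mul ?_
  refine continuous_finsetSum _ fun i _ => continuous_finsetSum _ fun j _ =>
    continuous_finsetSum _ fun k _ => ?_
  exact (((continuous_apply k).comp ((continuous_apply j).comp
    ((continuous_apply i).comp h1)))).mul
    (((continuous_apply k).comp ((continuous_apply j).comp ((continuous_apply i).comp h2))))

/-- The minimum of the Rayleigh quotient is attained at an eigenform. (If there is a nonzero
3-form.) -/
theorem exists_min_eig {n : ℕ} {R : Fin n → Fin n → Fin n → Fin n → ℝ} (hR : IsCurvature R)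
    {ψ : Fin n → Fin n → Fin n → ℝ} (hψ : Form3 ψ) (h0 : 0 < ip3 ψ ψ) :
    ∃ (φ : Fin n → Fin n → Fin n → ℝ) (lam : ℝ), Form3 φ ∧ ip3 φ φ = 1 ∧
      (∀ η, Form3 η → wz R φ η = lam * ip3 φ η) ∧
      ∀ η, Form3 η → lam * ip3 η η ≤ wz R η η := by
  set S : Set (Fin n → Fin n → Fin n → ℝ) := {φ | Form3 φ ∧ ip3 φ φ = 1} with hS
  have hclosed : IsClosed S := by
    have e : S = (⋂ i, ⋂ j, ⋂ k, {φ : Fin n → Fin n → Fin n → ℝ | φ j i k = - φ i j k}) ∩
        ((⋂ i, ⋂ j, ⋂ k, {φ : Fin n → Fin n → Fin n → ℝ | φ i k j = - φ i j k}) ∩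
        {φ | ip3 φ φ = 1}) := by
      ext φ
      simp only [hS, Set.mem_ofPred_eq, Set.mem_inter_iff, Set.mem_iInter]
      constructor
      · rintro ⟨h1, h2⟩
        exact ⟨h1.s12, h1.s23, h2⟩
      · rintro ⟨h1, h2, h3⟩
        exact ⟨⟨h1, h2⟩, h3⟩
    rw [e]
    refine IsClosed.inter ?_ (IsClosed.inter ?_ ?_)
    · refine isClosed_iInter fun i => isClosed_iInter fun j => isClosed_iInter fun k => ?_
      exact isClosed_eq (by fun_prop) (by fun_prop)
    · refine isClosed_iInter fun i => isClosed_iInter fun j => isClosed_iInter fun k => ?_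
      exact isClosed_eq (by fun_prop) (by fun_prop)
    · exact isClosed_eq eig_cont_ip3 continuous_const
  have hbdd : Bornology.IsBounded S := by
    refine (Metric.isBounded_closedBall (x := (0 : Fin n → Fin n → Fin n → ℝ)) (r := 3)).subset ?_
    intro φ hφ
    rw [mem_closedBall_zero_iff]
    refine (pi_norm_le_iff_of_nonneg (by norm_num)).2 fun i =>
      (pi_norm_le_iff_of_nonneg (by norm_num)).2 fun j =>
      (pi_norm_le_iff_of_nonneg (by norm_num)).2 fun k => ?_
    have h1 := eig_comp_le φ i j k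
    rw [hφ.2] at h1
    rw [Real.norm_eq_abs]
    exact abs_le_of_sq_le_sq (by nlinarith) (by norm_num)
  have hcpt : IsCompact S := Metric.isCompact_of_isClosed_isBounded hclosed hbdd
  have hne : S.Nonempty := by
    refine ⟨(Real.sqrt (ip3 ψ ψ))⁻¹ • ψ, hψ.smul _, ?_⟩
    rw [ip3_smul_left, ip3_smul_right]
    have h1 : Real.sqrt (ip3 ψ ψ) ≠ 0 := (Real.sqrt_pos.2 h0).ne'
    have h2 : Real.sqrt (ip3 ψ ψ) * Real.sqrt (ip3 ψ ψ) = ip3 ψ ψ := Real.mul_self_sqrt h0.le
    field_simp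
    nlinarith
  obtain ⟨φ, hφ, hmin⟩ := hcpt.exists_isMinOn hne (eig_cont_wz R).continuousOn
  have hall : ∀ η, Form3 η → wz R φ φ * ip3 η η ≤ wz R η η := by
    intro η hη
    rcases (ip3_self_nonneg η).eq_or_lt with h | h
    · have h1 := eig_zero_of_ip3 h.symm
      subst h1
      have h2 : wz R (0 : Fin n → Fin n → Fin n → ℝ) 0 = 0 := by
        have := wz_smul_left R 0 (0 : Fin n → Fin n → Fin n → ℝ) 0
        simpa using this
      rw [h2, ← h]
      simp
    · have h1 : Real.sqrt (ip3 η η) ≠ 0 := (Real.sqrt_pos.2 h).ne'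
      have h2 : Real.sqrt (ip3 η η) * Real.sqrt (ip3 η η) = ip3 η η := Real.mul_self_sqrt h.le
      have hmem : (Real.sqrt (ip3 η η))⁻¹ • η ∈ S := by
        refine ⟨hη.smul _, ?_⟩
        rw [ip3_smul_left, ip3_smul_right]
        field_simp
        nlinarith
      have h3 := hmin hmem
      simp only [Set.mem_ofPred_eq] at h3
      rw [wz_smul_left, eig_wz_smul_right] at h3
      have h4 : (Real.sqrt (ip3 η η))⁻¹ * ((Real.sqrt (ip3 η η))⁻¹ * wz R η η)
          = wz R η η / ip3 η η := by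
        rw [eq_div_iff h.ne']
        calc (Real.sqrt (ip3 η η))⁻¹ * ((Real.sqrt (ip3 η η))⁻¹ * wz R η η) * ip3 η η
            = (Real.sqrt (ip3 η η))⁻¹ * ((Real.sqrt (ip3 η η))⁻¹ * wz R η η) *
              (Real.sqrt (ip3 η η) * Real.sqrt (ip3 η η)) := by rw [h2]
          _ = wz R η η := by
            field_simp
      rw [h4, le_div_iff₀ h] at h3
      exact h3
  refine ⟨φ, wz R φ φ, hφ.1, hφ.2, ?_, hall⟩
  intro η hη
  -- the derivative at the minimum vanishes
  set A : ℝ := wz R φ η - wz R φ φ * ip3 φ η with hA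
  set B : ℝ := wz R η η - wz R φ φ * ip3 η η with hB
  have hB0 : 0 ≤ B := by
    have := hall η hη
    linarith
  have hq : ∀ t : ℝ, 0 ≤ 2 * t * A + t ^ 2 * B := by
    intro t
    have h1 := hall (φ + t • η) (hφ.1.add (hη.smul t))
    rw [wz_add_left, eig_wz_add_right, eig_wz_add_right, wz_smul_left, wz_smul_left,
      eig_wz_smul_right, eig_wz_smul_right, ip3_add_left, ip3_add_right, ip3_add_right,
      ip3_smul_left, ip3_smul_left, ip3_smul_right, ip3_smul_right, hφ.2,
      wz_symm hR η φ, ip3_comm η φ] at h1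
    simp only [hA, hB]
    nlinarith
  have hA0 : A = 0 := by
    have h1 := hq (-A / (B + 1))
    have hB1 : 0 < B + 1 := by linarith
    have h2 : 2 * (-A / (B + 1)) * A + (-A / (B + 1)) ^ 2 * B
        = - (A ^ 2 * (B + 2)) / (B + 1) ^ 2 := by
      field_simp
      ring
    rw [h2] at h1
    have h3 : 0 < (B + 1) ^ 2 := by positivity
    have h4 : 0 ≤ - (A ^ 2 * (B + 2)) := by
      by_contra hcon
      push Not at hcon
      exact absurd h1 (not_le.2 (div_neg_of_neg_of_pos hcon h3))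
    have h5 : A ^ 2 * (B + 2) ≤ 0 := by linarith
    have h6 : A ^ 2 ≤ 0 := by nlinarith [sq_nonneg A]
    exact pow_eq_zero_iff (two_ne_zero) |>.1 (le_antisymm h6 (sq_nonneg A))
  rw [hA] at hA0
  linarith

end Pool.Hopf3
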