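import Pool.Agent.Lib.MP_4a593f_gt.E83.Defs

/-!
Forms with a given top frame make up a convex cone; adding a small multiple of the test form.
-/

namespace Pool.Hopf3

open Finset

private theorem eps_ip3 {n : ℕ} (χ η Ω : Fin n → Fin n → Fin n → ℝ) (ε : ℝ) :
    ip3 (fun i j k => χ i j k + ε * η i j k) Ω = ip3 χ Ω + ε * ip3 η Ω := by
  unfold ip3
  simp only [add_mul, Finset.sum_add_distrib, mul_assoc, ← Finset.mul_sum]
  ring

private theorem eps_pull3 {n : ℕ} (χ η : Fin n → Fin n → Fin n → ℝ) (ε : ℝ)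
    (O : Fin n → Fin n → ℝ) :
    pull3 (fun i j k => χ i j k + ε * η i j k) O
      = fun i j k => pull3 χ O i j k + ε * pull3 η O i j k := by
  funext i j k
  unfold pull3
  simp only [add_mul, Finset.sum_add_distrib, mul_assoc, ← Finset.mul_sum]

theorem sv_add_eps {n : ℕ} (χ η Ω : Fin n → Fin n → Fin n → ℝ) (ε : ℝ)
    (L M : Fin n → Fin n → ℝ) :
    sv (fun i j k => χ i j k + ε * η i j k) Ω L M = sv χ Ω L M + ε * sv η Ω L M := by
  unfold sv
  rw [eps_ip3]
  ring

/-- The forms with top frame the standard frame make up a convex cone. -/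
theorem topAt_add {n : ℕ} {χ η Ω : Fin n → Fin n → Fin n → ℝ} (h : TopAt χ Ω)
    (h' : TopAt η Ω) {ε : ℝ} (hε : 0 ≤ ε) : TopAt (fun i j k => χ i j k + ε * η i j k) Ω where
  form := ⟨fun i j k => by rw [h.form.s12, h'.form.s12]; ring,
    fun i j k => by rw [h.form.s23, h'.form.s23]; ring⟩
  glob := fun P hP => by
    rw [eps_pull3, eps_ip3, eps_ip3]
    exact add_le_add (h.glob P hP) (mul_le_mul_of_nonneg_left (h'.glob P hP) hε)
  first := fun M hM => by rw [eps_ip3, h.first M hM, h'.first M hM]; ring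
  second := fun M hM => by
    rw [sv_add_eps]
    exact add_nonneg (h.second M hM) (mul_nonneg hε (h'.second M hM))

theorem prsv_add_eps {n : ℕ} (R : Fin n → Fin n → Fin n → Fin n → ℝ)
    (χ η Ω : Fin n → Fin n → Fin n → ℝ) (ε : ℝ) :
    prsv R (fun i j k => χ i j k + ε * η i j k) Ω = prsv R χ Ω + ε * prsv R η Ω := by
  unfold prsv
  simp only [sv_add_eps, mul_add, Finset.sum_add_distrib, Finset.mul_sum]
  congr 1
  refine Finset.sum_congr rfl fun p _ => Finset.sum_congr rfl fun q _ => ?_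
  ring

/-- It is enough to prove a linear lower bound after adding a small multiple of the test form. -/
theorem core_of_eps {n : ℕ} {c : ℝ} {R : Fin n → Fin n → Fin n → Fin n → ℝ}
    {χ η Ω : Fin n → Fin n → Fin n → ℝ}
    (h : ∀ ε : ℝ, 0 < ε → -c * ip3 (fun i j k => χ i j k + ε * η i j k) Ω
      ≤ prsv R (fun i j k => χ i j k + ε * η i j k) Ω) :
    -c * ip3 χ Ω ≤ prsv R χ Ω := by
  refine le_of_forall_pos_le_add fun δ hδ => ?_
  set a := prsv R η Ω + c * ip3 η Ω with ha
  have hpos : 0 < δ / (|a| + 1) := by positivity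
  have h1 := h (δ / (|a| + 1)) hpos
  rw [eps_ip3, prsv_add_eps] at h1
  have h2 : δ / (|a| + 1) * a ≤ δ := by
    have h3 : δ / (|a| + 1) * a ≤ δ / (|a| + 1) * (|a| + 1) :=
      mul_le_mul_of_nonneg_left (by linarith [le_abs_self a]) hpos.le
    rwa [div_mul_cancel₀ _ (by positivity)] at h3
  have h4 : δ / (|a| + 1) * a = δ / (|a| + 1) * prsv R η Ω + c * (δ / (|a| + 1) * ip3 η Ω) := by
    rw [ha]; ring
  linarith

end Pool.Hopf3
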