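import Pool.Agent.Lib.MP_4a593f_gt.E83.NFa0

/-!
Entries of the second variation at a top form: tables.
-/

namespace Pool.Hopf3

open Finset Matrix

private theorem nfb_rho_wed (p q : Fin 8) (η : Fin 8 → Fin 8 → Fin 8 → ℝ) (i j k : Fin 8) :
    rho (wed (d8 p) (d8 q)) η i j k
      = (if i = p then η q j k else 0) - (if i = q then η p j k else 0)
        + ((if j = p then η i q k else 0) - (if j = q then η i p k else 0))
        + ((if k = p then η i j q else 0) - (if k = q then η i j p else 0)) := by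
  unfold rho wed d8
  rw [Finset.sum_add_distrib, Finset.sum_add_distrib]
  have key : ∀ (x : Fin 8) (g : Fin 8 → ℝ),
      ∑ t, ((if x = p then (1 : ℝ) else 0) * (if t = q then 1 else 0)
        - (if t = p then 1 else 0) * (if x = q then 1 else 0)) * g t
      = (if x = p then g q else 0) - (if x = q then g p else 0) := by
    intro x g
    simp only [sub_mul, Finset.sum_sub_distrib, ite_mul, mul_ite, mul_one, mul_zero, one_mul,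
      zero_mul]
    by_cases h1 : x = p <;> by_cases h2 : x = q <;> simp [h1, h2]
  rw [key i (fun t => η t j k), key j (fun t => η i t k), key k (fun t => η i j t)]

private theorem nfb_wed_skew (u v : Fin 8 → ℝ) : Skew (wed u v) := by
  intro i j
  unfold wed
  ring

/-- entries of the second variation -/
private noncomputable def tt (χ : Fin 8 → Fin 8 → Fin 8 → ℝ) (i j k l : Fin 8) : ℝ :=
  sv χ Ps (wed (d8 i) (d8 j)) (wed (d8 k) (d8 l))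

private theorem tt_eq {χ : Fin 8 → Fin 8 → Fin 8 → ℝ} (h : Form3 χ) (i j k l : Fin 8) :
    tt χ i j k l = - (rho (wed (d8 k) (d8 l)) (rho (wed (d8 i) (d8 j)) χ) 0 2 3
      + rho (wed (d8 k) (d8 l)) (rho (wed (d8 i) (d8 j)) χ) 0 4 5
      + rho (wed (d8 k) (d8 l)) (rho (wed (d8 i) (d8 j)) χ) 0 6 7) :=
  sv_eq h (nfb_wed_skew _ _) (nfb_wed_skew _ _)

private theorem srt12 {χ : Fin 8 → Fin 8 → Fin 8 → ℝ} (h : Form3 χ) (i j k : Fin 8)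
    (_ : j < i) : χ i j k = - χ j i k := h.s12 j i k

private theorem srt23 {χ : Fin 8 → Fin 8 → Fin 8 → ℝ} (h : Form3 χ) (i j k : Fin 8)
    (_ : k < j) : χ i j k = - χ i k j := h.s23 i k j

private theorem dg12 {χ : Fin 8 → Fin 8 → Fin 8 → ℝ} (h : Form3 χ) (i k : Fin 8) :
    χ i i k = 0 := by
  have := h.s12 i i k
  linarith

private theorem dg23 {χ : Fin 8 → Fin 8 → Fin 8 → ℝ} (h : Form3 χ) (i k : Fin 8) :
    χ k i i = 0 := by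
  have := h.s23 k i i
  linarith

/-- first order conditions, sorted, as rewriting rules -/
private structure Srt (χ : Fin 8 → Fin 8 → Fin 8 → ℝ) : Prop where
  f2 : χ 0 1 2 = 0
  f3 : χ 0 1 3 = 0
  f4 : χ 0 1 4 = 0
  f5 : χ 0 1 5 = 0
  f6 : χ 0 1 6 = 0
  f7 : χ 0 1 7 = 0
  v2 : χ 2 6 7 = - χ 2 4 5
  v3 : χ 3 6 7 = - χ 3 4 5
  v4 : χ 4 6 7 = - χ 2 3 4
  v5 : χ 5 6 7 = - χ 2 3 5
  v6 : χ 4 5 6 = - χ 2 3 6
  v7 : χ 4 5 7 = - χ 2 3 7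
  ef : χ 1 6 7 = - χ 1 2 3 - χ 1 4 5
  c0 : χ 0 5 7 = χ 0 4 6
  c1 : χ 0 5 6 = - χ 0 4 7
  c2 : χ 0 3 7 = χ 0 2 6
  c3 : χ 0 3 6 = - χ 0 2 7
  c4 : χ 0 3 5 = χ 0 2 4
  c5 : χ 0 3 4 = - χ 0 2 5

private theorem srt_of_top {χ : Fin 8 → Fin 8 → Fin 8 → ℝ} (h : TopAt χ Ps) : Srt χ := by
  have hF := first_of_top h
  have hf := h.form
  have v0 := hF.ev 0
  have v1 := hF.ev 1
  have v2 := hF.ev 2
  have v3 := hF.ev 3
  have v4 := hF.ev 4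
  have v5 := hF.ev 5
  have ef := hF.ef
  have c0 := hF.c0
  have c1 := hF.c1
  have c2 := hF.c2
  have c3 := hF.c3
  have c4 := hF.c4
  have c5 := hF.c5
  have f0 := hF.fv 0
  have f1 := hF.fv 1
  have f2 := hF.fv 2
  have f3 := hF.fv 3
  have f4 := hF.fv 4
  have f5 := hF.fv 5
  have e0 : i6 0 = 2 := rfl
  have e1 : i6 1 = 3 := rfl
  have e2 : i6 2 = 4 := rfl
  have e3 : i6 3 = 5 := rfl
  have e4 : i6 4 = 6 := rfl
  have e5 : i6 5 = 7 := rfl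
  simp only [e0, e1, e2, e3, e4, e5] at v0 v1 v2 v3 v4 v5 f0 f1 f2 f3 f4 f5
  simp (disch := decide) only [srt12 hf, srt23 hf, dg12 hf, dg23 hf, neg_neg] at v0 v1 v2 v3 v4 v5 c0 c1 c2 c3 c4 c5
  refine ⟨f0, f1, f2, f3, f4, f5, ?_, ?_, ?_, ?_, ?_, ?_, ?_, ?_, ?_, ?_, ?_, ?_, ?_⟩ <;> linarith

private theorem up_bs (a : Fin 6) : up (bs a) = d8 (i6 a) := by
  fin_cases a <;> (funext i; fin_cases i <;> simp [up, bs, d8, i6])

private theorem EE_bs (a : Fin 6) : EE (bs a) = wed (d8 0) (d8 (i6 a)) := by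
  rw [EE, up_bs]

private theorem FF_bs (a : Fin 6) : FF (bs a) = wed (d8 1) (d8 (i6 a)) := by
  rw [FF, up_bs]

private def cp : Fin 6 → Fin 8 := ![4, 4, 6, 6, 2, 2]
private def cq : Fin 6 → Fin 8 := ![6, 7, 2, 3, 4, 5]
private def cr : Fin 6 → Fin 8 := ![5, 5, 7, 7, 3, 3]
private def cs : Fin 6 → Fin 8 := ![7, 6, 3, 2, 5, 4]
private def cg : Fin 6 → ℝ := ![1, -1, 1, -1, 1, -1]

private theorem CC_bs (a : Fin 6) :
    CC (bs a) = cg a • wed (d8 (cp a)) (d8 (cq a)) + (-1 : ℝ) • wed (d8 (cr a)) (d8 (cs a)) := by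
  unfold CC
  fin_cases a <;> simp [bs, cg, cp, cq, cr, cs] <;> module

/-- table of `Dm` -/
def dt (χ : Fin 8 → Fin 8 → Fin 8 → ℝ) : M6 :=
  !![χ 0 4 5 + χ 0 6 7, 0, -χ 0 2 5, χ 0 2 4, -χ 0 2 7, χ 0 2 6;
     0, χ 0 4 5 + χ 0 6 7, -χ 0 2 4, -χ 0 2 5, -χ 0 2 6, -χ 0 2 7;
     -χ 0 2 5, -χ 0 2 4, χ 0 2 3 + χ 0 6 7, 0, -χ 0 4 7, χ 0 4 6;
     χ 0 2 4, -χ 0 2 5, 0, χ 0 2 3 + χ 0 6 7, -χ 0 4 6, -χ 0 4 7;
     -χ 0 2 7, -χ 0 2 6, -χ 0 4 7, -χ 0 4 6, χ 0 2 3 + χ 0 4 5, 0;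
     χ 0 2 6, -χ 0 2 7, χ 0 4 6, -χ 0 4 7, 0, χ 0 2 3 + χ 0 4 5]

theorem Dm_tab {χ : Fin 8 → Fin 8 → Fin 8 → ℝ} (h : TopAt χ Ps) (a b : Fin 6) :
    Dm χ a b = dt χ a b := by
  have hs := srt_of_top h
  have hf := h.form
  have e : Dm χ a b = tt χ 0 (i6 a) 0 (i6 b) := by
    show sv χ Ps (EE (bs a)) (EE (bs b)) = _
    rw [EE_bs, EE_bs]
    rfl
  rw [e]
  unfold dt
  fin_cases a <;> fin_cases b <;> (simp (disch := decide) only [tt_eq hf, nfb_rho_wed, i6, cp, cq, cr, cs, cg, Fin.isValue,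
        Fin.reduceEq, Fin.zero_eta, Fin.mk_one, Fin.reduceFinMk, if_true, if_false, Matrix.cons_val,
        Matrix.cons_val_zero, Matrix.cons_val_one, Matrix.of_apply,
        srt12 hf, srt23 hf, dg12 hf, dg23 hf, neg_neg, neg_zero, sub_zero, zero_sub, add_zero,
        zero_add, hs.f2, hs.f3, hs.f4, hs.f5, hs.f6, hs.f7, hs.v2, hs.v3,
        hs.v4, hs.v5, hs.v6, hs.v7, hs.ef, hs.c0, hs.c1, hs.c2, hs.c3,
        hs.c4, hs.c5]) <;> ring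

/-- table of `Zm` -/
def zt (χ : Fin 8 → Fin 8 → Fin 8 → ℝ) : M6 :=
  !![-χ 1 2 3, 0, -χ 1 2 5, χ 1 2 4, -χ 1 2 7, χ 1 2 6;
     0, -χ 1 2 3, -χ 1 3 5, χ 1 3 4, -χ 1 3 7, χ 1 3 6;
     χ 1 3 4, -χ 1 2 4, -χ 1 4 5, 0, -χ 1 4 7, χ 1 4 6;
     χ 1 3 5, -χ 1 2 5, 0, -χ 1 4 5, -χ 1 5 7, χ 1 5 6;
     χ 1 3 6, -χ 1 2 6, χ 1 5 6, -χ 1 4 6, χ 1 2 3 + χ 1 4 5, 0;
     χ 1 3 7, -χ 1 2 7, χ 1 5 7, -χ 1 4 7, 0, χ 1 2 3 + χ 1 4 5]

theorem Zm_tab {χ : Fin 8 → Fin 8 → Fin 8 → ℝ} (h : TopAt χ Ps) (a b : Fin 6) :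
    Zm χ a b = zt χ a b := by
  have hs := srt_of_top h
  have hf := h.form
  have e : Zm χ a b = tt χ 0 (i6 a) 1 (i6 b) := by
    show sv χ Ps (EE (bs a)) (FF (bs b)) = _
    rw [EE_bs, FF_bs]
    rfl
  rw [e]
  unfold zt
  fin_cases a <;> fin_cases b <;> (simp (disch := decide) only [tt_eq hf, nfb_rho_wed, i6, cp, cq, cr, cs, cg, Fin.isValue,
        Fin.reduceEq, Fin.zero_eta, Fin.mk_one, Fin.reduceFinMk, if_true, if_false, Matrix.cons_val,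
        Matrix.cons_val_zero, Matrix.cons_val_one, Matrix.of_apply,
        srt12 hf, srt23 hf, dg12 hf, dg23 hf, neg_neg, neg_zero, sub_zero, zero_sub, add_zero,
        zero_add, hs.f2, hs.f3, hs.f4, hs.f5, hs.f6, hs.f7, hs.v2, hs.v3,
        hs.v4, hs.v5, hs.v6, hs.v7, hs.ef, hs.c0, hs.c1, hs.c2, hs.c3,
        hs.c4, hs.c5]) <;> ring

/-- table of `sv (EE a) (CC b)` -/
def et (χ : Fin 8 → Fin 8 → Fin 8 → ℝ) : M6 :=
  !![2 * χ 2 4 7 + 2 * χ 2 5 6, 2 * χ 2 4 6 - 2 * χ 2 5 7, -2 * χ 2 3 6, 2 * χ 2 3 7,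
      2 * χ 2 3 4, -2 * χ 2 3 5;
     2 * χ 3 4 7 + 2 * χ 3 5 6, 2 * χ 3 4 6 - 2 * χ 3 5 7, 2 * χ 2 3 7, 2 * χ 2 3 6,
      -2 * χ 2 3 5, -2 * χ 2 3 4;
     -2 * χ 2 3 6, 2 * χ 2 3 7, 2 * χ 2 4 7 + 2 * χ 3 4 6, 2 * χ 2 4 6 - 2 * χ 3 4 7,
      -2 * χ 2 4 5, 2 * χ 3 4 5;
     2 * χ 2 3 7, 2 * χ 2 3 6, 2 * χ 2 5 7 + 2 * χ 3 5 6, 2 * χ 2 5 6 - 2 * χ 3 5 7,
      2 * χ 3 4 5, 2 * χ 2 4 5;
     2 * χ 2 3 4, -2 * χ 2 3 5, -2 * χ 2 4 5, 2 * χ 3 4 5, 2 * χ 2 5 6 + 2 * χ 3 4 6,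
      2 * χ 2 4 6 - 2 * χ 3 5 6;
     -2 * χ 2 3 5, -2 * χ 2 3 4, 2 * χ 3 4 5, 2 * χ 2 4 5, 2 * χ 2 5 7 + 2 * χ 3 4 7,
      2 * χ 2 4 7 - 2 * χ 3 5 7]

theorem EC_tab {χ : Fin 8 → Fin 8 → Fin 8 → ℝ} (h : TopAt χ Ps) (a b : Fin 6) :
    sv χ Ps (EE (bs a)) (CC (bs b)) = et χ a b := by
  have hs := srt_of_top h
  have hf := h.form
  have e : sv χ Ps (EE (bs a)) (CC (bs b))
      = cg b * tt χ 0 (i6 a) (cp b) (cq b) + (-1) * tt χ 0 (i6 a) (cr b) (cs b) := by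
    rw [EE_bs, CC_bs, sv_add_right, sv_smul_right, sv_smul_right]
    rfl
  rw [e]
  unfold et
  fin_cases a <;> fin_cases b <;> (simp (disch := decide) only [tt_eq hf, nfb_rho_wed, i6, cp, cq, cr, cs, cg, Fin.isValue,
        Fin.reduceEq, Fin.zero_eta, Fin.mk_one, Fin.reduceFinMk, if_true, if_false, Matrix.cons_val,
        Matrix.cons_val_zero, Matrix.cons_val_one, Matrix.of_apply,
        srt12 hf, srt23 hf, dg12 hf, dg23 hf, neg_neg, neg_zero, sub_zero, zero_sub, add_zero,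
        zero_add, hs.f2, hs.f3, hs.f4, hs.f5, hs.f6, hs.f7, hs.v2, hs.v3,
        hs.v4, hs.v5, hs.v6, hs.v7, hs.ef, hs.c0, hs.c1, hs.c2, hs.c3,
        hs.c4, hs.c5]) <;> ring

theorem FC_tab {χ : Fin 8 → Fin 8 → Fin 8 → ℝ} (h : TopAt χ Ps) (a b : Fin 6) :
    sv χ Ps (FF (bs a)) (CC (bs b)) = 0 := by
  have hs := srt_of_top h
  have hf := h.form
  have e : sv χ Ps (FF (bs a)) (CC (bs b))
      = cg b * tt χ 1 (i6 a) (cp b) (cq b) + (-1) * tt χ 1 (i6 a) (cr b) (cs b) := by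
    rw [FF_bs, CC_bs, sv_add_right, sv_smul_right, sv_smul_right]
    rfl
  rw [e]
  fin_cases a <;> fin_cases b <;> (simp (disch := decide) only [tt_eq hf, nfb_rho_wed, i6, cp, cq, cr, cs, cg, Fin.isValue,
        Fin.reduceEq, Fin.zero_eta, Fin.mk_one, Fin.reduceFinMk, if_true, if_false, Matrix.cons_val,
        Matrix.cons_val_zero, Matrix.cons_val_one, Matrix.of_apply,
        srt12 hf, srt23 hf, dg12 hf, dg23 hf, neg_neg, neg_zero, sub_zero, zero_sub, add_zero,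
        zero_add, hs.f2, hs.f3, hs.f4, hs.f5, hs.f6, hs.f7, hs.v2, hs.v3,
        hs.v4, hs.v5, hs.v6, hs.v7, hs.ef, hs.c0, hs.c1, hs.c2, hs.c3,
        hs.c4, hs.c5]) <;> ring

theorem sv_CC_CC {χ : Fin 8 → Fin 8 → Fin 8 → ℝ} (h : TopAt χ Ps) (a b : Fin 6) :
    sv χ Ps (CC (bs a)) (CC (bs b)) = 4 * Dm χ a b := by
  have hs := srt_of_top h
  have hf := h.form
  have e : sv χ Ps (CC (bs a)) (CC (bs b))
      = cg a * (cg b * tt χ (cp a) (cq a) (cp b) (cq b)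
        + (-1) * tt χ (cp a) (cq a) (cr b) (cs b))
        + (-1) * (cg b * tt χ (cr a) (cs a) (cp b) (cq b)
        + (-1) * tt χ (cr a) (cs a) (cr b) (cs b)) := by
    rw [CC_bs, CC_bs, sv_add_left, sv_smul_left, sv_smul_left, sv_add_right, sv_add_right,
      sv_smul_right, sv_smul_right, sv_smul_right, sv_smul_right]
    rfl
  rw [e, Dm_tab h]
  unfold dt
  fin_cases a <;> fin_cases b <;> (simp (disch := decide) only [tt_eq hf, nfb_rho_wed, i6, cp, cq, cr, cs, cg, Fin.isValue,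
        Fin.reduceEq, Fin.zero_eta, Fin.mk_one, Fin.reduceFinMk, if_true, if_false, Matrix.cons_val,
        Matrix.cons_val_zero, Matrix.cons_val_one, Matrix.of_apply,
        srt12 hf, srt23 hf, dg12 hf, dg23 hf, neg_neg, neg_zero, sub_zero, zero_sub, add_zero,
        zero_add, hs.f2, hs.f3, hs.f4, hs.f5, hs.f6, hs.f7, hs.v2, hs.v3,
        hs.v4, hs.v5, hs.v6, hs.v7, hs.ef, hs.c0, hs.c1, hs.c2, hs.c3,
        hs.c4, hs.c5]) <;> ring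

theorem sv_EF_CC {χ : Fin 8 → Fin 8 → Fin 8 → ℝ} (h : TopAt χ Ps) (a : Fin 6) :
    sv χ Ps EF (CC (bs a)) = - ∑ b, ∑ c, CC (bs a) (i6 b) (i6 c) * Ym χ b c := by
  have hs := srt_of_top h
  have hf := h.form
  have e : sv χ Ps EF (CC (bs a))
      = cg a * tt χ 0 1 (cp a) (cq a) + (-1) * tt χ 0 1 (cr a) (cs a) := by
    rw [CC_bs, sv_add_right, sv_smul_right, sv_smul_right]
    rfl
  have hY : ∀ b c, Ym χ b c = 1 / 2 * (zt χ b c - zt χ c b) := by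
    intro b c
    have : Ym χ b c = 1 / 2 * (Zm χ b c - Zm χ c b) := rfl
    rw [this, Zm_tab h, Zm_tab h]
  rw [e]
  simp only [hY, CC_bs, Fin.sum_univ_six, Pi.add_apply, Pi.smul_apply, smul_eq_mul, wed, d8]
  unfold zt
  fin_cases a <;> (simp (disch := decide) only [tt_eq hf, nfb_rho_wed, i6, cp, cq, cr, cs, cg, Fin.isValue,
        Fin.reduceEq, Fin.zero_eta, Fin.mk_one, Fin.reduceFinMk, if_true, if_false, Matrix.cons_val,
        Matrix.cons_val_zero, Matrix.cons_val_one, Matrix.of_apply,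
        srt12 hf, srt23 hf, dg12 hf, dg23 hf, neg_neg, neg_zero, sub_zero, zero_sub, add_zero,
        zero_add, hs.f2, hs.f3, hs.f4, hs.f5, hs.f6, hs.f7, hs.v2, hs.v3,
        hs.v4, hs.v5, hs.v6, hs.v7, hs.ef, hs.c0, hs.c1, hs.c2, hs.c3,
        hs.c4, hs.c5]) <;> simp <;> ring

end Pool.Hopf3
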