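import Pool.Agent.Lib.MP_4a593f_gt.E83.NFaL
import Pool.Agent.Lib.MP_4a593f_gt.E83.NFbT

/-!
Entries of the second variation at a top form, blocks `e`, `f`.
General formula: for a 3-form `η`, `ip3 η Ps = η 0 2 3 + η 0 4 5 + η 0 6 7` (`ip3_Ps`) and
`sv χ Ps L M = - ip3 χ (rho L (rho M Ps)) = - ip3 (rho M (rho L χ)) Ps` for skew `L`, `M`.
The first part is in `NFa0` and `NFaL`.
-/

namespace Pool.Hopf3

open Finset Matrix

theorem Dm_eq {χ : Fin 8 → Fin 8 → Fin 8 → ℝ} (h : TopAt χ Ps) :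
    Dm χ = ip3 χ Ps • (1 : M6) - Lm χ := by
  ext a b
  rw [Matrix.sub_apply, Matrix.smul_apply, smul_eq_mul, Dm_tab h, Lm_tab h, ip3_Ps h.form]
  unfold dt lt
  fin_cases a <;> fin_cases b <;> simp <;> ring

private theorem Hm_tab {χ : Fin 8 → Fin 8 → Fin 8 → ℝ} (h : TopAt χ Ps) (a b : Fin 6) :
    Hm χ a b = 1 / 2 * (zt χ a b + zt χ b a) := by
  have e : Hm χ a b = 1 / 2 * (Zm χ a b + Zm χ b a) := rfl
  rw [e, Zm_tab h, Zm_tab h]

private theorem Ym_tab {χ : Fin 8 → Fin 8 → Fin 8 → ℝ} (h : TopAt χ Ps) (a b : Fin 6) :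
    Ym χ a b = 1 / 2 * (zt χ a b - zt χ b a) := by
  have e : Ym χ a b = 1 / 2 * (Zm χ a b - Zm χ b a) := rfl
  rw [e, Zm_tab h, Zm_tab h]

/-- `Zm J = Jᵀ`-symmetry: the symmetric part commutes and the skew part anticommutes with `J`. -/
theorem Hm_J {χ : Fin 8 → Fin 8 → Fin 8 → ℝ} (h : TopAt χ Ps) : Jm * Hm χ = Hm χ * Jm := by
  ext a b
  rw [Matrix.mul_apply, Matrix.mul_apply]
  simp only [Fin.sum_univ_six, Hm_tab h]
  unfold zt Jm
  fin_cases a <;> fin_cases b <;> simp [JV, bs] <;> ring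

theorem Ym_J {χ : Fin 8 → Fin 8 → Fin 8 → ℝ} (h : TopAt χ Ps) : Jm * Ym χ = - (Ym χ * Jm) := by
  ext a b
  rw [Matrix.neg_apply, Matrix.mul_apply, Matrix.mul_apply]
  simp only [Fin.sum_univ_six, Ym_tab h]
  unfold zt Jm
  fin_cases a <;> fin_cases b <;> simp [JV, bs] <;> ring

theorem Hm_trace {χ : Fin 8 → Fin 8 → Fin 8 → ℝ} (h : TopAt χ Ps) : (Hm χ).trace = 0 := by
  unfold Matrix.trace
  simp only [Fin.sum_univ_six, Matrix.diag_apply, Hm_tab h]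
  unfold zt
  simp only [Matrix.of_apply, Matrix.cons_val, Matrix.cons_val_zero, Matrix.cons_val_one]
  ring

end Pool.Hopf3
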