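import Pool.Agent.Lib.MP_4a593f_gt.E83.NFbT
import Pool.Agent.Lib.MP_4a593f_gt.E83.NFa

/-!
Entries of the second variation at a top form, blocks involving `CC`.
-/

namespace Pool.Hopf3

open Finset Matrix

private theorem nfb_up_add (u v : V6) : up (u + v) = up u + up v := by
  funext i; fin_cases i <;> simp [up]

private theorem nfb_up_smul (c : ℝ) (u : V6) : up (c • u) = c • up u := by
  funext i; fin_cases i <;> simp [up]

private theorem nfb_EE_add (u v : V6) : EE (u + v) = EE u + EE v := by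
  funext i j
  simp only [EE, wed, nfb_up_add, Pi.add_apply]
  ring

private theorem nfb_EE_smul (c : ℝ) (u : V6) : EE (c • u) = c • EE u := by
  funext i j
  simp only [EE, wed, nfb_up_smul, Pi.smul_apply, smul_eq_mul]
  ring

private theorem nfb_FF_add (u v : V6) : FF (u + v) = FF u + FF v := by
  funext i j
  simp only [FF, wed, nfb_up_add, Pi.add_apply]
  ring

private theorem nfb_FF_smul (c : ℝ) (u : V6) : FF (c • u) = c • FF u := by
  funext i j
  simp only [FF, wed, nfb_up_smul, Pi.smul_apply, smul_eq_mul]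
  ring

private theorem nfb_CC_add (u v : V6) : CC (u + v) = CC u + CC v := by
  unfold CC
  simp only [Pi.add_apply]
  module

private theorem nfb_CC_smul (c : ℝ) (u : V6) : CC (c • u) = c • CC u := by
  unfold CC
  simp only [Pi.smul_apply, smul_eq_mul]
  module

private theorem nfb_JV_add (u v : V6) : JV (u + v) = JV u + JV v := by
  funext i; fin_cases i <;> simp [JV] <;> ring

private theorem nfb_JV_smul (c : ℝ) (u : V6) : JV (c • u) = c • JV u := by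
  funext i; fin_cases i <;> simp [JV]

private theorem nfb_exp (u : V6) : u = u 0 • bs 0 + u 1 • bs 1 + u 2 • bs 2 + u 3 • bs 3
    + u 4 • bs 4 + u 5 • bs 5 := by
  funext i; fin_cases i <;> simp [bs]

/-- a map from `ℝ⁶` to 2-tensors that is linear -/
private def LinM (A : V6 → Fin 8 → Fin 8 → ℝ) : Prop :=
  (∀ u v, A (u + v) = A u + A v) ∧ ∀ (c : ℝ) u, A (c • u) = c • A u

private theorem LinM.exp {A : V6 → Fin 8 → Fin 8 → ℝ} (hA : LinM A) (u : V6) :
    A u = u 0 • A (bs 0) + u 1 • A (bs 1) + u 2 • A (bs 2) + u 3 • A (bs 3)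
      + u 4 • A (bs 4) + u 5 • A (bs 5) := by
  conv_lhs => rw [nfb_exp u]
  simp only [hA.1, hA.2]

private theorem nfb_bil (χ : Fin 8 → Fin 8 → Fin 8 → ℝ) {A B : V6 → Fin 8 → Fin 8 → ℝ}
    (hA : LinM A) (hB : LinM B) (u v : V6) :
    sv χ Ps (A u) (B v) = ∑ a, ∑ b, u a * v b * sv χ Ps (A (bs a)) (B (bs b)) := by
  rw [hA.exp u, hB.exp v]
  simp only [sv_add_left, sv_add_right, sv_smul_left, sv_smul_right, Fin.sum_univ_six]
  ring

private theorem nfb_lE : LinM EE := ⟨nfb_EE_add, nfb_EE_smul⟩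
private theorem nfb_lF : LinM FF := ⟨nfb_FF_add, nfb_FF_smul⟩
private theorem nfb_lC : LinM CC := ⟨nfb_CC_add, nfb_CC_smul⟩

private theorem nfb_lAu : LinM Au := by
  refine ⟨fun u v => ?_, fun c u => ?_⟩
  · unfold Au
    rw [nfb_EE_add, nfb_CC_add]
    module
  · unfold Au
    rw [nfb_EE_smul, nfb_CC_smul]
    module

private theorem nfb_lAv : LinM Av := by
  refine ⟨fun u v => ?_, fun c u => ?_⟩
  · unfold Av
    rw [nfb_JV_add, nfb_EE_add, nfb_CC_add]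
    module
  · unfold Av
    rw [nfb_JV_smul, nfb_EE_smul, nfb_CC_smul]
    module

theorem sv_FF_CC {χ : Fin 8 → Fin 8 → Fin 8 → ℝ} (h : TopAt χ Ps) (u v : V6) :
    sv χ Ps (FF u) (CC v) = 0 := by
  rw [nfb_bil χ nfb_lF nfb_lC]
  simp only [FC_tab h, mul_zero, Finset.sum_const_zero]

/-- `X`, the part of `Sm` anticommuting with `J` -/
noncomputable def Xm (χ : Fin 8 → Fin 8 → Fin 8 → ℝ) : M6 := Sm χ - Dm χ

private def jp : Fin 6 → Fin 6 := ![1, 0, 3, 2, 5, 4]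
private def jg : Fin 6 → ℝ := ![1, -1, 1, -1, 1, -1]

private theorem JV_bs (a : Fin 6) : JV (bs a) = jg a • bs (jp a) := by
  fin_cases a <;> (funext i; fin_cases i <;> simp [JV, bs, jg, jp])

private theorem nfb_CC_skew (a : Fin 6) : Skew (CC (bs a)) := by
  intro i j
  unfold CC
  simp only [Pi.add_apply, Pi.sub_apply, Pi.smul_apply, smul_eq_mul, wed]
  ring

private theorem nfb_EE_skew (a : Fin 6) : Skew (EE (bs a)) := by
  intro i j
  simp only [EE, wed]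
  ring

private theorem CE_tab {χ : Fin 8 → Fin 8 → Fin 8 → ℝ} (h : TopAt χ Ps) (a b : Fin 6) :
    sv χ Ps (CC (bs a)) (EE (bs b)) = et χ b a := by
  rw [sv_symm h.first (nfb_CC_skew a) (nfb_EE_skew b), EC_tab h]

private theorem EE_tab {χ : Fin 8 → Fin 8 → Fin 8 → ℝ} (h : TopAt χ Ps) (a b : Fin 6) :
    sv χ Ps (EE (bs a)) (EE (bs b)) = dt χ a b := Dm_tab h a b

private theorem Au_tab {χ : Fin 8 → Fin 8 → Fin 8 → ℝ} (h : TopAt χ Ps) (a b : Fin 6) :
    sv χ Ps (Au (bs a)) (Au (bs b))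
      = 2 * dt χ a b + 1 / 2 * (et χ a b + et χ b a) := by
  unfold Au
  rw [sv_add_left, sv_add_right, sv_add_right, sv_smul_left, sv_smul_left, sv_smul_right,
    sv_smul_right, EE_tab h, EC_tab h, CE_tab h, sv_CC_CC h, Dm_tab h]
  ring

private theorem Av_tab {χ : Fin 8 → Fin 8 → Fin 8 → ℝ} (h : TopAt χ Ps) (a b : Fin 6) :
    sv χ Ps (Av (bs a)) (Av (bs b))
      = jg a * jg b * (2 * dt χ (jp a) (jp b)
        - 1 / 2 * (et χ (jp a) (jp b) + et χ (jp b) (jp a))) := by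
  have e : ∀ c : Fin 6, Av (bs c) = jg c • (EE (bs (jp c)) + (-(1 / 2) : ℝ) • CC (bs (jp c))) := by
    intro c
    unfold Av
    rw [JV_bs, nfb_EE_smul, nfb_CC_smul]
    module
  rw [e a, e b, sv_smul_left, sv_smul_right, sv_add_left, sv_add_right, sv_add_right,
    sv_smul_left, sv_smul_left, sv_smul_right, sv_smul_right, EE_tab h, EC_tab h, CE_tab h,
    sv_CC_CC h, Dm_tab h]
  ring

private theorem Xm_tab {χ : Fin 8 → Fin 8 → Fin 8 → ℝ} (h : TopAt χ Ps) (a b : Fin 6) :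
    Xm χ a b = 1 / 4 * (2 * dt χ a b + 1 / 2 * (et χ a b + et χ b a)
      + jg a * jg b * (2 * dt χ (jp a) (jp b)
        - 1 / 2 * (et χ (jp a) (jp b) + et χ (jp b) (jp a)))) - dt χ a b := by
  have e : Xm χ a b = 1 / 4 * (sv χ Ps (Au (bs a)) (Au (bs b))
    + sv χ Ps (Av (bs a)) (Av (bs b))) - Dm χ a b := rfl
  rw [e, Au_tab h, Av_tab h, Dm_tab h]

/-- table of `Xm` -/
private noncomputable def xt (χ : Fin 8 → Fin 8 → Fin 8 → ℝ) : M6 := Matrix.of fun a b =>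
  1 / 2 * (et χ a b - (χ 2 4 7 + χ 2 5 6 + χ 3 4 6 - χ 3 5 7) * (1 : M6) a b
    - (-χ 2 4 6 + χ 2 5 7 + χ 3 4 7 + χ 3 5 6) * Jm a b)

private theorem Xm_xt {χ : Fin 8 → Fin 8 → Fin 8 → ℝ} (h : TopAt χ Ps) (a b : Fin 6) :
    Xm χ a b = xt χ a b := by
  rw [Xm_tab h]
  unfold xt dt et Jm
  fin_cases a <;> fin_cases b <;>
    simp [jg, jp, JV, bs, Matrix.one_apply] <;> ring

theorem Xm_symm {χ : Fin 8 → Fin 8 → Fin 8 → ℝ} (h : TopAt χ Ps) : (Xm χ)ᵀ = Xm χ := by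
  ext a b
  rw [Matrix.transpose_apply, Xm_xt h, Xm_xt h]
  unfold xt et Jm
  fin_cases a <;> fin_cases b <;> simp [JV, bs, Matrix.one_apply] <;> ring

private theorem Jm_mul (A : M6) (a b : Fin 6) : (Jm * A) a b = - jg a * A (jp a) b := by
  rw [Matrix.mul_apply]
  unfold Jm
  fin_cases a <;> simp [Fin.sum_univ_six, JV, bs, jg, jp]

private theorem mul_Jm (A : M6) (a b : Fin 6) : (A * Jm) a b = jg b * A a (jp b) := by
  rw [Matrix.mul_apply]
  unfold Jm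
  fin_cases b <;> simp [Fin.sum_univ_six, JV, bs, jg, jp]

theorem Xm_J {χ : Fin 8 → Fin 8 → Fin 8 → ℝ} (h : TopAt χ Ps) : Jm * Xm χ = - (Xm χ * Jm) := by
  ext a b
  rw [Matrix.neg_apply, Jm_mul, mul_Jm, Xm_xt h, Xm_xt h]
  unfold xt et Jm
  fin_cases a <;> fin_cases b <;> simp [JV, bs, jg, jp, Matrix.one_apply] <;> ring

theorem sv_EE_CC {χ : Fin 8 → Fin 8 → Fin 8 → ℝ} (h : TopAt χ Ps) :
    ∃ c1 c2 : ℝ, ∀ a b : Fin 6, sv χ Ps (EE (bs a)) (CC (bs b))
      = 2 * Xm χ a b + c1 * (1 : M6) a b + c2 * Jm a b := by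
  refine ⟨χ 2 4 7 + χ 2 5 6 + χ 3 4 6 - χ 3 5 7, -χ 2 4 6 + χ 2 5 7 + χ 3 4 7 + χ 3 5 6,
    fun a b => ?_⟩
  rw [Xm_xt h, EC_tab h]
  unfold xt
  rw [Matrix.of_apply]
  ring

/-- elements of `u(3)` are in the kernel of the second variation -/
theorem sv_u3 {χ : Fin 8 → Fin 8 → Fin 8 → ℝ} {M : Fin 8 → Fin 8 → ℝ}
    (hM : rho M Ps = 0) (L : Fin 8 → Fin 8 → ℝ) : sv χ Ps L M = 0 := by
  unfold sv
  rw [hM]
  have e : rho L (0 : Fin 8 → Fin 8 → Fin 8 → ℝ) = 0 := by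
    funext i j k
    simp [rho]
  rw [e]
  simp [ip3]

/-- `S` as a quadratic form -/
theorem Sm_quad (χ : Fin 8 → Fin 8 → Fin 8 → ℝ) (u : V6) :
    u ⬝ᵥ Sm χ *ᵥ u = 1 / 4 * (sv χ Ps (Au u) (Au u) + sv χ Ps (Av u) (Av u)) := by
  rw [nfb_bil χ nfb_lAu nfb_lAu, nfb_bil χ nfb_lAv nfb_lAv]
  simp only [dotProduct, mulVec, Sm, Matrix.of_apply, Finset.mul_sum, ← Finset.sum_add_distrib]
  refine Finset.sum_congr rfl fun a _ => Finset.sum_congr rfl fun b _ => ?_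
  ring

end Pool.Hopf3
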