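import Pool.Agent.Lib.MP_4a593f_gt.E83.Cov
import Pool.Agent.Lib.MP_4a593f_gt.E83.NFb

/-!
The global inequality `S(u) ≤ F + D(u)/2` for unit `u`.
-/

namespace Pool.Hopf3

open Finset Matrix

private theorem glob_rho (L : Fin 8 → Fin 8 → ℝ) (χ : Fin 8 → Fin 8 → Fin 8 → ℝ) (i j k : Fin 8) :
    rho L χ i j k = (L i 0 * χ 0 j k + L i 1 * χ 1 j k + L i 2 * χ 2 j k + L i 3 * χ 3 j k
      + L i 4 * χ 4 j k + L i 5 * χ 5 j k + L i 6 * χ 6 j k + L i 7 * χ 7 j k)
      + (L j 0 * χ i 0 k + L j 1 * χ i 1 k + L j 2 * χ i 2 k + L j 3 * χ i 3 k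
      + L j 4 * χ i 4 k + L j 5 * χ i 5 k + L j 6 * χ i 6 k + L j 7 * χ i 7 k)
      + (L k 0 * χ i j 0 + L k 1 * χ i j 1 + L k 2 * χ i j 2 + L k 3 * χ i j 3
      + L k 4 * χ i j 4 + L k 5 * χ i j 5 + L k 6 * χ i j 6 + L k 7 * χ i j 7) := by
  unfold rho
  rw [Fin.sum_univ_eight]
  ring

private theorem glob_wed (u v : Fin 8 → ℝ) : Skew (wed u v) := by
  intro i j
  unfold wed
  ring

private theorem glob_skEE (u : V6) : Skew (EE u) := glob_wed _ _

private theorem glob_skCC (u : V6) : Skew (CC u) := by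
  unfold CC
  exact (((((((glob_wed _ _).sub (glob_wed _ _)).smul _).sub
    (((glob_wed _ _).add (glob_wed _ _)).smul _)).add
    (((glob_wed _ _).sub (glob_wed _ _)).smul _)).sub
    (((glob_wed _ _).add (glob_wed _ _)).smul _)).add
    (((glob_wed _ _).sub (glob_wed _ _)).smul _)).sub
    (((glob_wed _ _).add (glob_wed _ _)).smul _)

private theorem glob_skAu (u : V6) : Skew (Au u) := (glob_skEE _).add ((glob_skCC _).smul _)

private theorem glob_skAv (u : V6) : Skew (Av u) := (glob_skEE _).sub ((glob_skCC _).smul _)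

private theorem glob_D {χ : Fin 8 → Fin 8 → Fin 8 → ℝ} (h : TopAt χ Ps) :
    sv χ Ps (EE (bs 0)) (EE (bs 0)) = χ 0 4 5 + χ 0 6 7 := by
  rw [sv_eq h.form (glob_skEE _) (glob_skEE _)]
  simp only [glob_rho, EE, wed, up, d8, bs,
    Matrix.cons_val, Matrix.cons_val_zero, Matrix.cons_val_one,
    Fin.reduceEq, Fin.isValue, if_true, if_false, mul_zero, zero_mul, add_zero, zero_add,
    mul_one, one_mul, sub_zero, zero_sub, neg_mul, mul_neg, one_ne_zero, sub_self, neg_zero]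
  have h1 := h.form.s12 0 2 3
  linarith

private theorem glob_Au {χ : Fin 8 → Fin 8 → Fin 8 → ℝ} (h : TopAt χ Ps) :
    sv χ Ps (Au (bs 0)) (Au (bs 0)) = 2 * (χ 0 4 5 + χ 0 6 7) + 2 * (χ 2 5 6 + χ 2 4 7) := by
  rw [sv_eq h.form (glob_skAu _) (glob_skAu _)]
  simp only [glob_rho, Au, EE, CC, wed, up, d8, bs, Pi.add_apply, Pi.sub_apply, Pi.smul_apply,
    smul_eq_mul, Matrix.cons_val, Matrix.cons_val_zero, Matrix.cons_val_one,
    Fin.reduceEq, Fin.isValue, if_true, if_false, mul_zero, zero_mul, add_zero, zero_add,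
    mul_one, one_mul, sub_zero, zero_sub, neg_mul, mul_neg, one_ne_zero, sub_self, neg_zero]
  have h1 := h.form.s12 0 2 3
  have h2 := h.form.s23 2 5 6
  linarith

private theorem glob_Av {χ : Fin 8 → Fin 8 → Fin 8 → ℝ} (h : TopAt χ Ps) :
    sv χ Ps (Av (bs 0)) (Av (bs 0)) = 2 * (χ 0 4 5 + χ 0 6 7) + 2 * (χ 3 5 7 - χ 3 4 6) := by
  rw [sv_eq h.form (glob_skAv _) (glob_skAv _)]
  simp only [glob_rho, Av, EE, CC, wed, up, d8, bs, JV_0, JV_1, JV_2, JV_3, JV_4, JV_5,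
    Pi.add_apply, Pi.sub_apply, Pi.smul_apply,
    smul_eq_mul, Matrix.cons_val, Matrix.cons_val_zero, Matrix.cons_val_one,
    Fin.reduceEq, Fin.isValue, if_true, if_false, mul_zero, zero_mul, add_zero, zero_add,
    mul_one, one_mul, sub_zero, zero_sub, neg_mul, mul_neg, one_ne_zero, sub_self, neg_zero]
  have h1 := h.form.s12 0 2 3
  have h2 := h.form.s23 2 0 3
  have h3 := h.form.s12 2 3 0
  have h4 := h.form.s23 3 5 7
  have h5 := h.form.s23 3 4 6
  have h6 := h.form.s23 0 6 7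
  have h7 := h.form.s23 0 4 5
  linarith

/-- in the standard frame, `u = x₁`; the tests are the signed permutation frames
`(y₃, f, e, x₃, x₁, x₂, y₁, y₂)`, `(x₃, f, y₃, e, x₁, y₂, x₂, y₁)` and the same with the planes
2 and 3 exchanged. -/
theorem Sq_le_std {χ : Fin 8 → Fin 8 → Fin 8 → ℝ} (h : TopAt χ Ps) :
    Sq χ (bs 0) ≤ ip3 χ Ps + 1 / 2 * Dq χ (bs 0) := by
  have hG := glob_G h (O := fun i a : Fin 8 => if a = i then (1 : ℝ) else 0) (by
    intro i j
    simp [eq_comm])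
  have hid : ∀ i j k : Fin 8, pull3 χ (fun i a : Fin 8 => if a = i then (1 : ℝ) else 0) i j k
      = χ i j k := by
    intro i j k
    unfold pull3
    simp
  simp only [hid] at hG
  unfold Sq Dq
  rw [glob_Au h, glob_Av h, glob_D h]
  linarith

private theorem glob_cf (u v w : V6) : cf u v w (bs 0) = u := by
  unfold cf
  simp [bs]

theorem Sq_le {χ : Fin 8 → Fin 8 → Fin 8 → ℝ} (h : TopAt χ Ps) {u : V6} (hu : u ⬝ᵥ u = 1) :
    Sq χ u ≤ ip3 χ Ps + 1 / 2 * Dq χ u := by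
  obtain ⟨v, w, hs⟩ := su3_exists hu
  have h1 := Sq_le_std (topAt_fr h hs)
  rw [Sq_fr χ hs, Dq_fr χ hs, ip3_fr hs, glob_cf] at h1
  exact h1

end Pool.Hopf3
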