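import Mathlib

/-!
A quadratic form that is bounded below on orthonormal pairs, paired with a positive semidefinite
matrix whose largest eigenvalue is at most half of its trace.
-/

namespace Pool.Hopf3

open Finset Matrix

/-- The combinatorial core: weights `s` in the hypersimplex, values bounded below on pairs. -/
theorem hyp_core {ι : Type} [Fintype ι] (s r : ι → ℝ) (κ : ℝ) (hs : ∀ i, 0 ≤ s i)
    (hmax : ∀ i, 2 * s i ≤ ∑ j, s j) (hr : ∀ i j, i ≠ j → -(2 * κ) ≤ r i + r j) :
    -(κ * ∑ i, s i) ≤ ∑ i, s i * r i := by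
  classical
  by_cases h : ∀ i, -κ ≤ r i
  · have h1 : ∑ i, s i * (-κ) ≤ ∑ i, s i * r i :=
      Finset.sum_le_sum fun i _ => mul_le_mul_of_nonneg_left (h i) (hs i)
    rw [← Finset.sum_mul] at h1
    linarith
  · push Not at h
    obtain ⟨i, hi⟩ := h
    have h1 : ∑ j, s j = s i + ∑ j ∈ Finset.univ.erase i, s j :=
      (Finset.add_sum_erase _ _ (Finset.mem_univ i)).symm
    have h2 : ∑ j, s j * r j = s i * r i + ∑ j ∈ Finset.univ.erase i, s j * r j :=
      (Finset.add_sum_erase _ _ (Finset.mem_univ i)).symm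
    have h3 : ∑ j ∈ Finset.univ.erase i, s j * (-(2 * κ) - r i)
        ≤ ∑ j ∈ Finset.univ.erase i, s j * r j := by
      refine Finset.sum_le_sum fun j hj => mul_le_mul_of_nonneg_left ?_ (hs j)
      have := hr i j (Finset.ne_of_mem_erase hj).symm
      linarith
    rw [← Finset.sum_mul] at h3
    have h4 := hmax i
    rw [h1] at h4
    rw [h1, h2]
    nlinarith [hs i]

/-- Orthogonal diagonalisation. -/
theorem exists_diag {n : ℕ} {S : Matrix (Fin n) (Fin n) ℝ} (hS : S.PosSemidef) :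
    ∃ (U : Matrix (Fin n) (Fin n) ℝ) (lam : Fin n → ℝ), Uᵀ * U = 1 ∧
      S = U * Matrix.diagonal lam * Uᵀ ∧ ∀ i, 0 ≤ lam i := by
  have h := hS.isHermitian
  refine ⟨(h.eigenvectorUnitary : Matrix (Fin n) (Fin n) ℝ), h.eigenvalues, ?_, ?_,
    fun i => hS.eigenvalues_nonneg i⟩
  · have := Unitary.coe_star_mul_self h.eigenvectorUnitary
    rw [Matrix.star_eq_conjTranspose, Matrix.conjTranspose_eq_transpose_of_trivial] at this
    exact this
  · have := h.spectral_theorem
    rw [Unitary.conjStarAlgAut_apply, Matrix.star_eq_conjTranspose,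
      Matrix.conjTranspose_eq_transpose_of_trivial] at this
    exact this

/-- Pairing of a positive semidefinite `S` with largest eigenvalue at most `tr S / 2` with a
quadratic form `ρ` that is at least `-2κ` on orthonormal pairs. -/
theorem hyp_bound {n : ℕ} (S ρ : Matrix (Fin n) (Fin n) ℝ) (hS : S.PosSemidef)
    (hmax : ∀ u : Fin n → ℝ, u ⬝ᵥ u = 1 → 2 * (u ⬝ᵥ S *ᵥ u) ≤ S.trace) (κ : ℝ)
    (hpair : ∀ u v : Fin n → ℝ, u ⬝ᵥ u = 1 → v ⬝ᵥ v = 1 → u ⬝ᵥ v = 0 →
      -(2 * κ) ≤ u ⬝ᵥ ρ *ᵥ u + v ⬝ᵥ ρ *ᵥ v) :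
    -(κ * S.trace) ≤ (S * ρ).trace := by
  obtain ⟨U, lam, hUU, hspec, hlam⟩ := exists_diag hS
  set u : Fin n → Fin n → ℝ := fun i => fun a => U a i with hu
  have hval : ∀ (A : Matrix (Fin n) (Fin n) ℝ) (i : Fin n), u i ⬝ᵥ A *ᵥ u i = (Uᵀ * A * U) i i := by
    intro A i
    simp only [dotProduct, mulVec, Matrix.mul_apply, Matrix.transpose_apply, hu, Finset.mul_sum,
      Finset.sum_mul]
    rw [Finset.sum_comm]
    refine Finset.sum_congr rfl fun a _ => Finset.sum_congr rfl fun b _ => ?_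
    ring
  have hortho : ∀ i j, u i ⬝ᵥ u j = if i = j then 1 else 0 := by
    intro i j
    have h1 := congrFun (congrFun hUU i) j
    rw [Matrix.mul_apply, Matrix.one_apply] at h1
    exact h1
  have htr : S.trace = ∑ i, lam i := by
    rw [hspec, Matrix.trace_mul_comm, ← Matrix.mul_assoc, hUU, Matrix.one_mul,
      Matrix.trace_diagonal]
  have htr2 : (S * ρ).trace = ∑ i, lam i * (u i ⬝ᵥ ρ *ᵥ u i) := by
    rw [hspec, Matrix.mul_assoc, Matrix.mul_assoc, Matrix.trace_mul_comm, Matrix.mul_assoc,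
      Matrix.trace]
    refine Finset.sum_congr rfl fun i _ => ?_
    rw [Matrix.diag_apply, Matrix.diagonal_mul, hval ρ i]
  have hev : ∀ i, u i ⬝ᵥ S *ᵥ u i = lam i := by
    intro i
    rw [hval S i]
    have e : Uᵀ * S * U = Matrix.diagonal lam := by
      rw [hspec]
      calc Uᵀ * (U * Matrix.diagonal lam * Uᵀ) * U
          = (Uᵀ * U) * Matrix.diagonal lam * (Uᵀ * U) := by
            simp only [Matrix.mul_assoc]
        _ = _ := by rw [hUU, Matrix.one_mul, Matrix.mul_one]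
    rw [e, Matrix.diagonal_apply_eq]
  rw [htr, htr2]
  refine hyp_core lam _ κ hlam ?_ ?_
  · intro i
    have h1 := hmax (u i) (by rw [hortho, if_pos rfl])
    rw [hev, htr] at h1
    exact h1
  · intro i j hij
    exact hpair _ _ (by rw [hortho, if_pos rfl]) (by rw [hortho, if_pos rfl])
      (by rw [hortho, if_neg hij])

end Pool.Hopf3
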