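import Pool.Agent.Lib.MP_4a593f_gt.E83.Eig
import Pool.Agent.Lib.MP_4a593f_gt.E83.MaxG
import Pool.Agent.Lib.MP_4a593f_gt.E83.Pull
import Pool.Agent.Lib.MP_4a593f_gt.E83.TopPos
import Pool.Agent.Lib.MP_4a593f_gt.E83.Pair
import Pool.Agent.Lib.MP_4a593f_gt.E83.Curv4

/-!
Assembly, from the estimate at a top form (`hcore`, the mathematical heart, separate file).
-/

namespace Pool.Hopf3

open Finset

private theorem main_Ps_form : Form3 Ps := by
  constructor
  · intro i j k
    simp only [Ps]
    ring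
  · intro i j k
    simp only [Ps]
    ring

/-- the tensor of constant curvature one -/
private def mainK {n : ℕ} (i j k l : Fin n) : ℝ :=
  (if i = k then 1 else 0) * (if j = l then 1 else 0)
    - (if i = l then 1 else 0) * (if j = k then 1 else 0)

private theorem mainK_curv {n : ℕ} : IsCurvature (mainK (n := n)) := by
  constructor
  · intro i j k l
    simp only [mainK]
    ring
  · intro i j k l
    simp only [mainK]
    ring
  · intro i j k l
    simp only [mainK, eq_comm]
    ring

private theorem mainK_pair {n : ℕ} (p q : Pr n) :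
    mainK p.1.1 p.1.2 q.1.1 q.1.2 = if p = q then (1 : ℝ) else 0 := by
  have hp := p.2
  have hq := q.2
  unfold mainK
  by_cases h : p = q
  · subst h
    have hne : p.1.1 ≠ p.1.2 := hp.ne
    simp [hne]
  · rw [if_neg h]
    have h1 : ¬ (p.1.1 = q.1.1 ∧ p.1.2 = q.1.2) := fun hh =>
      h (Subtype.ext (Prod.ext hh.1 hh.2))
    have h2 : ¬ (p.1.1 = q.1.2 ∧ p.1.2 = q.1.1) := by
      rintro ⟨a, b⟩
      rw [a, b] at hp
      exact absurd hp (not_lt.2 hq.le)
    by_cases a1 : p.1.1 = q.1.1
    · have b1 : p.1.2 ≠ q.1.2 := fun hh => h1 ⟨a1, hh⟩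
      rw [if_neg b1, mul_zero, zero_sub, neg_eq_zero]
      by_cases a2 : p.1.1 = q.1.2
      · have b2 : p.1.2 ≠ q.1.1 := fun hh => h2 ⟨a2, hh⟩
        rw [if_neg b2, mul_zero]
      · rw [if_neg a2, zero_mul]
    · rw [if_neg a1, zero_mul, zero_sub, neg_eq_zero]
      by_cases a2 : p.1.1 = q.1.2
      · have b2 : p.1.2 ≠ q.1.1 := fun hh => h2 ⟨a2, hh⟩
        rw [if_neg b2, mul_zero]
      · rw [if_neg a2, zero_mul]

private theorem mainK_ev4 {n : ℕ} (u v : Fin n → ℝ) :
    ev4 mainK u v u v = dotp u u * dotp v v - dotp u v ^ 2 := by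
  have e : ∀ i j k l : Fin n, mainK i j k l * u i * v j * u k * v l
      = (if i = k then (if j = l then u i * v j * u k * v l else 0) else 0)
        - (if i = l then (if j = k then u i * v j * u k * v l else 0) else 0) := by
    intro i j k l
    unfold mainK
    split_ifs <;> ring
  unfold ev4
  simp only [e, Finset.sum_sub_distrib]
  have e1 : ∀ i j : Fin n, ∑ k, ∑ l, (if i = k then (if j = l then u i * v j * u k * v l else 0)
      else 0) = (u i * u i) * (v j * v j) := by
    intro i j
    rw [Finset.sum_eq_single i (fun k _ hk => by simp [Ne.symm hk]) (fun h => by simp at h),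
      Finset.sum_eq_single j (fun l _ hl => by simp [Ne.symm hl]) (fun h => by simp at h)]
    simp only [if_true]
    ring
  have e2 : ∀ i j : Fin n, ∑ k, ∑ l, (if i = l then (if j = k then u i * v j * u k * v l else 0)
      else 0) = (u i * v i) * (u j * v j) := by
    intro i j
    rw [Finset.sum_eq_single j (fun k _ hk => by simp [Ne.symm hk]) (fun h => by simp at h),
      Finset.sum_eq_single i (fun l _ hl => by simp [Ne.symm hl]) (fun h => by simp at h)]
    simp only [if_true]
    ring
  simp only [e1, e2]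
  unfold dotp
  rw [sq]
  simp only [Finset.sum_mul_sum]

private theorem main_ev4_lin {n : ℕ} (R K : Fin n → Fin n → Fin n → Fin n → ℝ) (a b : ℝ)
    (u v w z : Fin n → ℝ) :
    ev4 (fun i j k l => a * (R i j k l - b * K i j k l)) u v w z
      = a * (ev4 R u v w z - b * ev4 K u v w z) := by
  unfold ev4
  simp only [Finset.mul_sum, ← Finset.sum_sub_distrib]
  refine Finset.sum_congr rfl fun i _ => Finset.sum_congr rfl fun j _ =>
    Finset.sum_congr rfl fun k _ => Finset.sum_congr rfl fun l _ => by ring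

private theorem main_wz_lin {n : ℕ} (R K : Fin n → Fin n → Fin n → Fin n → ℝ) (a b : ℝ)
    (φ ψ : Fin n → Fin n → Fin n → ℝ) :
    wz (fun i j k l => a * (R i j k l - b * K i j k l)) φ ψ
      = a * (wz R φ ψ - b * wz K φ ψ) := by
  unfold wz
  simp only [Finset.mul_sum, ← Finset.sum_sub_distrib]
  refine Finset.sum_congr rfl fun p _ => Finset.sum_congr rfl fun q _ => by ring

private theorem main_wzK {n : ℕ} {φ : Fin n → Fin n → Fin n → ℝ} (hφ : Form3 φ) :
    wz mainK φ φ = 3 * (n - 3) * ip3 φ φ := by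
  rw [← trace_rho hφ]
  unfold wz
  refine Finset.sum_congr rfl fun p _ => ?_
  simp only [mainK_pair]
  simp

/-- The Weitzenböck curvature term on 3-forms of `ℝ⁸`, from the core estimate with constant `c`. -/
theorem bochner_ge_of_core (c : ℝ)
    (hcore : ∀ R : Fin 8 → Fin 8 → Fin 8 → Fin 8 → ℝ, IsCurvature R → SecIn R 0 1 →
      ∀ χ, TopAt χ Ps → - c * ip3 χ Ps ≤ prsv R χ Ps)
    {R : Fin 8 → Fin 8 → Fin 8 → Fin 8 → ℝ} (hR : IsCurvature R) {lo hi : ℝ} (hlh : lo < hi)
    (hs : SecIn R lo hi) {φ : Fin 8 → Fin 8 → Fin 8 → ℝ} (hφ : Form3 φ) :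
    2 * (15 * lo - c * (hi - lo)) * ip3 φ φ ≤ bochner R φ := by
  have hd : 0 < hi - lo := sub_pos.mpr hlh
  -- the normalised tensor
  set R1 : Fin 8 → Fin 8 → Fin 8 → Fin 8 → ℝ :=
    fun i j k l => (hi - lo)⁻¹ * (R i j k l - lo * mainK i j k l) with hR1
  have hR1c : IsCurvature R1 := by
    have hK := mainK_curv (n := 8)
    constructor
    · intro i j k l
      simp only [hR1]
      rw [hR.skew12 i j k l, hK.skew12 i j k l]; ring
    · intro i j k l
      simp only [hR1]
      rw [hR.skew34 i j k l, hK.skew34 i j k l]; ring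
    · intro i j k l
      simp only [hR1]
      have h1 := hR.bianchi i j k l
      have h2 := hK.bianchi i j k l
      calc _ = (hi - lo)⁻¹ * ((R i j k l + R j k i l + R k i j l)
          - lo * (mainK i j k l + mainK j k i l + mainK k i j l)) := by ring
        _ = 0 := by rw [h1, h2]; ring
  have hR1s : SecIn R1 0 1 := by
    intro u v
    have h := hs u v
    have e : ev4 R1 u v u v = (hi - lo)⁻¹ * (ev4 R u v u v
        - lo * (dotp u u * dotp v v - dotp u v ^ 2)) := by
      rw [hR1, main_ev4_lin, mainK_ev4]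
    rw [e]
    constructor
    · rw [zero_mul]
      exact mul_nonneg (inv_nonneg.mpr hd.le) (by linarith [h.1])
    · rw [one_mul, inv_mul_le_iff₀ hd]
      nlinarith [h.2]
  -- wz
  have hwz : wz R1 φ φ = (hi - lo)⁻¹ * (wz R φ φ - lo * (15 * ip3 φ φ)) := by
    rw [hR1, main_wz_lin, main_wzK hφ]
    norm_num
  have hb : bochner R φ = 2 * wz R φ φ := by
    rw [wz_self hR hφ]; ring
  suffices hmain : - c * ip3 φ φ ≤ wz R1 φ φ by
    rw [hwz, le_inv_mul_iff₀ hd] at hmain
    rw [hb]
    nlinarith [hmain]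
  rcases (ip3_self_nonneg φ).eq_or_lt with h0 | h0
  · -- the zero form
    have hz : φ = 0 := by
      have h1 : ∑ i, ∑ j, ∑ k, φ i j k * φ i j k = 0 := by
        unfold ip3 at h0
        linarith
      funext i j k
      have h2 := (Finset.sum_eq_zero_iff_of_nonneg (fun i _ => Finset.sum_nonneg fun j _ =>
        Finset.sum_nonneg fun k _ => mul_self_nonneg (φ i j k))).mp h1 i (Finset.mem_univ i)
      have h3 := (Finset.sum_eq_zero_iff_of_nonneg (fun j _ =>
        Finset.sum_nonneg fun k _ => mul_self_nonneg (φ i j k))).mp h2 j (Finset.mem_univ j)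
      have h4 := (Finset.sum_eq_zero_iff_of_nonneg (fun k _ =>
        mul_self_nonneg (φ i j k))).mp h3 k (Finset.mem_univ k)
      exact mul_self_eq_zero.mp h4
    have h5 : wz R1 φ φ = 0 * wz R1 φ φ := by
      have h6 := wz_smul_left R1 0 φ φ
      rw [zero_smul] at h6
      rw [← h6, hz]
    rw [h5, ← h0]
    simp
  · obtain ⟨χ0, lam, hχ0, hn, heig, hmin⟩ := exists_min_eig hR1c hφ h0
    have hlam : - c ≤ lam := by
      obtain ⟨O, hO, htop⟩ := exists_topAt hχ0 Ps
      have hn1 : ip3 (pull3 χ0 O) (pull3 χ0 O) ≠ 0 := by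
        rw [ip3_pull hO, hn]; norm_num
      have hF := top_pos htop hn1
      have hc := hcore (pullR R1 O) (pullR_curv hR1c O) (pullR_sec hR1s hO) _ htop
      have hPs : pull3 (pull3 Ps (fun i j => O j i)) O = Ps := pull3_transp hO.transp Ps
      have hPf : Form3 (pull3 Ps (fun i j => O j i)) := pull3_form main_Ps_form _
      have e1 : prsv (pullR R1 O) (pull3 χ0 O) Ps = lam * ip3 (pull3 χ0 O) Ps := by
        rw [← wz_eq_prsv]
        conv_lhs => rw [← hPs]
        rw [wz_pull hR1c hχ0 hPf hO, heig _ hPf, ← ip3_pull hO, hPs]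
      rw [e1] at hc
      exact le_of_mul_le_mul_right hc hF
    calc - c * ip3 φ φ ≤ lam * ip3 φ φ := mul_le_mul_of_nonneg_right hlam h0.le
      _ ≤ wz R1 φ φ := hmin φ hφ

end Pool.Hopf3
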