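import Pool.Agent.Lib.MP_4a593f_gt.E83.NFb
import Pool.Agent.Lib.MP_4a593f_gt.P3.TrC

set_option linter.unusedSimpArgs false
set_option linter.unusedVariables false

/-!
The pairing of a curvature tensor with the second variation at a top form, in terms of the
`6 × 6` matrices.
-/

namespace Pool.Hopf3

open Finset Matrix

/-- the functional of `sv_eq` -/
private def Gs (M : Fin 8 → Fin 8 → ℝ) (η : Fin 8 → Fin 8 → Fin 8 → ℝ) : ℝ :=
  rho M η 0 2 3 + rho M η 0 4 5 + rho M η 0 6 7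

private theorem wed_d8 (p q i j : Fin 8) : wed (d8 p) (d8 q) i j
    = (if i = p then 1 else 0) * (if j = q then 1 else 0)
      - (if j = p then 1 else 0) * (if i = q then 1 else 0) := rfl

private theorem up_bs (a : Fin 6) : up (bs a) = d8 (i6 a) := by
  funext j
  fin_cases a <;> fin_cases j <;> simp [up, bs, d8, i6]

private theorem EE_bs (a : Fin 6) : EE (bs a) = wed (d8 0) (d8 (i6 a)) := by
  unfold EE; rw [up_bs]

private theorem FF_bs (a : Fin 6) : FF (bs a) = wed (d8 1) (d8 (i6 a)) := by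
  unfold FF; rw [up_bs]

private theorem rho_wed (p q : Fin 8) (η : Fin 8 → Fin 8 → Fin 8 → ℝ) (i j k : Fin 8) :
    rho (wed (d8 p) (d8 q)) η i j k
      = ((if i = p then η q j k else 0) - (if i = q then η p j k else 0))
        + ((if j = p then η i q k else 0) - (if j = q then η i p k else 0))
        + ((if k = p then η i j q else 0) - (if k = q then η i j p else 0)) := by
  unfold rho
  simp only [wed_d8, Finset.sum_add_distrib]
  have key : ∀ (x : Fin 8) (g : Fin 8 → ℝ), ∑ t, (((if x = p then (1:ℝ) else 0) * (if t = q then 1 else 0)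
      - (if t = p then 1 else 0) * (if x = q then 1 else 0)) * g t)
      = (if x = p then g q else 0) - (if x = q then g p else 0) := by
    intro x g
    simp only [sub_mul, Finset.sum_sub_distrib]
    congr 1
    · by_cases hx : x = p
      · simp [hx]
      · simp [hx]
    · by_cases hx : x = q
      · simp [hx]
      · simp [hx]
  rw [key i (fun t => η t j k), key j (fun t => η i t k), key k (fun t => η i j t)]

private theorem Gs_wed (p q : Fin 8) (η : Fin 8 → Fin 8 → Fin 8 → ℝ) :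
    Gs (wed (d8 p) (d8 q)) η
      = (((if (0 : Fin 8) = p then η q 2 3 else 0) - (if (0 : Fin 8) = q then η p 2 3 else 0))
        + ((if (2 : Fin 8) = p then η 0 q 3 else 0) - (if (2 : Fin 8) = q then η 0 p 3 else 0))
        + ((if (3 : Fin 8) = p then η 0 2 q else 0) - (if (3 : Fin 8) = q then η 0 2 p else 0)))
      + (((if (0 : Fin 8) = p then η q 4 5 else 0) - (if (0 : Fin 8) = q then η p 4 5 else 0))
        + ((if (4 : Fin 8) = p then η 0 q 5 else 0) - (if (4 : Fin 8) = q then η 0 p 5 else 0))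
        + ((if (5 : Fin 8) = p then η 0 4 q else 0) - (if (5 : Fin 8) = q then η 0 4 p else 0)))
      + (((if (0 : Fin 8) = p then η q 6 7 else 0) - (if (0 : Fin 8) = q then η p 6 7 else 0))
        + ((if (6 : Fin 8) = p then η 0 q 7 else 0) - (if (6 : Fin 8) = q then η 0 p 7 else 0))
        + ((if (7 : Fin 8) = p then η 0 6 q else 0) - (if (7 : Fin 8) = q then η 0 6 p else 0))) := by
  unfold Gs
  rw [rho_wed, rho_wed, rho_wed]

/-- general expansion on a skew matrix -/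
private theorem Gs_gen {M : Fin 8 → Fin 8 → ℝ} (hM : Skew M)
    (η : Fin 8 → Fin 8 → Fin 8 → ℝ) :
    Gs M η = ∑ t, (M 0 t * (η t 2 3 + η t 4 5 + η t 6 7)
      + M 2 t * η 0 t 3 + M 3 t * η 0 2 t + M 4 t * η 0 t 5 + M 5 t * η 0 4 t
      + M 6 t * η 0 t 7 + M 7 t * η 0 6 t) := by
  unfold Gs rho
  rw [← Finset.sum_add_distrib, ← Finset.sum_add_distrib]
  refine Finset.sum_congr rfl fun t _ => ?_
  ring

/-- coefficient of `CC (bs a)` -/
private noncomputable def cc (a : Fin 6) (M : Fin 8 → Fin 8 → ℝ) : ℝ :=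
  ![1 / 2 * (M 4 6 - M 5 7), - (1 / 2) * (M 4 7 + M 5 6), 1 / 2 * (M 6 2 - M 7 3),
    - (1 / 2) * (M 6 3 + M 7 2), 1 / 2 * (M 2 4 - M 3 5), - (1 / 2) * (M 2 5 + M 3 4)] a

private theorem Gs_add (A B : Fin 8 → Fin 8 → ℝ) (η : Fin 8 → Fin 8 → Fin 8 → ℝ) :
    Gs (A + B) η = Gs A η + Gs B η := by
  unfold Gs
  rw [rho_add_left]
  simp only [Pi.add_apply]
  ring

private theorem Gs_sub (A B : Fin 8 → Fin 8 → ℝ) (η : Fin 8 → Fin 8 → Fin 8 → ℝ) :
    Gs (A - B) η = Gs A η - Gs B η := by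
  unfold Gs
  rw [rho_sub_left]
  simp only [Pi.sub_apply]
  ring

private theorem Gs_smul (c : ℝ) (A : Fin 8 → Fin 8 → ℝ) (η : Fin 8 → Fin 8 → Fin 8 → ℝ) :
    Gs (c • A) η = c * Gs A η := by
  unfold Gs
  rw [rho_smul_left]
  simp only [Pi.smul_apply, smul_eq_mul]
  ring

private theorem CC_bs0 : CC (bs 0) = wed (d8 4) (d8 6) - wed (d8 5) (d8 7) := by
  simp [CC, bs]
private theorem CC_bs1 : CC (bs 1) = - (1 : ℝ) • (wed (d8 4) (d8 7) + wed (d8 5) (d8 6)) := by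
  funext i j
  simp [CC, bs]
private theorem CC_bs2 : CC (bs 2) = wed (d8 6) (d8 2) - wed (d8 7) (d8 3) := by
  simp [CC, bs]
private theorem CC_bs3 : CC (bs 3) = - (1 : ℝ) • (wed (d8 6) (d8 3) + wed (d8 7) (d8 2)) := by
  funext i j
  simp [CC, bs]
private theorem CC_bs4 : CC (bs 4) = wed (d8 2) (d8 4) - wed (d8 3) (d8 5) := by
  simp [CC, bs]
private theorem CC_bs5 : CC (bs 5) = - (1 : ℝ) • (wed (d8 2) (d8 5) + wed (d8 3) (d8 4)) := by
  funext i j
  simp [CC, bs]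

private theorem f3_zero12 {η : Fin 8 → Fin 8 → Fin 8 → ℝ} (h : Form3 η) (i k : Fin 8) :
    η i i k = 0 := by
  have := h.s12 i i k
  linarith

private theorem f3_zero23 {η : Fin 8 → Fin 8 → Fin 8 → ℝ} (h : Form3 η) (i k : Fin 8) :
    η i k k = 0 := by
  have := h.s23 i k k
  linarith

private theorem f3_zero13 {η : Fin 8 → Fin 8 → Fin 8 → ℝ} (h : Form3 η) (i k : Fin 8) :
    η i k i = 0 := by
  have := h.s23 i k i
  have := f3_zero12 h i k
  linarith

private theorem Gs_expand {M : Fin 8 → Fin 8 → ℝ} (hM : Skew M)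
    {η : Fin 8 → Fin 8 → Fin 8 → ℝ} (h : Form3 η) :
    Gs M η = M 0 1 * Gs EF η + ∑ a, M 0 (i6 a) * Gs (EE (bs a)) η
      + ∑ a, M 1 (i6 a) * Gs (FF (bs a)) η + ∑ a, cc a M * Gs (CC (bs a)) η := by
  have hM0 : ∀ i, M i i = 0 := fun i => by have := hM i i; linarith
  rw [Gs_gen hM]
  simp only [EE_bs, FF_bs, EF, Fin.sum_univ_six, Fin.sum_univ_eight, CC_bs0, CC_bs1, CC_bs2,
    CC_bs3, CC_bs4, CC_bs5, Gs_add, Gs_sub, Gs_smul, Gs_wed, i6]
  simp [cc]
  simp only [hM0, f3_zero12 h, f3_zero23 h, f3_zero13 h,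
    hM 0 1, hM 0 2, hM 0 3, hM 0 4, hM 0 5, hM 0 6, hM 0 7, hM 1 2, hM 1 3, hM 1 4, hM 1 5, hM 1 6, hM 1 7, hM 2 3, hM 2 4, hM 2 5, hM 2 6, hM 2 7, hM 3 4, hM 3 5, hM 3 6, hM 3 7, hM 4 5, hM 4 6, hM 4 7, hM 5 6, hM 5 7, hM 6 7,
    h.s23 0 0 1, h.s23 0 0 2, h.s23 0 0 3, h.s23 0 0 4, h.s23 0 0 5, h.s23 0 0 6, h.s23 0 0 7, h.s23 0 1 2, h.s23 0 1 3, h.s23 0 1 4, h.s23 0 1 5, h.s23 0 1 6, h.s23 0 1 7, h.s23 0 2 3, h.s23 0 2 4, h.s23 0 2 5, h.s23 0 2 6, h.s23 0 2 7, h.s23 0 3 4, h.s23 0 3 5, h.s23 0 3 6, h.s23 0 3 7, h.s23 0 4 5, h.s23 0 4 6, h.s23 0 4 7, h.s23 0 5 6, h.s23 0 5 7, h.s23 0 6 7]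
  ring

private theorem nfc_skew_sum {n : ℕ} {M : Fin n → Fin n → ℝ} (hM : Skew M) :
    M = ∑ p : Pr n, M p.1.1 p.1.2 • el p := by
  have hM0 : ∀ i, M i i = 0 := fun i => by have := hM i i; linarith
  funext i j
  rw [Finset.sum_apply, Finset.sum_apply]
  simp only [Pi.smul_apply, smul_eq_mul]
  unfold el
  rcases lt_trichotomy i j with h | h | h
  · rw [Finset.sum_eq_single (⟨(i, j), h⟩ : Pr n)]
    · simp
    · intro p _ hp
      have h1 : ¬ (i = p.1.1 ∧ j = p.1.2) := fun h' =>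
        hp (Subtype.ext (Prod.ext h'.1.symm h'.2.symm))
      have h2 : ¬ (i = p.1.2 ∧ j = p.1.1) := by
        rintro ⟨ha, hb⟩
        rw [ha, hb] at h
        exact absurd h (not_lt.2 p.2.le)
      rw [if_neg h1, if_neg h2, mul_zero]
    · intro h'; exact absurd (mem_univ _) h'
  · subst h
    rw [hM0]
    symm
    refine Finset.sum_eq_zero fun p _ => ?_
    have h1 : ¬ (i = p.1.1 ∧ i = p.1.2) := fun h' => p.2.ne (h'.1.symm.trans h'.2)
    have h2 : ¬ (i = p.1.2 ∧ i = p.1.1) := fun h' => p.2.ne (h'.2.symm.trans h'.1)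
    rw [if_neg h1, if_neg h2, mul_zero]
  · rw [Finset.sum_eq_single (⟨(j, i), h⟩ : Pr n)]
    · have h1 : ¬ (i = j ∧ j = i) := fun h' => h.ne h'.2
      simp only
      rw [if_neg h1, if_pos ⟨trivial, trivial⟩, hM j i]
      ring
    · intro p _ hp
      have h2 : ¬ (i = p.1.2 ∧ j = p.1.1) := fun h' =>
        hp (Subtype.ext (Prod.ext h'.2.symm h'.1.symm))
      have h1 : ¬ (i = p.1.1 ∧ j = p.1.2) := by
        rintro ⟨ha, hb⟩
        rw [ha, hb] at h
        exact absurd h (not_lt.2 p.2.le)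
      rw [if_neg h1, if_neg h2, mul_zero]
    · intro h'; exact absurd (mem_univ _) h'

/-- the second variation against a general skew matrix, as a sum over pairs -/
private theorem nfc_sv_sum {n : ℕ} (χ Ω : Fin n → Fin n → Fin n → ℝ) (L : Fin n → Fin n → ℝ)
    {M : Fin n → Fin n → ℝ} (hM : Skew M) :
    ∑ q : Pr n, M q.1.1 q.1.2 * sv χ Ω L (el q) = sv χ Ω L M := by
  let φ : (Fin n → Fin n → ℝ) →ₗ[ℝ] ℝ :=
    { toFun := fun A => sv χ Ω L A
      map_add' := fun A B => sv_add_right χ Ω L A B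
      map_smul' := fun c A => by
        rw [sv_smul_right]
        rfl }
  have h1 : φ M = ∑ q : Pr n, M q.1.1 q.1.2 * sv χ Ω L (el q) := by
    conv_lhs => rw [nfc_skew_sum hM]
    rw [map_sum]
    refine Finset.sum_congr rfl fun q _ => ?_
    rw [map_smul, smul_eq_mul]
    rfl
  exact h1.symm

private theorem el_skew {n : ℕ} (p : Pr n) : Skew (el p) := by
  intro i j
  unfold el
  have hne := p.2.ne
  by_cases h1 : i = p.1.1 ∧ j = p.1.2
  · have h2 : ¬ (j = p.1.1 ∧ i = p.1.2) := by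
      rintro ⟨ha, hb⟩
      exact hne (h1.1.symm.trans hb)
    rw [if_pos h1, if_neg h2, if_pos ⟨h1.2, h1.1⟩]
  · by_cases h3 : i = p.1.2 ∧ j = p.1.1
    · rw [if_neg h1, if_pos h3, if_pos ⟨h3.2, h3.1⟩]
      ring
    · have h4 : ¬ (j = p.1.1 ∧ i = p.1.2) := fun h => h3 ⟨h.2, h.1⟩
      have h5 : ¬ (j = p.1.2 ∧ i = p.1.1) := fun h => h1 ⟨h.2, h.1⟩
      rw [if_neg h1, if_neg h3, if_neg h4, if_neg h5]
      ring

private theorem wed_skew (u v : Fin 8 → ℝ) : Skew (wed u v) := by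
  intro i j
  unfold wed
  ring

private theorem EF_skew : Skew EF := wed_skew _ _
private theorem EE_skew (u : V6) : Skew (EE u) := wed_skew _ _
private theorem FF_skew (u : V6) : Skew (FF u) := wed_skew _ _
private theorem CC_skew (u : V6) : Skew (CC u) := by
  intro i j
  simp only [CC, wed, Pi.add_apply, Pi.sub_apply, Pi.smul_apply, smul_eq_mul]
  ring

/-- expansion of the second variation in the second argument -/
private theorem nfc_expand {χ : Fin 8 → Fin 8 → Fin 8 → ℝ} (h : TopAt χ Ps)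
    {L M : Fin 8 → Fin 8 → ℝ} (hL : Skew L) (hM : Skew M) :
    sv χ Ps L M = M 0 1 * sv χ Ps L EF + ∑ a, M 0 (i6 a) * sv χ Ps L (EE (bs a))
      + ∑ a, M 1 (i6 a) * sv χ Ps L (FF (bs a)) + ∑ a, cc a M * sv χ Ps L (CC (bs a)) := by
  have hf : Form3 (rho L χ) := rho_form L h.form
  have key : ∀ N : Fin 8 → Fin 8 → ℝ, Skew N → sv χ Ps L N = - Gs N (rho L χ) := fun N hN =>
    sv_eq h.form hL hN
  rw [key M hM, key _ EF_skew, Gs_expand hM hf]
  simp only [key _ (EE_skew _), key _ (FF_skew _), key _ (CC_skew _), mul_neg,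
    Finset.sum_neg_distrib]
  ring

private theorem nfc_left {χ : Fin 8 → Fin 8 → Fin 8 → ℝ} (h : TopAt χ Ps)
    {B N : Fin 8 → Fin 8 → ℝ} (hB : Skew B) (hN : Skew N) :
    ∑ p : Pr 8, N p.1.1 p.1.2 * sv χ Ps (el p) B = sv χ Ps B N := by
  rw [← nfc_sv_sum χ Ps B hN]
  refine Finset.sum_congr rfl fun p _ => ?_
  rw [sv_symm h.first (el_skew p) hB]

private theorem cc_neg (a : Fin 6) (M N : Fin 8 → Fin 8 → ℝ) (h : ∀ i j, M i j = - N i j) :
    cc a M = - cc a N := by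
  fin_cases a <;> simp [cc, h] <;> ring

/-- first form of the block formula -/
private theorem nfc_blocks0 {χ : Fin 8 → Fin 8 → Fin 8 → ℝ} (h : TopAt χ Ps)
    {R : Fin 8 → Fin 8 → Fin 8 → Fin 8 → ℝ} (hR : IsCurvature R) :
    prsv R χ Ps = sv χ Ps EF (fun i j => R i j 0 1)
      + ∑ a, sv χ Ps (EE (bs a)) (fun i j => R i j 0 (i6 a))
      + ∑ a, sv χ Ps (FF (bs a)) (fun i j => R i j 1 (i6 a))
      + ∑ a, sv χ Ps (CC (bs a)) (fun i j => cc a (R i j)) := by
  unfold prsv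
  have s34 : ∀ i j, Skew (R i j) := fun i j k l => hR.skew34 i j k l
  have h1 : ∀ p : Pr 8, ∑ q : Pr 8, R p.1.1 p.1.2 q.1.1 q.1.2 * sv χ Ps (el p) (el q)
      = sv χ Ps (el p) (R p.1.1 p.1.2) := fun p => nfc_sv_sum χ Ps (el p) (s34 _ _)
  simp only [h1]
  have h2 : ∀ p : Pr 8, sv χ Ps (el p) (R p.1.1 p.1.2) = _ := fun p =>
    nfc_expand h (el_skew p) (s34 _ _)
  simp only [h2, Finset.sum_add_distrib]
  have e1 := nfc_left h EF_skew (N := fun i j => R i j 0 1) (fun i j => hR.skew12 i j 0 1)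
  have e2 : ∀ a, ∑ p : Pr 8, R p.1.1 p.1.2 0 (i6 a) * sv χ Ps (el p) (EE (bs a))
      = sv χ Ps (EE (bs a)) (fun i j => R i j 0 (i6 a)) := fun a =>
    nfc_left h (EE_skew _) (N := fun i j => R i j 0 (i6 a)) (fun i j => hR.skew12 i j 0 _)
  have e3 : ∀ a, ∑ p : Pr 8, R p.1.1 p.1.2 1 (i6 a) * sv χ Ps (el p) (FF (bs a))
      = sv χ Ps (FF (bs a)) (fun i j => R i j 1 (i6 a)) := fun a =>
    nfc_left h (FF_skew _) (N := fun i j => R i j 1 (i6 a)) (fun i j => hR.skew12 i j 1 _)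
  have e4 : ∀ a, ∑ p : Pr 8, cc a (R p.1.1 p.1.2) * sv χ Ps (el p) (CC (bs a))
      = sv χ Ps (CC (bs a)) (fun i j => cc a (R i j)) := fun a =>
    nfc_left h (CC_skew _) (N := fun i j => cc a (R i j))
      (fun i j => cc_neg a _ _ fun k l => hR.skew12 i j k l)
  rw [e1]
  congr 1
  · congr 1
    · congr 1
      rw [Finset.sum_comm]
      exact Finset.sum_congr rfl fun a _ => e2 a
    · rw [Finset.sum_comm]
      exact Finset.sum_congr rfl fun a _ => e3 a
  · rw [Finset.sum_comm]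
    exact Finset.sum_congr rfl fun a _ => e4 a

private theorem rb_add_left (R : Fin 8 → Fin 8 → Fin 8 → Fin 8 → ℝ) (A A' B : Fin 8 → Fin 8 → ℝ) :
    rb R (A + A') B = rb R A B + rb R A' B := by
  unfold rb
  rw [← mul_add, ← Finset.sum_add_distrib]
  congr 1
  refine Finset.sum_congr rfl fun i _ => ?_
  rw [← Finset.sum_add_distrib]
  refine Finset.sum_congr rfl fun j _ => ?_
  rw [← Finset.sum_add_distrib]
  refine Finset.sum_congr rfl fun k _ => ?_
  rw [← Finset.sum_add_distrib]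
  refine Finset.sum_congr rfl fun l _ => ?_
  simp only [Pi.add_apply]
  ring

private theorem rb_smul_left (R : Fin 8 → Fin 8 → Fin 8 → Fin 8 → ℝ) (c : ℝ)
    (A B : Fin 8 → Fin 8 → ℝ) : rb R (c • A) B = c * rb R A B := by
  unfold rb
  simp only [Pi.smul_apply, smul_eq_mul, Finset.mul_sum]
  refine Finset.sum_congr rfl fun i _ => Finset.sum_congr rfl fun j _ =>
    Finset.sum_congr rfl fun k _ => Finset.sum_congr rfl fun l _ => ?_
  ring

private theorem rb_comm {R : Fin 8 → Fin 8 → Fin 8 → Fin 8 → ℝ} (hR : IsCurvature R)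
    (A B : Fin 8 → Fin 8 → ℝ) : rb R A B = rb R B A := by
  unfold rb
  congr 1
  have h1 : ∀ i j k l, R i j k l * A i j * B k l = R k l i j * B k l * A i j := by
    intro i j k l
    rw [hR.pair i j k l]
    ring
  simp only [h1]
  calc ∑ i, ∑ j, ∑ k, ∑ l, R k l i j * B k l * A i j
      = ∑ i, ∑ k, ∑ j, ∑ l, R k l i j * B k l * A i j :=
        Finset.sum_congr rfl fun i _ => Finset.sum_comm
    _ = ∑ k, ∑ i, ∑ j, ∑ l, R k l i j * B k l * A i j := Finset.sum_comm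
    _ = ∑ k, ∑ i, ∑ l, ∑ j, R k l i j * B k l * A i j :=
        Finset.sum_congr rfl fun k _ => Finset.sum_congr rfl fun i _ => Finset.sum_comm
    _ = ∑ k, ∑ l, ∑ i, ∑ j, R k l i j * B k l * A i j :=
        Finset.sum_congr rfl fun k _ => Finset.sum_comm

private theorem rb_wed_gen {R : Fin 8 → Fin 8 → Fin 8 → Fin 8 → ℝ} (hR : IsCurvature R)
    (p q : Fin 8) (B : Fin 8 → Fin 8 → ℝ) :
    rb R (wed (d8 p) (d8 q)) B = 1 / 2 * ∑ k, ∑ l, R p q k l * B k l := by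
  unfold rb
  have h1 : ∀ i j, ∑ k, ∑ l, R i j k l * wed (d8 p) (d8 q) i j * B k l
      = wed (d8 p) (d8 q) i j * ∑ k, ∑ l, R i j k l * B k l := by
    intro i j
    simp only [Finset.mul_sum]
    refine Finset.sum_congr rfl fun k _ => Finset.sum_congr rfl fun l _ => ?_
    ring
  simp only [h1]
  have h2 : ∀ f : Fin 8 → Fin 8 → ℝ, ∑ i, ∑ j, wed (d8 p) (d8 q) i j * f i j = f p q - f q p := by
    intro f
    simp only [wed_d8, sub_mul, Finset.sum_sub_distrib]
    congr 1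
    · rw [Finset.sum_eq_single p]
      · simp
      · intro i _ hi
        simp [hi]
      · simp
    · rw [Finset.sum_eq_single q]
      · simp
      · intro i _ hi
        simp [hi]
      · simp
  rw [h2]
  have h3 : ∑ k, ∑ l, R q p k l * B k l = - ∑ k, ∑ l, R p q k l * B k l := by
    rw [← Finset.sum_neg_distrib]
    refine Finset.sum_congr rfl fun k _ => ?_
    rw [← Finset.sum_neg_distrib]
    refine Finset.sum_congr rfl fun l _ => ?_
    rw [hR.skew12 p q k l]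
    ring
  rw [h3]
  ring

private theorem rb_wed {R : Fin 8 → Fin 8 → Fin 8 → Fin 8 → ℝ} (hR : IsCurvature R)
    (p q r s : Fin 8) : rb R (wed (d8 p) (d8 q)) (wed (d8 r) (d8 s)) = R p q r s := by
  rw [rb_wed_gen hR]
  have h2 : ∀ f : Fin 8 → Fin 8 → ℝ, ∑ i, ∑ j, f i j * wed (d8 r) (d8 s) i j = f r s - f s r := by
    intro f
    simp only [wed_d8, mul_sub, Finset.sum_sub_distrib]
    congr 1
    · rw [Finset.sum_eq_single r]
      · simp
      · intro i _ hi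
        simp [hi]
      · simp
    · rw [Finset.sum_eq_single s]
      · simp
      · intro i _ hi
        simp [hi]
      · simp
  rw [h2, hR.skew34 p q r s]
  ring

private theorem rb_sub_left (R : Fin 8 → Fin 8 → Fin 8 → Fin 8 → ℝ) (A A' B : Fin 8 → Fin 8 → ℝ) :
    rb R (A - A') B = rb R A B - rb R A' B := by
  have h1 := rb_add_left R (A - A') A' B
  rw [sub_add_cancel] at h1
  linarith

private theorem rb_CC_left (R : Fin 8 → Fin 8 → Fin 8 → Fin 8 → ℝ) (a : Fin 6)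
    (B : Fin 8 → Fin 8 → ℝ) :
    rb R (CC (bs a)) B = 2 * cc a (fun k l => rb R (wed (d8 k) (d8 l)) B) := by
  fin_cases a
  · show rb R (CC (bs 0)) B = _
    rw [CC_bs0, rb_sub_left]
    simp [cc]
  · show rb R (CC (bs 1)) B = _
    rw [CC_bs1, rb_smul_left, rb_add_left]
    simp [cc]
  · show rb R (CC (bs 2)) B = _
    rw [CC_bs2, rb_sub_left]
    simp [cc]
  · show rb R (CC (bs 3)) B = _
    rw [CC_bs3, rb_smul_left, rb_add_left]
    simp [cc]
  · show rb R (CC (bs 4)) B = _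
    rw [CC_bs4, rb_sub_left]
    simp [cc]
  · show rb R (CC (bs 5)) B = _
    rw [CC_bs5, rb_smul_left, rb_add_left]
    simp [cc]

private theorem rb_wed_CC {R : Fin 8 → Fin 8 → Fin 8 → Fin 8 → ℝ} (hR : IsCurvature R)
    (p q : Fin 8) (a : Fin 6) : rb R (wed (d8 p) (d8 q)) (CC (bs a)) = 2 * cc a (R p q) := by
  rw [rb_comm hR, rb_CC_left]
  congr 2
  funext k l
  rw [rb_wed hR, hR.pair p q k l]

private theorem cc_smul (a : Fin 6) (c : ℝ) (M : Fin 8 → Fin 8 → ℝ) :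
    cc a (fun k l => c * M k l) = c * cc a M := by
  fin_cases a <;> simp [cc] <;> ring

private theorem rb_CC_CC {R : Fin 8 → Fin 8 → Fin 8 → Fin 8 → ℝ} (hR : IsCurvature R)
    (a b : Fin 6) :
    rb R (CC (bs a)) (CC (bs b)) = 4 * cc a (fun i j => cc b (R i j)) := by
  rw [rb_CC_left]
  simp only [rb_wed_CC hR]
  rw [cc_smul]
  ring

/-- the pairing as a double sum over pairs, in terms of `rb` on an orthonormal basis: kernel of
`sv` removed -/
theorem prsv_blocks {χ : Fin 8 → Fin 8 → Fin 8 → ℝ} (h : TopAt χ Ps)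
    {R : Fin 8 → Fin 8 → Fin 8 → Fin 8 → ℝ} (hR : IsCurvature R) :
    prsv R χ Ps = ip3 χ Ps * rb R EF EF
      + ∑ a, sv χ Ps EF (CC (bs a)) * rb R EF (CC (bs a))
      + ∑ a, ∑ b, (Dm χ a b * rb R (EE (bs a)) (EE (bs b))
        + 2 * Zm χ a b * rb R (EE (bs a)) (FF (bs b))
        + Lm χ a b * rb R (FF (bs a)) (FF (bs b))
        + sv χ Ps (EE (bs a)) (CC (bs b)) * rb R (EE (bs a)) (CC (bs b))
        + Dm χ a b * rb R (CC (bs a)) (CC (bs b))) := by
  rw [nfc_blocks0 h hR]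
  have s1 : Skew (fun i j => R i j 0 1) := fun i j => hR.skew12 i j 0 1
  have s2 : ∀ a, Skew (fun i j => R i j 0 (i6 a)) := fun a i j => hR.skew12 i j 0 _
  have s3 : ∀ a, Skew (fun i j => R i j 1 (i6 a)) := fun a i j => hR.skew12 i j 1 _
  have s4 : ∀ a, Skew (fun i j => cc a (R i j)) := fun a i j =>
    cc_neg a _ _ fun k l => hR.skew12 i j k l
  have y : ∀ {A B : Fin 8 → Fin 8 → ℝ}, Skew A → Skew B → sv χ Ps A B = sv χ Ps B A :=
    fun hA hB => sv_symm h.first hA hB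
  -- the four parts
  have p1 : sv χ Ps EF (fun i j => R i j 0 1) = ip3 χ Ps * rb R EF EF
      + 1 / 2 * ∑ a, sv χ Ps EF (CC (bs a)) * rb R EF (CC (bs a)) := by
    rw [nfc_expand h EF_skew s1, sv_EF_EF h]
    simp only [sv_EF_EE h, sv_EF_FF h, mul_zero, Finset.sum_const_zero, add_zero]
    have r1 : rb R EF EF = R 0 1 0 1 := rb_wed hR 0 1 0 1
    have r2 : ∀ a, rb R EF (CC (bs a)) = 2 * cc a (fun i j => R i j 0 1) := by
      intro a
      have : rb R EF (CC (bs a)) = 2 * cc a (R 0 1) := rb_wed_CC hR 0 1 a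
      rw [this]
      congr 2
      funext i j
      exact hR.pair i j 0 1
    simp only [r1, r2, Finset.mul_sum]
    congr 1
    · ring
    · exact Finset.sum_congr rfl fun a _ => by ring
  have p2 : ∀ a, sv χ Ps (EE (bs a)) (fun i j => R i j 0 (i6 a))
      = ∑ b, Dm χ a b * rb R (EE (bs a)) (EE (bs b))
        + ∑ b, Zm χ a b * rb R (EE (bs a)) (FF (bs b))
        + 1 / 2 * ∑ b, sv χ Ps (EE (bs a)) (CC (bs b)) * rb R (EE (bs a)) (CC (bs b)) := by
    intro a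
    rw [nfc_expand h (EE_skew _) (s2 a), y (EE_skew (bs a)) EF_skew, sv_EF_EE h]
    have r1 : ∀ b, rb R (EE (bs a)) (EE (bs b)) = R 0 (i6 b) 0 (i6 a) := by
      intro b
      rw [EE_bs, EE_bs, rb_wed hR, hR.pair]
    have r2 : ∀ b, rb R (EE (bs a)) (FF (bs b)) = R 1 (i6 b) 0 (i6 a) := by
      intro b
      rw [EE_bs, FF_bs, rb_wed hR, hR.pair]
    have r3 : ∀ b, rb R (EE (bs a)) (CC (bs b)) = 2 * cc b (fun i j => R i j 0 (i6 a)) := by
      intro b
      rw [EE_bs, rb_wed_CC hR]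
      congr 2
      funext i j
      exact hR.pair i j 0 (i6 a)
    simp only [r1, r2, r3, Finset.mul_sum, mul_zero, zero_add, Dm, Zm, Matrix.of_apply]
    congr 1
    · congr 1
      · exact Finset.sum_congr rfl fun b _ => by ring
      · exact Finset.sum_congr rfl fun b _ => by ring
    · exact Finset.sum_congr rfl fun b _ => by ring
  have p3 : ∀ a, sv χ Ps (FF (bs a)) (fun i j => R i j 1 (i6 a))
      = ∑ b, Zm χ b a * rb R (EE (bs b)) (FF (bs a))
        + ∑ b, Lm χ a b * rb R (FF (bs a)) (FF (bs b)) := by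
    intro a
    rw [nfc_expand h (FF_skew _) (s3 a), y (FF_skew (bs a)) EF_skew, sv_EF_FF h]
    have r1 : ∀ b, rb R (EE (bs b)) (FF (bs a)) = R 0 (i6 b) 1 (i6 a) := by
      intro b
      rw [EE_bs, FF_bs, rb_wed hR]
    have r2 : ∀ b, rb R (FF (bs a)) (FF (bs b)) = R 1 (i6 b) 1 (i6 a) := by
      intro b
      rw [FF_bs, FF_bs, rb_wed hR, hR.pair]
    have r3 : ∀ b, sv χ Ps (FF (bs a)) (EE (bs b)) = sv χ Ps (EE (bs b)) (FF (bs a)) := fun b =>
      y (FF_skew _) (EE_skew _)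
    simp only [r1, r2, r3, sv_FF_CC h, mul_zero, Finset.sum_const_zero, add_zero, zero_add, Zm,
      Lm, Matrix.of_apply]
    congr 1
    · exact Finset.sum_congr rfl fun b _ => by ring
    · exact Finset.sum_congr rfl fun b _ => by ring
  have p4 : ∀ a, sv χ Ps (CC (bs a)) (fun i j => cc a (R i j))
      = 1 / 2 * (sv χ Ps EF (CC (bs a)) * rb R EF (CC (bs a)))
        + 1 / 2 * ∑ b, sv χ Ps (EE (bs b)) (CC (bs a)) * rb R (EE (bs b)) (CC (bs a))
        + ∑ b, Dm χ a b * rb R (CC (bs a)) (CC (bs b)) := by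
    intro a
    rw [nfc_expand h (CC_skew _) (s4 a), y (CC_skew (bs a)) EF_skew]
    have r1 : rb R EF (CC (bs a)) = 2 * cc a (R 0 1) := rb_wed_CC hR 0 1 a
    have r2 : ∀ b, rb R (EE (bs b)) (CC (bs a)) = 2 * cc a (R 0 (i6 b)) := by
      intro b
      rw [EE_bs, rb_wed_CC hR]
    have r3 : ∀ b, rb R (CC (bs a)) (CC (bs b)) = 4 * cc b (fun i j => cc a (R i j)) := by
      intro b
      rw [rb_comm hR, rb_CC_CC hR]
    have r4 : ∀ b, sv χ Ps (CC (bs a)) (EE (bs b)) = sv χ Ps (EE (bs b)) (CC (bs a)) := fun b =>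
      y (CC_skew _) (EE_skew _)
    have r5 : ∀ b, sv χ Ps (CC (bs a)) (FF (bs b)) = 0 := fun b => by
      rw [y (CC_skew _) (FF_skew _), sv_FF_CC h]
    simp only [r1, r2, r3, r4, r5, sv_CC_CC h, mul_zero, Finset.sum_const_zero, add_zero,
      Finset.mul_sum]
    congr 1
    · congr 1
      · ring
      · exact Finset.sum_congr rfl fun b _ => by ring
    · exact Finset.sum_congr rfl fun b _ => by ring
  rw [p1]
  simp only [p2, p3, p4, Finset.sum_add_distrib]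
  have q1 : ∑ a, ∑ b, Zm χ b a * rb R (EE (bs b)) (FF (bs a))
      = ∑ a, ∑ b, Zm χ a b * rb R (EE (bs a)) (FF (bs b)) := Finset.sum_comm
  have q2 : ∑ a, 1 / 2 * ∑ b, sv χ Ps (EE (bs b)) (CC (bs a)) * rb R (EE (bs b)) (CC (bs a))
      = 1 / 2 * ∑ a, ∑ b, sv χ Ps (EE (bs a)) (CC (bs b)) * rb R (EE (bs a)) (CC (bs b)) := by
    rw [← Finset.mul_sum, Finset.sum_comm]
  have q3 : ∑ a, 1 / 2 * ∑ b, sv χ Ps (EE (bs a)) (CC (bs b)) * rb R (EE (bs a)) (CC (bs b))
      = 1 / 2 * ∑ a, ∑ b, sv χ Ps (EE (bs a)) (CC (bs b)) * rb R (EE (bs a)) (CC (bs b)) := by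
    rw [← Finset.mul_sum]
  have q4 : ∑ a, 1 / 2 * (sv χ Ps EF (CC (bs a)) * rb R EF (CC (bs a)))
      = 1 / 2 * ∑ a, sv χ Ps EF (CC (bs a)) * rb R EF (CC (bs a)) := by
    rw [← Finset.mul_sum]
  have q5 : ∑ a, ∑ b, 2 * Zm χ a b * rb R (EE (bs a)) (FF (bs b))
      = 2 * ∑ a, ∑ b, Zm χ a b * rb R (EE (bs a)) (FF (bs b)) := by
    simp only [Finset.mul_sum, mul_assoc]
  rw [q1, q2, q3, q4, q5]
  ring

/-- partner index -/
private def pj (a : Fin 6) : Fin 6 := ![1, 0, 3, 2, 5, 4] a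

/-- sign -/
private def sj (a : Fin 6) : ℝ := ![1, -1, 1, -1, 1, -1] a

private theorem JV_bs (a : Fin 6) : JV (bs a) = sj a • bs (pj a) := by
  funext b
  fin_cases a <;> fin_cases b <;> simp [JV, bs, sj, pj]

private theorem Jm_eq (a b : Fin 6) : Jm a b = if a = pj b then sj b else 0 := by
  unfold Jm
  rw [Matrix.of_apply, JV_bs]
  simp [bs]

private theorem sj_sq (a : Fin 6) : sj a * sj a = 1 := by
  fin_cases a <;> simp [sj]

private theorem JMJ (M : M6) (a b : Fin 6) :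
    (Jmᵀ * M * Jm) a b = sj a * sj b * M (pj a) (pj b) := by
  rw [Matrix.mul_apply]
  simp only [Matrix.mul_apply, Matrix.transpose_apply, Jm_eq]
  simp
  ring

private theorem EE_smul (c : ℝ) (u : V6) : EE (c • u) = c • EE u := by
  funext i j
  have : up (c • u) = c • up u := by
    funext k
    fin_cases k <;> simp [up]
  unfold EE
  rw [this]
  simp only [wed, Pi.smul_apply, smul_eq_mul]
  ring

private theorem CC_smul (c : ℝ) (u : V6) : CC (c • u) = c • CC u := by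
  funext i j
  simp only [CC, Pi.smul_apply, smul_eq_mul, Pi.add_apply, Pi.sub_apply]
  ring

private theorem rb_add_right {R : Fin 8 → Fin 8 → Fin 8 → Fin 8 → ℝ} (hR : IsCurvature R)
    (A B B' : Fin 8 → Fin 8 → ℝ) : rb R A (B + B') = rb R A B + rb R A B' := by
  rw [rb_comm hR, rb_add_left, rb_comm hR B, rb_comm hR B']

private theorem rb_sub_right {R : Fin 8 → Fin 8 → Fin 8 → Fin 8 → ℝ} (hR : IsCurvature R)
    (A B B' : Fin 8 → Fin 8 → ℝ) : rb R A (B - B') = rb R A B - rb R A B' := by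
  rw [rb_comm hR, rb_sub_left, rb_comm hR B, rb_comm hR B']

private theorem rb_smul_right {R : Fin 8 → Fin 8 → Fin 8 → Fin 8 → ℝ} (hR : IsCurvature R)
    (c : ℝ) (A B : Fin 8 → Fin 8 → ℝ) : rb R A (c • B) = c * rb R A B := by
  rw [rb_comm hR, rb_smul_left, rb_comm hR B]

/-- `rb` on `EE`, `CC` -/
private noncomputable def Wm (R : Fin 8 → Fin 8 → Fin 8 → Fin 8 → ℝ) : M6 :=
  Matrix.of fun a b => rb R (EE (bs a)) (CC (bs b))

private theorem REm_eq {R : Fin 8 → Fin 8 → Fin 8 → Fin 8 → ℝ} (hR : IsCurvature R)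
    (a b : Fin 6) : REm R a b = rb R (EE (bs a)) (EE (bs b)) := by
  rw [EE_bs, EE_bs, rb_wed hR]
  rfl

private theorem rhom_eq {R : Fin 8 → Fin 8 → Fin 8 → Fin 8 → ℝ} (hR : IsCurvature R) :
    rhom R = (1 / 2 : ℝ) • ((REm R + RCm R + (Wm R + (Wm R)ᵀ))
      + Jmᵀ * (REm R + RCm R - (Wm R + (Wm R)ᵀ)) * Jm) := by
  ext a b
  rw [Matrix.smul_apply, Matrix.add_apply, JMJ]
  simp only [rhom, Matrix.of_apply, Matrix.add_apply, Matrix.sub_apply, Matrix.transpose_apply,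
    smul_eq_mul, REm_eq hR, RCm, Wm, At, Bt, JV_bs, EE_smul, CC_smul, rb_add_left, rb_sub_left,
    rb_smul_left, rb_add_right hR, rb_sub_right hR, rb_smul_right hR,
    rb_comm hR (CC (bs a)) (EE (bs b)), rb_comm hR (CC (bs (pj a))) (EE (bs (pj b)))]
  ring

private theorem mdot_add (A B C : M6) : mdot A (B + C) = mdot A B + mdot A C := by
  simp only [mdot, Matrix.add_apply, mul_add, Finset.sum_add_distrib]

private theorem mdot_sub (A B C : M6) : mdot A (B - C) = mdot A B - mdot A C := by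
  simp only [mdot, Matrix.sub_apply, mul_sub, Finset.sum_sub_distrib]

private theorem mdot_smul (c : ℝ) (A B : M6) : mdot A (c • B) = c * mdot A B := by
  simp only [mdot, Matrix.smul_apply, smul_eq_mul, Finset.mul_sum]
  refine Finset.sum_congr rfl fun a _ => Finset.sum_congr rfl fun b _ => ?_
  ring

private theorem mdot_add_left (A B C : M6) : mdot (A + B) C = mdot A C + mdot B C := by
  simp only [mdot, Matrix.add_apply, add_mul, Finset.sum_add_distrib]

private theorem mdot_transpose (A B : M6) : mdot A Bᵀ = mdot Aᵀ B := by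
  simp only [mdot, Matrix.transpose_apply]
  rw [Finset.sum_comm]

private theorem mdot_eq_trace (A B : M6) : mdot A B = (Aᵀ * B).trace := by
  simp only [mdot, Matrix.trace, Matrix.diag_apply, Matrix.mul_apply, Matrix.transpose_apply]
  rw [Finset.sum_comm]

private theorem Jm_mul_T : Jm * Jmᵀ = 1 := by
  ext a b
  rw [Matrix.mul_apply]
  simp only [Matrix.transpose_apply, Jm_eq]
  fin_cases a <;> fin_cases b <;> simp [pj, sj, Fin.sum_univ_six, Matrix.one_apply]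

private theorem mdot_J (Q M : M6) : mdot Q (Jmᵀ * M * Jm) = mdot (Jm * Q * Jmᵀ) M := by
  rw [mdot_eq_trace, mdot_eq_trace]
  have h1 : (Jm * Q * Jmᵀ)ᵀ = Jm * Qᵀ * Jmᵀ := by
    rw [Matrix.transpose_mul, Matrix.transpose_mul, Matrix.transpose_transpose, Matrix.mul_assoc]
  rw [h1, ← Matrix.mul_assoc, Matrix.trace_mul_comm]
  congr 1
  simp only [Matrix.mul_assoc]

/-- on `J`-invariant symmetric matrices `ρ` is `R_E + R_C` -/
theorem mdot_rhom {R : Fin 8 → Fin 8 → Fin 8 → Fin 8 → ℝ} (hR : IsCurvature R) {Q : M6}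
    (_hs : Qᵀ = Q) (hJ : Jm * Q = Q * Jm) : mdot Q (rhom R) = mdot Q (REm R) + mdot Q (RCm R) := by
  rw [rhom_eq hR, mdot_smul, mdot_add, mdot_J, hJ, Matrix.mul_assoc, Jm_mul_T, Matrix.mul_one]
  simp only [mdot_add, mdot_sub]
  ring

private theorem mdot_rhom_anti {R : Fin 8 → Fin 8 → Fin 8 → Fin 8 → ℝ} (hR : IsCurvature R)
    {Q : M6} (hs : Qᵀ = Q) (hJ : Jm * Q = - (Q * Jm)) :
    mdot Q (rhom R) = 2 * mdot Q (Wm R) := by
  have h1 : ∀ M, mdot (-Q) M = - mdot Q M := by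
    intro M
    simp only [mdot, Matrix.neg_apply, neg_mul, Finset.sum_neg_distrib]
  rw [rhom_eq hR, mdot_smul, mdot_add, mdot_J, hJ, Matrix.neg_mul, Matrix.mul_assoc, Jm_mul_T,
    Matrix.mul_one, h1]
  simp only [mdot_add, mdot_sub, mdot_transpose, hs]
  ring

private theorem rb_EE_CC_val {R : Fin 8 → Fin 8 → Fin 8 → Fin 8 → ℝ} (hR : IsCurvature R)
    (a b : Fin 6) : rb R (EE (bs a)) (CC (bs b)) = 2 * cc b (R 0 (i6 a)) := by
  rw [EE_bs, rb_wed_CC hR]

private theorem bian {R : Fin 8 → Fin 8 → Fin 8 → Fin 8 → ℝ} (hR : IsCurvature R)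
    (i j k l : Fin 8) : R i j k l + R i k l j + R i l j k = 0 := by
  have h1 := hR.bianchi j k l i
  have h2 : ∀ a b c, R a b c i = - R a b i c := fun a b c => hR.skew34 a b i c
  rw [h2, h2, h2, ← hR.pair j k i l, ← hR.pair k l i j, ← hR.pair l j i k] at h1
  have h3 : R i l j k + R i j k l + R i k l j = 0 := by linarith
  linarith

/-- 4-forms: `∑_a R(e ∧ a, CC a) = 0` and its rotated version -/
theorem rb_EE_CC {R : Fin 8 → Fin 8 → Fin 8 → Fin 8 → ℝ} (hR : IsCurvature R) :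
    ∑ a, rb R (EE (bs a)) (CC (bs a)) = 0 ∧
      ∑ a, ∑ b, Jm a b * rb R (EE (bs a)) (CC (bs b)) = 0 := by
  have b1 := bian hR 0 2 4 6
  have b2 := bian hR 0 2 5 7
  have b3 := bian hR 0 3 4 7
  have b4 := bian hR 0 3 5 6
  have b5 := bian hR 0 3 5 7
  have b6 := bian hR 0 3 4 6
  have b7 := bian hR 0 2 4 7
  have b8 := bian hR 0 2 5 6
  have k := hR.skew34
  constructor
  · simp only [rb_EE_CC_val hR, Fin.sum_univ_six]
    simp [cc, i6]
    linarith [k 0 2 4 6, k 0 2 5 7, k 0 3 4 7, k 0 3 5 6, k 0 4 6 2, k 0 4 7 3, k 0 5 6 3,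
      k 0 5 7 2, k 0 6 2 4, k 0 6 3 5, k 0 7 2 5, k 0 7 3 4, k 0 4 2 6, k 0 4 3 7, k 0 5 3 6,
      k 0 5 2 7, k 0 6 4 2, k 0 6 5 3, k 0 7 5 2, k 0 7 4 3]
  · simp only [rb_EE_CC_val hR, Fin.sum_univ_six, Jm_eq]
    simp [cc, i6, pj, sj]
    linarith [k 0 3 4 6, k 0 3 5 7, k 0 2 4 7, k 0 2 5 6, k 0 5 6 2, k 0 5 7 3, k 0 4 6 3,
      k 0 4 7 2, k 0 7 2 4, k 0 7 3 5, k 0 6 2 5, k 0 6 3 4, k 0 5 2 6, k 0 5 3 7, k 0 4 3 6,
      k 0 4 2 7, k 0 7 4 2, k 0 7 5 3, k 0 6 5 2, k 0 6 4 3]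

/-- the skew part against `R(e,a,f,b)` -/
private theorem mdot_Ym_REF {R : Fin 8 → Fin 8 → Fin 8 → Fin 8 → ℝ} (hR : IsCurvature R)
    {Y : M6} (hY : Yᵀ = - Y) : 2 * mdot Y (REFm R) = mdot Y (RYm R) := by
  have h1 : mdot Y (REFm R)ᵀ = - mdot Y (REFm R) := by
    rw [mdot_transpose, hY]
    simp only [mdot, Matrix.neg_apply, neg_mul, Finset.sum_neg_distrib]
  have h2 : RYm R = REFm R - (REFm R)ᵀ := by
    ext a b
    simp only [RYm, REFm, Matrix.of_apply, Matrix.sub_apply, Matrix.transpose_apply]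
    have h3 := bian hR 0 1 (i6 a) (i6 b)
    have h4 := hR.skew34 0 (i6 b) (i6 a) 1
    have h5 := hR.skew34 0 (i6 a) 1 (i6 b)
    have h6 := hR.skew34 0 (i6 b) 1 (i6 a)
    linarith
  rw [h2, mdot_sub, h1]
  ring

/-- projection on the `(2,0)`-forms -/
private theorem proj20 {Y : M6} (hY : Yᵀ = - Y) (hJ : Jm * Y = - (Y * Jm)) (b c : Fin 6) :
    ∑ a, (∑ k, ∑ l, CC (bs a) (i6 k) (i6 l) * Y k l) * CC (bs a) (i6 b) (i6 c) = 4 * Y b c := by
  have hs : ∀ a b, Y b a = - Y a b := fun a b => by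
    have := congrFun (congrFun hY a) b
    rw [Matrix.transpose_apply, Matrix.neg_apply] at this
    exact this
  have h0 : ∀ a, Y a a = 0 := fun a => by have := hs a a; linarith
  have hj : ∀ a b, (Jm * Y) a b = - (Y * Jm) a b := fun a b => by
    rw [hJ, Matrix.neg_apply]
  have hjl : ∀ a b, (Jm * Y) a b = sj (pj a) * Y (pj a) b := by
    intro a b
    rw [Matrix.mul_apply]
    simp only [Jm_eq]
    fin_cases a <;> simp [pj, sj, Fin.sum_univ_six]
  have hjr : ∀ a b, (Y * Jm) a b = Y a (pj b) * sj b := by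
    intro a b
    rw [Matrix.mul_apply]
    simp only [Jm_eq]
    simp
  have hr : ∀ a b, sj (pj a) * Y (pj a) b = - (Y a (pj b) * sj b) := fun a b => by
    rw [← hjl, ← hjr, hj]
  have r01 := hr 0 0
  have r23 := hr 2 2
  have r45 := hr 4 4
  have r02 := hr 0 2
  have r03 := hr 0 3
  have r12 := hr 1 2
  have r13 := hr 1 3
  have r04 := hr 0 4
  have r05 := hr 0 5
  have r14 := hr 1 4
  have r15 := hr 1 5
  have r24 := hr 2 4
  have r25 := hr 2 5
  have r34 := hr 3 4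
  have r35 := hr 3 5
  simp [pj, sj] at r01 r23 r45 r02 r03 r12 r13 r04 r05 r14 r15 r24 r25 r34 r35
  have q0 : ∑ k, ∑ l, CC (bs 0) (i6 k) (i6 l) * Y k l = 2 * (Y 2 4 - Y 3 5) := by
    rw [CC_bs0]
    simp [Fin.sum_univ_six, i6, wed, d8]
    linarith [hs 2 4, hs 3 5]
  have q1 : ∑ k, ∑ l, CC (bs 1) (i6 k) (i6 l) * Y k l = - 2 * (Y 2 5 + Y 3 4) := by
    rw [CC_bs1]
    simp [Fin.sum_univ_six, i6, wed, d8]
    linarith [hs 2 5, hs 3 4]
  have q2 : ∑ k, ∑ l, CC (bs 2) (i6 k) (i6 l) * Y k l = 2 * (Y 4 0 - Y 5 1) := by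
    rw [CC_bs2]
    simp [Fin.sum_univ_six, i6, wed, d8]
    linarith [hs 4 0, hs 5 1]
  have q3 : ∑ k, ∑ l, CC (bs 3) (i6 k) (i6 l) * Y k l = - 2 * (Y 4 1 + Y 5 0) := by
    rw [CC_bs3]
    simp [Fin.sum_univ_six, i6, wed, d8]
    linarith [hs 4 1, hs 5 0]
  have q4 : ∑ k, ∑ l, CC (bs 4) (i6 k) (i6 l) * Y k l = 2 * (Y 0 2 - Y 1 3) := by
    rw [CC_bs4]
    simp [Fin.sum_univ_six, i6, wed, d8]
    linarith [hs 0 2, hs 1 3]
  have q5 : ∑ k, ∑ l, CC (bs 5) (i6 k) (i6 l) * Y k l = - 2 * (Y 0 3 + Y 1 2) := by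
    rw [CC_bs5]
    simp [Fin.sum_univ_six, i6, wed, d8]
    linarith [hs 0 3, hs 1 2]
  rw [Fin.sum_univ_six, q0, q1, q2, q3, q4, q5]
  rw [CC_bs0, CC_bs1, CC_bs2, CC_bs3, CC_bs4, CC_bs5]
  have e01 := hs 0 1
  have e02 := hs 0 2
  have e03 := hs 0 3
  have e04 := hs 0 4
  have e05 := hs 0 5
  have e12 := hs 1 2
  have e13 := hs 1 3
  have e14 := hs 1 4
  have e15 := hs 1 5
  have e23 := hs 2 3
  have e24 := hs 2 4
  have e25 := hs 2 5
  have e34 := hs 3 4
  have e35 := hs 3 5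
  have e45 := hs 4 5
  have e00 := h0 0
  have e11 := h0 1
  have e22 := h0 2
  have e33 := h0 3
  have e44 := h0 4
  have e55 := h0 5
  fin_cases b <;> fin_cases c <;> simp [i6, wed, d8] <;> linarith

/-- the pairing, final form -/
theorem prsv_eq {χ : Fin 8 → Fin 8 → Fin 8 → ℝ} (h : TopAt χ Ps)
    {R : Fin 8 → Fin 8 → Fin 8 → Fin 8 → ℝ} (hR : IsCurvature R) :
    prsv R χ Ps = ip3 χ Ps * R 0 1 0 1 + mdot (Sm χ) (rhom R) + mdot (Lm χ) (RFm R)
      + 2 * mdot (Hm χ) (REFm R) - mdot (Ym χ) (RYm R) := by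
  have hDs : (Dm χ)ᵀ = Dm χ := by
    rw [Dm_eq h, Matrix.transpose_sub, Lm_symm h, Matrix.transpose_smul, Matrix.transpose_one]
  have hDJ : Jm * Dm χ = Dm χ * Jm := by
    rw [Dm_eq h, Matrix.mul_sub, Matrix.sub_mul, Lm_J h, Matrix.mul_smul, Matrix.smul_mul,
      Matrix.mul_one, Matrix.one_mul]
  have hYs : (Ym χ)ᵀ = - Ym χ := by
    unfold Ym
    rw [Matrix.transpose_smul, Matrix.transpose_sub, Matrix.transpose_transpose, ← smul_neg,
      neg_sub]
  have hS : Sm χ = Dm χ + Xm χ := by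
    unfold Xm
    abel
  have hZ : Zm χ = Hm χ + Ym χ := by
    unfold Hm Ym
    rw [← smul_add]
    ext a b
    simp only [Matrix.smul_apply, Matrix.add_apply, Matrix.sub_apply, smul_eq_mul]
    ring
  rw [prsv_blocks h hR, hS, mdot_add_left, mdot_rhom hR hDs hDJ,
    mdot_rhom_anti hR (Xm_symm h) (Xm_J h)]
  obtain ⟨c1, c2, hc⟩ := sv_EE_CC h
  obtain ⟨f1, f2⟩ := rb_EE_CC hR
  have r0 : rb R EF EF = R 0 1 0 1 := rb_wed hR 0 1 0 1
  have r1 : ∑ a, ∑ b, Dm χ a b * rb R (EE (bs a)) (EE (bs b)) = mdot (Dm χ) (REm R) := by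
    unfold mdot
    simp only [REm_eq hR]
  have r2 : ∑ a, ∑ b, 2 * Zm χ a b * rb R (EE (bs a)) (FF (bs b))
      = 2 * mdot (Hm χ) (REFm R) + mdot (Ym χ) (RYm R) := by
    rw [← mdot_Ym_REF hR hYs, ← mul_add, ← mdot_add_left, ← hZ]
    unfold mdot
    simp only [Finset.mul_sum, REFm, Matrix.of_apply, EE_bs, FF_bs, rb_wed hR]
    refine Finset.sum_congr rfl fun a _ => Finset.sum_congr rfl fun b _ => ?_
    ring
  have r3 : ∑ a, ∑ b, Lm χ a b * rb R (FF (bs a)) (FF (bs b)) = mdot (Lm χ) (RFm R) := by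
    unfold mdot
    simp only [RFm, Matrix.of_apply, FF_bs, rb_wed hR]
  have r4 : ∑ a, ∑ b, sv χ Ps (EE (bs a)) (CC (bs b)) * rb R (EE (bs a)) (CC (bs b))
      = 2 * mdot (Xm χ) (Wm R) := by
    simp only [hc, add_mul, Finset.sum_add_distrib]
    have g1 : ∑ a, ∑ b, c1 * (1 : M6) a b * rb R (EE (bs a)) (CC (bs b)) = 0 := by
      have : ∀ a, ∑ b, c1 * (1 : M6) a b * rb R (EE (bs a)) (CC (bs b))
          = c1 * rb R (EE (bs a)) (CC (bs a)) := by
        intro a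
        rw [Finset.sum_eq_single a]
        · rw [Matrix.one_apply_eq, mul_one]
        · intro b _ hb
          rw [Matrix.one_apply_ne (Ne.symm hb), mul_zero, zero_mul]
        · simp
      simp only [this]
      rw [← Finset.mul_sum, f1, mul_zero]
    have g2 : ∑ a, ∑ b, c2 * Jm a b * rb R (EE (bs a)) (CC (bs b)) = 0 := by
      simp only [mul_assoc, ← Finset.mul_sum]
      rw [f2, mul_zero]
    rw [g1, g2]
    unfold mdot Wm
    simp only [Finset.mul_sum, Matrix.of_apply, add_zero]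
    refine Finset.sum_congr rfl fun a _ => Finset.sum_congr rfl fun b _ => ?_
    ring
  have r5 : ∑ a, ∑ b, Dm χ a b * rb R (CC (bs a)) (CC (bs b)) = mdot (Dm χ) (RCm R) := by
    unfold mdot RCm
    simp only [Matrix.of_apply]
  have r6 : ∑ a, sv χ Ps EF (CC (bs a)) * rb R EF (CC (bs a)) = - (2 * mdot (Ym χ) (RYm R)) := by
    have e1 : ∀ a, rb R EF (CC (bs a))
        = 1 / 2 * ∑ b, ∑ c, R 0 1 (i6 b) (i6 c) * CC (bs a) (i6 b) (i6 c) := by
      intro a
      unfold EF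
      rw [rb_wed_gen hR]
      congr 1
      fin_cases a <;>
        simp [Fin.sum_univ_eight, Fin.sum_univ_six, i6, CC, bs, wed, d8]
    have e2 : ∑ a, sv χ Ps EF (CC (bs a)) * rb R EF (CC (bs a))
        = - (1 / 2 * ∑ b, ∑ c, R 0 1 (i6 b) (i6 c)
          * ∑ a, (∑ k, ∑ l, CC (bs a) (i6 k) (i6 l) * Ym χ k l) * CC (bs a) (i6 b) (i6 c)) := by
      simp only [sv_EF_CC h, e1, Finset.mul_sum, neg_mul, Finset.sum_neg_distrib]
      congr 1
      rw [Finset.sum_comm]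
      refine Finset.sum_congr rfl fun b _ => ?_
      rw [Finset.sum_comm]
      refine Finset.sum_congr rfl fun c _ => ?_
      refine Finset.sum_congr rfl fun a _ => ?_
      ring
    rw [e2]
    simp only [proj20 hYs (Ym_J h)]
    unfold mdot RYm
    simp only [Finset.mul_sum, Matrix.of_apply]
    congr 1
    refine Finset.sum_congr rfl fun a _ => Finset.sum_congr rfl fun b _ => ?_
    ring
  simp only [Finset.sum_add_distrib]
  rw [r0, r1, r2, r3, r4, r5, r6]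
  ring

end Pool.Hopf3
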