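import Mathlib

/-!
The real `6 × 6` form of the second order condition: elimination of the `f`-block and the bound for
the largest eigenvalue.
-/

namespace Pool.Hopf3

open Finset Matrix
open scoped MatrixOrder

variable {n : ℕ}

private theorem nt_adj (A : Matrix (Fin n) (Fin n) ℝ) (v w : Fin n → ℝ) :
    (A *ᵥ v) ⬝ᵥ w = v ⬝ᵥ (Aᵀ *ᵥ w) := by
  rw [Matrix.mulVec_transpose, dotProduct_comm v, ← Matrix.dotProduct_mulVec, dotProduct_comm]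

private theorem nt_sand (A B : Matrix (Fin n) (Fin n) ℝ) (v w : Fin n → ℝ) :
    (A *ᵥ v) ⬝ᵥ (B *ᵥ (A *ᵥ w)) = v ⬝ᵥ ((Aᵀ * B * A) *ᵥ w) := by
  rw [nt_adj, Matrix.mulVec_mulVec, Matrix.mulVec_mulVec, Matrix.mul_assoc]

/-- `D(v) - Q(v) + 2 v·Xb + D(b) ≥ 0` with `Q = H L⁻¹ H + Yᵀ L⁻¹ Y`. -/
theorem nt_elim (J D L H Y X : Matrix (Fin n) (Fin n) ℝ) (hJt : Jᵀ = -J) (hJ2 : J * J = -1)
    (hL : L.PosDef) (hLJ : J * L = L * J) (hDJ : J * D = D * J) (hHt : Hᵀ = H)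
    (hHJ : J * H = H * J) (hYt : Yᵀ = -Y) (hYJ : J * Y = -(Y * J)) (hXJ : J * X = -(X * J))
    (c₁ c₂ : ℝ)
    (hLH : ∀ v w b : Fin n → ℝ, 0 ≤ v ⬝ᵥ D *ᵥ v + w ⬝ᵥ L *ᵥ w + b ⬝ᵥ D *ᵥ b
      + 2 * (v ⬝ᵥ (H + Y) *ᵥ w) + 2 * (v ⬝ᵥ X *ᵥ b)
      + 2 * (c₁ * (v ⬝ᵥ b) + c₂ * (v ⬝ᵥ J *ᵥ b))) (v b : Fin n → ℝ) :
    0 ≤ v ⬝ᵥ D *ᵥ v - v ⬝ᵥ (H * L⁻¹ * H + Yᵀ * L⁻¹ * Y) *ᵥ v + 2 * (v ⬝ᵥ X *ᵥ b)
      + b ⬝ᵥ D *ᵥ b := by
  have hLt : Lᵀ = L := by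
    have := hL.isHermitian
    rwa [Matrix.IsHermitian, Matrix.conjTranspose_eq_transpose_of_trivial] at this
  have hLu : IsUnit L.det := (Matrix.isUnit_iff_isUnit_det L).1 hL.isUnit
  have hKL : L⁻¹ * L = 1 := Matrix.nonsing_inv_mul _ hLu
  have hLK : L * L⁻¹ = 1 := Matrix.mul_nonsing_inv _ hLu
  have hKt : (L⁻¹)ᵀ = L⁻¹ := by rw [Matrix.transpose_nonsing_inv, hLt]
  set K : Matrix (Fin n) (Fin n) ℝ := L⁻¹ with hK
  have hJK : J * K = K * J := by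
    calc J * K = K * L * (J * K) := by rw [hKL, Matrix.one_mul]
      _ = K * (L * J) * K := by simp only [Matrix.mul_assoc]
      _ = K * (J * L) * K := by rw [hLJ]
      _ = K * J * (L * K) := by simp only [Matrix.mul_assoc]
      _ = K * J := by rw [hLK, Matrix.mul_one]
  set C : Matrix (Fin n) (Fin n) ℝ := H + Y with hC
  have hCt : Cᵀ = H - Y := by rw [hC, Matrix.transpose_add, hHt, hYt, sub_eq_add_neg]
  -- the substitution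
  have hsub : ∀ v b : Fin n → ℝ, 0 ≤ v ⬝ᵥ D *ᵥ v - v ⬝ᵥ (C * K * Cᵀ) *ᵥ v
      + b ⬝ᵥ D *ᵥ b + 2 * (v ⬝ᵥ X *ᵥ b) + 2 * (c₁ * (v ⬝ᵥ b) + c₂ * (v ⬝ᵥ J *ᵥ b)) := by
    intro v b
    have h := hLH v (-((K * Cᵀ) *ᵥ v)) b
    have e1 : (-((K * Cᵀ) *ᵥ v)) ⬝ᵥ L *ᵥ (-((K * Cᵀ) *ᵥ v)) = v ⬝ᵥ (C * K * Cᵀ) *ᵥ v := by
      rw [Matrix.mulVec_neg, neg_dotProduct_neg, nt_sand, Matrix.transpose_mul,
        Matrix.transpose_transpose, hKt]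
      congr 2
      calc C * K * L * (K * Cᵀ) = C * (K * L) * K * Cᵀ := by simp only [Matrix.mul_assoc]
        _ = C * K * Cᵀ := by rw [hKL, Matrix.mul_one]
    have e2 : v ⬝ᵥ C *ᵥ (-((K * Cᵀ) *ᵥ v)) = -(v ⬝ᵥ (C * K * Cᵀ) *ᵥ v) := by
      rw [Matrix.mulVec_neg, dotProduct_neg, Matrix.mulVec_mulVec, Matrix.mul_assoc]
    rw [e1, e2] at h
    linarith
  have h1 := hsub v b
  have h2 := hsub (J *ᵥ v) (-(J *ᵥ b))
  have hJtJ : Jᵀ * J = 1 := by rw [hJt, Matrix.neg_mul, hJ2, neg_neg]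
  have hD : Jᵀ * D * J = D := by
    rw [hJt, Matrix.mul_assoc, ← hDJ, ← Matrix.mul_assoc, Matrix.neg_mul, hJ2, neg_neg,
      Matrix.one_mul]
  have hXX : Jᵀ * X * J = -X := by
    have e : X * J = -(J * X) := by rw [hXJ, neg_neg]
    rw [hJt, Matrix.mul_assoc, e, Matrix.mul_neg, ← Matrix.mul_assoc, Matrix.neg_mul, hJ2,
      neg_neg, Matrix.one_mul]
  have hJC : J * C = Cᵀ * J := by
    rw [hCt, hC, Matrix.mul_add, Matrix.sub_mul, hHJ, hYJ, sub_eq_add_neg]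
  have hCJ : Cᵀ * J = J * C := hJC.symm
  have hQ : C * K * Cᵀ + Jᵀ * (C * K * Cᵀ) * J = (2 : ℝ) • (H * K * H + Yᵀ * K * Y) := by
    have e1 : Jᵀ * (C * K * Cᵀ) * J = Cᵀ * K * C := by
      calc Jᵀ * (C * K * Cᵀ) * J = -((J * C) * K * (Cᵀ * J)) := by
            rw [hJt]; simp only [Matrix.mul_assoc, Matrix.neg_mul]
        _ = -((Cᵀ * J) * K * (J * C)) := by rw [hJC]
        _ = -(Cᵀ * (J * K) * J * C) := by simp only [Matrix.mul_assoc]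
        _ = -(Cᵀ * K * (J * J) * C) := by rw [hJK]; simp only [Matrix.mul_assoc]
        _ = Cᵀ * K * C := by
            rw [hJ2, Matrix.mul_neg, Matrix.mul_one, Matrix.neg_mul, neg_neg]
    rw [e1, hCt, hC, hYt]
    simp only [Matrix.add_mul, Matrix.mul_add, Matrix.sub_mul, Matrix.mul_sub, Matrix.neg_mul,
      two_smul]
    abel
  have e3 : (J *ᵥ v) ⬝ᵥ D *ᵥ (J *ᵥ v) = v ⬝ᵥ D *ᵥ v := by rw [nt_sand, hD]
  have e4 : (J *ᵥ v) ⬝ᵥ (C * K * Cᵀ) *ᵥ (J *ᵥ v) = v ⬝ᵥ (Jᵀ * (C * K * Cᵀ) * J) *ᵥ v := by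
    rw [nt_sand]
  have e5 : (-(J *ᵥ b)) ⬝ᵥ D *ᵥ (-(J *ᵥ b)) = b ⬝ᵥ D *ᵥ b := by
    rw [Matrix.mulVec_neg, neg_dotProduct_neg, nt_sand, hD]
  have e6 : (J *ᵥ v) ⬝ᵥ X *ᵥ (-(J *ᵥ b)) = v ⬝ᵥ X *ᵥ b := by
    rw [Matrix.mulVec_neg, dotProduct_neg, nt_sand, hXX, Matrix.neg_mulVec, dotProduct_neg,
      neg_neg]
  have e7 : (J *ᵥ v) ⬝ᵥ (-(J *ᵥ b)) = -(v ⬝ᵥ b) := by
    rw [dotProduct_neg, nt_adj, Matrix.mulVec_mulVec, hJtJ, Matrix.one_mulVec]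
  have e8 : (J *ᵥ v) ⬝ᵥ J *ᵥ (-(J *ᵥ b)) = -(v ⬝ᵥ J *ᵥ b) := by
    rw [Matrix.mulVec_neg, dotProduct_neg, nt_sand, hJtJ, Matrix.one_mul]
  rw [e3, e4, e5, e6, e7, e8] at h2
  have e9 : v ⬝ᵥ (C * K * Cᵀ) *ᵥ v + v ⬝ᵥ (Jᵀ * (C * K * Cᵀ) * J) *ᵥ v
      = 2 * (v ⬝ᵥ (H * K * H + Yᵀ * K * Y) *ᵥ v) := by
    rw [← dotProduct_add, ← Matrix.add_mulVec, hQ, Matrix.smul_mulVec, dotProduct_smul,
      smul_eq_mul]
  linarith

/-- Bessel's inequality for an orthonormal pair. -/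
private theorem nt_bessel (r u v : Fin n → ℝ) (hu : u ⬝ᵥ u = 1) (hv : v ⬝ᵥ v = 1)
    (huv : u ⬝ᵥ v = 0) : (r ⬝ᵥ u) ^ 2 + (r ⬝ᵥ v) ^ 2 ≤ r ⬝ᵥ r := by
  set a := r ⬝ᵥ u
  set b := r ⬝ᵥ v
  have h : 0 ≤ (r - a • u - b • v) ⬝ᵥ (r - a • u - b • v) := by
    have := dotProduct_star_self_nonneg (r - a • u - b • v)
    simpa using this
  have e : (r - a • u - b • v) ⬝ᵥ (r - a • u - b • v) = r ⬝ᵥ r - a ^ 2 - b ^ 2 := by
    have h1 : u ⬝ᵥ r = a := dotProduct_comm _ _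
    have h2 : v ⬝ᵥ r = b := dotProduct_comm _ _
    have h3 : v ⬝ᵥ u = 0 := by rw [dotProduct_comm]; exact huv
    simp only [sub_dotProduct, dotProduct_sub, smul_dotProduct, dotProduct_smul, smul_eq_mul, hu,
      hv, huv, h1, h2, h3]
    ring
  linarith

/-- A positive semidefinite form on an orthonormal pair is at most the trace. -/
theorem nt_pair_le_trace {P : Matrix (Fin n) (Fin n) ℝ} (hP : P.PosSemidef) (u v : Fin n → ℝ)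
    (hu : u ⬝ᵥ u = 1) (hv : v ⬝ᵥ v = 1) (huv : u ⬝ᵥ v = 0) :
    u ⬝ᵥ P *ᵥ u + v ⬝ᵥ P *ᵥ v ≤ P.trace := by
  obtain ⟨B, hB⟩ := CStarAlgebra.nonneg_iff_eq_star_mul_self.mp hP.nonneg
  rw [Matrix.star_eq_conjTranspose, Matrix.conjTranspose_eq_transpose_of_trivial] at hB
  have key : ∀ w : Fin n → ℝ, w ⬝ᵥ P *ᵥ w = ∑ k, (B k ⬝ᵥ w) ^ 2 := by
    intro w
    rw [hB, ← Matrix.mulVec_mulVec, ← Matrix.transpose_transpose B, ← nt_adj,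
      Matrix.transpose_transpose]
    simp only [dotProduct, Matrix.mulVec, sq]
  have htr : P.trace = ∑ k, B k ⬝ᵥ B k := by
    have h1 : ∀ i, P.diag i = ∑ k, B k i * B k i := by
      intro i
      rw [hB, Matrix.diag_apply, Matrix.mul_apply]
      rfl
    rw [Matrix.trace, Finset.sum_congr rfl fun i _ => h1 i, Finset.sum_comm]
    rfl
  rw [key, key, htr, ← Finset.sum_add_distrib]
  exact Finset.sum_le_sum fun k _ => nt_bessel _ _ _ hu hv huv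

/-- The matrix `S' = D - Q/2 + X` is positive semidefinite. -/
theorem nt_psd (D Q X : Matrix (Fin n) (Fin n) ℝ) (hDt : Dᵀ = D) (hQt : Qᵀ = Q) (hXt : Xᵀ = X)
    (hN : ∀ v b : Fin n → ℝ, 0 ≤ v ⬝ᵥ D *ᵥ v - v ⬝ᵥ Q *ᵥ v + 2 * (v ⬝ᵥ X *ᵥ b)
      + b ⬝ᵥ D *ᵥ b) : (D - (1 / 2 : ℝ) • Q + X).PosSemidef := by
  refine Matrix.PosSemidef.of_dotProduct_mulVec_nonneg ?_ ?_
  · rw [Matrix.IsHermitian, Matrix.conjTranspose_eq_transpose_of_trivial, Matrix.transpose_add,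
      Matrix.transpose_sub, Matrix.transpose_smul, hDt, hQt, hXt]
  · intro u
    have h := hN u u
    rw [star_trivial, Matrix.add_mulVec, Matrix.sub_mulVec, Matrix.smul_mulVec, dotProduct_add,
      dotProduct_sub, dotProduct_smul, smul_eq_mul]
    linarith

/-- The largest eigenvalue of `S' = D - Q/2 + X` is at most half of its trace. -/
theorem nt_top (J D Q X : Matrix (Fin n) (Fin n) ℝ) (F : ℝ) (hJt : Jᵀ = -J) (hJ2 : J * J = -1)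
    (hDt : Dᵀ = D) (hQt : Qᵀ = Q) (hDJ : J * D = D * J) (hQJ : J * Q = Q * J)
    (hXJ : J * X = -(X * J)) (htr : D.trace = 4 * F)
    (hN : ∀ v b : Fin n → ℝ, 0 ≤ v ⬝ᵥ D *ᵥ v - v ⬝ᵥ Q *ᵥ v + 2 * (v ⬝ᵥ X *ᵥ b)
      + b ⬝ᵥ D *ᵥ b)
    (hG : ∀ u : Fin n → ℝ, u ⬝ᵥ u = 1 → u ⬝ᵥ X *ᵥ u ≤ F - (u ⬝ᵥ D *ᵥ u) / 2)
    (u : Fin n → ℝ) (hu : u ⬝ᵥ u = 1) :
    2 * (u ⬝ᵥ (D - (1 / 2 : ℝ) • Q + X) *ᵥ u) ≤ (D - (1 / 2 : ℝ) • Q + X).trace := by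
  have hJtJ : Jᵀ * J = 1 := by rw [hJt, Matrix.neg_mul, hJ2, neg_neg]
  have hP : (D - Q).PosSemidef := by
    refine Matrix.PosSemidef.of_dotProduct_mulVec_nonneg ?_ ?_
    · rw [Matrix.IsHermitian, Matrix.conjTranspose_eq_transpose_of_trivial, Matrix.transpose_sub,
        hDt, hQt]
    · intro w
      have h := hN w 0
      simp only [Matrix.mulVec_zero, dotProduct_zero, mul_zero, add_zero] at h
      rw [star_trivial, Matrix.sub_mulVec, dotProduct_sub]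
      exact h
  have hPJ : Jᵀ * (D - Q) * J = D - Q := by
    have e : (D - Q) * J = J * (D - Q) := by rw [Matrix.sub_mul, Matrix.mul_sub, hDJ, hQJ]
    rw [Matrix.mul_assoc, e, ← Matrix.mul_assoc, hJtJ, Matrix.one_mul]
  have hJu : (J *ᵥ u) ⬝ᵥ (J *ᵥ u) = 1 := by
    rw [nt_adj, Matrix.mulVec_mulVec, hJtJ, Matrix.one_mulVec, hu]
  have huJ : u ⬝ᵥ (J *ᵥ u) = 0 := by
    have h1 : u ⬝ᵥ (J *ᵥ u) = -(u ⬝ᵥ (J *ᵥ u)) := by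
      conv_lhs => rw [dotProduct_comm, nt_adj, hJt, Matrix.neg_mulVec, dotProduct_neg]
    linarith
  have h1 := nt_pair_le_trace hP u (J *ᵥ u) hu hJu huJ
  rw [nt_sand, hPJ, Matrix.sub_mulVec, dotProduct_sub, Matrix.trace_sub] at h1
  have hX0 : X.trace = 0 := by
    have h2 : X.trace = (Jᵀ * J * X).trace := by rw [hJtJ, Matrix.one_mul]
    have h3 : (Jᵀ * J * X).trace = -X.trace := by
      rw [Matrix.mul_assoc, hXJ, Matrix.mul_neg, Matrix.trace_neg, ← Matrix.mul_assoc,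
        Matrix.trace_mul_comm, ← Matrix.mul_assoc, hJt, Matrix.mul_neg, hJ2, neg_neg,
        Matrix.one_mul]
    linarith
  have h4 := hG u hu
  rw [Matrix.add_mulVec, Matrix.sub_mulVec, Matrix.smul_mulVec, dotProduct_add, dotProduct_sub,
    dotProduct_smul, smul_eq_mul, Matrix.trace_add, Matrix.trace_sub, Matrix.trace_smul,
    smul_eq_mul, hX0]
  linarith

end Pool.Hopf3
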