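import Pool.Agent.Lib.MP_4a593f_gt.E83.Cov
import Pool.Agent.Lib.MP_4a593f_gt.E83.Curv4

/-!
`ρ(u) + ρ(v) ≥ - (4/3) √2` for orthonormal `u, v` and curvature in `[0, 1]`, and the estimate for
the forms `CC u`.
-/

namespace Pool.Hopf3

open Finset Matrix

/-- the complex structure on `ℝ⁸`, zero on `e`, `f` -/
private def pJ (U : Fin 8 → ℝ) : Fin 8 → ℝ := ![0, 0, -U 3, U 2, -U 5, U 4, -U 7, U 6]

/-- `CC` on `ℝ⁸` -/
private def pC (U : Fin 8 → ℝ) : Fin 8 → Fin 8 → ℝ :=
  U 2 • (wed (d8 4) (d8 6) - wed (d8 5) (d8 7)) - U 3 • (wed (d8 4) (d8 7) + wed (d8 5) (d8 6))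
  + U 4 • (wed (d8 6) (d8 2) - wed (d8 7) (d8 3)) - U 5 • (wed (d8 6) (d8 3) + wed (d8 7) (d8 2))
  + U 6 • (wed (d8 2) (d8 4) - wed (d8 3) (d8 5)) - U 7 • (wed (d8 2) (d8 5) + wed (d8 3) (d8 4))

private def pA (U : Fin 8 → ℝ) : Fin 8 → Fin 8 → ℝ := wed (d8 0) U + pC U

private def pB (U : Fin 8 → ℝ) : Fin 8 → Fin 8 → ℝ := wed (d8 0) (pJ U) - pC (pJ U)

section lin

variable (R : Fin 8 → Fin 8 → Fin 8 → Fin 8 → ℝ)

private theorem RB_add_left (b b' c : Fin 8 → Fin 8 → ℝ) : rb R (b + b') c = rb R b c + rb R b' c := by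
  unfold rb
  simp only [Pi.add_apply, mul_add, add_mul, Finset.sum_add_distrib]

private theorem RB_add_right (b c c' : Fin 8 → Fin 8 → ℝ) : rb R b (c + c') = rb R b c + rb R b c' := by
  unfold rb
  simp only [Pi.add_apply, mul_add, Finset.sum_add_distrib]

private theorem RB_smul_left (t : ℝ) (b c : Fin 8 → Fin 8 → ℝ) : rb R (t • b) c = t * rb R b c := by
  unfold rb
  simp only [Pi.smul_apply, smul_eq_mul, Finset.mul_sum]
  refine Finset.sum_congr rfl fun i _ => Finset.sum_congr rfl fun j _ =>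
    Finset.sum_congr rfl fun k _ => Finset.sum_congr rfl fun l _ => by ring

private theorem RB_smul_right (t : ℝ) (b c : Fin 8 → Fin 8 → ℝ) : rb R b (t • c) = t * rb R b c := by
  unfold rb
  simp only [Pi.smul_apply, smul_eq_mul, Finset.mul_sum]
  refine Finset.sum_congr rfl fun i _ => Finset.sum_congr rfl fun j _ =>
    Finset.sum_congr rfl fun k _ => Finset.sum_congr rfl fun l _ => by ring

private theorem RB_neg_left (b c : Fin 8 → Fin 8 → ℝ) : rb R (-b) c = - rb R b c := by
  have := RB_smul_left R (-1) b c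
  simpa using this

private theorem RB_neg_right (b c : Fin 8 → Fin 8 → ℝ) : rb R b (-c) = - rb R b c := by
  have := RB_smul_right R (-1) b c
  simpa using this

private theorem RB_sub_left (b b' c : Fin 8 → Fin 8 → ℝ) : rb R (b - b') c = rb R b c - rb R b' c := by
  rw [sub_eq_add_neg, RB_add_left, RB_neg_left, ← sub_eq_add_neg]

private theorem RB_sub_right (b c c' : Fin 8 → Fin 8 → ℝ) : rb R b (c - c') = rb R b c - rb R b c' := by
  rw [sub_eq_add_neg, RB_add_right, RB_neg_right, ← sub_eq_add_neg]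

end lin

private theorem RB_symm {R : Fin 8 → Fin 8 → Fin 8 → Fin 8 → ℝ} (hR : IsCurvature R)
    (b c : Fin 8 → Fin 8 → ℝ) : rb R b c = rb R c b := by
  unfold rb
  congr 1
  have e : ∀ i j : Fin 8, (∑ k, ∑ l, R i j k l * c i j * b k l)
      = ∑ k, ∑ l, R k l i j * b k l * c i j := fun i j =>
    Finset.sum_congr rfl fun k _ => Finset.sum_congr rfl fun l _ => by
      rw [hR.pair i j k l]; ring
  simp only [e]
  calc ∑ i, ∑ j, ∑ k, ∑ l, R i j k l * b i j * c k l
      = ∑ i, ∑ k, ∑ j, ∑ l, R i j k l * b i j * c k l :=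
        Finset.sum_congr rfl fun i _ => Finset.sum_comm
    _ = ∑ k, ∑ i, ∑ j, ∑ l, R i j k l * b i j * c k l := Finset.sum_comm
    _ = ∑ k, ∑ i, ∑ l, ∑ j, R i j k l * b i j * c k l :=
        Finset.sum_congr rfl fun k _ => Finset.sum_congr rfl fun i _ => Finset.sum_comm
    _ = ∑ k, ∑ l, ∑ i, ∑ j, R i j k l * b i j * c k l :=
        Finset.sum_congr rfl fun k _ => Finset.sum_comm

private theorem RB_wed {R : Fin 8 → Fin 8 → Fin 8 → Fin 8 → ℝ} (hR : IsCurvature R)
    (u v w z : Fin 8 → ℝ) : rb R (wed u v) (wed w z) = ev4 R u v w z := by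
  have h1 : (∑ i, ∑ j, ∑ k, ∑ l, R i j k l * wed u v i j * wed w z k l)
      = ev4 R u v w z - ev4 R v u w z - ev4 R u v z w + ev4 R v u z w := by
    unfold ev4 wed
    rw [← Finset.sum_sub_distrib, ← Finset.sum_sub_distrib, ← Finset.sum_add_distrib]
    refine Finset.sum_congr rfl fun i _ => ?_
    rw [← Finset.sum_sub_distrib, ← Finset.sum_sub_distrib, ← Finset.sum_add_distrib]
    refine Finset.sum_congr rfl fun j _ => ?_
    rw [← Finset.sum_sub_distrib, ← Finset.sum_sub_distrib, ← Finset.sum_add_distrib]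
    refine Finset.sum_congr rfl fun k _ => ?_
    rw [← Finset.sum_sub_distrib, ← Finset.sum_sub_distrib, ← Finset.sum_add_distrib]
    refine Finset.sum_congr rfl fun l _ => ?_
    ring
  have h2 := c4_skew12 hR u v w z
  have h3 := c4_skew34 hR u v w z
  have h4 := c4_skew12 hR u v z w
  unfold rb
  rw [h1]
  linarith

/-- real vector of a complex vector -/
private noncomputable def rv (a : Fin 3 → ℂ) : Fin 8 → ℝ :=
  ![0, 0, (a 0).re, (a 0).im, (a 1).re, (a 1).im, (a 2).re, (a 2).im]

/-- `conj (a × b)` -/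
private noncomputable def cc (a b : Fin 3 → ℂ) : Fin 3 → ℂ :=
  ![star (a 1 * b 2 - a 2 * b 1), star (a 2 * b 0 - a 0 * b 2), star (a 0 * b 1 - a 1 * b 0)]

private theorem wed_rv (a b : Fin 3 → ℂ) :
    wed (rv a) (rv b) - wed (rv (Complex.I • a)) (rv (Complex.I • b)) = pC (rv (cc a b)) := by
  funext i j
  fin_cases i <;> fin_cases j <;>
    simp [wed, pC, rv, cc, d8, Fin.ext_iff] <;> ring

private theorem J8_rv (a : Fin 3 → ℂ) : pJ (rv a) = rv (Complex.I • a) := by
  funext i
  fin_cases i <;> simp [pJ, rv]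

private theorem rv_add (a b : Fin 3 → ℂ) : rv (a + b) = rv a + rv b := by
  funext i
  fin_cases i <;> simp [rv]

private theorem rv_smul (t : ℝ) (a : Fin 3 → ℂ) : rv ((t : ℂ) • a) = t • rv a := by
  funext i
  fin_cases i <;> simp [rv]

private theorem rv_neg (a : Fin 3 → ℂ) : rv (-a) = - rv a := by
  funext i
  fin_cases i <;> simp [rv]

private theorem rv_sub (a b : Fin 3 → ℂ) : rv (a - b) = rv a - rv b := by
  rw [sub_eq_add_neg, rv_add, rv_neg, ← sub_eq_add_neg]

private theorem bet_add (U V : Fin 8 → ℝ) : pC (U + V) = pC U + pC V := by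
  simp only [pC, Pi.add_apply, add_smul]
  abel

private theorem bet_smul (t : ℝ) (U : Fin 8 → ℝ) : pC (t • U) = t • pC U := by
  simp only [pC, Pi.smul_apply, smul_eq_mul, smul_add, smul_sub, smul_smul]

private theorem bet_neg (U : Fin 8 → ℝ) : pC (-U) = - pC U := by
  have := bet_smul (-1) U
  simpa using this

private theorem wed_add_left (u u' v : Fin 8 → ℝ) : wed (u + u') v = wed u v + wed u' v := by
  funext i j
  simp only [wed, Pi.add_apply]
  ring

private theorem pc_wed_add_right (u v v' : Fin 8 → ℝ) : wed u (v + v') = wed u v + wed u v' := by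
  funext i j
  simp only [wed, Pi.add_apply]
  ring

private theorem wed_smul_left (t : ℝ) (u v : Fin 8 → ℝ) : wed (t • u) v = t • wed u v := by
  funext i j
  simp only [wed, Pi.smul_apply, smul_eq_mul]
  ring

private theorem pc_wed_smul_right (t : ℝ) (u v : Fin 8 → ℝ) : wed u (t • v) = t • wed u v := by
  funext i j
  simp only [wed, Pi.smul_apply, smul_eq_mul]
  ring

private theorem pc_wed_neg_right (u v : Fin 8 → ℝ) : wed u (-v) = - wed u v := by
  funext i j
  simp only [wed, Pi.neg_apply]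
  ring

private theorem cdec_RB {R : Fin 8 → Fin 8 → Fin 8 → Fin 8 → ℝ} (hR : IsCurvature R)
    (z1 z2 w1 w2 : Fin 8 → ℝ) : cdec R z1 z2 w1 w2
      = rb R (wed z1 w1 - wed z2 w2) (wed z1 w1 - wed z2 w2)
        + rb R (wed z1 w2 + wed z2 w1) (wed z1 w2 + wed z2 w1) := by
  simp only [RB_add_left, RB_add_right, RB_sub_left, RB_sub_right, RB_wed hR]
  have h1 := c4_pair hR z1 w1 z2 w2
  have h2 := c4_pair hR z1 w2 z2 w1
  unfold cdec
  linarith

/-- hermitian product -/
private noncomputable def hp (a b : Fin 3 → ℂ) : ℂ :=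
  star (a 0) * b 0 + star (a 1) * b 1 + star (a 2) * b 2

private theorem dotp_rv (a b : Fin 3 → ℂ) : dotp (rv a) (rv b) = (hp a b).re := by
  simp [dotp, rv, hp, Fin.sum_univ_eight]
  ring

private theorem dotp_un_any (x : Fin 8 → ℝ) : dotp (d8 0) x = x 0 := by
  simp [dotp, d8]

private theorem dotp_un_rv (a : Fin 3 → ℂ) : dotp (d8 0) (rv a) = 0 := by
  rw [dotp_un_any]
  rfl

private theorem dotp_rv_un (a : Fin 3 → ℂ) : dotp (rv a) (d8 0) = 0 := by
  have : dotp (rv a) (d8 0) = rv a 0 := by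
    simp [dotp, d8]
  rw [this]
  rfl

private theorem dotp_un : dotp (d8 0) (d8 0) = 1 := by
  rw [dotp_un_any]
  simp [d8]

/-- the double cross product -/
private theorem cc_cc {u p : Fin 3 → ℂ} (hu : hp u u = 1) (hp2 : hp p p = 1) (hup : hp u p = 0) :
    cc (cc u p) u = p ∧ cc (cc u p) p = - u := by
  have hpu : hp p u = 0 := by
    have := congrArg star hup
    simp [hp] at this ⊢
    linear_combination this
  simp only [hp] at hu hp2 hup hpu
  constructor
  · funext i
    fin_cases i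
    · simp [cc] at *
      linear_combination (p 0) * hu - (u 0) * hup
    · simp [cc] at *
      linear_combination (p 1) * hu - (u 1) * hup
    · simp [cc] at *
      linear_combination (p 2) * hu - (u 2) * hup
  · funext i
    fin_cases i
    · simp [cc] at *
      linear_combination -(u 0) * hp2 + (p 0) * hpu
    · simp [cc] at *
      linear_combination -(u 1) * hp2 + (p 1) * hpu
    · simp [cc] at *
      linear_combination -(u 2) * hp2 + (p 2) * hpu

private theorem hp_star (a b : Fin 3 → ℂ) : star (hp a b) = hp b a := by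
  simp [hp]
  ring

private theorem hp_add_right (a b c : Fin 3 → ℂ) : hp a (b + c) = hp a b + hp a c := by
  simp only [hp, Pi.add_apply]
  ring

private theorem hp_smul_right (t : ℂ) (a b : Fin 3 → ℂ) : hp a (t • b) = t * hp a b := by
  simp only [hp, Pi.smul_apply, smul_eq_mul]
  ring

private theorem hp_add_left (a b c : Fin 3 → ℂ) : hp (a + b) c = hp a c + hp b c := by
  simp only [hp, Pi.add_apply, star_add]
  ring

private theorem hp_smul_left (t : ℂ) (a b : Fin 3 → ℂ) : hp (t • a) b = star t * hp a b := by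
  simp only [hp, Pi.smul_apply, smul_eq_mul, star_mul']
  ring

private theorem hp_cc {u p : Fin 3 → ℂ} (hu : hp u u = 1) (hp2 : hp p p = 1) (hup : hp u p = 0) :
    hp (cc u p) (cc u p) = 1 ∧ hp (cc u p) u = 0 ∧ hp (cc u p) p = 0 := by
  have hpu : hp p u = 0 := by
    rw [← hp_star, hup, star_zero]
  refine ⟨?_, ?_, ?_⟩
  · have h : hp (cc u p) (cc u p) = hp u u * hp p p - hp u p * hp p u := by
      simp [hp, cc]
      ring
    rw [h, hu, hp2, hup]
    ring
  · simp [hp, cc]
    ring
  · simp [hp, cc]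
    ring

private theorem cc_add_right (a b c : Fin 3 → ℂ) : cc a (b + c) = cc a b + cc a c := by
  funext i
  fin_cases i <;> simp [cc] <;> ring

private theorem cc_smul_right (t : ℂ) (a b : Fin 3 → ℂ) : cc a (t • b) = star t • cc a b := by
  funext i
  fin_cases i <;> simp [cc] <;> ring

private theorem cc_smul_left (t : ℂ) (a b : Fin 3 → ℂ) : cc (t • a) b = star t • cc a b := by
  funext i
  fin_cases i <;> simp [cc] <;> ring

/-- one half of the pair -/
private theorem half {R : Fin 8 → Fin 8 → Fin 8 → Fin 8 → ℝ} (hR : IsCurvature R)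
    (hs : SecIn R 0 1) {u v p : Fin 3 → ℂ} {c s : ℝ} (hc : 0 ≤ c) (h0 : 0 ≤ s)
    (hcs : c ^ 2 + s ^ 2 = 2)
    (hu : hp u u = 1) (hp2 : hp p p = 1) (hup : hp u p = 0)
    (hv : v = ((((s ^ 2 - 1 : ℝ) : ℂ)) * Complex.I) • u + ((c * s : ℝ) : ℂ) • p) :
    - (8 * Real.sqrt 2 / 3) * s ≤
      rb R (pA (rv u) + pB (rv v)) (pA (rv u) + pB (rv v))
        + rb R (pA (rv v) - pB (rv u)) (pA (rv v) - pB (rv u)) := by
  obtain ⟨n3, n31, n32⟩ := hp_cc hu hp2 hup
  obtain ⟨m1, m2⟩ := cc_cc hu hp2 hup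
  set q := cc u p with hq
  set a : Fin 3 → ℂ := ((c : ℝ) : ℂ) • u + (((s : ℝ) : ℂ) * Complex.I) • p with ha
  have hpu : hp p u = 0 := by
    rw [← hp_star, hup, star_zero]
  have hcs' : (((c : ℝ) : ℂ)) ^ 2 + (((s : ℝ) : ℂ)) ^ 2 = 2 := by exact_mod_cast hcs
  have haa : hp a a = 2 := by
    rw [ha]
    simp only [hp_add_left, hp_add_right, hp_smul_left, hp_smul_right, hu, hp2, hup, hpu]
    simp
    linear_combination hcs' - ((s : ℝ) : ℂ) ^ 2 * Complex.I_sq
  have hqa : hp q a = 0 := by
    rw [ha]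
    simp only [hp_add_right, hp_smul_right, n31, n32]
    simp
  have haq : hp a q = 0 := by
    rw [← hp_star, hqa, star_zero]
  -- the two factors
  set z1 : Fin 8 → ℝ := c • d8 0 + s • rv (Complex.I • q) with hz1
  set z2 : Fin 8 → ℝ := s • rv q with hz2
  set w1 : Fin 8 → ℝ := rv a with hw1
  set w2 : Fin 8 → ℝ := - rv (Complex.I • a) with hw2
  -- identities
  have hca : ((c : ℝ) : ℂ) • a = u + Complex.I • v := by
    rw [hv, ha]
    funext i
    simp only [Pi.add_apply, Pi.smul_apply, smul_eq_mul]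
    push_cast
    linear_combination (hcs' - 0) * u i - (((s : ℝ) : ℂ) ^ 2 - 1) * u i * Complex.I_sq
  have hqa' : ((s : ℝ) : ℂ) • cc q a = v + Complex.I • u := by
    rw [ha, cc_add_right, cc_smul_right, cc_smul_right, m1, m2, hv]
    funext i
    simp only [Pi.add_apply, Pi.smul_apply, smul_eq_mul, Pi.neg_apply]
    simp
    push_cast
    ring
  have hII : Complex.I • Complex.I • a = -a := by
    funext i
    simp only [Pi.smul_apply, smul_eq_mul, Pi.neg_apply]
    linear_combination a i * Complex.I_sq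
  have e1 : wed z1 w1 - wed z2 w2 = pA (rv u) + pB (rv v) := by
    have k1 : wed (rv (Complex.I • q)) (rv a) + wed (rv q) (rv (Complex.I • a))
        = pC (rv (cc q (Complex.I • a))) := by
      have := wed_rv q (Complex.I • a)
      rw [hII, rv_neg, pc_wed_neg_right, sub_neg_eq_add] at this
      rw [← this, add_comm]
    have k2 : s • pC (rv (cc q (Complex.I • a))) = pC (rv u) - pC (rv (Complex.I • v)) := by
      rw [← bet_smul, ← rv_smul, cc_smul_right, smul_comm, hqa']
      have : star Complex.I • (v + Complex.I • u) = u + -(Complex.I • v) := by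
        funext i
        simp only [Pi.add_apply, Pi.smul_apply, smul_eq_mul, Pi.neg_apply]
        simp
        linear_combination -(u i) * Complex.I_sq
      rw [this, rv_add, rv_neg, bet_add, bet_neg, sub_eq_add_neg]
    have k3 : c • wed (d8 0) (rv a) = wed (d8 0) (rv u) + wed (d8 0) (rv (Complex.I • v)) := by
      rw [← pc_wed_smul_right, ← rv_smul, hca, rv_add, pc_wed_add_right]
    calc wed z1 w1 - wed z2 w2
        = c • wed (d8 0) (rv a)
          + s • (wed (rv (Complex.I • q)) (rv a) + wed (rv q) (rv (Complex.I • a))) := by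
          clear_value a
          funext i j
          simp only [wed, hz1, hz2, hw1, hw2, Pi.sub_apply, Pi.add_apply, Pi.smul_apply,
            Pi.neg_apply, smul_eq_mul]
          ring
      _ = pA (rv u) + pB (rv v) := by
          rw [k1, k2, k3]
          unfold pA pB
          rw [J8_rv]
          abel
  have e2 : wed z1 w2 + wed z2 w1 = pA (rv v) - pB (rv u) := by
    have k1 : wed (rv q) (rv a) - wed (rv (Complex.I • q)) (rv (Complex.I • a))
        = pC (rv (cc q a)) := wed_rv q a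
    have k2 : s • pC (rv (cc q a)) = pC (rv v) + pC (rv (Complex.I • u)) := by
      rw [← bet_smul, ← rv_smul, hqa', rv_add, bet_add]
    have k3 : c • wed (d8 0) (rv (Complex.I • a))
        = wed (d8 0) (rv (Complex.I • u)) - wed (d8 0) (rv v) := by
      rw [← pc_wed_smul_right, ← rv_smul, smul_comm, hca]
      have : Complex.I • (u + Complex.I • v) = Complex.I • u + -v := by
        funext i
        simp only [Pi.add_apply, Pi.smul_apply, smul_eq_mul, Pi.neg_apply]
        linear_combination (v i) * Complex.I_sq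
      rw [this, rv_add, rv_neg, pc_wed_add_right, pc_wed_neg_right, sub_eq_add_neg]
    calc wed z1 w2 + wed z2 w1
        = -(c • wed (d8 0) (rv (Complex.I • a)))
          + s • (wed (rv q) (rv a) - wed (rv (Complex.I • q)) (rv (Complex.I • a))) := by
          clear_value a
          funext i j
          simp only [wed, hz1, hz2, hw1, hw2, Pi.sub_apply, Pi.add_apply, Pi.smul_apply,
            Pi.neg_apply, smul_eq_mul]
          ring
      _ = pA (rv v) - pB (rv u) := by
          rw [k1, k2, k3]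
          unfold pA pB
          rw [J8_rv]
          abel
  rw [← e1, ← e2, ← cdec_RB hR]
  -- the frame
  have r2 : Real.sqrt 2 * Real.sqrt 2 = 2 := Real.mul_self_sqrt (by norm_num)
  have r2' : (0 : ℝ) < Real.sqrt 2 := Real.sqrt_pos.2 (by norm_num)
  have r2n : Real.sqrt 2 ≠ 0 := r2'.ne'
  let E : Fin 4 → Fin 8 → ℝ := ![(Real.sqrt 2)⁻¹ • z1, rv q, (Real.sqrt 2)⁻¹ • w1,
    (Real.sqrt 2)⁻¹ • w2]
  have hE : ∀ i j, dotp (E i) (E j) = if i = j then 1 else 0 := by
    have cm : ∀ x y : Fin 8 → ℝ, dotp x y = dotp y x := fun x y => by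
      unfold dotp; exact Finset.sum_congr rfl fun i _ => mul_comm _ _
    have t1 : hp (Complex.I • q) (Complex.I • q) = 1 := by
      rw [hp_smul_left, hp_smul_right, n3]
      simp
    have t2 : hp (Complex.I • q) q = -Complex.I := by
      rw [hp_smul_left, n3]
      simp
    have t3 : hp (Complex.I • q) a = 0 := by
      rw [hp_smul_left, hqa]
      simp
    have t4 : hp (Complex.I • q) (Complex.I • a) = 0 := by
      rw [hp_smul_left, hp_smul_right, hqa]
      simp
    have t5 : hp q (Complex.I • a) = 0 := by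
      rw [hp_smul_right, hqa]
      simp
    have t6 : hp a (Complex.I • a) = 2 * Complex.I := by
      rw [hp_smul_right, haa]
      ring
    have t7 : hp (Complex.I • a) (Complex.I • a) = 2 := by
      rw [hp_smul_left, hp_smul_right, haa]
      simp
      linear_combination -2 * Complex.I_sq
    have d11 : dotp z1 z1 = 2 := by
      rw [hz1]
      simp only [c4_dotp_add_left, c4_dotp_add_right, c4_dotp_smul_left, c4_dotp_smul_right,
        dotp_rv, dotp_un_rv, dotp_rv_un, dotp_un, t1]
      simp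
      linear_combination hcs
    have d12 : dotp z1 (rv q) = 0 := by
      rw [hz1]
      simp only [c4_dotp_add_left, c4_dotp_smul_left, dotp_rv, dotp_un_rv, t2]
      simp
    have d13 : dotp z1 w1 = 0 := by
      rw [hz1, hw1]
      simp only [c4_dotp_add_left, c4_dotp_smul_left, dotp_rv, dotp_un_rv, t3]
      simp
    have ng : ∀ x y : Fin 8 → ℝ, dotp x (-y) = - dotp x y := fun x y => by
      have := c4_dotp_smul_right (-1) y x
      simpa using this
    have gn : ∀ x y : Fin 8 → ℝ, dotp (-x) y = - dotp x y := fun x y => by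
      have := c4_dotp_smul_left (-1) x y
      simpa using this
    have d14 : dotp z1 w2 = 0 := by
      rw [hz1, hw2, ng]
      simp only [c4_dotp_add_left, c4_dotp_smul_left, dotp_rv, dotp_un_rv, t4]
      simp
    have d22 : dotp (rv q) (rv q) = 1 := by
      rw [dotp_rv, n3]
      simp
    have d23 : dotp (rv q) w1 = 0 := by
      rw [hw1, dotp_rv, hqa]
      simp
    have d24 : dotp (rv q) w2 = 0 := by
      rw [hw2, ng, dotp_rv, t5]
      simp
    have d33 : dotp w1 w1 = 2 := by
      rw [hw1, dotp_rv, haa]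
      simp
    have d34 : dotp w1 w2 = 0 := by
      rw [hw1, hw2, ng, dotp_rv, t6]
      simp
    have d44 : dotp w2 w2 = 2 := by
      rw [hw2, ng, gn, dotp_rv, t7]
      simp
    have ii : (Real.sqrt 2)⁻¹ * ((Real.sqrt 2)⁻¹ * 2) = 1 := by
      field_simp
      linear_combination -r2
    have E0 : E 0 = (Real.sqrt 2)⁻¹ • z1 := rfl
    have E1 : E 1 = rv q := rfl
    have E2 : E 2 = (Real.sqrt 2)⁻¹ • w1 := rfl
    have E3 : E 3 = (Real.sqrt 2)⁻¹ • w2 := rfl
    have g00 : dotp (E 0) (E 0) = 1 := by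
      rw [E0, c4_dotp_smul_left, c4_dotp_smul_right, d11]; exact ii
    have g01 : dotp (E 0) (E 1) = 0 := by
      rw [E0, E1, c4_dotp_smul_left, d12, mul_zero]
    have g02 : dotp (E 0) (E 2) = 0 := by
      rw [E0, E2, c4_dotp_smul_left, c4_dotp_smul_right, d13, mul_zero, mul_zero]
    have g03 : dotp (E 0) (E 3) = 0 := by
      rw [E0, E3, c4_dotp_smul_left, c4_dotp_smul_right, d14, mul_zero, mul_zero]
    have g11 : dotp (E 1) (E 1) = 1 := by
      rw [E1, d22]
    have g12 : dotp (E 1) (E 2) = 0 := by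
      rw [E1, E2, c4_dotp_smul_right, d23, mul_zero]
    have g13 : dotp (E 1) (E 3) = 0 := by
      rw [E1, E3, c4_dotp_smul_right, d24, mul_zero]
    have g22 : dotp (E 2) (E 2) = 1 := by
      rw [E2, c4_dotp_smul_left, c4_dotp_smul_right, d33]; exact ii
    have g23 : dotp (E 2) (E 3) = 0 := by
      rw [E2, E3, c4_dotp_smul_left, c4_dotp_smul_right, d34, mul_zero, mul_zero]
    have g33 : dotp (E 3) (E 3) = 1 := by
      rw [E3, c4_dotp_smul_left, c4_dotp_smul_right, d44]; exact ii
    intro i j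
    fin_cases i <;> fin_cases j
    · exact g00
    · exact g01
    · exact g02
    · exact g03
    · exact (cm _ _).trans g01
    · exact g11
    · exact g12
    · exact g13
    · exact (cm _ _).trans g02
    · exact (cm _ _).trans g12
    · exact g22
    · exact g23
    · exact (cm _ _).trans g03
    · exact (cm _ _).trans g13
    · exact (cm _ _).trans g23
    · exact g33
  have key := cdec_frame hR hs E hE (Real.sqrt 2) s (Real.sqrt 2) (Real.sqrt 2)
  have f0 : Real.sqrt 2 • E 0 = z1 := by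
    show Real.sqrt 2 • ((Real.sqrt 2)⁻¹ • z1) = z1
    rw [smul_smul, mul_inv_cancel₀ r2n, one_smul]
  have f1 : s • E 1 = z2 := rfl
  have f2 : Real.sqrt 2 • E 2 = w1 := by
    show Real.sqrt 2 • ((Real.sqrt 2)⁻¹ • w1) = w1
    rw [smul_smul, mul_inv_cancel₀ r2n, one_smul]
  have f3 : Real.sqrt 2 • E 3 = w2 := by
    show Real.sqrt 2 • ((Real.sqrt 2)⁻¹ • w2) = w2
    rw [smul_smul, mul_inv_cancel₀ r2n, one_smul]
  rw [f0, f1, f2, f3, abs_of_nonneg (by positivity)] at key
  have : - (8 * Real.sqrt 2 / 3) * s = -(4 / 3) * (Real.sqrt 2 * s * Real.sqrt 2 * Real.sqrt 2) := by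
    linear_combination (4 / 3 * s * Real.sqrt 2) * r2
  rw [this]
  exact key

/-- a unit vector orthogonal to a given unit vector -/
private theorem exists_perp (u : Fin 3 → ℂ) (hu : hp u u = 1) :
    ∃ p : Fin 3 → ℂ, hp p p = 1 ∧ hp u p = 0 := by
  by_cases h : Complex.normSq (u 0) + Complex.normSq (u 1) = 0
  · have h0 : u 0 = 0 := by
      have := Complex.normSq_nonneg (u 0)
      have := Complex.normSq_nonneg (u 1)
      exact Complex.normSq_eq_zero.1 (by linarith)
    refine ⟨![1, 0, 0], ?_, ?_⟩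
    · simp [hp]
    · simp [hp, h0]
  · set n : ℝ := Complex.normSq (u 0) + Complex.normSq (u 1) with hn
    have hn0 : 0 < n := by
      have := Complex.normSq_nonneg (u 0)
      have := Complex.normSq_nonneg (u 1)
      exact lt_of_le_of_ne (by linarith) (Ne.symm h)
    have hsn : Real.sqrt n * Real.sqrt n = n := Real.mul_self_sqrt hn0.le
    have hsp : Real.sqrt n ≠ 0 := (Real.sqrt_pos.2 hn0).ne'
    refine ⟨(((Real.sqrt n)⁻¹ : ℝ) : ℂ) • ![star (u 1), - star (u 0), 0], ?_, ?_⟩
    · rw [hp_smul_left, hp_smul_right]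
      have h1 : hp ![star (u 1), - star (u 0), 0] ![star (u 1), - star (u 0), 0] = ((n : ℝ) : ℂ) := by
        rw [hn]
        push_cast
        rw [← Complex.mul_conj, ← Complex.mul_conj]
        simp [hp]
        ring
      rw [h1, Complex.star_def, Complex.conj_ofReal, ← Complex.ofReal_mul, ← Complex.ofReal_mul]
      have : (Real.sqrt n)⁻¹ * ((Real.sqrt n)⁻¹ * n) = 1 := by
        field_simp
        linear_combination -hsn
      rw [this]
      simp
    · rw [hp_smul_right]
      simp [hp]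
      right
      ring

private theorem hp_self (u : Fin 3 → ℂ) : hp u u = ((dotp (rv u) (rv u) : ℝ) : ℂ) := by
  apply Complex.ext
  · rw [dotp_rv, Complex.ofReal_re]
  · rw [Complex.ofReal_im]
    simp [hp]
    ring

private theorem dotp_self_nonneg {n : ℕ} (x : Fin n → ℝ) : 0 ≤ dotp x x :=
  Finset.sum_nonneg fun i _ => mul_self_nonneg (x i)

private theorem rv_eq_zero {u : Fin 3 → ℂ} (h : dotp (rv u) (rv u) = 0) : u = 0 := by
  simp [dotp, rv, Fin.sum_univ_eight] at h
  have a0 := mul_self_nonneg (u 0).re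
  have a1 := mul_self_nonneg (u 0).im
  have a2 := mul_self_nonneg (u 1).re
  have a3 := mul_self_nonneg (u 1).im
  have a4 := mul_self_nonneg (u 2).re
  have a5 := mul_self_nonneg (u 2).im
  have b0 : (u 0).re = 0 := mul_self_eq_zero.1 (by linarith)
  have b1 : (u 0).im = 0 := mul_self_eq_zero.1 (by linarith)
  have b2 : (u 1).re = 0 := mul_self_eq_zero.1 (by linarith)
  have b3 : (u 1).im = 0 := mul_self_eq_zero.1 (by linarith)
  have b4 : (u 2).re = 0 := mul_self_eq_zero.1 (by linarith)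
  have b5 : (u 2).im = 0 := mul_self_eq_zero.1 (by linarith)
  funext i
  fin_cases i
  · exact Complex.ext b0 b1
  · exact Complex.ext b2 b3
  · exact Complex.ext b4 b5

/-- normal form of a real-orthonormal pair -/
private theorem normal_pair {u v : Fin 3 → ℂ} (hu : hp u u = 1) (hv : hp v v = 1)
    (huv : (hp u v).re = 0) :
    ∃ (c s : ℝ) (p : Fin 3 → ℂ), 0 ≤ c ∧ 0 ≤ s ∧ c ^ 2 + s ^ 2 = 2 ∧ hp p p = 1 ∧ hp u p = 0 ∧
      v = ((((s ^ 2 - 1 : ℝ) : ℂ)) * Complex.I) • u + ((c * s : ℝ) : ℂ) • p := by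
  set om : ℝ := (hp u v).im with hom
  have h1 : hp u v = (om : ℂ) * Complex.I := by
    apply Complex.ext
    · simpa using huv
    · simp [hom]
  have h2 : hp v u = -((om : ℂ) * Complex.I) := by
    rw [← hp_star, h1]
    simp
  set w : Fin 3 → ℂ := v + (-((om : ℂ) * Complex.I)) • u with hw
  have hww : hp w w = ((1 - om ^ 2 : ℝ) : ℂ) := by
    rw [hw]
    simp only [hp_add_left, hp_add_right, hp_smul_left, hp_smul_right, hu, hv, h1, h2]
    simp
    linear_combination ((om : ℂ)) ^ 2 * Complex.I_sq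
  have huw : hp u w = 0 := by
    rw [hw]
    simp only [hp_add_right, hp_smul_right, hu, h1]
    ring
  have hwd : dotp (rv w) (rv w) = 1 - om ^ 2 := by
    have := hp_self w
    rw [hww] at this
    exact_mod_cast this.symm
  have hom1 : om ^ 2 ≤ 1 := by
    have := dotp_self_nonneg (rv w)
    linarith
  have ha : -1 ≤ om ∧ om ≤ 1 := by
    constructor <;> nlinarith
  have hc2 : Real.sqrt (1 - om) ^ 2 = 1 - om := Real.sq_sqrt (by linarith)
  have hs2 : Real.sqrt (1 + om) ^ 2 = 1 + om := Real.sq_sqrt (by linarith)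
  have hcs : (Real.sqrt (1 - om) * Real.sqrt (1 + om)) ^ 2 = 1 - om ^ 2 := by
    rw [mul_pow, hc2, hs2]; ring
  have hvw : v = (((1 + om - 1 : ℝ) : ℂ) * Complex.I) • u + w := by
    rw [hw]
    funext i
    simp only [Pi.add_apply, Pi.smul_apply, smul_eq_mul]
    push_cast
    ring
  by_cases h0 : Real.sqrt (1 - om) * Real.sqrt (1 + om) = 0
  · obtain ⟨p, hp1, hp2⟩ := exists_perp u hu
    refine ⟨Real.sqrt (1 - om), Real.sqrt (1 + om), p, Real.sqrt_nonneg _, Real.sqrt_nonneg _,
      by rw [hc2, hs2]; ring, hp1, hp2, ?_⟩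
    have hw0 : w = 0 := by
      apply rv_eq_zero
      rw [hwd, ← hcs, h0]; ring
    rw [hs2, h0, Complex.ofReal_zero, zero_smul, ← hw0]
    exact hvw
  · set sg : ℝ := Real.sqrt (1 - om) * Real.sqrt (1 + om) with hsg
    have hsgc : ((sg : ℝ) : ℂ) ≠ 0 := by exact_mod_cast h0
    refine ⟨Real.sqrt (1 - om), Real.sqrt (1 + om), ((sg⁻¹ : ℝ) : ℂ) • w, Real.sqrt_nonneg _,
      Real.sqrt_nonneg _, by rw [hc2, hs2]; ring, ?_, ?_, ?_⟩
    · rw [hp_smul_left, hp_smul_right, hww, ← hcs, Complex.star_def, Complex.conj_ofReal,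
        ← Complex.ofReal_mul, ← Complex.ofReal_mul]
      have : sg⁻¹ * (sg⁻¹ * sg ^ 2) = 1 := by
        field_simp
      rw [this, Complex.ofReal_one]
    · rw [hp_smul_right, huw, mul_zero]
    · rw [hs2, ← hsg, smul_smul, ← Complex.ofReal_mul, mul_inv_cancel₀ h0, Complex.ofReal_one,
        one_smul]
      exact hvw

private theorem rK_neg (U : Fin 8 → ℝ) : pA (-U) = - pA U := by
  unfold pA
  rw [pc_wed_neg_right, bet_neg, neg_add]

private theorem J8_neg (U : Fin 8 → ℝ) : pJ (-U) = - pJ U := by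
  funext i
  fin_cases i <;> simp [pJ]

private theorem rL_neg (U : Fin 8 → ℝ) : pB (-U) = - pB U := by
  unfold pB
  rw [J8_neg, pc_wed_neg_right, bet_neg, neg_sub_neg, neg_sub]

/-- complex vector of a real vector -/
private noncomputable def cx (U : Fin 8 → ℝ) : Fin 3 → ℂ := ![⟨U 2, U 3⟩, ⟨U 4, U 5⟩, ⟨U 6, U 7⟩]

private theorem rv_cx {U : Fin 8 → ℝ} (h0 : U 0 = 0) (h1 : U 1 = 0) : rv (cx U) = U := by
  funext i
  fin_cases i <;> simp [rv, cx, h0, h1]

private theorem pair_cost {R : Fin 8 → Fin 8 → Fin 8 → Fin 8 → ℝ} (hR : IsCurvature R)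
    (hs : SecIn R 0 1) {U V : Fin 8 → ℝ} (hU0 : U 0 = 0) (hU1 : U 1 = 0) (hV0 : V 0 = 0)
    (hV1 : V 1 = 0) (hU : dotp U U = 1) (hV : dotp V V = 1) (hUV : dotp U V = 0) :
    - (8 * Real.sqrt 2 / 3) ≤ (rb R (pA U) (pA U) + rb R (pB U) (pB U))
      + (rb R (pA V) (pA V) + rb R (pB V) (pB V)) := by
  have eU := rv_cx hU0 hU1
  have eV := rv_cx hV0 hV1
  set u := cx U with hu
  set v := cx V with hv
  have huu : hp u u = 1 := by rw [hp_self, eU, hU, Complex.ofReal_one]
  have hvv : hp v v = 1 := by rw [hp_self, eV, hV, Complex.ofReal_one]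
  have huv : (hp u v).re = 0 := by rw [← dotp_rv, eU, eV, hUV]
  obtain ⟨c, s, p, hc, h0, hcs, hp1, hp2, hvp⟩ := normal_pair huu hvv huv
  have k1 := half hR hs hc h0 hcs huu hp1 hp2 hvp
  have k2 := half hR hs (u := u) (v := -v) (p := -p) h0 hc (by linarith) huu
    (by
      have : hp (-p) (-p) = hp p p := by simp [hp]
      rw [this, hp1])
    (by
      have : hp u (-p) = - hp u p := by simp [hp]; ring
      rw [this, hp2, neg_zero])
    (by
      rw [hvp]
      have hc2 : (((c ^ 2 - 1 : ℝ)) : ℂ) = -(((s ^ 2 - 1 : ℝ)) : ℂ) := by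
        rw [← Complex.ofReal_neg]
        congr 1
        linarith
      rw [hc2]
      funext i
      simp only [Pi.add_apply, Pi.smul_apply, smul_eq_mul, Pi.neg_apply]
      push_cast
      ring)
  rw [rv_neg, rK_neg, rL_neg] at k2
  rw [eU, eV] at k1 k2
  have hsc : s + c ≤ 2 := by nlinarith [sq_nonneg (s - c)]
  have r2' : (0 : ℝ) < Real.sqrt 2 := Real.sqrt_pos.2 (by norm_num)
  simp only [RB_add_left, RB_add_right, RB_sub_left, RB_sub_right, RB_neg_left, RB_neg_right]
    at k1 k2
  nlinarith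

private theorem rest_cost {R : Fin 8 → Fin 8 → Fin 8 → Fin 8 → ℝ} (hR : IsCurvature R)
    (hs : SecIn R 0 1) {U : Fin 8 → ℝ} (hU0 : U 0 = 0) (hU1 : U 1 = 0) (hU : dotp U U = 1) :
    - (4 / 3) ≤ rb R (pC U) (pC U) + rb R (pC (pJ U)) (pC (pJ U)) := by
  have eU := rv_cx hU0 hU1
  set u := cx U with hu
  have huu : hp u u = 1 := by rw [hp_self, eU, hU, Complex.ofReal_one]
  obtain ⟨p, hp1, hp2⟩ := exists_perp u huu
  obtain ⟨n3, n31, n32⟩ := hp_cc huu hp1 hp2
  obtain ⟨m1, m2⟩ := cc_cc huu hp1 hp2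
  set q := cc u p with hq
  have hpq : hp p q = 0 := by rw [← hp_star, n32, star_zero]
  have m3 : cc p q = u := by
    have h : cc p q = - cc q p := by
      funext i
      fin_cases i <;> simp [cc] <;> ring
    rw [h, m2, neg_neg]
  have k1 : wed (rv p) (rv q) - wed (rv (Complex.I • p)) (rv (Complex.I • q)) = pC U := by
    rw [wed_rv, m3, eU]
  have k2 : wed (rv p) (rv (Complex.I • q)) + wed (rv (Complex.I • p)) (rv q)
      = - pC (pJ U) := by
    have h := wed_rv p (Complex.I • q)
    have hII : Complex.I • Complex.I • q = -q := by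
      funext i
      simp only [Pi.smul_apply, smul_eq_mul, Pi.neg_apply]
      linear_combination q i * Complex.I_sq
    rw [hII, rv_neg, pc_wed_neg_right, sub_neg_eq_add, cc_smul_right, m3] at h
    rw [h]
    have : star Complex.I • u = - (Complex.I • u) := by
      funext i
      simp
    rw [this, rv_neg, bet_neg, ← J8_rv, eU]
  let E : Fin 4 → Fin 8 → ℝ := ![rv p, rv (Complex.I • p), rv q, rv (Complex.I • q)]
  have hE : ∀ i j, dotp (E i) (E j) = if i = j then 1 else 0 := by
    have cm : ∀ x y : Fin 8 → ℝ, dotp x y = dotp y x := fun x y => by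
      unfold dotp; exact Finset.sum_congr rfl fun i _ => mul_comm _ _
    have d11 : dotp (rv p) (rv p) = 1 := by rw [dotp_rv, hp1]; simp
    have d12 : dotp (rv p) (rv (Complex.I • p)) = 0 := by
      rw [dotp_rv, hp_smul_right, hp1]; simp
    have d13 : dotp (rv p) (rv q) = 0 := by rw [dotp_rv, hpq]; simp
    have d14 : dotp (rv p) (rv (Complex.I • q)) = 0 := by
      rw [dotp_rv, hp_smul_right, hpq]; simp
    have d22 : dotp (rv (Complex.I • p)) (rv (Complex.I • p)) = 1 := by
      rw [dotp_rv, hp_smul_left, hp_smul_right, hp1]; simp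
    have d23 : dotp (rv (Complex.I • p)) (rv q) = 0 := by
      rw [dotp_rv, hp_smul_left, hpq]; simp
    have d24 : dotp (rv (Complex.I • p)) (rv (Complex.I • q)) = 0 := by
      rw [dotp_rv, hp_smul_left, hp_smul_right, hpq]; simp
    have d33 : dotp (rv q) (rv q) = 1 := by rw [dotp_rv, n3]; simp
    have d34 : dotp (rv q) (rv (Complex.I • q)) = 0 := by
      rw [dotp_rv, hp_smul_right, n3]; simp
    have d44 : dotp (rv (Complex.I • q)) (rv (Complex.I • q)) = 1 := by
      rw [dotp_rv, hp_smul_left, hp_smul_right, n3]; simp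
    intro i j
    fin_cases i <;> fin_cases j
    · exact d11
    · exact d12
    · exact d13
    · exact d14
    · exact (cm _ _).trans d12
    · exact d22
    · exact d23
    · exact d24
    · exact (cm _ _).trans d13
    · exact (cm _ _).trans d23
    · exact d33
    · exact d34
    · exact (cm _ _).trans d14
    · exact (cm _ _).trans d24
    · exact (cm _ _).trans d34
    · exact d44
  have key := cdec_frame hR hs E hE 1 1 1 1
  have key2 := cdec_RB hR (rv p) (rv (Complex.I • p)) (rv q) (rv (Complex.I • q))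
  rw [k1, k2, RB_neg_left, RB_neg_right] at key2
  have f : cdec R ((1 : ℝ) • E 0) ((1 : ℝ) • E 1) ((1 : ℝ) • E 2) ((1 : ℝ) • E 3)
      = cdec R (rv p) (rv (Complex.I • p)) (rv q) (rv (Complex.I • q)) := by
    simp only [one_smul]
    rfl
  rw [f, key2] at key
  norm_num at key
  linarith

private theorem CC_up (u : V6) : CC u = pC (up u) := rfl

private theorem JV_up (u : V6) : up (JV u) = pJ (up u) := by
  funext i
  fin_cases i <;> simp [up, JV, pJ]

private theorem dotp_up (u v : V6) : dotp (up u) (up v) = u ⬝ᵥ v := by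
  simp [dotp, up, dotProduct, Fin.sum_univ_eight, Fin.sum_univ_six]

private theorem At_up (u : V6) : At u = pA (up u) := rfl

private theorem Bt_up (u : V6) : Bt u = pB (up u) := by
  unfold Bt pB EE
  rw [CC_up, JV_up]

theorem rq_pair {R : Fin 8 → Fin 8 → Fin 8 → Fin 8 → ℝ} (hR : IsCurvature R)
    (hs : SecIn R 0 1) {u v : V6} (hu : u ⬝ᵥ u = 1) (hv : v ⬝ᵥ v = 1) (huv : u ⬝ᵥ v = 0) :
    -(4 / 3 * √2) ≤ rq R u + rq R v := by
  have h := pair_cost hR hs (U := up u) (V := up v) rfl rfl rfl rfl (by rw [dotp_up, hu])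
    (by rw [dotp_up, hv]) (by rw [dotp_up, huv])
  unfold rq
  rw [At_up, Bt_up, At_up, Bt_up]
  linarith

/-- in the standard frame -/
theorem rq_pair_std {R : Fin 8 → Fin 8 → Fin 8 → Fin 8 → ℝ} (hR : IsCurvature R)
    (hs : SecIn R 0 1) {t s : ℝ} (hts : t ^ 2 + s ^ 2 = 1) :
    -(4 / 3 * √2) ≤ rq R (bs 0) + rq R (t • bs 1 + s • bs 2) := by
  refine rq_pair hR hs ?_ ?_ ?_
  · simp [bs, dotProduct, Fin.sum_univ_six]
  · simp [bs, dotProduct, Fin.sum_univ_six]
    linear_combination hts
  · simp [bs, dotProduct, Fin.sum_univ_six]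

/-- `R(CC u, CC u) + R(CC Ju, CC Ju) ≥ - 4/3` -/
theorem rc_pair {R : Fin 8 → Fin 8 → Fin 8 → Fin 8 → ℝ} (hR : IsCurvature R)
    (hs : SecIn R 0 1) {u : V6} (hu : u ⬝ᵥ u = 1) :
    -(4 / 3) ≤ rb R (CC u) (CC u) + rb R (CC (JV u)) (CC (JV u)) := by
  have h := rest_cost hR hs (U := up u) rfl rfl (by rw [dotp_up, hu])
  rw [CC_up, CC_up, JV_up]
  exact h

end Pool.Hopf3
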