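import Pool.Agent.Lib.MP_4a593f_gt.E83.FinA
import Pool.Agent.Lib.MP_4a593f_gt.E83.Glob
import Pool.Agent.Lib.MP_4a593f_gt.E83.GlobG
import Pool.Agent.Lib.MP_4a593f_gt.E83.NFc
import Pool.Agent.Lib.MP_4a593f_gt.E83.PairCost
import Pool.Agent.Lib.MP_4a593f_gt.E83.NT
import Pool.Agent.Lib.MP_4a593f_gt.E83.Hyp
import Pool.Agent.Lib.MP_4a593f_gt.E83.Eps
import Pool.Agent.Lib.MP_4a593f_gt.E83.Main
import Pool.Agent.Lib.MP_4a593f_gt.E83.R6.HBlock
import Pool.Agent.Lib.MP_4a593f_gt.E83.R6.YBlock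

/-!
Final assembly: `prsv R χ Ps ≥ - (443/100) ⟨χ, Ps⟩` at a top frame, for sectional curvature in
`[0, 1]`.
-/

namespace Pool.Hopf3

open Finset Matrix
open scoped MatrixOrder

/-- the `e ∧ v`, `f ∧ v` block, symmetric coupling -/
theorem fin_HB {R : Fin 8 → Fin 8 → Fin 8 → Fin 8 → ℝ} (hR : IsCurvature R) (hs : SecIn R 0 1)
    {L H : M6} (hL : L.PosDef) (hH : Hᵀ = H) {s k : ℝ} (hs0 : 0 ≤ s) (hs1 : s ≤ 1)
    (hs2 : s ^ 2 ≤ 7 / 18) (hk : 0 < k) :
    - ((1 - s) * ((k * (H * L⁻¹ * H).trace + L.trace / k) / 2)) ≤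
      1 / 2 * mdot (H * L⁻¹ * H) (REm R) + 7 / 9 * mdot L (RFm R) + 2 * mdot H (REFm R) := by
  have h0 : ∀ (p q : ℝ) (v : Fin 6 → ℝ), 0 ≤ p ^ 2 * (∑ a, ∑ b, REm R a b * v a * v b)
      + 2 * (p * q) * (∑ a, ∑ b, REFm R a b * v a * v b)
      + q ^ 2 * (∑ a, ∑ b, RFm R a b * v a * v b) := by
    intro p q v
    have h := (hs (p • d8 0 + q • d8 1) (up v)).1
    rw [zero_mul, Fa.ev4_ef R hR] at h
    exact h
  have h1 : ∀ v : Fin 6 → ℝ, |2 * ∑ a, ∑ b, REFm R a b * v a * v b| ≤ ∑ a, v a * v a := by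
    intro v
    obtain ⟨d1, d2, d3⟩ := Fa.dotp_ef 1 1 v
    obtain ⟨g1, g2, _⟩ := Fa.dotp_ef 1 (-1) v
    have a1 := (hs (1 • d8 0 + 1 • d8 1) (up v)).1
    have a2 := (hs ((1 : ℝ) • d8 0 + (1 : ℝ) • d8 1) (up v)).2
    have b1 := h0 1 (-1) v
    have b2 := (hs ((1 : ℝ) • d8 0 + (-1 : ℝ) • d8 1) (up v)).2
    have a3 := h0 1 1 v
    rw [Fa.ev4_ef R hR, d1, d2, d3] at a2
    rw [Fa.ev4_ef R hR, g1, g2, d3] at b2
    have e : v ⬝ᵥ v = ∑ a, v a * v a := rfl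
    rw [e] at a2 b2
    rw [abs_le]
    constructor
    · linarith
    · linarith
  have h := hblock (E := fun a b => REm R a b) (G := fun a b => RFm R a b)
    (N := fun a b => REFm R a b) hL hH h0 h1 (α := 1 / 2) (β := 7 / 9) (s := s) (k := k)
    (by norm_num) (by norm_num) hs0 hs1 (by linarith) hk
  unfold mdot
  linarith

/-- the estimate for the forms `CC u` -/
theorem fin_rc {R : Fin 8 → Fin 8 → Fin 8 → Fin 8 → ℝ} (hR : IsCurvature R) (hs : SecIn R 0 1)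
    {Q : M6} (hQ : Q.PosSemidef) (hJ : Jm * Q = Q * Jm) :
    -(2 / 3 * Q.trace) ≤ mdot Q (RCm R) := by
  have h1 : ∀ u : V6, u ⬝ᵥ u = 1 → -(4 / 3 : ℝ) ≤ u ⬝ᵥ (RCm R + Jmᵀ * RCm R * Jm) *ᵥ u := by
    intro u hu
    have h := rc_pair hR hs hu
    rw [Matrix.add_mulVec, dotProduct_add, Fa.RCm_eq]
    have e : u ⬝ᵥ (Jmᵀ * RCm R * Jm) *ᵥ u = rb R (CC (JV u)) (CC (JV u)) := by
      rw [← Fa.RCm_eq, ← Fa.Jm_mulVec, Matrix.mul_assoc, ← Matrix.mulVec_mulVec, ← Matrix.mulVec_mulVec,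
        Matrix.dotProduct_mulVec, Matrix.vecMul_transpose]
    rw [e]
    exact h
  have h2 : ∀ u : V6, 0 ≤ u ⬝ᵥ (RCm R + Jmᵀ * RCm R * Jm + (4 / 3 : ℝ) • (1 : M6)) *ᵥ u := by
    intro u
    have h := Fa.quad_ge_of_unit h1 u
    rw [Matrix.add_mulVec, dotProduct_add, Matrix.smul_mulVec, Matrix.one_mulVec, dotProduct_smul,
      smul_eq_mul]
    linarith
  have h3 := Fa.mdot_nonneg hQ h2
  rw [Fa.mdot_add_right, Fa.mdot_add_right, Fa.mdot_smul_right, Fa.mdot_one, Fa.mdot_conj hJ] at h3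
  linarith

theorem core_posDef {R : Fin 8 → Fin 8 → Fin 8 → Fin 8 → ℝ} (hR : IsCurvature R)
    (hs : SecIn R 0 1) {χ : Fin 8 → Fin 8 → Fin 8 → ℝ} (h : TopAt χ Ps) (hL : (Lm χ).PosDef) :
    -(443 / 100) * ip3 χ Ps ≤ prsv R χ Ps := by
  set F := ip3 χ Ps with hF
  set L := Lm χ with hLdef
  set D := Dm χ with hDdef
  set H := Hm χ with hHdef
  set Y := Ym χ with hYdef
  set X := Xm χ with hXdef
  have hLs : Lᵀ = L := Lm_symm h
  have hLJ : Jm * L = L * Jm := Lm_J h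
  have hLt : L.trace = 2 * F := Lm_trace h
  have hD : D = F • (1 : M6) - L := Dm_eq h
  have hDJ : Jm * D = D * Jm := by
    rw [hD, Matrix.mul_sub, Matrix.sub_mul, hLJ, Matrix.mul_smul, Matrix.smul_mul, Matrix.mul_one,
      Matrix.one_mul]
  have hDs : Dᵀ = D := by
    rw [hD, Matrix.transpose_sub, Matrix.transpose_smul, Matrix.transpose_one, hLs]
  have hDt : D.trace = 4 * F := by
    rw [hD, Matrix.trace_sub, Matrix.trace_smul, Matrix.trace_one, hLt, Fintype.card_fin,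
      smul_eq_mul]
    push_cast
    ring
  have hHs : Hᵀ = H := by
    rw [hHdef, Hm, Matrix.transpose_smul, Matrix.transpose_add, Matrix.transpose_transpose,
      add_comm]
  have hHJ : Jm * H = H * Jm := Hm_J h
  have hYs : Yᵀ = -Y := by
    rw [hYdef, Ym, Matrix.transpose_smul, Matrix.transpose_sub, Matrix.transpose_transpose,
      ← smul_neg, neg_sub]
  have hYJ : Jm * Y = -(Y * Jm) := Ym_J h
  have hXs : Xᵀ = X := Xm_symm h
  have hXJ : Jm * X = -(X * Jm) := Xm_J h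
  have hS : Sm χ = D + X := by
    rw [hXdef, Xm]
    abel
  obtain ⟨c₁, c₂, hLH⟩ := Fa.second_LH h
  have hN := nt_elim Jm D L H Y X Fa.Jm_t Fa.Jm_sq hL hLJ hDJ hHs hHJ hYs hYJ hXJ c₁ c₂ hLH
  set P : M6 := H * L⁻¹ * H with hP
  set T : M6 := Yᵀ * L⁻¹ * Y with hT
  have hLi : L⁻¹.PosSemidef := hL.inv.posSemidef
  have hPp : P.PosSemidef := by
    have := hLi.conjTranspose_mul_mul_same H
    rwa [Matrix.conjTranspose_eq_transpose_of_trivial, hHs] at this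
  have hTp : T.PosSemidef := by
    have := hLi.conjTranspose_mul_mul_same Y
    rwa [Matrix.conjTranspose_eq_transpose_of_trivial] at this
  have hQp : (P + T).PosSemidef := hPp.add hTp
  have hQs : (P + T)ᵀ = P + T := by
    have := hQp.isHermitian
    rwa [Matrix.IsHermitian, Matrix.conjTranspose_eq_transpose_of_trivial] at this
  have hLiJ : Jm * L⁻¹ = L⁻¹ * Jm := by
    have hu : IsUnit L.det := (Matrix.isUnit_iff_isUnit_det L).1 hL.isUnit
    calc Jm * L⁻¹ = L⁻¹ * (L * Jm) * L⁻¹ := by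
          rw [← Matrix.mul_assoc, Matrix.nonsing_inv_mul _ hu, Matrix.one_mul]
      _ = L⁻¹ * Jm := by
          rw [← hLJ, Matrix.mul_assoc, Matrix.mul_assoc, Matrix.mul_nonsing_inv _ hu,
            Matrix.mul_one]
  have hPJ : Jm * P = P * Jm := by
    rw [hP, ← Matrix.mul_assoc, ← Matrix.mul_assoc, hHJ, Matrix.mul_assoc H Jm, hLiJ,
      ← Matrix.mul_assoc, Matrix.mul_assoc _ Jm H, hHJ, ← Matrix.mul_assoc]
  have hTJ : Jm * T = T * Jm := by
    rw [hT, hYs]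
    simp only [Matrix.neg_mul, Matrix.mul_neg]
    rw [← Matrix.mul_assoc, ← Matrix.mul_assoc, hYJ, Matrix.neg_mul, Matrix.neg_mul,
      Matrix.mul_assoc Y Jm, hLiJ, ← Matrix.mul_assoc, Matrix.mul_assoc _ Jm Y, hYJ,
      Matrix.mul_neg, ← Matrix.mul_assoc, neg_neg]
  have hQJ : Jm * (P + T) = (P + T) * Jm := by
    rw [Matrix.mul_add, Matrix.add_mul, hPJ, hTJ]
  have hG : ∀ u : V6, u ⬝ᵥ u = 1 → u ⬝ᵥ X *ᵥ u ≤ F - (u ⬝ᵥ D *ᵥ u) / 2 := by
    intro u hu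
    have h1 := Sq_le h hu
    rw [← Sq_eq, ← Dq_eq, hS, Matrix.add_mulVec, dotProduct_add] at h1
    linarith
  have hXt : X.trace = 0 := by
    have h1 : X = Jm * X * Jm := by
      rw [hXJ, Matrix.neg_mul, Matrix.mul_assoc, Fa.Jm_sq]
      simp
    have h2 : X.trace = -X.trace := by
      conv_lhs => rw [h1]
      rw [Matrix.trace_mul_comm, ← Matrix.mul_assoc, Fa.Jm_sq]
      simp
    linarith
  set S' : M6 := D - (1 / 2 : ℝ) • (P + T) + X with hS'
  have hS'p : S'.PosSemidef := nt_psd D (P + T) X hDs hQs hXs hN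
  have hS'm : ∀ u : V6, u ⬝ᵥ u = 1 → 2 * (u ⬝ᵥ S' *ᵥ u) ≤ S'.trace := fun u hu =>
    nt_top Jm D (P + T) X F Fa.Jm_t Fa.Jm_sq hDs hQs hDJ hQJ hXJ hDt hN hG u hu
  have hS't : S'.trace = 4 * F - 1 / 2 * (P.trace + T.trace) := by
    rw [hS', Matrix.trace_add, Matrix.trace_sub, Matrix.trace_smul, hDt, hXt, Matrix.trace_add,
      smul_eq_mul]
    ring
  have hS's : S'ᵀ = S' := by
    have := hS'p.isHermitian
    rwa [Matrix.IsHermitian, Matrix.conjTranspose_eq_transpose_of_trivial] at this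
  have hSS : Sm χ = S' + (1 / 2 : ℝ) • (P + T) := by
    rw [hS, hS']
    abel
  -- the pair bound
  have hB1 : -(2 / 3 * √2 * S'.trace) ≤ mdot S' (rhom R) := by
    have h1 := hyp_bound S' (rhom R) hS'p hS'm (2 / 3 * √2) (by
      intro u v hu hv huv
      have h2 := rq_pair hR hs hu hv huv
      rw [rq_eq, rq_eq]
      linarith)
    rwa [Fa.mdot_trace, hS's]
  have hB2 : mdot (P + T) (rhom R) = mdot P (REm R) + mdot T (REm R) + mdot (P + T) (RCm R) := by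
    rw [mdot_rhom hR hQs hQJ, Fa.mdot_add_left P T (REm R)]
  have hB3 := fin_rc hR hs hQp hQJ
  have hB4 := fin_HB hR hs hL hHs (s := 6236 / 10000) (k := 118 / 100) (by norm_num) (by norm_num)
    (by norm_num) (by norm_num)
  have hp : 0 ≤ P.trace := hPp.trace_nonneg
  have hq : 0 ≤ T.trace := hTp.trace_nonneg
  have hDQ : P.trace + T.trace ≤ 4 * F := by
    have h1 : ∀ u : V6, 0 ≤ u ⬝ᵥ (D - (P + T)) *ᵥ u := by
      intro u
      have h2 := hN u 0
      simp only [Matrix.mulVec_zero, dotProduct_zero, mul_zero, add_zero] at h2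
      rw [Matrix.sub_mulVec, dotProduct_sub]
      exact h2
    have h3 := Fa.mdot_nonneg (A := (1 : M6)) Matrix.PosSemidef.one h1
    rw [Fa.mdot_comm, Fa.mdot_one, Matrix.trace_sub, Matrix.trace_add, hDt] at h3
    linarith
  have hpr := prsv_eq h hR
  rw [hSS, Fa.mdot_add_left, Fa.mdot_smul_left, hB2] at hpr
  have hY' := yblock hR hs hL hLt hYs
  rw [hS't] at hB1
  rw [Matrix.trace_add] at hB3
  rw [hLt] at hB4
  have hs2 : √2 ≤ 141422 / 100000 := by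
    rw [Real.sqrt_le_left (by norm_num)]
    norm_num
  have hs2' : 0 ≤ (141422 / 100000 - √2) * (4 * F - 1 / 2 * (P.trace + T.trace)) := by
    apply mul_nonneg
    · linarith
    · linarith
  rw [hpr]
  nlinarith

theorem Lm_Ps : Lm Ps = 1 := by
  ext a b
  rw [sv_FF_FF topAt_Ps]
  fin_cases a <;> fin_cases b <;>
    simp [Ps, JV, bs, i6, Fin.sum_univ_six]

theorem Lm_add_eps (χ : Fin 8 → Fin 8 → Fin 8 → ℝ) (ε : ℝ) :
    Lm (fun i j k => χ i j k + ε * Ps i j k) = Lm χ + ε • (1 : M6) := by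
  rw [← Lm_Ps]
  ext a b
  simp only [Lm, Matrix.of_apply, Matrix.add_apply, Matrix.smul_apply, smul_eq_mul, sv_add_eps]

theorem Lm_nonneg {χ : Fin 8 → Fin 8 → Fin 8 → ℝ} (h : TopAt χ Ps) (w : V6) :
    0 ≤ w ⬝ᵥ Lm χ *ᵥ w := by
  rw [Fa.Lm_eq]
  exact h.second _ (Fa.FF_skew w)

/-- The core inequality at a top frame. -/
theorem core_top {R : Fin 8 → Fin 8 → Fin 8 → Fin 8 → ℝ} (hR : IsCurvature R)
    (hs : SecIn R 0 1) {χ : Fin 8 → Fin 8 → Fin 8 → ℝ} (h : TopAt χ Ps) :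
    -(443 / 100) * ip3 χ Ps ≤ prsv R χ Ps := by
  refine core_of_eps (η := Ps) fun ε hε => ?_
  have h' : TopAt (fun i j k => χ i j k + ε * Ps i j k) Ps := topAt_add h topAt_Ps hε.le
  have hL : (Lm (fun i j k => χ i j k + ε * Ps i j k)).PosDef := by
    refine Matrix.PosDef.of_dotProduct_mulVec_pos ?_ ?_
    · rw [Matrix.IsHermitian, Matrix.conjTranspose_eq_transpose_of_trivial]
      exact Lm_symm h'
    · intro w hw
      rw [star_trivial, Lm_add_eps, Matrix.add_mulVec, dotProduct_add, Matrix.smul_mulVec,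
        Matrix.one_mulVec, dotProduct_smul, smul_eq_mul]
      have h1 := Lm_nonneg h w
      have h2 : 0 < w ⬝ᵥ w := by
        refine lt_of_le_of_ne (Finset.sum_nonneg fun i _ => mul_self_nonneg (w i)) ?_
        intro h3
        exact hw (dotProduct_self_eq_zero.1 h3.symm)
      have h3 := mul_pos hε h2
      linarith
  exact core_posDef hR hs h' hL

/-- The curvature term of the Weitzenböck formula on 3-forms of `ℝ⁸`. -/
theorem bochner_ge83 {R : Fin 8 → Fin 8 → Fin 8 → Fin 8 → ℝ} (hR : IsCurvature R) {lo hi : ℝ}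
    (hlh : lo < hi) (hs : SecIn R lo hi) {φ : Fin 8 → Fin 8 → Fin 8 → ℝ} (hφ : Form3 φ) :
    2 * (15 * lo - 443 / 100 * (hi - lo)) * ip3 φ φ ≤ bochner R φ :=
  bochner_ge_of_core (443 / 100) (fun _ h1 h2 _ h3 => core_top h1 h2 h3) hR hlh hs hφ

end Pool.Hopf3
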