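import Pool.Agent.Lib.MP_4a593f_gt.E83.NFb
import Pool.Agent.Lib.MP_4a593f_gt.E83.Cov
import Pool.Agent.Lib.MP_4a593f_gt.E83.Curv4

/-!
Algebra for the final assembly: the pairing of matrices, the second variation as a quadratic
form in three vectors, curvature of the planes spanned by a vector of the `e, f` plane and a
vector of `ℝ⁶`.
-/

namespace Pool.Hopf3.Fa

open Finset Matrix
open scoped MatrixOrder

theorem Jm_t : Jmᵀ = -Jm := by
  ext a b
  fin_cases a <;> fin_cases b <;> simp [Jm, JV, bs]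

theorem Jm_sq : Jm * Jm = -1 := by
  ext a b
  fin_cases a <;> fin_cases b <;> simp [Jm, JV, bs, Matrix.mul_apply]

theorem Jm_mulVec (u : V6) : Jm *ᵥ u = JV u := by
  ext a
  fin_cases a <;> simp [Jm, JV, bs, Matrix.mulVec, dotProduct]

theorem bs_sum (u : V6) : u = ∑ a, u a • bs a := by
  ext a
  simp [bs]

/-! ### The pairing of matrices -/

theorem mdot_add_left (A B C : M6) : mdot (A + B) C = mdot A C + mdot B C := by
  simp only [mdot, Matrix.add_apply, add_mul, Finset.sum_add_distrib]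

theorem mdot_sub_left (A B C : M6) : mdot (A - B) C = mdot A C - mdot B C := by
  simp only [mdot, Matrix.sub_apply, sub_mul, Finset.sum_sub_distrib]

theorem mdot_smul_left (c : ℝ) (A B : M6) : mdot (c • A) B = c * mdot A B := by
  simp only [mdot, Matrix.smul_apply, smul_eq_mul, Finset.mul_sum, mul_assoc]

theorem mdot_comm (A B : M6) : mdot A B = mdot B A := by
  simp only [mdot, mul_comm]

theorem mdot_add_right (A B C : M6) : mdot A (B + C) = mdot A B + mdot A C := by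
  rw [mdot_comm, mdot_add_left, mdot_comm B, mdot_comm C]

theorem mdot_smul_right (c : ℝ) (A B : M6) : mdot A (c • B) = c * mdot A B := by
  rw [mdot_comm, mdot_smul_left, mdot_comm B]

theorem mdot_trace (A B : M6) : mdot A B = (Aᵀ * B).trace := by
  simp only [mdot, Matrix.trace, Matrix.diag_apply, Matrix.mul_apply, Matrix.transpose_apply]
  exact Finset.sum_comm

theorem mdot_one (A : M6) : mdot A 1 = A.trace := by
  rw [mdot_comm, mdot_trace, Matrix.transpose_one, Matrix.one_mul]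

/-- conjugation by `J` -/
theorem mdot_conj {Q : M6} (hJ : Jm * Q = Q * Jm) (B : M6) :
    mdot Q (Jmᵀ * B * Jm) = mdot Q B := by
  have h1 : Qᵀ * (-Jm) = -Jm * Qᵀ := by
    have := congrArg Matrix.transpose hJ
    rw [Matrix.transpose_mul, Matrix.transpose_mul, Jm_t] at this
    exact this
  have h2 : Qᵀ * Jm = Jm * Qᵀ := by
    rw [Matrix.mul_neg, Matrix.neg_mul] at h1
    exact neg_injective h1
  rw [mdot_trace, mdot_trace, Jm_t]
  rw [show Qᵀ * (-Jm * B * Jm) = -(Jm * (Qᵀ * B * Jm)) by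
    rw [Matrix.neg_mul, Matrix.neg_mul, Matrix.mul_neg, ← Matrix.mul_assoc, ← Matrix.mul_assoc, h2]
    simp only [Matrix.mul_assoc]]
  rw [Matrix.trace_neg, Matrix.trace_mul_comm, Matrix.mul_assoc, Jm_sq]
  simp

/-- the pairing of positive semidefinite matrices is nonnegative -/
theorem mdot_nonneg {A B : M6} (hA : A.PosSemidef) (hB : ∀ u : V6, 0 ≤ u ⬝ᵥ B *ᵥ u) :
    0 ≤ mdot A B := by
  obtain ⟨C, hC⟩ := CStarAlgebra.nonneg_iff_eq_star_mul_self.mp hA.nonneg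
  rw [Matrix.star_eq_conjTranspose, Matrix.conjTranspose_eq_transpose_of_trivial] at hC
  have key : mdot A B = ∑ k, (C k) ⬝ᵥ B *ᵥ (C k) := by
    rw [hC]
    simp only [mdot, dotProduct, Matrix.mulVec, Matrix.mul_apply, Matrix.transpose_apply,
      Finset.sum_mul, Finset.mul_sum]
    have h1 : ∀ a, ∑ b, ∑ k, C k a * C k b * B a b = ∑ k, ∑ b, C k a * C k b * B a b :=
      fun a => Finset.sum_comm
    simp only [h1]
    rw [Finset.sum_comm]
    refine Finset.sum_congr rfl fun k _ => Finset.sum_congr rfl fun a _ =>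
      Finset.sum_congr rfl fun b _ => ?_
    ring
  rw [key]
  exact Finset.sum_nonneg fun k _ => hB _

/-- a lower bound on unit vectors for a quadratic form -/
theorem quad_ge_of_unit {A : M6} {c : ℝ} (h : ∀ u : V6, u ⬝ᵥ u = 1 → c ≤ u ⬝ᵥ A *ᵥ u) (u : V6) :
    c * (u ⬝ᵥ u) ≤ u ⬝ᵥ A *ᵥ u := by
  by_cases h0 : u ⬝ᵥ u = 0
  · have hu : u = 0 := dotProduct_self_eq_zero.1 h0
    subst hu
    simp
  · have hpos : 0 < u ⬝ᵥ u :=
      lt_of_le_of_ne (Finset.sum_nonneg fun i _ => mul_self_nonneg (u i)) (Ne.symm h0)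
    set r : ℝ := Real.sqrt (u ⬝ᵥ u) with hr
    have hr2 : r * r = u ⬝ᵥ u := Real.mul_self_sqrt hpos.le
    have hr0 : r ≠ 0 := (Real.sqrt_pos.2 hpos).ne'
    have h1 := h (r⁻¹ • u) (by
      rw [smul_dotProduct, dotProduct_smul, smul_eq_mul, smul_eq_mul, ← hr2]
      field_simp)
    rw [Matrix.mulVec_smul, smul_dotProduct, dotProduct_smul, smul_eq_mul, smul_eq_mul] at h1
    rw [← hr2]
    have h2 := mul_le_mul_of_nonneg_left h1 (mul_self_nonneg r)
    calc c * (r * r) = r * r * c := by ring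
      _ ≤ r * r * (r⁻¹ * (r⁻¹ * (u ⬝ᵥ A *ᵥ u))) := h2
      _ = u ⬝ᵥ A *ᵥ u := by field_simp

/-! ### Expansion in the basis -/

theorem up_add (u v : V6) : up (u + v) = up u + up v := by
  ext i
  fin_cases i <;> simp [up]

theorem up_smul (c : ℝ) (u : V6) : up (c • u) = c • up u := by
  ext i
  fin_cases i <;> simp [up]

theorem EE_add (u v : V6) : EE (u + v) = EE u + EE v := by
  funext i j
  simp only [EE, wed, up_add, Pi.add_apply]
  ring

theorem EE_smul (c : ℝ) (u : V6) : EE (c • u) = c • EE u := by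
  funext i j
  simp only [EE, wed, up_smul, Pi.smul_apply, smul_eq_mul]
  ring

theorem FF_add (u v : V6) : FF (u + v) = FF u + FF v := by
  funext i j
  simp only [FF, wed, up_add, Pi.add_apply]
  ring

theorem FF_smul (c : ℝ) (u : V6) : FF (c • u) = c • FF u := by
  funext i j
  simp only [FF, wed, up_smul, Pi.smul_apply, smul_eq_mul]
  ring

theorem wed_skew (u v : Fin 8 → ℝ) : Skew (wed u v) := by
  intro i j
  simp only [wed]
  ring

theorem EE_skew (u : V6) : Skew (EE u) := wed_skew _ _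

theorem FF_skew (u : V6) : Skew (FF u) := wed_skew _ _

theorem CC_skew (u : V6) : Skew (CC u) := by
  intro i j
  simp only [CC, wed, Pi.add_apply, Pi.sub_apply, Pi.smul_apply, smul_eq_mul]
  ring

/-- a map that is linear in both arguments is given by its matrix -/
theorem bil_eq {T : (Fin 8 → Fin 8 → ℝ) → (Fin 8 → Fin 8 → ℝ) → ℝ}
    {A B : V6 → Fin 8 → Fin 8 → ℝ}
    (hT1 : ∀ L L' M, T (L + L') M = T L M + T L' M) (hT2 : ∀ L M M', T L (M + M') = T L M + T L M')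
    (hT3 : ∀ (c : ℝ) L M, T (c • L) M = c * T L M) (hT4 : ∀ (c : ℝ) L M, T L (c • M) = c * T L M)
    (hA : ∀ u v, A (u + v) = A u + A v) (hA' : ∀ (c : ℝ) u, A (c • u) = c • A u)
    (hB : ∀ u v, B (u + v) = B u + B v) (hB' : ∀ (c : ℝ) u, B (c • u) = c • B u) (u v : V6) :
    T (A u) (B v) = u ⬝ᵥ (Matrix.of fun a b => T (A (bs a)) (B (bs b))) *ᵥ v := by
  have hu : A u = u 0 • A (bs 0) + u 1 • A (bs 1) + u 2 • A (bs 2) + u 3 • A (bs 3)
      + u 4 • A (bs 4) + u 5 • A (bs 5) := by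
    conv_lhs => rw [bs_sum u, Fin.sum_univ_six]
    simp only [hA, hA']
  have hv : B v = v 0 • B (bs 0) + v 1 • B (bs 1) + v 2 • B (bs 2) + v 3 • B (bs 3)
      + v 4 • B (bs 4) + v 5 • B (bs 5) := by
    conv_lhs => rw [bs_sum v, Fin.sum_univ_six]
    simp only [hB, hB']
  rw [hu, hv]
  simp only [hT1, hT2, hT3, hT4, dotProduct, Matrix.mulVec, Matrix.of_apply, Fin.sum_univ_six]
  ring

theorem sv_bil (χ Ω : Fin 8 → Fin 8 → Fin 8 → ℝ) {A B : V6 → Fin 8 → Fin 8 → ℝ}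
    (hA : ∀ u v, A (u + v) = A u + A v) (hA' : ∀ (c : ℝ) u, A (c • u) = c • A u)
    (hB : ∀ u v, B (u + v) = B u + B v) (hB' : ∀ (c : ℝ) u, B (c • u) = c • B u) (u v : V6) :
    sv χ Ω (A u) (B v) = u ⬝ᵥ (Matrix.of fun a b => sv χ Ω (A (bs a)) (B (bs b))) *ᵥ v :=
  bil_eq (T := sv χ Ω) (sv_add_left χ Ω) (sv_add_right χ Ω) (sv_smul_left χ Ω)
    (sv_smul_right χ Ω) hA hA' hB hB' u v

theorem rb_add_left (R : Fin 8 → Fin 8 → Fin 8 → Fin 8 → ℝ) (A A' B : Fin 8 → Fin 8 → ℝ) :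
    rb R (A + A') B = rb R A B + rb R A' B := by
  simp only [rb, Pi.add_apply, mul_add, add_mul, Finset.sum_add_distrib]

theorem rb_add_right (R : Fin 8 → Fin 8 → Fin 8 → Fin 8 → ℝ) (A B B' : Fin 8 → Fin 8 → ℝ) :
    rb R A (B + B') = rb R A B + rb R A B' := by
  simp only [rb, Pi.add_apply, mul_add, Finset.sum_add_distrib]

theorem rb_smul_left (R : Fin 8 → Fin 8 → Fin 8 → Fin 8 → ℝ) (c : ℝ) (A B : Fin 8 → Fin 8 → ℝ) :
    rb R (c • A) B = c * rb R A B := by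
  simp only [rb, Pi.smul_apply, smul_eq_mul, Finset.mul_sum]
  refine Finset.sum_congr rfl fun i _ => Finset.sum_congr rfl fun j _ =>
    Finset.sum_congr rfl fun k _ => Finset.sum_congr rfl fun l _ => ?_
  ring

theorem rb_smul_right (R : Fin 8 → Fin 8 → Fin 8 → Fin 8 → ℝ) (c : ℝ) (A B : Fin 8 → Fin 8 → ℝ) :
    rb R A (c • B) = c * rb R A B := by
  simp only [rb, Pi.smul_apply, smul_eq_mul, Finset.mul_sum]
  refine Finset.sum_congr rfl fun i _ => Finset.sum_congr rfl fun j _ =>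
    Finset.sum_congr rfl fun k _ => Finset.sum_congr rfl fun l _ => ?_
  ring

theorem rb_bil (R : Fin 8 → Fin 8 → Fin 8 → Fin 8 → ℝ) {A B : V6 → Fin 8 → Fin 8 → ℝ}
    (hA : ∀ u v, A (u + v) = A u + A v) (hA' : ∀ (c : ℝ) u, A (c • u) = c • A u)
    (hB : ∀ u v, B (u + v) = B u + B v) (hB' : ∀ (c : ℝ) u, B (c • u) = c • B u) (u v : V6) :
    rb R (A u) (B v) = u ⬝ᵥ (Matrix.of fun a b => rb R (A (bs a)) (B (bs b))) *ᵥ v :=
  bil_eq (T := rb R) (rb_add_left R) (rb_add_right R) (rb_smul_left R)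
    (rb_smul_right R) hA hA' hB hB' u v

theorem RCm_eq (R : Fin 8 → Fin 8 → Fin 8 → Fin 8 → ℝ) (u : V6) :
    u ⬝ᵥ RCm R *ᵥ u = rb R (CC u) (CC u) :=
  (rb_bil R CC_add CC_smul CC_add CC_smul u u).symm

theorem Lm_eq (χ : Fin 8 → Fin 8 → Fin 8 → ℝ) (u : V6) :
    u ⬝ᵥ Lm χ *ᵥ u = sv χ Ps (FF u) (FF u) :=
  (sv_bil χ Ps FF_add FF_smul FF_add FF_smul u u).symm

/-- The second variation in the direction `e ∧ v + f ∧ w + CC b / 2`. -/
theorem second_LH {χ : Fin 8 → Fin 8 → Fin 8 → ℝ} (h : TopAt χ Ps) :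
    ∃ c₁ c₂ : ℝ, ∀ v w b : V6, 0 ≤ v ⬝ᵥ Dm χ *ᵥ v + w ⬝ᵥ Lm χ *ᵥ w + b ⬝ᵥ Dm χ *ᵥ b
      + 2 * (v ⬝ᵥ (Hm χ + Ym χ) *ᵥ w) + 2 * (v ⬝ᵥ Xm χ *ᵥ b)
      + 2 * (c₁ * (v ⬝ᵥ b) + c₂ * (v ⬝ᵥ Jm *ᵥ b)) := by
  obtain ⟨c1, c2, hc⟩ := sv_EE_CC h
  refine ⟨c1 / 2, c2 / 2, fun v w b => ?_⟩
  have hZ : Hm χ + Ym χ = Zm χ := by
    unfold Hm Ym
    rw [← smul_add]
    ext a b
    simp only [Matrix.smul_apply, Matrix.add_apply, Matrix.sub_apply, smul_eq_mul]
    ring
  have e1 : sv χ Ps (EE v) (EE v) = v ⬝ᵥ Dm χ *ᵥ v :=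
    sv_bil χ Ps EE_add EE_smul EE_add EE_smul v v
  have e2 : sv χ Ps (FF w) (FF w) = w ⬝ᵥ Lm χ *ᵥ w :=
    sv_bil χ Ps FF_add FF_smul FF_add FF_smul w w
  have e3 : sv χ Ps (EE v) (FF w) = v ⬝ᵥ Zm χ *ᵥ w :=
    sv_bil χ Ps EE_add EE_smul FF_add FF_smul v w
  have e4 : sv χ Ps (CC b) (CC b) = 4 * (b ⬝ᵥ Dm χ *ᵥ b) := by
    rw [sv_bil χ Ps CC_add CC_smul CC_add CC_smul b b]
    have : (Matrix.of fun a b => sv χ Ps (CC (bs a)) (CC (bs b))) = (4 : ℝ) • Dm χ := by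
      ext a b
      rw [Matrix.of_apply, sv_CC_CC h, Matrix.smul_apply, smul_eq_mul]
    rw [this, Matrix.smul_mulVec, dotProduct_smul, smul_eq_mul]
  have e5 : sv χ Ps (EE v) (CC b) = 2 * (v ⬝ᵥ Xm χ *ᵥ b) + c1 * (v ⬝ᵥ b)
      + c2 * (v ⬝ᵥ Jm *ᵥ b) := by
    rw [sv_bil χ Ps EE_add EE_smul CC_add CC_smul v b]
    have : (Matrix.of fun a b => sv χ Ps (EE (bs a)) (CC (bs b)))
        = (2 : ℝ) • Xm χ + c1 • (1 : M6) + c2 • Jm := by
      ext a b
      rw [Matrix.of_apply, hc, Matrix.add_apply, Matrix.add_apply, Matrix.smul_apply,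
        Matrix.smul_apply, Matrix.smul_apply, smul_eq_mul, smul_eq_mul, smul_eq_mul]
    rw [this, Matrix.add_mulVec, Matrix.add_mulVec, Matrix.smul_mulVec, Matrix.smul_mulVec,
      Matrix.smul_mulVec, Matrix.one_mulVec, dotProduct_add, dotProduct_add, dotProduct_smul,
      dotProduct_smul, dotProduct_smul, smul_eq_mul, smul_eq_mul, smul_eq_mul]
  have e6 : sv χ Ps (FF w) (CC b) = 0 := sv_FF_CC h w b
  have e7 : sv χ Ps (FF w) (EE v) = sv χ Ps (EE v) (FF w) :=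
    sv_symm h.first (FF_skew w) (EE_skew v)
  have e8 : sv χ Ps (CC b) (EE v) = sv χ Ps (EE v) (CC b) :=
    sv_symm h.first (CC_skew b) (EE_skew v)
  have e9 : sv χ Ps (CC b) (FF w) = sv χ Ps (FF w) (CC b) :=
    sv_symm h.first (CC_skew b) (FF_skew w)
  have h0 := h.second (EE v + FF w + (1 / 2 : ℝ) • CC b)
    (((EE_skew v).add (FF_skew w)).add ((CC_skew b).smul _))
  simp only [sv_add_left, sv_add_right, sv_smul_left, sv_smul_right, e7, e8, e9, e6, e1, e2, e3,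
    e4, e5] at h0
  rw [hZ]
  linarith

/-! ### Curvature of the planes `(p e + q f) ∧ v` -/

theorem ev4_ef (R : Fin 8 → Fin 8 → Fin 8 → Fin 8 → ℝ) (hR : IsCurvature R) (p q : ℝ) (v : V6) :
    ev4 R (p • d8 0 + q • d8 1) (up v) (p • d8 0 + q • d8 1) (up v)
      = p ^ 2 * (∑ a, ∑ b, REm R a b * v a * v b) + 2 * (p * q) * (∑ a, ∑ b, REFm R a b * v a * v b)
        + q ^ 2 * (∑ a, ∑ b, RFm R a b * v a * v b) := by
  have hE : ∀ (s t : Fin 8), ev4 R (d8 s) (up v) (d8 t) (up v)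
      = ∑ a : Fin 6, ∑ b : Fin 6, R s (i6 a) t (i6 b) * v a * v b := by
    intro s t
    have h1 : ∀ i j k l : Fin 8, R i j k l * d8 s i * up v j * d8 t k * up v l
        = if i = s then (if k = t then R i j k l * up v j * up v l else 0) else 0 := by
      intro i j k l
      unfold d8
      by_cases hi : i = s <;> by_cases hk : k = t <;> simp [hi, hk]
    unfold ev4
    simp only [h1]
    have h2 : ∀ i j k : Fin 8, ∑ l : Fin 8, (if i = s then (if k = t then R i j k l * up v j * up v l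
        else 0) else 0) = if k = t then (if i = s then ∑ l, R i j k l * up v j * up v l else 0)
        else 0 := by
      intro i j k
      by_cases hi : i = s <;> by_cases hk : k = t <;> simp [hi, hk]
    simp only [h2, Finset.sum_ite_eq', Finset.mem_univ, if_true]
    have h3 : ∀ i : Fin 8, ∑ j : Fin 8, (if i = s then ∑ l, R i j t l * up v j * up v l else 0)
        = if i = s then ∑ j, ∑ l, R i j t l * up v j * up v l else 0 := by
      intro i
      by_cases hi : i = s <;> simp [hi]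
    simp only [h3, Finset.sum_ite_eq', Finset.mem_univ, if_true]
    simp only [Fin.sum_univ_eight, Fin.sum_univ_six, up, i6, Matrix.cons_val_zero,
      Matrix.cons_val_one, Matrix.cons_val, mul_zero, zero_mul, zero_add]
  have hsym : ev4 R (d8 1) (up v) (d8 0) (up v) = ev4 R (d8 0) (up v) (d8 1) (up v) :=
    c4_pair hR _ _ _ _
  simp only [c4_add1, c4_add3, c4_smul1, c4_smul3, hsym]
  rw [hE 0 0, hE 0 1, hE 1 1]
  simp only [REm, RFm, REFm, Matrix.of_apply]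
  ring

theorem dotp_ef (p q : ℝ) (v : V6) :
    dotp (p • d8 0 + q • d8 1) (p • d8 0 + q • d8 1) = p ^ 2 + q ^ 2 ∧
      dotp (p • d8 0 + q • d8 1) (up v) = 0 ∧ dotp (up v) (up v) = v ⬝ᵥ v := by
  refine ⟨?_, ?_, ?_⟩
  · simp [dotp, d8, Fin.sum_univ_eight]
    ring
  · simp [dotp, d8, up, Fin.sum_univ_eight]
  · simp [dotp, up, dotProduct, Fin.sum_univ_eight, Fin.sum_univ_six]

end Pool.Hopf3.Fa
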