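import Pool.Agent.Lib.MP_4a593f_gt.E83.NFb

/-!
The second order condition at a top form in matrix form, and the bound of `Y`.
-/

namespace Pool.Hopf3

open Finset Matrix

theorem up_sum (v : V6) : up v = ∑ a, v a • up (bs a) := by
  funext i
  rw [Fin.sum_univ_six]
  fin_cases i <;> simp [up, bs]

theorem wed_smul (c : ℝ) (u v : Fin 8 → ℝ) : wed u (c • v) = c • wed u v := by
  funext i j
  simp only [wed, Pi.smul_apply, smul_eq_mul]
  ring

theorem wed_add (u v w : Fin 8 → ℝ) : wed u (v + w) = wed u v + wed u w := by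
  funext i j
  simp only [wed, Pi.add_apply]
  ring

theorem EE_sum (v : V6) : EE v = ∑ a, v a • EE (bs a) := by
  unfold EE
  rw [up_sum v]
  simp only [Fin.sum_univ_six, wed_add, wed_smul]

theorem FF_sum (v : V6) : FF v = ∑ a, v a • FF (bs a) := by
  unfold FF
  rw [up_sum v]
  simp only [Fin.sum_univ_six, wed_add, wed_smul]

theorem CC_sum (v : V6) : CC v = ∑ a, v a • CC (bs a) := by
  simp only [Fin.sum_univ_six, CC, bs]
  simp
  funext i j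
  simp only [Pi.add_apply, Pi.sub_apply, Pi.smul_apply, smul_eq_mul, Pi.neg_apply]
  ring

theorem wed_skew (u v : Fin 8 → ℝ) : Skew (wed u v) := by
  intro i j
  simp only [wed]
  ring

theorem Skew.addT {L M : Fin 8 → Fin 8 → ℝ} (hL : Skew L) (hM : Skew M) : Skew (L + M) := by
  intro i j
  have h1 := hL i j
  have h2 := hM i j
  simp only [Pi.add_apply]
  linarith

theorem Skew.smulT {L : Fin 8 → Fin 8 → ℝ} (c : ℝ) (hL : Skew L) : Skew (c • L) := by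
  intro i j
  have h1 := hL i j
  simp only [Pi.smul_apply, smul_eq_mul]
  rw [h1]
  ring

theorem EE_skew (v : V6) : Skew (EE v) := wed_skew _ _

theorem FF_skew (v : V6) : Skew (FF v) := wed_skew _ _

theorem EF_skew : Skew EF := wed_skew _ _

theorem CC_skew (v : V6) : Skew (CC v) := by
  intro i j
  simp only [CC, wed, Pi.add_apply, Pi.sub_apply, Pi.smul_apply, smul_eq_mul]
  ring

theorem sv_sum_left (χ : Fin 8 → Fin 8 → Fin 8 → ℝ) (v : V6) (f : Fin 6 → Fin 8 → Fin 8 → ℝ)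
    (M : Fin 8 → Fin 8 → ℝ) :
    sv χ Ps (∑ a, v a • f a) M = ∑ a, v a * sv χ Ps (f a) M := by
  simp only [Fin.sum_univ_six, sv_add_left, sv_smul_left]

theorem sv_sum_right (χ : Fin 8 → Fin 8 → Fin 8 → ℝ) (v : V6) (f : Fin 6 → Fin 8 → Fin 8 → ℝ)
    (L : Fin 8 → Fin 8 → ℝ) :
    sv χ Ps L (∑ a, v a • f a) = ∑ a, v a * sv χ Ps L (f a) := by
  simp only [Fin.sum_univ_six, sv_add_right, sv_smul_right]

/-- a bilinear form given by its matrix -/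
theorem dot_mulVec_eq (M : M6) (v w : V6) : v ⬝ᵥ M *ᵥ w = ∑ a, v a * ∑ b, w b * M a b := by
  simp only [dotProduct, mulVec]
  refine Finset.sum_congr rfl fun a _ => ?_
  congr 1
  exact Finset.sum_congr rfl fun b _ => mul_comm _ _

theorem sv_EE (χ : Fin 8 → Fin 8 → Fin 8 → ℝ) (v w : V6) :
    sv χ Ps (EE v) (EE w) = v ⬝ᵥ Dm χ *ᵥ w := by
  rw [EE_sum v, sv_sum_left, dot_mulVec_eq]
  refine Finset.sum_congr rfl fun a _ => ?_
  rw [EE_sum w, sv_sum_right]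
  rfl

theorem sv_FF (χ : Fin 8 → Fin 8 → Fin 8 → ℝ) (v w : V6) :
    sv χ Ps (FF v) (FF w) = v ⬝ᵥ Lm χ *ᵥ w := by
  rw [FF_sum v, sv_sum_left, dot_mulVec_eq]
  refine Finset.sum_congr rfl fun a _ => ?_
  rw [FF_sum w, sv_sum_right]
  rfl

theorem sv_EE_FF (χ : Fin 8 → Fin 8 → Fin 8 → ℝ) (v w : V6) :
    sv χ Ps (EE v) (FF w) = v ⬝ᵥ Zm χ *ᵥ w := by
  rw [EE_sum v, sv_sum_left, dot_mulVec_eq]
  refine Finset.sum_congr rfl fun a _ => ?_
  rw [FF_sum w, sv_sum_right]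
  rfl

theorem Zm_eq (χ : Fin 8 → Fin 8 → Fin 8 → ℝ) : Zm χ = Hm χ + Ym χ := by
  ext a b
  simp only [Hm, Ym, Matrix.add_apply, Matrix.smul_apply, Matrix.sub_apply, smul_eq_mul]
  ring

theorem sv_CC {χ : Fin 8 → Fin 8 → Fin 8 → ℝ} (h : TopAt χ Ps) (v w : V6) :
    sv χ Ps (CC v) (CC w) = 4 * (v ⬝ᵥ Dm χ *ᵥ w) := by
  rw [CC_sum v, sv_sum_left, dot_mulVec_eq, Finset.mul_sum]
  refine Finset.sum_congr rfl fun a _ => ?_
  rw [CC_sum w, sv_sum_right]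
  simp only [sv_CC_CC h]
  have : ∀ b, w b * (4 * Dm χ a b) = 4 * (w b * Dm χ a b) := fun b => by ring
  simp only [this, ← Finset.mul_sum]
  ring

theorem sv_EE_CCq {χ : Fin 8 → Fin 8 → Fin 8 → ℝ} (h : TopAt χ Ps) :
    ∃ c1 c2 : ℝ, ∀ v w : V6, sv χ Ps (EE v) (CC w)
      = 2 * (v ⬝ᵥ Xm χ *ᵥ w) + c1 * (v ⬝ᵥ w) + c2 * (v ⬝ᵥ Jm *ᵥ w) := by
  obtain ⟨c1, c2, hc⟩ := sv_EE_CC h
  refine ⟨c1, c2, fun v w => ?_⟩
  have e1 : v ⬝ᵥ w = v ⬝ᵥ (1 : M6) *ᵥ w := by rw [Matrix.one_mulVec]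
  rw [e1, EE_sum v, sv_sum_left, dot_mulVec_eq, dot_mulVec_eq, dot_mulVec_eq, Finset.mul_sum,
    Finset.mul_sum, Finset.mul_sum, ← Finset.sum_add_distrib, ← Finset.sum_add_distrib]
  refine Finset.sum_congr rfl fun a _ => ?_
  rw [CC_sum w, sv_sum_right]
  simp only [hc]
  have : ∀ b, w b * (2 * Xm χ a b + c1 * (1 : M6) a b + c2 * Jm a b)
      = 2 * (w b * Xm χ a b) + c1 * (w b * (1 : M6) a b) + c2 * (w b * Jm a b) := fun b => by ring
  simp only [this, Finset.sum_add_distrib, ← Finset.mul_sum]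
  ring

/-- the second order condition in matrix form -/
theorem lh_of_top {χ : Fin 8 → Fin 8 → Fin 8 → ℝ} (h : TopAt χ Ps) :
    ∃ c₁ c₂ : ℝ, ∀ v w b : V6, 0 ≤ v ⬝ᵥ Dm χ *ᵥ v + w ⬝ᵥ Lm χ *ᵥ w + b ⬝ᵥ Dm χ *ᵥ b
      + 2 * (v ⬝ᵥ (Hm χ + Ym χ) *ᵥ w) + 2 * (v ⬝ᵥ Xm χ *ᵥ b)
      + 2 * (c₁ * (v ⬝ᵥ b) + c₂ * (v ⬝ᵥ Jm *ᵥ b)) := by
  obtain ⟨c1, c2, hc⟩ := sv_EE_CCq h
  refine ⟨1 / 2 * c1, 1 / 2 * c2, fun v w b => ?_⟩
  have h2 := h.second (EE v + FF w + (1 / 2 : ℝ) • CC b)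
    (((EE_skew v).addT (FF_skew w)).addT ((CC_skew b).smulT _))
  have e1 : sv χ Ps (FF w) (EE v) = sv χ Ps (EE v) (FF w) := sv_symm h.first (FF_skew w) (EE_skew v)
  have e2 : sv χ Ps (CC b) (EE v) = sv χ Ps (EE v) (CC b) := sv_symm h.first (CC_skew b) (EE_skew v)
  have e3 : sv χ Ps (CC b) (FF w) = sv χ Ps (FF w) (CC b) := sv_symm h.first (CC_skew b) (FF_skew w)
  simp only [sv_add_left, sv_add_right, sv_smul_left, sv_smul_right, e1, e2, e3, sv_FF_CC h,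
    sv_CC h, hc, sv_EE, sv_FF, sv_EE_FF, Zm_eq] at h2
  linarith

theorem Ym_skew (χ : Fin 8 → Fin 8 → Fin 8 → ℝ) : (Ym χ)ᵀ = - Ym χ := by
  ext a b
  simp only [Ym, Matrix.transpose_apply, Matrix.smul_apply, Matrix.sub_apply, Matrix.neg_apply,
    smul_eq_mul]
  ring

/-- norm of a skew matrix anticommuting with `J` -/
theorem skew_norm {Y : M6} (hs : Yᵀ = - Y) (hJ : Jm * Y = - (Y * Jm)) :
    4 * (Yᵀ * Y).trace = ∑ a, (∑ b, ∑ c, CC (bs a) (i6 b) (i6 c) * Y b c) ^ 2 := by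
  have hs' : ∀ a b, Y b a = - Y a b := fun a b => by
    have := congrFun (congrFun hs a) b
    simpa [Matrix.transpose_apply] using this
  have hj : ∀ a b, (Jm * Y) a b = - (Y * Jm) a b := fun a b => by
    have := congrFun (congrFun hJ a) b
    simpa using this
  have d0 := hs' 0 0
  have d1 := hs' 1 1
  have d2 := hs' 2 2
  have d3 := hs' 3 3
  have d4 := hs' 4 4
  have d5 := hs' 5 5
  have k00 := hj 0 0
  have k22 := hj 2 2
  have k44 := hj 4 4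
  have k02 := hj 0 2
  have k03 := hj 0 3
  have k04 := hj 0 4
  have k05 := hj 0 5
  have k24 := hj 2 4
  have k25 := hj 2 5
  simp [Matrix.mul_apply, Fin.sum_univ_six, Jm, JV, bs] at k00 k22 k44 k02 k03 k04 k05 k24 k25
  have s10 := hs' 0 1
  have s20 := hs' 0 2
  have s30 := hs' 0 3
  have s40 := hs' 0 4
  have s50 := hs' 0 5
  have s21 := hs' 1 2
  have s31 := hs' 1 3
  have s41 := hs' 1 4
  have s51 := hs' 1 5
  have s32 := hs' 2 3
  have s42 := hs' 2 4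
  have s52 := hs' 2 5
  have s43 := hs' 3 4
  have s53 := hs' 3 5
  have s54 := hs' 4 5
  have e00 : Y 0 0 = 0 := by linarith
  have e11 : Y 1 1 = 0 := by linarith
  have e22 : Y 2 2 = 0 := by linarith
  have e33 : Y 3 3 = 0 := by linarith
  have e44 : Y 4 4 = 0 := by linarith
  have e55 : Y 5 5 = 0 := by linarith
  have e01 : Y 0 1 = 0 := by linarith
  have e10 : Y 1 0 = 0 := by linarith
  have e23 : Y 2 3 = 0 := by linarith
  have e32 : Y 3 2 = 0 := by linarith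
  have e45 : Y 4 5 = 0 := by linarith
  have e54 : Y 5 4 = 0 := by linarith
  have e13 : Y 1 3 = - Y 0 2 := by linarith
  have e15 : Y 1 5 = - Y 0 4 := by linarith
  have e35 : Y 3 5 = - Y 2 4 := by linarith
  have e31 : Y 3 1 = Y 0 2 := by linarith
  have e51 : Y 5 1 = Y 0 4 := by linarith
  have e53 : Y 5 3 = Y 2 4 := by linarith
  have e21 : Y 2 1 = - Y 0 3 := by linarith
  have e41 : Y 4 1 = - Y 0 5 := by linarith
  have e43 : Y 4 3 = - Y 2 5 := by linarith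
  simp only [Matrix.trace, Matrix.diag, Matrix.mul_apply, Matrix.transpose_apply,
    Fin.sum_univ_six]
  simp [CC, wed, d8, bs, i6]
  simp only [e00, e11, e22, e33, e44, e55, e01, e10, e23, e32, e45, e54, e13, e15, e35, e31, e51,
    e53, e21, e41, e43, k02, k04, k24, s20, s30, s40, s50, s42, s52]
  ring

/-- the bound of `Y` -/
theorem trY_le {χ : Fin 8 → Fin 8 → Fin 8 → ℝ} (h : TopAt χ Ps) (h0 : 0 < ip3 χ Ps) :
    ((Ym χ)ᵀ * Ym χ).trace ≤ ip3 χ Ps ^ 2 := by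
  set F := ip3 χ Ps with hF
  set s : V6 := fun a => ∑ b, ∑ c, CC (bs a) (i6 b) (i6 c) * Ym χ b c with hs
  have h1 : 4 * ((Ym χ)ᵀ * Ym χ).trace = ∑ a, s a ^ 2 := skew_norm (Ym_skew χ) (Ym_J h)
  have h2 : sv χ Ps EF (CC s) = - ∑ a, s a ^ 2 := by
    rw [CC_sum s, sv_sum_right, ← Finset.sum_neg_distrib]
    refine Finset.sum_congr rfl fun a _ => ?_
    rw [sv_EF_CC h]
    have : (∑ b, ∑ c, CC (bs a) (i6 b) (i6 c) * Ym χ b c) = s a := rfl
    rw [this]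
    ring
  have h3 : sv χ Ps (CC s) EF = - ∑ a, s a ^ 2 := by
    rw [← h2]
    exact sv_symm h.first (CC_skew s) EF_skew
  have h4 : 0 ≤ s ⬝ᵥ Lm χ *ᵥ s := by
    rw [← sv_FF]
    exact h.second _ (FF_skew s)
  have h5 : s ⬝ᵥ Dm χ *ᵥ s = F * ∑ a, s a ^ 2 - s ⬝ᵥ Lm χ *ᵥ s := by
    rw [Dm_eq h, Matrix.sub_mulVec, dotProduct_sub, Matrix.smul_mulVec, Matrix.one_mulVec,
      dotProduct_smul, smul_eq_mul, ← hF]
    congr 2
    simp only [dotProduct]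
    exact Finset.sum_congr rfl fun a _ => by ring
  have h6 := h.second (EF + (1 / (4 * F)) • CC s) (EF_skew.addT ((CC_skew s).smulT _))
  simp only [sv_add_left, sv_add_right, sv_smul_left, sv_smul_right, sv_CC h, h2, h3, h5,
    sv_EF_EF h, ← hF] at h6
  have h7 : 1 / (4 * F) * (1 / (4 * F) * (4 * (F * ∑ a, s a ^ 2 - s ⬝ᵥ Lm χ *ᵥ s)))
      ≤ 1 / (4 * F) * (∑ a, s a ^ 2) := by
    have e : 1 / (4 * F) * (∑ a, s a ^ 2) - 1 / (4 * F) * (1 / (4 * F) * (4 * (F * ∑ a, s a ^ 2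
        - s ⬝ᵥ Lm χ *ᵥ s))) = 1 / (4 * F ^ 2) * (s ⬝ᵥ Lm χ *ᵥ s) := by
      field_simp
      ring
    have : 0 ≤ 1 / (4 * F ^ 2) * (s ⬝ᵥ Lm χ *ᵥ s) := by positivity
    linarith
  have h8 : (1 / (4 * F)) * (∑ a, s a ^ 2) ≤ F := by linarith
  have h9 : ∑ a, s a ^ 2 ≤ 4 * F ^ 2 := by
    rw [one_div, inv_mul_le_iff₀ (by positivity)] at h8
    linarith
  linarith

end Pool.Hopf3
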