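import Pool.Agent.Lib.MP_4a593f_gt.E83.Core

/-!
Entries of the second variation at a top form: general formula and first order conditions.
-/

namespace Pool.Hopf3

open Finset Matrix

/-- explicit form of the second variation -/
theorem sv_eq {χ : Fin 8 → Fin 8 → Fin 8 → ℝ} (h : Form3 χ) {L M : Fin 8 → Fin 8 → ℝ}
    (hL : Skew L) (hM : Skew M) :
    sv χ Ps L M = - (rho M (rho L χ) 0 2 3 + rho M (rho L χ) 0 4 5 + rho M (rho L χ) 0 6 7) := by
  unfold sv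
  rw [← ip3_Ps (rho_form M (rho_form L h))]
  have h1 := ip3_rho hL χ (rho M Ps)
  have h2 := ip3_rho hM (rho L χ) Ps
  linarith

/-- The nineteen first order conditions. -/
structure First (χ : Fin 8 → Fin 8 → Fin 8 → ℝ) : Prop where
  ef : χ 1 2 3 + χ 1 4 5 + χ 1 6 7 = 0
  ev : ∀ a : Fin 6, χ (i6 a) 2 3 + χ (i6 a) 4 5 + χ (i6 a) 6 7 = 0
  fv : ∀ a : Fin 6, χ 0 1 (i6 a) = 0
  c0 : χ 0 4 6 = χ 0 5 7
  c1 : χ 0 4 7 = - χ 0 5 6
  c2 : χ 0 6 2 = χ 0 7 3
  c3 : χ 0 6 3 = - χ 0 7 2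
  c4 : χ 0 2 4 = χ 0 3 5
  c5 : χ 0 2 5 = - χ 0 3 4

private theorem nf0_rho_wed (p q : Fin 8) (η : Fin 8 → Fin 8 → Fin 8 → ℝ) (i j k : Fin 8) :
    rho (wed (d8 p) (d8 q)) η i j k
      = (if i = p then η q j k else 0) - (if i = q then η p j k else 0)
        + ((if j = p then η i q k else 0) - (if j = q then η i p k else 0))
        + ((if k = p then η i j q else 0) - (if k = q then η i j p else 0)) := by
  unfold rho wed d8
  rw [Finset.sum_add_distrib, Finset.sum_add_distrib]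
  have key : ∀ (x : Fin 8) (g : Fin 8 → ℝ),
      ∑ t, ((if x = p then (1 : ℝ) else 0) * (if t = q then 1 else 0)
        - (if t = p then 1 else 0) * (if x = q then 1 else 0)) * g t
      = (if x = p then g q else 0) - (if x = q then g p else 0) := by
    intro x g
    simp only [sub_mul, Finset.sum_sub_distrib, ite_mul, mul_ite, mul_one, mul_zero, one_mul,
      zero_mul]
    by_cases h1 : x = p <;> by_cases h2 : x = q <;> simp [h1, h2]
  rw [key i (fun t => η t j k), key j (fun t => η i t k), key k (fun t => η i j t)]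

private theorem nf0_wed_skew (u v : Fin 8 → ℝ) : Skew (wed u v) := by
  intro i j
  unfold wed
  ring

/-- one first order condition -/
private theorem nf0_first {χ : Fin 8 → Fin 8 → Fin 8 → ℝ} (h : TopAt χ Ps) (p q : Fin 8) :
    rho (wed (d8 p) (d8 q)) χ 0 2 3 + rho (wed (d8 p) (d8 q)) χ 0 4 5
      + rho (wed (d8 p) (d8 q)) χ 0 6 7 = 0 := by
  have h1 := h.first _ (nf0_wed_skew (d8 p) (d8 q))
  have h2 := ip3_rho (nf0_wed_skew (d8 p) (d8 q)) χ Ps
  rw [← ip3_Ps (rho_form _ h.form)]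
  linarith

theorem first_of_top {χ : Fin 8 → Fin 8 → Fin 8 → ℝ} (h : TopAt χ Ps) : First χ := by
  have hf := h.form
  have f01 := nf0_first h 0 1
  have f02 := nf0_first h 0 2
  have f03 := nf0_first h 0 3
  have f04 := nf0_first h 0 4
  have f05 := nf0_first h 0 5
  have f06 := nf0_first h 0 6
  have f07 := nf0_first h 0 7
  have f12 := nf0_first h 1 2
  have f13 := nf0_first h 1 3
  have f14 := nf0_first h 1 4
  have f15 := nf0_first h 1 5
  have f16 := nf0_first h 1 6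
  have f17 := nf0_first h 1 7
  have f24 := nf0_first h 2 4
  have f25 := nf0_first h 2 5
  have f26 := nf0_first h 2 6
  have f27 := nf0_first h 2 7
  have f46 := nf0_first h 4 6
  have f47 := nf0_first h 4 7
  simp only [nf0_rho_wed, Fin.isValue, Fin.reduceEq, if_true, if_false, sub_zero, zero_sub,
    add_zero, zero_add] at f01 f02 f03 f04 f05 f06 f07 f12 f13 f14 f15 f16 f17 f24 f25 f26 f27 f46 f47
  refine ⟨?_, ?_, ?_, ?_, ?_, ?_, ?_, ?_, ?_⟩
  · linarith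
  · intro a
    fin_cases a
    · show χ 2 2 3 + χ 2 4 5 + χ 2 6 7 = 0
      linarith [hf.s12 0 0 3]
    · show χ 3 2 3 + χ 3 4 5 + χ 3 6 7 = 0
      linarith [hf.s23 0 2 0, hf.s12 0 0 2]
    · show χ 4 2 3 + χ 4 4 5 + χ 4 6 7 = 0
      linarith [hf.s12 0 0 5]
    · show χ 5 2 3 + χ 5 4 5 + χ 5 6 7 = 0
      linarith [hf.s23 0 4 0, hf.s12 0 0 4]
    · show χ 6 2 3 + χ 6 4 5 + χ 6 6 7 = 0
      linarith [hf.s12 0 0 7]
    · show χ 7 2 3 + χ 7 4 5 + χ 7 6 7 = 0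
      linarith [hf.s23 0 6 0, hf.s12 0 0 6]
  · intro a
    fin_cases a
    · show χ 0 1 2 = 0
      linarith [hf.s23 0 1 2, hf.s23 0 1 3]
    · show χ 0 1 3 = 0
      linarith [hf.s23 0 1 2, hf.s23 0 1 3]
    · show χ 0 1 4 = 0
      linarith [hf.s23 0 1 4, hf.s23 0 1 5]
    · show χ 0 1 5 = 0
      linarith [hf.s23 0 1 4, hf.s23 0 1 5]
    · show χ 0 1 6 = 0
      linarith [hf.s23 0 1 6, hf.s23 0 1 7]
    · show χ 0 1 7 = 0
      linarith [hf.s23 0 1 6, hf.s23 0 1 7]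
  · linarith [hf.s23 0 4 6, hf.s23 0 5 7, hf.s23 0 4 7, hf.s23 0 5 6]
  · linarith [hf.s23 0 4 6, hf.s23 0 5 7, hf.s23 0 4 7, hf.s23 0 5 6]
  · linarith [hf.s23 0 2 6, hf.s23 0 3 7, hf.s23 0 2 7, hf.s23 0 3 6, hf.s23 0 6 2]
  · linarith [hf.s23 0 2 6, hf.s23 0 3 7, hf.s23 0 2 7, hf.s23 0 3 6, hf.s23 0 6 3]
  · linarith [hf.s23 0 2 4, hf.s23 0 3 5, hf.s23 0 2 5, hf.s23 0 3 4]
  · linarith [hf.s23 0 2 4, hf.s23 0 3 5, hf.s23 0 2 5, hf.s23 0 3 4]

end Pool.Hopf3
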