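import Pool.Agent.Lib.MP_4a593f_gt.E83.NFa0

/-!
Entries of the second variation at a top form: the blocks of `e ∧ f` and of `f ∧ v`.
-/

namespace Pool.Hopf3

open Finset Matrix

private theorem nfl_rho_wed (p q : Fin 8) (η : Fin 8 → Fin 8 → Fin 8 → ℝ) (i j k : Fin 8) :
    rho (wed (d8 p) (d8 q)) η i j k
      = (if i = p then η q j k else 0) - (if i = q then η p j k else 0)
        + ((if j = p then η i q k else 0) - (if j = q then η i p k else 0))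
        + ((if k = p then η i j q else 0) - (if k = q then η i j p else 0)) := by
  unfold rho wed d8
  rw [Finset.sum_add_distrib, Finset.sum_add_distrib]
  have key : ∀ (x : Fin 8) (g : Fin 8 → ℝ),
      ∑ t, ((if x = p then (1 : ℝ) else 0) * (if t = q then 1 else 0)
        - (if t = p then 1 else 0) * (if x = q then 1 else 0)) * g t
      = (if x = p then g q else 0) - (if x = q then g p else 0) := by
    intro x g
    simp only [sub_mul, Finset.sum_sub_distrib, ite_mul, mul_ite, mul_one, mul_zero, one_mul,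
      zero_mul]
    by_cases h1 : x = p <;> by_cases h2 : x = q <;> simp [h1, h2]
  rw [key i (fun t => η t j k), key j (fun t => η i t k), key k (fun t => η i j t)]

private theorem nfl_wed_skew (u v : Fin 8 → ℝ) : Skew (wed u v) := by
  intro i j
  unfold wed
  ring

private noncomputable def tl (χ : Fin 8 → Fin 8 → Fin 8 → ℝ) (i j k l : Fin 8) : ℝ :=
  sv χ Ps (wed (d8 i) (d8 j)) (wed (d8 k) (d8 l))

private theorem tl_eq {χ : Fin 8 → Fin 8 → Fin 8 → ℝ} (h : Form3 χ) (i j k l : Fin 8) :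
    tl χ i j k l = - (rho (wed (d8 k) (d8 l)) (rho (wed (d8 i) (d8 j)) χ) 0 2 3
      + rho (wed (d8 k) (d8 l)) (rho (wed (d8 i) (d8 j)) χ) 0 4 5
      + rho (wed (d8 k) (d8 l)) (rho (wed (d8 i) (d8 j)) χ) 0 6 7) :=
  sv_eq h (nfl_wed_skew _ _) (nfl_wed_skew _ _)

private theorem sl12 {χ : Fin 8 → Fin 8 → Fin 8 → ℝ} (h : Form3 χ) (i j k : Fin 8)
    (_ : j < i) : χ i j k = - χ j i k := h.s12 j i k

private theorem sl23 {χ : Fin 8 → Fin 8 → Fin 8 → ℝ} (h : Form3 χ) (i j k : Fin 8)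
    (_ : k < j) : χ i j k = - χ i k j := h.s23 i k j

private theorem dl12 {χ : Fin 8 → Fin 8 → Fin 8 → ℝ} (h : Form3 χ) (i k : Fin 8) :
    χ i i k = 0 := by
  have := h.s12 i i k
  linarith

private theorem dl23 {χ : Fin 8 → Fin 8 → Fin 8 → ℝ} (h : Form3 χ) (i k : Fin 8) :
    χ k i i = 0 := by
  have := h.s23 k i i
  linarith

/-- first order conditions, sorted, as rewriting rules -/
private structure Srl (χ : Fin 8 → Fin 8 → Fin 8 → ℝ) : Prop where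
  f2 : χ 0 1 2 = 0
  f3 : χ 0 1 3 = 0
  f4 : χ 0 1 4 = 0
  f5 : χ 0 1 5 = 0
  f6 : χ 0 1 6 = 0
  f7 : χ 0 1 7 = 0
  v2 : χ 2 6 7 = - χ 2 4 5
  v3 : χ 3 6 7 = - χ 3 4 5
  v4 : χ 4 6 7 = - χ 2 3 4
  v5 : χ 5 6 7 = - χ 2 3 5
  v6 : χ 4 5 6 = - χ 2 3 6
  v7 : χ 4 5 7 = - χ 2 3 7
  ef : χ 1 6 7 = - χ 1 2 3 - χ 1 4 5
  c0 : χ 0 5 7 = χ 0 4 6
  c1 : χ 0 5 6 = - χ 0 4 7
  c2 : χ 0 3 7 = χ 0 2 6
  c3 : χ 0 3 6 = - χ 0 2 7
  c4 : χ 0 3 5 = χ 0 2 4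
  c5 : χ 0 3 4 = - χ 0 2 5

private theorem srl_of_top {χ : Fin 8 → Fin 8 → Fin 8 → ℝ} (h : TopAt χ Ps) : Srl χ := by
  have hF := first_of_top h
  have hf := h.form
  have v0 := hF.ev 0
  have v1 := hF.ev 1
  have v2 := hF.ev 2
  have v3 := hF.ev 3
  have v4 := hF.ev 4
  have v5 := hF.ev 5
  have ef := hF.ef
  have c0 := hF.c0
  have c1 := hF.c1
  have c2 := hF.c2
  have c3 := hF.c3
  have c4 := hF.c4
  have c5 := hF.c5
  have f0 := hF.fv 0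
  have f1 := hF.fv 1
  have f2 := hF.fv 2
  have f3 := hF.fv 3
  have f4 := hF.fv 4
  have f5 := hF.fv 5
  have e0 : i6 0 = 2 := rfl
  have e1 : i6 1 = 3 := rfl
  have e2 : i6 2 = 4 := rfl
  have e3 : i6 3 = 5 := rfl
  have e4 : i6 4 = 6 := rfl
  have e5 : i6 5 = 7 := rfl
  simp only [e0, e1, e2, e3, e4, e5] at v0 v1 v2 v3 v4 v5 f0 f1 f2 f3 f4 f5
  simp (disch := decide) only [sl12 hf, sl23 hf, dl12 hf, dl23 hf, neg_neg] at v0 v1 v2 v3 v4 v5 c0 c1 c2 c3 c4 c5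
  refine ⟨f0, f1, f2, f3, f4, f5, ?_, ?_, ?_, ?_, ?_, ?_, ?_, ?_, ?_, ?_, ?_, ?_, ?_⟩ <;> linarith

private theorem ul_bs (a : Fin 6) : up (bs a) = d8 (i6 a) := by
  fin_cases a <;> (funext i; fin_cases i <;> simp [up, bs, d8, i6])

private theorem FL_bs (a : Fin 6) : FF (bs a) = wed (d8 1) (d8 (i6 a)) := by
  rw [FF, ul_bs]

private theorem EL_bs (a : Fin 6) : EE (bs a) = wed (d8 0) (d8 (i6 a)) := by
  rw [EE, ul_bs]

/-- table of `Lm` -/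
def lt (χ : Fin 8 → Fin 8 → Fin 8 → ℝ) : M6 :=
  !![χ 0 2 3, 0, χ 0 2 5, -χ 0 2 4, χ 0 2 7, -χ 0 2 6;
     0, χ 0 2 3, χ 0 2 4, χ 0 2 5, χ 0 2 6, χ 0 2 7;
     χ 0 2 5, χ 0 2 4, χ 0 4 5, 0, χ 0 4 7, -χ 0 4 6;
     -χ 0 2 4, χ 0 2 5, 0, χ 0 4 5, χ 0 4 6, χ 0 4 7;
     χ 0 2 7, χ 0 2 6, χ 0 4 7, χ 0 4 6, χ 0 6 7, 0;
     -χ 0 2 6, χ 0 2 7, -χ 0 4 6, χ 0 4 7, 0, χ 0 6 7]

theorem Lm_tab {χ : Fin 8 → Fin 8 → Fin 8 → ℝ} (h : TopAt χ Ps) (a b : Fin 6) :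
    Lm χ a b = lt χ a b := by
  have hs := srl_of_top h
  have hf := h.form
  have e : Lm χ a b = tl χ 1 (i6 a) 1 (i6 b) := by
    show sv χ Ps (FF (bs a)) (FF (bs b)) = _
    rw [FL_bs, FL_bs]
    rfl
  rw [e]
  unfold lt
  fin_cases a <;> fin_cases b <;> (simp (disch := decide) only [tl_eq hf, nfl_rho_wed, i6, Fin.isValue,
        Fin.reduceEq, Fin.zero_eta, Fin.mk_one, Fin.reduceFinMk, if_true, if_false, Matrix.cons_val,
        Matrix.cons_val_zero, Matrix.cons_val_one, Matrix.of_apply,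
        sl12 hf, sl23 hf, dl12 hf, dl23 hf, neg_neg, neg_zero, sub_zero, zero_sub, add_zero,
        zero_add, hs.f2, hs.f3, hs.f4, hs.f5, hs.f6, hs.f7, hs.v2, hs.v3,
        hs.v4, hs.v5, hs.v6, hs.v7, hs.ef, hs.c0, hs.c1, hs.c2, hs.c3,
        hs.c4, hs.c5])

theorem sv_EF_EF {χ : Fin 8 → Fin 8 → Fin 8 → ℝ} (h : TopAt χ Ps) :
    sv χ Ps EF EF = ip3 χ Ps := by
  have hs := srl_of_top h
  have hf := h.form
  have e : sv χ Ps EF EF = tl χ 0 1 0 1 := rfl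
  rw [e, ip3_Ps hf]
  simp (disch := decide) only [tl_eq hf, nfl_rho_wed, i6, Fin.isValue,
      Fin.reduceEq, Fin.zero_eta, Fin.mk_one, Fin.reduceFinMk, if_true, if_false, Matrix.cons_val,
      Matrix.cons_val_zero, Matrix.cons_val_one, Matrix.of_apply,
      sl12 hf, sl23 hf, dl12 hf, dl23 hf, neg_neg, neg_zero, sub_zero, zero_sub, add_zero,
      zero_add, hs.f2, hs.f3, hs.f4, hs.f5, hs.f6, hs.f7, hs.v2, hs.v3,
      hs.v4, hs.v5, hs.v6, hs.v7, hs.ef, hs.c0, hs.c1, hs.c2, hs.c3,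
      hs.c4, hs.c5]
  ring

private theorem svl_bs_EE {χ : Fin 8 → Fin 8 → Fin 8 → ℝ} (h : TopAt χ Ps) (a : Fin 6) :
    sv χ Ps EF (wed (d8 0) (d8 (i6 a))) = 0 := by
  have hs := srl_of_top h
  have hf := h.form
  have e : sv χ Ps EF (wed (d8 0) (d8 (i6 a))) = tl χ 0 1 0 (i6 a) := rfl
  rw [e]
  fin_cases a <;> (simp (disch := decide) only [tl_eq hf, nfl_rho_wed, i6, Fin.isValue,
        Fin.reduceEq, Fin.zero_eta, Fin.mk_one, Fin.reduceFinMk, if_true, if_false, Matrix.cons_val,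
        Matrix.cons_val_zero, Matrix.cons_val_one, Matrix.of_apply,
        sl12 hf, sl23 hf, dl12 hf, dl23 hf, neg_neg, neg_zero, sub_zero, zero_sub, add_zero,
        zero_add, hs.f2, hs.f3, hs.f4, hs.f5, hs.f6, hs.f7, hs.v2, hs.v3,
        hs.v4, hs.v5, hs.v6, hs.v7, hs.ef, hs.c0, hs.c1, hs.c2, hs.c3,
        hs.c4, hs.c5])

private theorem svl_bs_FF {χ : Fin 8 → Fin 8 → Fin 8 → ℝ} (h : TopAt χ Ps) (a : Fin 6) :
    sv χ Ps EF (wed (d8 1) (d8 (i6 a))) = 0 := by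
  have hs := srl_of_top h
  have hf := h.form
  have e : sv χ Ps EF (wed (d8 1) (d8 (i6 a))) = tl χ 0 1 1 (i6 a) := rfl
  rw [e]
  fin_cases a <;> (simp (disch := decide) only [tl_eq hf, nfl_rho_wed, i6, Fin.isValue,
        Fin.reduceEq, Fin.zero_eta, Fin.mk_one, Fin.reduceFinMk, if_true, if_false, Matrix.cons_val,
        Matrix.cons_val_zero, Matrix.cons_val_one, Matrix.of_apply,
        sl12 hf, sl23 hf, dl12 hf, dl23 hf, neg_neg, neg_zero, sub_zero, zero_sub, add_zero,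
        zero_add, hs.f2, hs.f3, hs.f4, hs.f5, hs.f6, hs.f7, hs.v2, hs.v3,
        hs.v4, hs.v5, hs.v6, hs.v7, hs.ef, hs.c0, hs.c1, hs.c2, hs.c3,
        hs.c4, hs.c5])

private theorem EL_sum (u : V6) : EE u = u 0 • wed (d8 0) (d8 (i6 0)) + (u 1 • wed (d8 0) (d8 (i6 1))
    + (u 2 • wed (d8 0) (d8 (i6 2)) + (u 3 • wed (d8 0) (d8 (i6 3))
    + (u 4 • wed (d8 0) (d8 (i6 4)) + u 5 • wed (d8 0) (d8 (i6 5)))))) := by
  funext i j
  simp only [EE, wed, Pi.add_apply, Pi.smul_apply, smul_eq_mul]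
  have h : ∀ k : Fin 8, up u k = u 0 * d8 (i6 0) k + (u 1 * d8 (i6 1) k + (u 2 * d8 (i6 2) k
      + (u 3 * d8 (i6 3) k + (u 4 * d8 (i6 4) k + u 5 * d8 (i6 5) k)))) := by
    intro k
    fin_cases k <;> simp [up, d8, i6]
  rw [h i, h j]
  ring

private theorem FL_sum (u : V6) : FF u = u 0 • wed (d8 1) (d8 (i6 0)) + (u 1 • wed (d8 1) (d8 (i6 1))
    + (u 2 • wed (d8 1) (d8 (i6 2)) + (u 3 • wed (d8 1) (d8 (i6 3))
    + (u 4 • wed (d8 1) (d8 (i6 4)) + u 5 • wed (d8 1) (d8 (i6 5)))))) := by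
  funext i j
  simp only [FF, wed, Pi.add_apply, Pi.smul_apply, smul_eq_mul]
  have h : ∀ k : Fin 8, up u k = u 0 * d8 (i6 0) k + (u 1 * d8 (i6 1) k + (u 2 * d8 (i6 2) k
      + (u 3 * d8 (i6 3) k + (u 4 * d8 (i6 4) k + u 5 * d8 (i6 5) k)))) := by
    intro k
    fin_cases k <;> simp [up, d8, i6]
  rw [h i, h j]
  ring

theorem sv_EF_EE {χ : Fin 8 → Fin 8 → Fin 8 → ℝ} (h : TopAt χ Ps) (u : V6) :
    sv χ Ps EF (EE u) = 0 := by
  rw [EL_sum]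
  simp only [sv_add_right, sv_smul_right, svl_bs_EE h, mul_zero, add_zero]

theorem sv_EF_FF {χ : Fin 8 → Fin 8 → Fin 8 → ℝ} (h : TopAt χ Ps) (u : V6) :
    sv χ Ps EF (FF u) = 0 := by
  rw [FL_sum]
  simp only [sv_add_right, sv_smul_right, svl_bs_FF h, mul_zero, add_zero]

/-- `L(u,v) = χ(e,u,Jv)` -/
theorem sv_FF_FF {χ : Fin 8 → Fin 8 → Fin 8 → ℝ} (h : TopAt χ Ps) (a b : Fin 6) :
    Lm χ a b = ∑ c, χ 0 (i6 a) (i6 c) * JV (bs b) c := by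
  have hs := srl_of_top h
  have hf := h.form
  rw [Lm_tab h, Fin.sum_univ_six]
  unfold lt
  fin_cases a <;> fin_cases b <;>
    simp (disch := decide) [JV, bs, i6, dl23 hf, sl23 hf, hs.c0, hs.c1, hs.c2, hs.c3, hs.c4, hs.c5]

theorem Lm_symm {χ : Fin 8 → Fin 8 → Fin 8 → ℝ} (h : TopAt χ Ps) : (Lm χ)ᵀ = Lm χ := by
  ext a b
  rw [Matrix.transpose_apply, Lm_tab h, Lm_tab h]
  unfold lt
  fin_cases a <;> fin_cases b <;> simp

theorem Lm_J {χ : Fin 8 → Fin 8 → Fin 8 → ℝ} (h : TopAt χ Ps) : Jm * Lm χ = Lm χ * Jm := by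
  ext a b
  rw [Matrix.mul_apply, Matrix.mul_apply]
  simp only [Fin.sum_univ_six, Lm_tab h]
  unfold lt Jm
  fin_cases a <;> fin_cases b <;> simp [JV, bs]

theorem Lm_trace {χ : Fin 8 → Fin 8 → Fin 8 → ℝ} (h : TopAt χ Ps) :
    (Lm χ).trace = 2 * ip3 χ Ps := by
  unfold Matrix.trace
  simp only [Fin.sum_univ_six, Matrix.diag_apply, Lm_tab h, ip3_Ps h.form]
  unfold lt
  simp only [Matrix.of_apply, Matrix.cons_val, Matrix.cons_val_zero, Matrix.cons_val_one]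
  ring

end Pool.Hopf3
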