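import Mathlib

/-!
Simultaneous diagonalisation of a positive definite and a symmetric real matrix.
-/

namespace Pool.Hopf3

open Finset Matrix
open scoped MatrixOrder

variable {ι : Type} [Fintype ι] [DecidableEq ι]

/-- `L = ∑ η_k η_kᵀ`, `H = ∑ θ_k η_k η_kᵀ`, and `H L⁻¹ H = ∑ θ_k² η_k η_kᵀ` -/
theorem exists_simdiag {L H : Matrix ι ι ℝ} (hL : L.PosDef) (hH : H.IsHermitian) :
    ∃ (η : ι → ι → ℝ) (θ : ι → ℝ),
      (∀ i j, L i j = ∑ k, η k i * η k j) ∧
      (∀ i j, H i j = ∑ k, θ k * (η k i * η k j)) ∧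
      (∀ i j, (H * L⁻¹ * H) i j = ∑ k, θ k ^ 2 * (η k i * η k j)) := by
  obtain ⟨B, hB⟩ := CStarAlgebra.nonneg_iff_eq_star_mul_self.mp hL.posSemidef.nonneg
  have hBt : star B = Bᵀ := by
    rw [Matrix.star_eq_conjTranspose]
    exact Matrix.conjTranspose_eq_transpose_of_trivial B
  rw [hBt] at hB
  have hLu : IsUnit L := hL.isUnit
  have hLd : IsUnit L.det := (Matrix.isUnit_iff_isUnit_det L).1 hLu
  have hBd : IsUnit B.det := by
    rw [hB, Matrix.det_mul, Matrix.det_transpose] at hLd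
    exact isUnit_of_mul_isUnit_left hLd
  have hBu : IsUnit Bᵀ.det := by rw [Matrix.det_transpose]; exact hBd
  set C : Matrix ι ι ℝ := (B⁻¹)ᵀ * H * B⁻¹ with hC
  have hHt : Hᵀ = H := by
    have := hH
    rwa [Matrix.IsHermitian, Matrix.conjTranspose_eq_transpose_of_trivial] at this
  have hCs : C.IsHermitian := by
    rw [Matrix.IsHermitian, Matrix.conjTranspose_eq_transpose_of_trivial, hC,
      Matrix.transpose_mul, Matrix.transpose_mul, Matrix.transpose_transpose, hHt,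
      Matrix.mul_assoc]
  have hspec := hCs.spectral_theorem
  set U : Matrix ι ι ℝ := (hCs.eigenvectorUnitary : Matrix ι ι ℝ) with hU
  set θ : ι → ℝ := hCs.eigenvalues with hθ
  have hUU : U * Uᵀ = 1 := by
    have h := Matrix.mem_unitaryGroup_iff.1 hCs.eigenvectorUnitary.2
    rwa [Matrix.star_eq_conjTranspose, Matrix.conjTranspose_eq_transpose_of_trivial] at h
  have hCU : C = U * Matrix.diagonal θ * Uᵀ := by
    rw [hspec]
    simp [Unitary.conjStarAlgAut_apply, Matrix.star_eq_conjTranspose,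
      Matrix.conjTranspose_eq_transpose_of_trivial, hU, hθ]
  have hH2 : H = Bᵀ * C * B := by
    rw [hC, Matrix.transpose_nonsing_inv]
    have e1 : Bᵀ * ((Bᵀ)⁻¹ * H * B⁻¹) * B = (Bᵀ * (Bᵀ)⁻¹) * H * (B⁻¹ * B) := by
      simp only [Matrix.mul_assoc]
    rw [e1, Matrix.mul_nonsing_inv _ hBu, Matrix.nonsing_inv_mul _ hBd, Matrix.one_mul,
      Matrix.mul_one]
  set W : Matrix ι ι ℝ := Bᵀ * U with hW
  have hWt : Wᵀ = Uᵀ * B := by rw [hW, Matrix.transpose_mul, Matrix.transpose_transpose]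
  have hLW : L = W * Wᵀ := by
    rw [hWt, hW, hB]
    have e1 : Bᵀ * U * (Uᵀ * B) = Bᵀ * (U * Uᵀ) * B := by simp only [Matrix.mul_assoc]
    rw [e1, hUU, Matrix.mul_one]
  have hHW : H = W * Matrix.diagonal θ * Wᵀ := by
    rw [hWt, hW]
    conv_lhs => rw [hH2, hCU]
    simp only [Matrix.mul_assoc]
  have hWd : IsUnit W.det := by
    have h := hLd
    rw [hLW, Matrix.det_mul] at h
    exact isUnit_of_mul_isUnit_left h
  have hWtd : IsUnit Wᵀ.det := by rw [Matrix.det_transpose]; exact hWd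
  have hinv : Wᵀ * L⁻¹ * W = 1 := by
    rw [hLW, Matrix.mul_inv_rev]
    have e1 : Wᵀ * ((Wᵀ)⁻¹ * W⁻¹) * W = (Wᵀ * (Wᵀ)⁻¹) * (W⁻¹ * W) := by
      simp only [Matrix.mul_assoc]
    rw [e1, Matrix.mul_nonsing_inv _ hWtd, Matrix.nonsing_inv_mul _ hWd, Matrix.one_mul]
  have hP : H * L⁻¹ * H = W * Matrix.diagonal (fun k => θ k ^ 2) * Wᵀ := by
    conv_lhs => rw [hHW]
    have e1 : W * Matrix.diagonal θ * Wᵀ * L⁻¹ * (W * Matrix.diagonal θ * Wᵀ)
        = W * (Matrix.diagonal θ * (Wᵀ * L⁻¹ * W) * Matrix.diagonal θ) * Wᵀ := by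
      simp only [Matrix.mul_assoc]
    rw [e1, hinv, Matrix.mul_one, Matrix.diagonal_mul_diagonal]
    congr 3
    funext k
    ring
  have hgen : ∀ d : ι → ℝ, ∀ i j, (W * Matrix.diagonal d * Wᵀ) i j
      = ∑ k, d k * (W i k * W j k) := by
    intro d i j
    rw [Matrix.mul_apply]
    refine Finset.sum_congr rfl fun k _ => ?_
    rw [Matrix.mul_diagonal, Matrix.transpose_apply]
    ring
  refine ⟨fun k i => W i k, θ, ?_, ?_, ?_⟩
  · intro i j
    have h := congrFun (congrFun hLW i) j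
    rw [h, Matrix.mul_apply]
    rfl
  · intro i j
    have h := congrFun (congrFun hHW i) j
    rw [h, hgen]
  · intro i j
    have h := congrFun (congrFun hP i) j
    rw [h, hgen]

end Pool.Hopf3
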